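import Pool.Agent.PW.Defs

set_option autoImplicit false

/-! # FEA: diagonal forms of prime degree `l` modulo `l` -/

namespace Pool.Agent.PW

open MvPolynomial Pool.Agent.NT9

variable {n : ℕ}

/-- The diagonal form `∑ a_i x_i ^ l`. -/
noncomputable def diagF (a : Fin (n + 1) → ℤ) (l : ℕ) : MvPolynomial (Fin (n + 1)) ℤ :=
  ∑ i, C (a i) * X i ^ l

/-- The linear form `∑ a_i x_i`. -/
noncomputable def diagS (a : Fin (n + 1) → ℤ) : MvPolynomial (Fin (n + 1)) ℤ :=
  ∑ i, C (a i) * X i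

/-- Proof. Modulo the prime `l` the map `g ↦ g ^ l` is additive and `a_i ^ l ≡ a_i`, so `C l ∣ diagF a l - diagS a ^ l` (in `MvPolynomial _ (ZMod l)`: `MvPolynomial.C_dvd_iff_zmod` or
similar). -/
theorem diag_W {l : ℕ} (hl : l.Prime) (a : Fin (n + 1) → ℤ) :
    ∃ W : MvPolynomial (Fin (n + 1)) ℤ, diagF a l = diagS a ^ l + C (l : ℤ) * W := by
  have : Fact l.Prime := ⟨hl⟩
  have h1 : C (l : ℤ) ∣ diagF a l - diagS a ^ l := by
    rw [C_dvd_iff_zmod, map_sub, map_pow, sub_eq_zero, diagF, diagS, map_sum, map_sum,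
      sum_pow_char]
    refine Finset.sum_congr rfl fun i _ => ?_
    rw [map_mul, map_mul, map_pow, map_C, map_X, mul_pow, ← map_pow, eq_intCast, ZMod.pow_card]
  obtain ⟨W, hW⟩ := h1
  exact ⟨W, by rw [← hW]; ring⟩

theorem diagF_hom (a : Fin (n + 1) → ℤ) (l : ℕ) : (diagF a l).IsHomogeneous l :=
  IsHomogeneous.sum _ _ _ fun i _ => isHomogeneous_C_mul_X_pow _ i l

theorem diagS_hom (a : Fin (n + 1) → ℤ) : (diagS a).IsHomogeneous 1 :=
  IsHomogeneous.sum _ _ _ fun i _ => isHomogeneous_C_mul_X _ i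

/-- Proof: `C l * W` is homogeneous and `l ≠ 0` (coefficients). -/
theorem diag_W_hom {l : ℕ} (hl : l.Prime) {a : Fin (n + 1) → ℤ}
    {W : MvPolynomial (Fin (n + 1)) ℤ} (hW : diagF a l = diagS a ^ l + C (l : ℤ) * W) :
    W.IsHomogeneous l := by
  have h1 : (C (l : ℤ) * W).IsHomogeneous l := by
    have h2 : C (l : ℤ) * W = diagF a l - diagS a ^ l := by
      rw [hW]
      ring
    rw [h2]
    have h3 := (diagS_hom a).pow l
    rw [one_mul] at h3
    exact (diagF_hom a l).sub h3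
  intro α hα
  apply h1
  rw [coeff_C_mul]
  exact mul_ne_zero (by exact_mod_cast hl.ne_zero) hα

private theorem pderiv_diagF (a : Fin (n + 1) → ℤ) (l : ℕ) (i : Fin (n + 1)) :
    pderiv i (diagF a l) = C (l : ℤ) * (C (a i) * X i ^ (l - 1)) := by
  rw [diagF, map_sum, Finset.sum_eq_single i]
  · rw [pderiv_C_mul, Derivation.leibniz_pow, pderiv_X_self, smul_eq_mul, mul_one, nsmul_eq_mul]
    simp
    ring
  · intro b _ hb
    rw [pderiv_C_mul, Derivation.leibniz_pow, pderiv_X_of_ne hb, smul_zero, smul_zero, mul_zero]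
  · intro h
    exact absurd (Finset.mem_univ i) h

private theorem pderiv_diagS (a : Fin (n + 1) → ℤ) (i : Fin (n + 1)) :
    pderiv i (diagS a) = C (a i) := by
  rw [diagS, map_sum, Finset.sum_eq_single i]
  · rw [pderiv_C_mul, pderiv_X_self, mul_one]
  · intro b _ hb
    rw [pderiv_C_mul, pderiv_X_of_ne hb, mul_zero]
  · intro h
    exact absurd (Finset.mem_univ i) h

/-- Proof: differentiate and cancel `l`. -/
theorem diag_W_der {l : ℕ} (hl : l.Prime) {a : Fin (n + 1) → ℤ}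
    {W : MvPolynomial (Fin (n + 1)) ℤ} (hW : diagF a l = diagS a ^ l + C (l : ℤ) * W)
    (i : Fin (n + 1)) :
    pderiv i W = C (a i) * (X i ^ (l - 1) - diagS a ^ (l - 1)) := by
  have h1 := congrArg (pderiv i) hW
  rw [pderiv_diagF, map_add, pderiv_C_mul, Derivation.leibniz_pow, pderiv_diagS, smul_eq_mul,
    nsmul_eq_mul] at h1
  have h2 : (C (l : ℤ) : MvPolynomial (Fin (n + 1)) ℤ) ≠ 0 := by
    rw [Ne, C_eq_zero]
    exact_mod_cast hl.ne_zero
  have h3 : ((l : ℕ) : MvPolynomial (Fin (n + 1)) ℤ) = C (l : ℤ) := by simp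
  rw [h3] at h1
  apply mul_left_cancel₀ h2
  linear_combination -h1

end Pool.Agent.PW
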