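import Pool.Agent.PW.Defs
import Pool.Agent.NT9.GeProjD

set_option autoImplicit false

/-! # HOMB: homogeneous forms at the generic point -/

namespace Pool.Agent.PW

open MvPolynomial Pool.Agent.NT9

variable {n : ℕ} {K : Type} [Field K]

/-- Proof: `aeval (c x) S = c ^ e aeval x S` (Mathlib `MvPolynomial.IsHomogeneous.eval₂` / `aeval`, or compare `NH.ker_deh`), and `NH.aeval_deh` for `x i / x m`. -/
theorem thm_deh {x : Fin (n + 1) → K} (hx : ∀ i, x i ≠ 0) {e : ℕ}
    {S : MvPolynomial (Fin (n + 1)) ℤ} (hS : S.IsHomogeneous e) (m : Fin (n + 1)) :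
    thm x m (NH.deh m S) = aeval x S / x m ^ e := by
  rw [eq_div_iff (pow_ne_zero _ (hx m)), mul_comm]
  exact NH.aeval_deh_div x (hx m) hS

/-- Proof: `S` is a sum of monomials of degree `e` with integral coefficients; each monomial divided by `x 0 ^ e` is a product of `e` of the `x i / x 0`. -/
theorem form_mem {x : Fin (n + 1) → K} (hx : ∀ i, x i ≠ 0) {e : ℕ}
    {S : MvPolynomial (Fin (n + 1)) ℤ} (hS : S.IsHomogeneous e) :
    aeval x S / x 0 ^ e ∈ Mo0 x ^ e := by
  have hgen : ∀ i, x i / x 0 ∈ Mo0 x := fun i => Submodule.subset_span ⟨i, rfl⟩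
  have hprod : ∀ (α : Fin (n + 1) →₀ ℕ) (s : Finset (Fin (n + 1))),
      ∏ i ∈ s, (x i / x 0) ^ α i ∈ Mo0 x ^ (∑ i ∈ s, α i) := by
    intro α s
    classical
    induction s using Finset.induction_on with
    | empty => 
      rw [Finset.prod_empty, Finset.sum_empty, pow_zero]
      exact Submodule.one_le.1 le_rfl
    | insert a s ha ih =>
      rw [Finset.prod_insert ha, Finset.sum_insert ha, pow_add]
      exact Submodule.mul_mem_mul (Submodule.pow_mem_pow _ (hgen a) _) ih
  rw [aeval_def, eval₂_eq, Finset.sum_div]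
  refine Submodule.sum_mem _ fun α hα => ?_
  have h1 : ∑ i ∈ α.support, α i = e := by
    have := hS (mem_support_iff.mp hα)
    simpa [Finsupp.weight_apply, Finsupp.sum] using this
  have h2 : algebraMap ℤ K (coeff α S) * (∏ i ∈ α.support, x i ^ α i) / x 0 ^ e =
      coeff α S • ∏ i ∈ α.support, (x i / x 0) ^ α i := by
    rw [zsmul_eq_mul, mul_div_assoc]
    congr 1
    rw [← h1, ← Finset.prod_pow_eq_pow_sum, ← Finset.prod_div_distrib]
    exact Finset.prod_congr rfl fun i _ => by rw [div_pow]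
  rw [h2, ← h1]
  exact Submodule.smul_mem _ _ (hprod α _)

/-- The kernel of `thm x m` (compare the use of `NH.ker_deh` in `NodHyp/Lat` and in `NT9.GeMainA`). -/
theorem ker_thm {x : Fin (n + 1) → K} (hx : ∀ i, x i ≠ 0) {d : ℕ}
    {F : MvPolynomial (Fin (n + 1)) ℤ} (hF : F.IsHomogeneous d)
    (hker : ∀ h : MvPolynomial (Fin (n + 1)) ℤ, aeval x h = 0 ↔ F ∣ h) (m : Fin (n + 1)) :
    RingHom.ker (thm x m) = Ideal.span {NH.deh m F} :=
  NH.ker_deh x (hx m) hF hker

/-- All coordinates in `O`: then `thm x m h ∈ O`. -/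
theorem thm_mem {x : Fin (n + 1) → K} {m : Fin (n + 1)} {O : Subring K}
    (h : ∀ i, x i / x m ∈ O) (g : MvPolynomial {i : Fin (n + 1) // i ≠ m} ℤ) :
    thm x m g ∈ O := by
  induction g using MvPolynomial.induction_on with
  | C a =>
    have h2 : (C a : MvPolynomial {i : Fin (n + 1) // i ≠ m} ℤ) = ((a : ℤ) :) := by simp
    rw [h2, map_intCast]
    exact intCast_mem O a
  | add p q hp hq => rw [map_add]; exact O.add_mem hp hq
  | mul_X p i hp =>
    rw [map_mul]
    refine O.mul_mem hp ?_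
    have h2 : thm x m (X i) = x i.1 / x m := by
      show aeval (fun i : {i : Fin (n + 1) // i ≠ m} => x i.1 / x m) (X i) = _
      rw [aeval_X]
    rw [h2]
    exact h i.1

end Pool.Agent.PW
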