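import Pool.Agent.PW.MoA
import Pool.Agent.NT9.GeFrA

set_option autoImplicit false

/-! # MOB: the local rings of the first model -/

namespace Pool.Agent.PW

open MvPolynomial Pool.Agent.NT9

variable {n : ℕ} {K : Type} [Field K] {ι : Type} [Fintype ι]

private theorem MOB_ne {x : Fin (n + 1) → K} (hx : ∀ i, x i ≠ 0) {a : ι → ℤ}
    (ha : ∀ t, (a t : K) ≠ 0) {f : ι → ℕ} {v : ι → K} (hv : ∀ t, v t ≠ 0) (t : ι)
    (o : Option (Fin (f t) → Fin (n + 1))) : gB x a f v t o ≠ 0 := by
  cases o with
  | none => exact hv t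
  | some w => exact mul_ne_zero (ha t) (Finset.prod_ne_zero_iff.2 fun l _ =>
      div_ne_zero (hx _) (hx _))

private theorem MOB_prod {x : Fin (n + 1) → K} (hx : ∀ i, x i ≠ 0) (m : Fin (n + 1)) {k : ℕ}
    (w : Fin k → Fin (n + 1)) :
    ∏ l, x (w l) / x m = (∏ l, x (w l) / x 0) / (x m / x 0) ^ k := by
  rw [eq_div_iff (pow_ne_zero _ (div_ne_zero (hx m) (hx 0)))]
  have h1 : (x m / x 0) ^ k = ∏ _l : Fin k, x m / x 0 := by
    rw [Finset.prod_const, Finset.card_univ, Fintype.card_fin]
  rw [h1, ← Finset.prod_mul_distrib]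
  refine Finset.prod_congr rfl fun l _ => ?_
  have h2 := hx m
  have h3 := hx 0
  field_simp

/-- The local rings of the first model: in some chart `x_m`, one of the quotients `v_t / a_t`, `a_t / v_t` (in this chart) is in `O`, and `O` is generated by the coordinates and
these quotients. Proof. `NT9.loc_gen`: a generator `μ = x m / x 0 * ∏ t, gB t (c t) ≠ 0` with `IsFr (ch Mo1 μ) O`; so `y / μ ∈ O` for all `y ∈ Mo1`. Let `g' = gB t (c' t)` with
`c'` equal to `c` except at one index (or with another `m`): `x i / x m ∈ O`, `gB t o / gB t (c t) ∈ O` for all `o`. Write `V = v t / (x m / x 0) ^ f t`.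
If `c t = none`: with `o = some (fun _ => m)`: `a t / V ∈ O`. If `c t = some w`: with `o = none`: `v t / (a t ∏ x (w l) / x 0) ∈ O`, multiply by
`∏ x (w l) / x m ∈ O`: `V / a t ∈ O`. Last claim: let `F` be such a subring. It is enough that all quotients `gB t o / gB t (c t)` are in `F` (`x i / x m` are): then
`ch Mo1 μ ≤ F` (`Submodule.span_induction`, `Subring.closure_le`), and `NT9.le_of_fr`. If `c t = none`: `gB t (some w') / v t = (a t / V) ∏ x (w' l) / x m`, in `F` since `a t / V ∈ O`.
If `c t = some w`: `∏ x m / x (w l) ∈ O` (quotient of the `gB t (some (fun _ => m))`), it is the inverse of `∏ x (w l) / x m ∈ F`, so in `F`; `gB t (some w') / gB t (some w)` is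
`∏ (x (w' l) / x m) (x m / x (w l))`, and `v t / gB t (some w) = (V / a t) ∏ x m / x (w l)`. (`a t ≠ 0` as `gB t (c t) ≠ 0`, or from `ha`.) -/
theorem mo1_chart {x : Fin (n + 1) → K} (hx : ∀ i, x i ≠ 0) {a : ι → ℤ}
    (ha : ∀ t, (a t : K) ≠ 0) {f : ι → ℕ} {v : ι → K} (hv : ∀ t, v t ≠ 0) {O : Subring K}
    (hO : O ∈ Loc (Mo1 x a f v)) : ∃ m, (∀ i, x i / x m ∈ O) ∧
      (∀ t, v t / (x m / x 0) ^ f t / (a t : K) ∈ O ∨
        (a t : K) / (v t / (x m / x 0) ^ f t) ∈ O) ∧
      ∀ F : Subring K, (∀ i, x i / x m ∈ F) →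
        (∀ t, v t / (x m / x 0) ^ f t / (a t : K) ∈ O →
          v t / (x m / x 0) ^ f t / (a t : K) ∈ F) →
        (∀ t, (a t : K) / (v t / (x m / x 0) ^ f t) ∈ O →
          (a t : K) / (v t / (x m / x 0) ^ f t) ∈ F) →
        (∀ y ∈ F, y⁻¹ ∈ O → y⁻¹ ∈ F) → O ≤ F := by
  classical
  obtain ⟨⟨m, c⟩, hne, hfr⟩ := loc_gen (Mo := Mo1 x a f v)
    (g := fun ic : Fin (n + 1) × (∀ t, Option (Fin (f t) → Fin (n + 1))) =>
      x ic.1 / x 0 * ∏ t, gB x a f v t (ic.2 t)) rfl hO
  simp only at hne hfr
  have hg0 := MOB_ne (K := K) hx ha (f := f) hv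
  have hxm : x m / x 0 ≠ 0 := div_ne_zero (hx m) (hx 0)
  have hP0 : ∏ t, gB x a f v t (c t) ≠ 0 := Finset.prod_ne_zero_iff.2 fun t _ => hg0 t _
  have hy : ∀ y ∈ Mo1 x a f v, y / (x m / x 0 * ∏ t, gB x a f v t (c t)) ∈ O := fun y hy =>
    hfr.1 (Subring.subset_closure ⟨y, hy, rfl⟩)
  have hgen : ∀ (i : Fin (n + 1)) (c' : ∀ t, Option (Fin (f t) → Fin (n + 1))),
      x i / x 0 * ∏ t, gB x a f v t (c' t) ∈ Mo1 x a f v := fun i c' =>
    Submodule.subset_span ⟨(i, c'), rfl⟩
  have h1 : ∀ i, x i / x m ∈ O := by
    intro i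
    have h2 := hy _ (hgen i c)
    have h3 : x i / x 0 * ∏ t, gB x a f v t (c t) = (x i / x m) *
        (x m / x 0 * ∏ t, gB x a f v t (c t)) := by
      have h4 := hx m
      field_simp
    rw [h3, mul_div_assoc, div_self hne, mul_one] at h2
    exact h2
  have h2 : ∀ t o, gB x a f v t o / gB x a f v t (c t) ∈ O := by
    intro t o
    have h3 := hy _ (hgen m (Function.update c t o))
    have h4 : x m / x 0 * ∏ t', gB x a f v t' (Function.update c t o t') =
        gB x a f v t o / gB x a f v t (c t) * (x m / x 0 * ∏ t', gB x a f v t' (c t')) := by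
      rw [Fintype.prod_eq_mul_prod_compl t, Fintype.prod_eq_mul_prod_compl t
        (fun t' => gB x a f v t' (c t'))]
      have h5 : ∏ t' ∈ {t}ᶜ, gB x a f v t' (Function.update c t o t') =
          ∏ t' ∈ {t}ᶜ, gB x a f v t' (c t') := by
        refine Finset.prod_congr rfl fun t' ht' => ?_
        rw [Finset.mem_compl, Finset.mem_singleton] at ht'
        rw [Function.update_of_ne ht']
      rw [h5, Function.update_self]
      have h6 := hg0 t (c t)
      field_simp
    rw [h4, mul_div_assoc, div_self hne, mul_one] at h3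
    exact h3
  have hpO : ∀ (k : ℕ) (w : Fin k → Fin (n + 1)), ∏ l, x (w l) / x m ∈ O := fun k w =>
    O.prod_mem fun l _ => h1 (w l)
  have hsm : ∀ t, gB x a f v t (some fun _ => m) = (a t : K) * (x m / x 0) ^ f t := by
    intro t
    change (a t : K) * ∏ _l : Fin (f t), x m / x 0 = _
    rw [Finset.prod_const, Finset.card_univ, Fintype.card_fin]
  have hnone : ∀ t, c t = none → (a t : K) / (v t / (x m / x 0) ^ f t) ∈ O := by
    intro t ht
    have h3 := h2 t (some fun _ => m)
    rw [ht, hsm] at h3
    have h4 : (a t : K) / (v t / (x m / x 0) ^ f t) =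
        (a t : K) * (x m / x 0) ^ f t / gB x a f v t none := by
      change _ = (a t : K) * (x m / x 0) ^ f t / v t
      rw [div_div_eq_mul_div]
    rw [h4]
    exact h3
  have hsome : ∀ t w, c t = some w → v t / (x m / x 0) ^ f t / (a t : K) ∈ O := by
    intro t w ht
    have h3 := h2 t none
    rw [ht] at h3
    have h4 := O.mul_mem h3 (hpO _ w)
    have h5 : gB x a f v t none / gB x a f v t (some w) * ∏ l, x (w l) / x m =
        v t / (x m / x 0) ^ f t / (a t : K) := by
      have h6 : ∏ l, x (w l) / x 0 ≠ 0 := Finset.prod_ne_zero_iff.2 fun l _ =>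
        div_ne_zero (hx _) (hx _)
      change v t / ((a t : K) * ∏ l, x (w l) / x 0) * _ = _
      rw [MOB_prod hx m w]
      have h7 := ha t
      have h8 := pow_ne_zero (f t) hxm
      generalize (∏ l, x (w l) / x 0) = P at *
      generalize ((x m / x 0) ^ f t) = Q at *
      field_simp
    rw [h5] at h4
    exact h4
  refine ⟨m, h1, fun t => ?_, ?_⟩
  · cases hc : c t with
    | none => exact Or.inr (hnone t hc)
    | some w => exact Or.inl (hsome t w hc)
  · intro F hF1 hF2 hF3 hF4
    have hpF : ∀ (k : ℕ) (w : Fin k → Fin (n + 1)), ∏ l, x (w l) / x m ∈ F := fun k w =>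
      F.prod_mem fun l _ => hF1 (w l)
    have hgF : ∀ t o, gB x a f v t o / gB x a f v t (c t) ∈ F := by
      intro t o
      have h7 := ha t
      have h8 := pow_ne_zero (f t) hxm
      have h9 := hv t
      cases hc : c t with
      | none =>
        cases o with
        | none =>
          rw [div_self (hg0 t none)]
          exact F.one_mem
        | some w =>
          have h3 : gB x a f v t (some w) / gB x a f v t none =
              (a t : K) / (v t / (x m / x 0) ^ f t) * ∏ l, x (w l) / x m := by
            change (a t : K) * (∏ l, x (w l) / x 0) / v t = _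
            rw [MOB_prod hx m w]
            generalize (∏ l, x (w l) / x 0) = P at *
            generalize ((x m / x 0) ^ f t) = Q at *
            field_simp
          rw [h3]
          exact F.mul_mem (hF3 t (hnone t hc)) (hpF _ w)
      | some w =>
        have h6 : ∏ l, x (w l) / x 0 ≠ 0 := Finset.prod_ne_zero_iff.2 fun l _ =>
          div_ne_zero (hx _) (hx _)
        have hR : (∏ l, x (w l) / x m)⁻¹ ∈ F := by
          refine hF4 _ (hpF _ w) ?_
          have h3 := h2 t (some fun _ => m)
          rw [hc, hsm] at h3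
          have h4 : (∏ l, x (w l) / x m)⁻¹ = (a t : K) * (x m / x 0) ^ f t /
              gB x a f v t (some w) := by
            change _ = (a t : K) * (x m / x 0) ^ f t / ((a t : K) * ∏ l, x (w l) / x 0)
            rw [MOB_prod hx m w]
            generalize (∏ l, x (w l) / x 0) = P at *
            generalize ((x m / x 0) ^ f t) = Q at *
            field_simp
          rw [h4]
          exact h3
        cases o with
        | none =>
          have h3 : gB x a f v t none / gB x a f v t (some w) =
              v t / (x m / x 0) ^ f t / (a t : K) * (∏ l, x (w l) / x m)⁻¹ := by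
            change v t / ((a t : K) * ∏ l, x (w l) / x 0) = _
            rw [MOB_prod hx m w]
            generalize (∏ l, x (w l) / x 0) = P at *
            generalize ((x m / x 0) ^ f t) = Q at *
            field_simp
          rw [h3]
          exact F.mul_mem (hF2 t (hsome t w hc)) hR
        | some w' =>
          have h3 : gB x a f v t (some w') / gB x a f v t (some w) =
              (∏ l, x (w' l) / x m) * (∏ l, x (w l) / x m)⁻¹ := by
            change ((a t : K) * ∏ l, x (w' l) / x 0) / ((a t : K) * ∏ l, x (w l) / x 0) = _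
            rw [MOB_prod hx m w', MOB_prod hx m w]
            generalize (∏ l, x (w l) / x 0) = P at *
            generalize (∏ l, x (w' l) / x 0) = P' at *
            generalize ((x m / x 0) ^ f t) = Q at *
            field_simp
          rw [h3]
          exact F.mul_mem (hpF _ w') hR
    have hch : ch (Mo1 x a f v) (x m / x 0 * ∏ t, gB x a f v t (c t)) ≤ F := by
      unfold ch
      rw [Subring.closure_le]
      rintro _ ⟨y, hy', rfl⟩
      unfold Mo1 at hy'
      induction hy' using Submodule.span_induction with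
      | mem y hy' =>
        obtain ⟨⟨i, c'⟩, rfl⟩ := hy'
        have h3 : x i / x 0 * (∏ t, gB x a f v t (c' t)) / (x m / x 0 * ∏ t, gB x a f v t (c t)) =
            x i / x m * ∏ t, gB x a f v t (c' t) / gB x a f v t (c t) := by
          rw [Finset.prod_div_distrib]
          have h4 := hx m
          have h5 := hx 0
          field_simp
        simp only
        rw [h3]
        exact F.mul_mem (hF1 i) (F.prod_mem fun t _ => hgF t _)
      | zero =>
        rw [zero_div]
        exact F.zero_mem
      | add y z _ _ hy' hz =>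
        rw [add_div]
        exact F.add_mem hy' hz
      | smul N y _ hy' =>
        rw [zsmul_eq_mul, mul_div_assoc]
        exact F.mul_mem (intCast_mem F N) hy'
    intro z hz
    obtain ⟨u, hu, w, hw, hw0, hwO, hzw⟩ := hfr.2 z hz
    have h3 : z = u * w⁻¹ := by
      rw [← hzw, mul_assoc, mul_inv_cancel₀ hw0, mul_one]
    rw [h3]
    exact F.mul_mem (hch hu) (hF4 _ (hch hw) hwO)

end Pool.Agent.PW
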