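import Pool.Agent.PW.Defs
import Pool.Agent.NT9.GeSub

set_option autoImplicit false

/-! # WDA: the local rings over a prime number of the second kind -/

namespace Pool.Agent.PW

open MvPolynomial Pool.Agent.NT9

/-- Proof. Let `i` be the largest number `< k` with `P / S ^ i ∈ O` (`i = 0` is possible). If `i + 1 = k` use `hk`; otherwise `P / S ^ (i + 1) ∉ O`, so `S ^ (i + 1) / P ∈ O`. -/
theorem exists_ab {K : Type} [Field K] {O : Subring K} {S P : K} {k : ℕ} (h1 : 1 ≤ k)
    (hP : P ∈ O) (h : ∀ j, 1 ≤ j → j < k → S ^ j / P ∈ O ∨ P / S ^ j ∈ O)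
    (hk : S ^ k / P ∈ O) : ∃ i, i < k ∧ P / S ^ i ∈ O ∧ S ^ (i + 1) / P ∈ O := by
  classical
  let T : Finset ℕ := (Finset.range k).filter fun i => P / S ^ i ∈ O
  have h0 : (0 : ℕ) ∈ T := by
    refine Finset.mem_filter.2 ⟨Finset.mem_range.2 h1, ?_⟩
    rw [pow_zero, div_one]
    exact hP
  obtain ⟨i, hi, hmax⟩ := T.exists_max_image id ⟨0, h0⟩
  obtain ⟨hi1, hi2⟩ := Finset.mem_filter.1 hi
  rw [Finset.mem_range] at hi1
  refine ⟨i, hi1, hi2, ?_⟩
  by_cases hik : i + 1 = k
  · rw [hik]
    exact hk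
  · rcases h (i + 1) (by omega) (by omega) with h3 | h3
    · exact h3
    · exfalso
      have h4 := hmax (i + 1) (Finset.mem_filter.2 ⟨Finset.mem_range.2 (by omega), h3⟩)
      simp only [id] at h4
      omega

variable {σ : Type} [Fintype σ] {K : Type} [Field K] [CharZero K]

omit [Fintype σ] [CharZero K] in
private theorem wda_jl (θ : MvPolynomial σ ℤ →+* K) (a b : K) (h : MvPolynomial σ ℤ) :
    pi0 θ a b (jl h) = θ h := by
  have h1 : (pi0 θ a b).comp (rename (Sum.inl : σ → V0 σ)).toRingHom = θ := by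
    apply MvPolynomial.ringHom_ext
    · intro n
      rw [RingHom.comp_apply]
      simp [pi0]
    · intro i
      rw [RingHom.comp_apply]
      simp [pi0]
  exact congrArg (fun f : MvPolynomial σ ℤ →+* K => f h) h1

omit [Fintype σ] [CharZero K] in
private theorem wda_va (θ : MvPolynomial σ ℤ →+* K) (a b : K) : pi0 θ a b (va σ) = a := by
  simp [pi0]

omit [Fintype σ] [CharZero K] in
private theorem wda_vb (θ : MvPolynomial σ ℤ →+* K) (a b : K) : pi0 θ a b (vb σ) = b := by
  simp [pi0]

/-- From the chart of the model to the structure `Wd`. Proof. `u` is a unit of `O` (`p ∈ mx O`, `1 = α p + β u`), so `θ s ^ k / p = - θ w / u ∈ O`. `exists_ab` with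
`S = θ s`, `P = p`; `a = p / S ^ i`, `b = S ^ (i + 1) / p`. `fr`: `F = frSub (pi0 θ a b) O` contains `θ h`, `a`, `b`; `S ^ j / p = b S ^ (j - i - 1)` for `j ≥ i + 1`;
`p / S ^ j = a S ^ (i - j)` for `j ≤ i`; and the inverses of these elements if they are in `O` (`frSub_inv`); `hmin` gives `O ≤ F`. -/
theorem wd_of_chart {θ : MvPolynomial σ ℤ →+* K} {s w : MvPolynomial σ ℤ} {u : ℤ} {p k : ℕ}
    (hp : p.Prime) (hk : 2 ≤ k) (hu : ¬ (p : ℤ) ∣ u) {O : Subring K} [IsLocalRing O]
    (hpoly : ∀ h, θ h ∈ O) (hpO : (p : K) ∈ mx O) (hs0 : θ s ≠ 0)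
    (heq : (u : K) * θ s ^ k + (p : K) * θ w = 0)
    (h : ∀ j, 1 ≤ j → j < k → θ s ^ j / (p : K) ∈ O ∨ (p : K) / θ s ^ j ∈ O)
    (hmin : ∀ F : Subring K, (∀ h, θ h ∈ F) →
      (∀ j, 1 ≤ j → j < k → θ s ^ j / (p : K) ∈ O → θ s ^ j / (p : K) ∈ F) →
      (∀ j, 1 ≤ j → j < k → (p : K) / θ s ^ j ∈ O → (p : K) / θ s ^ j ∈ F) →
      (∀ y ∈ F, y⁻¹ ∈ O → y⁻¹ ∈ F) → O ≤ F) :
    ∃ i, i < k ∧ Wd θ s w u p k i ((p : K) / θ s ^ i) (θ s ^ (i + 1) / (p : K)) O := by
  have hp0 : (p : K) ≠ 0 := Nat.cast_ne_zero.2 hp.ne_zero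
  -- `u` is a unit of `O`
  have huO : (u : K) ∈ O := intCast_mem O u
  have hunot : (u : K) ∉ mx O := by
    intro hu1
    have hco : IsCoprime (p : ℤ) u := by
      rcases (Nat.prime_iff_prime_int.1 hp).coprime_iff_not_dvd.2 hu with hc
      exact hc
    obtain ⟨α, β, hαβ⟩ := hco
    have h1 : (1 : K) = (α : K) * (p : K) + (β : K) * (u : K) := by
      have := congrArg (fun z : ℤ => (z : K)) hαβ
      push_cast at this
      exact this.symm
    apply one_notMem_mx (O := O)
    rw [h1]
    exact mx_add (mx_mul (intCast_mem O α) hpO) (mx_mul (intCast_mem O β) hu1)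
  obtain ⟨hu0, hui⟩ := (notMem_mx_iff huO).1 hunot
  have hkO : θ s ^ k / (p : K) ∈ O := by
    have h1 : θ s ^ k / (p : K) = -(θ w * (u : K)⁻¹) := by
      field_simp
      linear_combination heq
    rw [h1]
    exact O.neg_mem (O.mul_mem (hpoly w) hui)
  obtain ⟨i, hi, ha, hb⟩ := exists_ab (by omega) hpO.1 h hkO
  refine ⟨i, hi, ?_⟩
  set S := θ s with hS
  set a := (p : K) / S ^ i with hadef
  set b := S ^ (i + 1) / (p : K) with hbdef
  have hab : S = a * b := by
    rw [hadef, hbdef]
    field_simp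
    ring
  have haS : a * S ^ i = p := by
    rw [hadef]
    field_simp
  have hbp : b * p = S ^ (i + 1) := by
    rw [hbdef]
    field_simp
  have ha0 : a ≠ 0 := div_ne_zero hp0 (pow_ne_zero _ hs0)
  have hb0 : b ≠ 0 := div_ne_zero (pow_ne_zero _ hs0) hp0
  refine ⟨hpoly, hpO, ha, hb, ha0, hb0, hab, ?_, ?_, ?_⟩
  · calc (p : K) = a * S ^ i := haS.symm
      _ = a * (a * b) ^ i := by rw [← hab]
      _ = a ^ (i + 1) * b ^ i := by rw [mul_pow, pow_succ]; ring
  · have h1 : a ^ (k - i - 1) * b ^ (k - i) = S ^ k / p := by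
      have h2 : k - i = (k - i - 1) + 1 := by omega
      rw [h2, Nat.add_sub_cancel, pow_succ, ← mul_assoc, ← mul_pow, ← hab, hbdef]
      have h3 : S ^ k = S ^ (k - i - 1) * S ^ (i + 1) := by
        rw [← pow_add]
        congr 1
        omega
      rw [h3, mul_div_assoc]
    rw [mul_assoc, h1]
    field_simp
    linear_combination heq
  · intro x hx
    have hF : O ≤ frSub (pi0 θ a b) O := by
      refine hmin (frSub (pi0 θ a b) O) (fun h => ?_) ?_ ?_
        (fun y hy hyO => frSub_inv (pi0 θ a b) O y hy hyO)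
      · rw [← wda_jl θ a b h]
        exact map_mem_frSub _ _ _
      · intro j hj1 hjk hjO
        have haF : a ∈ frSub (pi0 θ a b) O := by
          have h0 := map_mem_frSub (pi0 θ a b) O (va σ)
          rwa [wda_va] at h0
        have hbF : b ∈ frSub (pi0 θ a b) O := by
          have h0 := map_mem_frSub (pi0 θ a b) O (vb σ)
          rwa [wda_vb] at h0
        have hSF : S ∈ frSub (pi0 θ a b) O := by
          rw [hS, ← wda_jl θ a b s]
          exact map_mem_frSub _ _ _
        rcases Nat.lt_or_ge i j with hij | hij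
        · have h1 : S ^ j / (p : K) = b * S ^ (j - i - 1) := by
            rw [hbdef, div_mul_eq_mul_div, ← pow_add]
            congr 2
            omega
          rw [h1]
          exact Subring.mul_mem _ hbF (Subring.pow_mem _ hSF _)
        · have h1 : (p : K) / S ^ j = a * S ^ (i - j) := by
            rw [← haS, mul_div_assoc]
            congr 1
            rw [div_eq_iff (pow_ne_zero _ hs0), ← pow_add]
            congr 1
            omega
          have h2 : (p : K) / S ^ j ∈ frSub (pi0 θ a b) O := by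
            rw [h1]
            exact Subring.mul_mem _ haF (Subring.pow_mem _ hSF _)
          have h3 : ((p : K) / S ^ j)⁻¹ = S ^ j / (p : K) := inv_div _ _
          rw [← h3]
          exact frSub_inv _ _ _ h2 (by rw [h3]; exact hjO)
      · intro j hj1 hjk hjO
        have haF : a ∈ frSub (pi0 θ a b) O := by
          have h0 := map_mem_frSub (pi0 θ a b) O (va σ)
          rwa [wda_va] at h0
        have hbF : b ∈ frSub (pi0 θ a b) O := by
          have h0 := map_mem_frSub (pi0 θ a b) O (vb σ)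
          rwa [wda_vb] at h0
        have hSF : S ∈ frSub (pi0 θ a b) O := by
          rw [hS, ← wda_jl θ a b s]
          exact map_mem_frSub _ _ _
        rcases Nat.lt_or_ge i j with hij | hij
        · have h1 : S ^ j / (p : K) = b * S ^ (j - i - 1) := by
            rw [hbdef, div_mul_eq_mul_div, ← pow_add]
            congr 2
            omega
          have h2 : S ^ j / (p : K) ∈ frSub (pi0 θ a b) O := by
            rw [h1]
            exact Subring.mul_mem _ hbF (Subring.pow_mem _ hSF _)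
          have h3 : (S ^ j / (p : K))⁻¹ = (p : K) / S ^ j := inv_div _ _
          rw [← h3]
          exact frSub_inv _ _ _ h2 (by rw [h3]; exact hjO)
        · have h1 : (p : K) / S ^ j = a * S ^ (i - j) := by
            rw [← haS, mul_div_assoc]
            congr 1
            rw [div_eq_iff (pow_ne_zero _ hs0), ← pow_add]
            congr 1
            omega
          rw [h1]
          exact Subring.mul_mem _ haF (Subring.pow_mem _ hSF _)
    obtain ⟨g, v, h1, h2, h3⟩ := hF hx
    exact ⟨g, v, h1, h2, h3⟩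

end Pool.Agent.PW
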