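import Pool.Agent.PW.MaD
import Pool.Agent.PW.HomB
import Pool.Agent.PW.MoB
import Pool.Agent.PW.WdA

set_option autoImplicit false

/-! # MAA: the local rings of the first model of a hypersurface -/

namespace Pool.Agent.PW

open MvPolynomial Pool.Agent.NT9

variable {n : ℕ} {K : Type} [Field K] [CharZero K]

omit [CharZero K] in
private theorem MAA_V {x : Fin (n + 1) → K} (hx : ∀ i, x i ≠ 0) {e j : ℕ}
    {S : MvPolynomial (Fin (n + 1)) ℤ} (hS : S.IsHomogeneous e) (m : Fin (n + 1)) :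
    (aeval x S / x 0 ^ e) ^ j / (x m / x 0) ^ (j * e) = thm x m (NH.deh m S) ^ j := by
  rw [thm_deh hx hS, mul_comm j e, pow_mul, ← div_pow, div_pow (x m)]
  congr 1
  have h1 := pow_ne_zero e (hx m)
  have h2 := pow_ne_zero e (hx 0)
  field_simp

omit [CharZero K] in
private theorem MAA_coord {x : Fin (n + 1) → K} (hx : ∀ i, x i ≠ 0) {m : Fin (n + 1)}
    {F : Subring K} (h : ∀ g, thm x m g ∈ F) (i : Fin (n + 1)) : x i / x m ∈ F := by
  by_cases him : i = m
  · rw [him, div_self (hx m)]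
    exact F.one_mem
  · have h1 := h (X ⟨i, him⟩)
    have h2 : thm x m (X ⟨i, him⟩) = x i / x m := by
      change aeval _ (X _) = _
      rw [aeval_X]
    rwa [h2] at h1

omit [CharZero K] in
private theorem MAA_C {x : Fin (n + 1) → K} {m : Fin (n + 1)} (z : ℤ) :
    thm x m (C z) = (z : K) := by
  change aeval _ (C z) = _
  rw [aeval_C]
  simp

/-- The local rings of the first model: a local ring of the hypersurface, or one of the local rings `Wd`. Proof. `mo1_chart`: `m`; `s = deh m (S p)`; by `thm_deh`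
`v_t / (x m / x 0) ^ f_t = thm x m s ^ (j + 1)`. If no `p ∈ T` is in `mx O`: the subring `F = frSub (thm x m) O` (`NT9.frSub`) contains everything: `(p : K)` is a unit of `O`,
`v / p = v p⁻¹`; if `p / v ∈ O` then `v` is a unit of `O`, so `v⁻¹ ∈ F` (`frSub_inv`). So `O ≤ F`: `IsFr`. If `p ∈ T` is in `mx O`: `wd_of_chart` with `θ = thm x m`; the other prime numbers
`p' ∈ T` are units of `O` (`1 = α p + β p'`), so in `hmin` the quotients for `p'` are in `F` as before. `u s ^ k + p w = deh m F`, `thm x m (deh m F) = 0` (`thm_deh`). -/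
theorem mot_cases {x : Fin (n + 1) → K} (hx : ∀ i, x i ≠ 0) {T : Finset ℕ} {k e : ℕ → ℕ}
    {u : ℕ → ℤ} {S W : ℕ → MvPolynomial (Fin (n + 1)) ℤ} {d : ℕ}
    {F : MvPolynomial (Fin (n + 1)) ℤ} (hF : F.IsHomogeneous d) (hF0 : aeval x F = 0)
    (hT : ∀ p ∈ T, p.Prime ∧ 2 ≤ k p ∧ (S p).IsHomogeneous (e p) ∧ ¬ (p : ℤ) ∣ u p ∧
      F = C (u p) * S p ^ k p + C (p : ℤ) * W p ∧ aeval x (S p) ≠ 0) {O : Subring K}
    (hO : O ∈ Loc (MoT x T k e S)) : ∃ m, (∀ g, thm x m g ∈ O) ∧
      ((IsFr (thm x m).range O ∧ ∀ p ∈ T, (p : K) ∉ mx O) ∨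
        ∃ p ∈ T, ∃ i, i < k p ∧ Wd (thm x m) (NH.deh m (S p)) (NH.deh m (W p)) (u p) p (k p) i
          ((p : K) / thm x m (NH.deh m (S p)) ^ i)
          (thm x m (NH.deh m (S p)) ^ (i + 1) / (p : K)) O) := by
  classical
  obtain ⟨m, hm1, hm2, hm3⟩ := mo1_chart (ι := Ix T k) hx
    (a := fun t => ((t.1 : ℕ) : ℤ)) (fun t => by
      have h1 := (hT t.1 t.1.2).1.ne_zero
      have h2 : (((t.1 : ℕ) : ℤ) : K) = ((t.1 : ℕ) : K) := by push_cast; rfl
      rw [h2]
      exact_mod_cast h1)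
    (f := fun t => ((t.2 : ℕ) + 1) * e t.1)
    (v := fun t => (aeval x (S t.1) / x 0 ^ e t.1) ^ ((t.2 : ℕ) + 1)) (fun t =>
      pow_ne_zero _ (div_ne_zero (hT t.1 t.1.2).2.2.2.2.2 (pow_ne_zero _ (hx 0)))) hO
  have hloc : IsLocalRing O := hO.1
  have hpoly : ∀ g, thm x m g ∈ O := fun g => thm_mem hm1 g
  have hV : ∀ t : Ix T k, (aeval x (S t.1) / x 0 ^ e t.1) ^ ((t.2 : ℕ) + 1) /
      (x m / x 0) ^ (((t.2 : ℕ) + 1) * e t.1) =
      thm x m (NH.deh m (S t.1)) ^ ((t.2 : ℕ) + 1) := fun t =>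
    MAA_V hx (hT t.1 t.1.2).2.2.1 m
  have hcast : ∀ t : Ix T k, (((t.1 : ℕ) : ℤ) : K) = ((t.1 : ℕ) : K) := fun t => by
    push_cast
    rfl
  simp only [hV, hcast] at hm2 hm3
  have hCp : ∀ p : ℕ, thm x m (C (p : ℤ)) = (p : K) := fun p => by
    rw [MAA_C]
    push_cast
    rfl
  refine ⟨m, hpoly, ?_⟩
  by_cases hA : ∀ p ∈ T, (p : K) ∉ mx O
  · left
    refine ⟨⟨?_, ?_⟩, hA⟩
    · rintro _ ⟨g, rfl⟩
      exact hpoly g
    · have hle : O ≤ frSub (thm x m) O := by
        have hpinv : ∀ p ∈ T, (p : K)⁻¹ ∈ frSub (thm x m) O := by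
          intro p hp
          refine frSub_inv _ _ _ ?_ ?_
          · rw [← hCp p]
            exact map_mem_frSub _ _ _
          · have h1 : (p : K) ∈ O := by
              rw [← hCp p]
              exact hpoly _
            exact ((notMem_mx_iff h1).1 (hA p hp)).2
        have hpmem : ∀ p : ℕ, (p : K) ∈ frSub (thm x m) O := by
          intro p
          rw [← hCp p]
          exact map_mem_frSub _ _ _
        refine hm3 _ (MAA_coord hx fun g => map_mem_frSub _ _ g) ?_ ?_ ?_
        · intro t _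
          rw [div_eq_mul_inv]
          exact Subring.mul_mem _ (Subring.pow_mem _ (map_mem_frSub _ _ _) _) (hpinv _ t.1.2)
        · intro t ht
          have hs : thm x m (NH.deh m (S t.1)) ^ ((t.2 : ℕ) + 1) ∈ frSub (thm x m) O :=
            Subring.pow_mem _ (map_mem_frSub _ _ _) _
          have hp0 : ((t.1 : ℕ) : K) ≠ 0 := by
            exact_mod_cast (hT t.1 t.1.2).1.ne_zero
          have hpO : ((t.1 : ℕ) : K)⁻¹ ∈ O := by
            have h1 : ((t.1 : ℕ) : K) ∈ O := by
              rw [← hCp t.1]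
              exact hpoly _
            exact ((notMem_mx_iff h1).1 (hA t.1 t.1.2)).2
          have hsO : (thm x m (NH.deh m (S t.1)) ^ ((t.2 : ℕ) + 1))⁻¹ ∈ O := by
            have h1 := O.mul_mem hpO ht
            have h2 : ((t.1 : ℕ) : K)⁻¹ * (((t.1 : ℕ) : K) /
                thm x m (NH.deh m (S t.1)) ^ ((t.2 : ℕ) + 1)) =
                (thm x m (NH.deh m (S t.1)) ^ ((t.2 : ℕ) + 1))⁻¹ := by
              rw [div_eq_mul_inv, inv_mul_cancel_left₀ hp0]
            rwa [h2] at h1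
          rw [div_eq_mul_inv]
          exact Subring.mul_mem _ (hpmem _) (frSub_inv _ _ _ hs hsO)
        · intro y hy hyO
          exact frSub_inv _ _ _ hy hyO
      intro y hy
      obtain ⟨a, b, h1, h2, h3⟩ := hle hy
      exact ⟨thm x m a, ⟨a, rfl⟩, thm x m b, ⟨b, rfl⟩, h1, h2, h3⟩
  · right
    push Not at hA
    obtain ⟨p, hp, hpO⟩ := hA
    obtain ⟨hpp, hk, hS, hu, hFe, hSx⟩ := hT p hp
    refine ⟨p, hp, ?_⟩
    have hs0 : thm x m (NH.deh m (S p)) ≠ 0 := by
      rw [thm_deh hx hS]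
      exact div_ne_zero hSx (pow_ne_zero _ (hx m))
    have heq : (u p : K) * thm x m (NH.deh m (S p)) ^ k p +
        (p : K) * thm x m (NH.deh m (W p)) = 0 := by
      have h1 := thm_deh hx hF m
      rw [hF0, zero_div, hFe] at h1
      simp only [map_add, map_mul, map_pow] at h1
      have h2 : ∀ z : ℤ, NH.deh m (C z) = C z := by
        intro z
        simp [NH.deh]
      rw [h2, h2, MAA_C, hCp] at h1
      exact h1
    have hother : ∀ p' ∈ T, p' ≠ p → (p' : K)⁻¹ ∈ O := by
      intro p' hp' hne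
      have h1 : (p' : K) ∈ O := by
        rw [← hCp p']
        exact hpoly _
      have h2 : (p' : K) ∉ mx O := by
        intro h3
        have hcop : IsCoprime (p : ℤ) (p' : ℤ) :=
          Nat.isCoprime_iff_coprime.2 ((Nat.coprime_primes hpp (hT p' hp').1).2 (Ne.symm hne))
        obtain ⟨α, β, hab⟩ := hcop
        have h4 : (1 : K) = (α : K) * (p : K) + (β : K) * (p' : K) := by
          have h5 : ((α * (p : ℤ) + β * (p' : ℤ) : ℤ) : K) = ((1 : ℤ) : K) := by rw [hab]
          push_cast at h5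
          exact h5.symm
        have h5 : (1 : K) ∈ mx O := by
          rw [h4]
          exact mx_add (mx_mul (intCast_mem O α) hpO) (mx_mul (intCast_mem O β) h3)
        exact one_notMem_mx h5
      exact ((notMem_mx_iff h1).1 h2).2
    refine wd_of_chart hpp hk hu hpoly hpO hs0 heq ?_ ?_
    · intro j hj1 hj2
      have h1 := hm2 ⟨⟨p, hp⟩, ⟨j - 1, by simp only; omega⟩⟩
      simp only at h1
      rw [Nat.sub_add_cancel hj1] at h1
      exact h1
    · intro F' hF1 hF2 hF3 hF4
      have hpmem : ∀ p : ℕ, (p : K) ∈ F' := by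
        intro p
        rw [← hCp p]
        exact hF1 _
      refine hm3 F' (MAA_coord hx hF1) ?_ ?_ hF4
      · intro t ht
        obtain ⟨⟨p', hp'⟩, j⟩ := t
        simp only at ht ⊢
        by_cases hpp' : p' = p
        · subst hpp'
          have hj : (j : ℕ) < k p' - 1 := j.2
          exact hF2 _ (by omega) (by omega) ht
        · rw [div_eq_mul_inv]
          exact F'.mul_mem (F'.pow_mem (hF1 _) _) (hF4 _ (hpmem p') (hother p' hp' hpp'))
      · intro t ht
        obtain ⟨⟨p', hp'⟩, j⟩ := t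
        simp only at ht ⊢
        by_cases hpp' : p' = p
        · subst hpp'
          have hj : (j : ℕ) < k p' - 1 := j.2
          exact hF3 _ (by omega) (by omega) ht
        · have hp0 : (p' : K) ≠ 0 := by
            exact_mod_cast (hT p' hp').1.ne_zero
          have hsO : (thm x m (NH.deh m (S p')) ^ ((j : ℕ) + 1))⁻¹ ∈ O := by
            have h1 := O.mul_mem (hother p' hp' hpp') ht
            have h2 : (p' : K)⁻¹ * ((p' : K) /
                thm x m (NH.deh m (S p')) ^ ((j : ℕ) + 1)) =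
                (thm x m (NH.deh m (S p')) ^ ((j : ℕ) + 1))⁻¹ := by
              rw [div_eq_mul_inv, inv_mul_cancel_left₀ hp0]
            rwa [h2] at h1
          rw [div_eq_mul_inv]
          exact F'.mul_mem (hpmem p') (hF4 _ (F'.pow_mem (hF1 _) _) hsO)

end Pool.Agent.PW
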