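import Pool.Agent.PW.Defs
import Pool.Agent.NT9.GeCom
import Pool.Agent.NT9.GeProjD

set_option autoImplicit false

/-! # MOA: the first model: blow up of the product of ideals `(a_t, v_t)` -/

namespace Pool.Agent.PW

open MvPolynomial Pool.Agent.NT9

variable {n : ℕ} {K : Type} [Field K] {ι : Type} [Fintype ι]

/-- The generators of the `t`-th factor: `v_t` and `a_t` times the monomials of degree `f_t` in the `x_i / x_0`. -/
noncomputable def gB (x : Fin (n + 1) → K) (a : ι → ℤ) (f : ι → ℕ) (v : ι → K) (t : ι) :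
    Option (Fin (f t) → Fin (n + 1)) → K
  | none => v t
  | some w => (a t : K) * ∏ l, x (w l) / x 0

/-- The model: blow up of the product of the ideals `(a_t, v_t)` on the model `Mo0 x`. -/
noncomputable def Mo1 (x : Fin (n + 1) → K) (a : ι → ℤ) (f : ι → ℕ) (v : ι → K) :
    Submodule ℤ K :=
  Submodule.span ℤ (Set.range fun ic : Fin (n + 1) × (∀ t, Option (Fin (f t) → Fin (n + 1))) =>
    x ic.1 / x 0 * ∏ t, gB x a f v t (ic.2 t))

/-- Proof: `Submodule.fg_span (Set.finite_range _)`. -/
theorem mo1_fg (x : Fin (n + 1) → K) (a : ι → ℤ) (f : ι → ℕ) (v : ι → K) :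
    (Mo1 x a f v).FG := by
  unfold Mo1
  exact Submodule.fg_span (Set.finite_range _)

private theorem MOA_prod_mem {A : Submodule ℤ K} {m : ℕ} (y : Fin m → K) (hy : ∀ l, y l ∈ A) :
    ∏ l, y l ∈ A ^ m := by
  induction m with
  | zero =>
    rw [Fin.prod_univ_zero, pow_zero]
    exact Submodule.one_le.1 le_rfl
  | succ m ih =>
    rw [Fin.prod_univ_succ, pow_succ']
    exact Submodule.mul_mem_mul (hy 0) (ih (fun l => y l.succ) fun l => hy l.succ)

private theorem MOA_com (x : Fin (n + 1) → K) {a : ι → ℤ} {f : ι → ℕ} {v : ι → K} (t : ι)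
    (ha : a t ≠ 0) (hv : v t ∈ Mo0 x ^ f t) :
    Com (Submodule.span ℤ (Set.range (gB x a f v t))) (Mo0 x ^ f t) := by
  have hsm : ∀ (M : Submodule ℤ K) (N : ℤ) (z : K), z ∈ M → (N : K) * z ∈ M := by
    intro M N z hz
    rw [← zsmul_eq_mul]
    exact zsmul_mem hz N
  refine Com.of_le (N := a t) ?_ ha ?_
  · rw [Submodule.span_le]
    rintro _ ⟨o, rfl⟩
    cases o with
    | none => exact hv
    | some w =>
      refine hsm _ _ _ (MOA_prod_mem _ fun l => ?_)
      exact Submodule.subset_span ⟨w l, rfl⟩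
  · intro y hy
    unfold Mo0 at hy
    rw [Submodule.span_pow] at hy
    induction hy using Submodule.span_induction with
    | mem y hy =>
      rw [Set.mem_pow] at hy
      obtain ⟨g, rfl⟩ := hy
      rw [List.prod_ofFn]
      have hw : ∀ l, ∃ i, x i / x 0 = (g l : K) := fun l => (g l).2
      choose w hw using hw
      refine Submodule.subset_span ⟨some w, ?_⟩
      change (a t : K) * ∏ l, x (w l) / x 0 = _
      congr 1
      exact Finset.prod_congr rfl fun l _ => hw l
    | zero =>
      rw [mul_zero]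
      exact Submodule.zero_mem _
    | add y z _ _ hy hz =>
      rw [mul_add]
      exact Submodule.add_mem _ hy hz
    | smul N y _ hy =>
      rw [mul_smul_comm]
      exact Submodule.smul_mem _ _ hy

private theorem MOA_eq (x : Fin (n + 1) → K) (a : ι → ℤ) (f : ι → ℕ) (v : ι → K) :
    Mo1 x a f v = Mo0 x * ∏ t, Submodule.span ℤ (Set.range (gB x a f v t)) := by
  classical
  unfold Mo1 Mo0
  rw [Submodule.prod_span, Submodule.span_mul_span]
  congr 1
  open scoped Pointwise in
  ext y
  rw [Set.mem_mul]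
  constructor
  · rintro ⟨⟨i, c⟩, rfl⟩
    refine ⟨x i / x 0, ⟨i, rfl⟩, ∏ t, gB x a f v t (c t), ?_, rfl⟩
    rw [Set.mem_fintype_prod]
    exact ⟨fun t => gB x a f v t (c t), fun t => ⟨c t, rfl⟩, rfl⟩
  · rintro ⟨_, ⟨i, rfl⟩, z, hz, rfl⟩
    rw [Set.mem_fintype_prod] at hz
    obtain ⟨g, hg, rfl⟩ := hz
    choose c hc using hg
    refine ⟨⟨i, c⟩, ?_⟩
    simp only
    congr 1
    exact Finset.prod_congr rfl fun t _ => hc t

/-- Proof. Every generator is in `Mo0 x * ∏ t, Mo0 x ^ f t = Mo0 x ^ (1 + ∑ t, f t)` (`Finset.prod_pow_eq_pow_sum`, products of elements of `Mo0 x`: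
`Submodule.pow_mem_pow`, `Ideal.prod_mem_prod` or induction). Conversely `Mo0 x ^ E` is spanned by the products of `E` of the `x i / x 0` (`Submodule.span_pow`), and
`∏ t, a t` times such a product (grouped into `1` and `f t` factors; better: show by `Finset.induction_on` for the partial products that
`(∏ a t) • (Mo0 x * ∏ Mo0 x ^ f t) ≤ Mo1`; `Mo1 x a f v = Mo0 x * ∏ t, span (range (gB x a f v t))` by `Submodule.span_mul_span` and `Submodule.prod_span`) is in `Mo1`.
`NT9.Com.of_le`, or `NT9.Com.mul` for the factors. -/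
theorem mo1_com {x : Fin (n + 1) → K} (hx : ∀ i, x i ≠ 0) {a : ι → ℤ} (ha : ∀ t, a t ≠ 0)
    {f : ι → ℕ} {v : ι → K} (hv : ∀ t, v t ∈ Mo0 x ^ f t) :
    Com (Mo1 x a f v) (Mo0 x ^ (1 + ∑ t, f t)) := by
  classical
  rw [MOA_eq, pow_add, pow_one, ← Finset.prod_pow_eq_pow_sum]
  refine Com.mul (Com.refl _) ?_
  have key : ∀ s : Finset ι, Com (∏ t ∈ s, Submodule.span ℤ (Set.range (gB x a f v t)))
      (∏ t ∈ s, Mo0 x ^ f t) := by
    intro s
    induction s using Finset.induction_on with
    | empty =>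
      rw [Finset.prod_empty, Finset.prod_empty]
      exact Com.refl _
    | insert t s ht ih =>
      rw [Finset.prod_insert ht, Finset.prod_insert ht]
      exact Com.mul (MOA_com x t (ha t) (hv t)) ih
  exact key Finset.univ

end Pool.Agent.PW
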