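import Pool.Agent.PW.MaD
import Pool.Agent.PW.HomB
import Pool.Agent.PW.MoA

set_option autoImplicit false

/-! # MAK: the first model: commensurability -/

namespace Pool.Agent.PW

open MvPolynomial Pool.Agent.NT9

variable {n : ℕ} {K : Type} [Field K] [CharZero K]

/-- Proof: `mo1_fg`, `mo1_com` (`form_mem`, `Submodule.pow_mem_pow`). -/
theorem mot_com {x : Fin (n + 1) → K} (hx : ∀ i, x i ≠ 0) {T : Finset ℕ} {k e : ℕ → ℕ}
    {S : ℕ → MvPolynomial (Fin (n + 1)) ℤ}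
    (hT : ∀ p ∈ T, p.Prime ∧ (S p).IsHomogeneous (e p)) :
    (MoT x T k e S).FG ∧ ∃ E, 0 < E ∧ Com (MoT x T k e S) (Mo0 x ^ E) := by
  refine ⟨mo1_fg _ _ _ _, 1 + ∑ t : Ix T k, ((t.2 : ℕ) + 1) * e t.1, by omega, ?_⟩
  unfold MoT
  refine mo1_com hx (fun t => ?_) (fun t => ?_)
  · exact_mod_cast (hT t.1 t.1.2).1.ne_zero
  · have h1 := form_mem hx (hT t.1 t.1.2).2
    have h2 := Submodule.pow_mem_pow _ h1 ((t.2 : ℕ) + 1)
    rw [← pow_mul, mul_comm] at h2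
    exact h2

end Pool.Agent.PW
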