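import Pool.Agent.PW.CaC
import Pool.Agent.NT9.TlC

set_option autoImplicit false

/-! # NOA: nodal reductions satisfy the first condition -/

namespace Pool.Agent.PW

open MvPolynomial Pool.Agent.NT9

/-- Proof. `NT9.nodal_iso`, `NT9.nodal_tz`. Finiteness: every prime ideal over the ideal generated by `C p`, `deh m F` and its derivatives is maximal (`nodal_iso`): `finite_of_max`; `f ∈ M ^ 2`
gives `f, ∂ f ∈ M`. The last property in `TameL` (`Q ≤ M` prime): `Q` is maximal by `nodal_iso`, so `Q = M`. -/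
theorem tame_of_nodal {n d p : ℕ} (hp : p.Prime) {F : MvPolynomial (Fin (n + 1)) ℤ}
    (hF : F.IsHomogeneous d) (hnod : NH.NodalAt F p) : TameAt F p := by
  intro m
  refine ⟨?_, fun M hM hpM hf => Or.inr ⟨Or.inl (nodal_tz hp hF hnod m M hpM hf),
    fun Q hQ hQM hpQ hfQ hdQ => ?_⟩⟩
  · set I : Ideal (MvPolynomial {i : Fin (n + 1) // i ≠ m} ℤ) :=
      Ideal.span (insert (C (p : ℤ)) (insert (NH.deh m F)
        (Set.range fun i => pderiv i (NH.deh m F)))) with hI
    have hfin := finite_of_max (I := I) (fun Q hQ hIQ => by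
      refine nodal_iso hp hF hnod m Q ?_ ?_ ?_
      · exact hIQ (Ideal.subset_span (Set.mem_insert _ _))
      · exact hIQ (Ideal.subset_span (Set.mem_insert_of_mem _ (Set.mem_insert _ _)))
      · intro i
        exact hIQ (Ideal.subset_span (Set.mem_insert_of_mem _ (Set.mem_insert_of_mem _
          (Set.mem_range_self i)))))
    refine hfin.subset ?_
    rintro M ⟨hM, hpM, hf⟩
    refine ⟨hM.isPrime, ?_⟩
    rw [hI, Ideal.span_le]
    rintro g (rfl | rfl | ⟨i, rfl⟩)
    · exact hpM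
    · exact Ideal.pow_le_self two_ne_zero hf
    · exact Pool.Agent.QuadModel.derivation_mem (pderiv i) M hf
  · have hQmax : Q.IsMaximal := nodal_iso hp hF hnod m Q hpQ hfQ hdQ
    exact hQmax.eq_of_le hM.ne_top hQM

/-- If there is no singular point in characteristic `p` then the first condition holds trivially. -/
theorem tame_of_none {n p : ℕ} {F : MvPolynomial (Fin (n + 1)) ℤ}
    (h : ∀ (m : Fin (n + 1)) (M : Ideal (MvPolynomial {i : Fin (n + 1) // i ≠ m} ℤ)),
      M.IsMaximal → C (p : ℤ) ∈ M → NH.deh m F ∉ M ^ 2) : TameAt F p := by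
  intro m
  refine ⟨?_, fun M hM hpM hf => absurd hf (h m M hM hpM)⟩
  have h1 : {M : Ideal (MvPolynomial {i : Fin (n + 1) // i ≠ m} ℤ) | M.IsMaximal ∧
      C (p : ℤ) ∈ M ∧ NH.deh m F ∈ M ^ 2} = ∅ := by
    rw [Set.eq_empty_iff_forall_notMem]
    rintro M ⟨hM, hpM, hf⟩
    exact h m M hM hpM hf
  rw [h1]
  exact Set.finite_empty

/-- All but finitely many primes: if `N` is in the ideal `(f, ∂ f)` for all charts and `p ∤ N`, then the first condition holds. Proof: `f ∈ M ^ 2` gives `f, ∂ f ∈ M`, so `N ∈ M`,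
`1 ∈ M`. -/
theorem tame_of_not_dvd {n p : ℕ} (hp : p.Prime) {F : MvPolynomial (Fin (n + 1)) ℤ} {N : ℤ}
    (hN : ∀ m : Fin (n + 1),
      (C N : MvPolynomial {i // i ≠ m} ℤ) ∈ Ideal.span {NH.deh m F} ⊔
        Ideal.span (Set.range fun i => pderiv i (NH.deh m F))) (hpN : ¬ (p : ℤ) ∣ N) :
    TameAt F p := by
  apply tame_of_none
  intro m M hM hpM hf
  have h1 : (C N : MvPolynomial {i // i ≠ m} ℤ) ∈ M := by
    have h2 : Ideal.span {NH.deh m F} ⊔
        Ideal.span (Set.range fun i => pderiv i (NH.deh m F)) ≤ M := by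
      rw [sup_le_iff, Ideal.span_le, Ideal.span_le]
      constructor
      · rintro g rfl
        exact Ideal.pow_le_self two_ne_zero hf
      · rintro g ⟨i, rfl⟩
        exact Pool.Agent.QuadModel.derivation_mem (pderiv i) M hf
    exact h2 (hN m)
  have h3 : IsCoprime (p : ℤ) N := (Nat.prime_iff_prime_int.1 hp).coprime_iff_not_dvd.2 hpN
  obtain ⟨a, b, hab⟩ := h3
  apply hM.ne_top
  rw [Ideal.eq_top_iff_one]
  have h4 : (1 : MvPolynomial {i // i ≠ m} ℤ) = C a * C (p : ℤ) + C b * C N := by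
    rw [← C_mul, ← C_mul, ← C_add, hab, C_1]
  rw [h4]
  exact M.add_mem (M.mul_mem_left _ hpM) (M.mul_mem_left _ h1)

end Pool.Agent.PW
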