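import Pool.Agent.PW.FeA
import Pool.Agent.PW.NoA
import Pool.Agent.QuadAll.PNotSq

set_option autoImplicit false

/-! # FEB: diagonal forms of degree `l` at the other prime numbers -/

namespace Pool.Agent.PW

open MvPolynomial Pool.Agent.NT9

variable {n : ℕ}

private theorem mem_int {σ : Type} {M : Ideal (MvPolynomial σ ℤ)} (hM : M ≠ ⊤) {p : ℕ}
    (hp : p.Prime) (hpM : C (p : ℤ) ∈ M) {c : ℤ} (hc : C c ∈ M) : (p : ℤ) ∣ c := by
  by_contra h
  obtain ⟨u, v, huv⟩ := (Nat.prime_iff_prime_int.1 hp).coprime_iff_not_dvd.2 h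
  apply hM
  rw [Ideal.eq_top_iff_one]
  have h1 : (1 : MvPolynomial σ ℤ) = C u * C (p : ℤ) + C v * C c := by
    rw [← map_mul, ← map_mul, ← map_add, huv, map_one]
  rw [h1]
  exact M.add_mem (M.mul_mem_left _ hpM) (M.mul_mem_left _ hc)

private theorem der_mem {σ : Type} {M : Ideal (MvPolynomial σ ℤ)} {f : MvPolynomial σ ℤ}
    (hf : f ∈ M ^ 2) (i : σ) : pderiv i f ∈ M := by
  rw [pow_two] at hf
  refine Submodule.mul_induction_on hf (fun a ha b hb => ?_) (fun a b ha hb => ?_)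
  · rw [Derivation.leibniz, smul_eq_mul, smul_eq_mul]
    exact M.add_mem (M.mul_mem_right _ ha) (M.mul_mem_right _ hb)
  · rw [map_add]
    exact M.add_mem ha hb

private theorem deh_diagF (a : Fin (n + 1) → ℤ) {l : ℕ} (m : Fin (n + 1)) :
    NH.deh m (diagF a l) = C (a m) + ∑ j : {i : Fin (n + 1) // i ≠ m}, C (a j.1) * X j ^ l := by
  have hC : ∀ c : ℤ, NH.deh m (C c) = C c := fun c => by
    rw [← algebraMap_eq, AlgHom.commutes, algebraMap_eq]
  rw [diagF, map_sum, ← Finset.add_sum_erase _ _ (Finset.mem_univ m), map_mul, map_pow,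
    NH.deh_X_self, one_pow, mul_one, hC,
    Finset.sum_subtype (Finset.univ.erase m) (p := fun i => i ≠ m) (by
      intro i
      simp)]
  congr 1
  refine Finset.sum_congr rfl fun j _ => ?_
  rw [map_mul, map_pow, hC, NH.deh_X]

private theorem pderiv_aff (a : Fin (n + 1) → ℤ) {l : ℕ} (m : Fin (n + 1))
    (j : {i : Fin (n + 1) // i ≠ m}) :
    pderiv j (NH.deh m (diagF a l)) = C ((l : ℤ) * a j.1) * X j ^ (l - 1) := by
  rw [deh_diagF, map_add, pderiv_C, zero_add, map_sum, Finset.sum_eq_single j]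
  · rw [pderiv_C_mul, Derivation.leibniz_pow, pderiv_X_self, smul_eq_mul, mul_one, nsmul_eq_mul,
      map_mul]
    have h3 : ((l : ℕ) : MvPolynomial {i : Fin (n + 1) // i ≠ m} ℤ) = C (l : ℤ) := by simp
    rw [h3]
    ring
  · intro b _ hb
    rw [pderiv_C_mul, Derivation.leibniz_pow, pderiv_X_of_ne hb, smul_zero, smul_zero, mul_zero]
  · intro h
    exact absurd (Finset.mem_univ j) h

/-- Proof. Suppose `C p ∈ M`, `f = deh m (diagF a l) = a_m + ∑ a_j X_j ^ l ∈ M ^ 2`, so `∂_j f = l a_j X_j ^ (l - 1) ∈ M`: `X_j ∈ M` for all `j ≠ m` with `p ∤ a_j`. If `p ∣ a_j0` for some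
`j0 ≠ m` then `p ∤ a_m` and `f ≡ a_m` modulo `M`, a contradiction. Otherwise all `X_j ∈ M`, `X_j ^ l ∈ M ^ 2`, so `a_m ∈ M ^ 2`, `p ∣ a_m`, `a_m = p a'`, `a' ∈ M`
(`QuadAll.mem_of_prime_mul_mem_sq`), so `p ∣ a'`, a contradiction to `hsq`. `tame_of_none`. -/
theorem diag_tame {l : ℕ} (hl : 2 ≤ l) {a : Fin (n + 1) → ℤ} {p : ℕ} (hp : p.Prime)
    (hpl : ¬ p ∣ l) (hone : ∀ i j, (p : ℤ) ∣ a i → (p : ℤ) ∣ a j → i = j)
    (hsq : ∀ i, ¬ (p : ℤ) ^ 2 ∣ a i) : TameAt (diagF a l) p := by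
  refine tame_of_none fun m M hM hpM hf => ?_
  have hMt : M ≠ ⊤ := hM.ne_top
  have hMp : M.IsPrime := hM.isPrime
  have hX : ∀ j : {i : Fin (n + 1) // i ≠ m}, ¬ (p : ℤ) ∣ a j.1 → X j ∈ M := by
    intro j hj
    have h1 := der_mem hf j
    rw [pderiv_aff] at h1
    rcases hMp.mem_or_mem h1 with h2 | h2
    · exfalso
      rcases (Nat.prime_iff_prime_int.1 hp).dvd_mul.1 (mem_int hMt hp hpM h2) with h3 | h3
      · exact hpl (Int.natCast_dvd_natCast.1 h3)
      · exact hj h3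
    · exact hMp.mem_of_pow_mem _ h2
  have hf1 : NH.deh m (diagF a l) ∈ M := Ideal.pow_le_self two_ne_zero hf
  rw [deh_diagF] at hf hf1
  by_cases hj0 : ∃ j0 : {i : Fin (n + 1) // i ≠ m}, (p : ℤ) ∣ a j0.1
  · obtain ⟨j0, hj0⟩ := hj0
    have h1 : ∑ j : {i : Fin (n + 1) // i ≠ m}, C (a j.1) * X j ^ l ∈ M := by
      refine Ideal.sum_mem _ fun j _ => ?_
      by_cases hj : (p : ℤ) ∣ a j.1
      · obtain ⟨c, hc⟩ := hj
        rw [hc, map_mul, mul_assoc]
        exact M.mul_mem_right _ hpM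
      · exact M.mul_mem_left _ (Ideal.pow_mem_of_mem M (hX j hj) l (by omega))
    have h2 : C (a m) ∈ M := by
      have := M.sub_mem hf1 h1
      rwa [add_sub_cancel_right] at this
    exact j0.2 (hone _ _ hj0 (mem_int hMt hp hpM h2))
  · push Not at hj0
    have h1 : ∑ j : {i : Fin (n + 1) // i ≠ m}, C (a j.1) * X j ^ l ∈ M ^ 2 := by
      refine Ideal.sum_mem _ fun j _ => Ideal.mul_mem_left _ _ ?_
      exact Ideal.pow_le_pow_right hl (Ideal.pow_mem_pow (hX j (hj0 j)) l)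
    have h2 : C (a m) ∈ M ^ 2 := by
      have := (M ^ 2).sub_mem hf h1
      rwa [add_sub_cancel_right] at this
    obtain ⟨c, hc⟩ := mem_int hMt hp hpM (Ideal.pow_le_self two_ne_zero h2)
    rw [hc, map_mul] at h2
    obtain ⟨e, he⟩ := mem_int hMt hp hpM (Pool.Agent.QuadAll.mem_of_prime_mul_mem_sq p hp M hpM _ h2)
    exact hsq m ⟨e, by rw [hc, he]; ring⟩

theorem diag_smooth {l : ℕ} (hl : 2 ≤ l) {a : Fin (n + 1) → ℤ} (ha : ∀ i, a i ≠ 0) :
    NH.SmoothQ (diagF a l) := by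
  intro L _ _ x _ h
  funext i
  have h1 := h i
  have h2 : pderiv i (diagF a l) = C ((l : ℤ) * a i) * X i ^ (l - 1) := by
    rw [diagF, map_sum, Finset.sum_eq_single i]
    · rw [pderiv_C_mul, Derivation.leibniz_pow, pderiv_X_self, smul_eq_mul, mul_one, nsmul_eq_mul,
        map_mul]
      have h3 : ((l : ℕ) : MvPolynomial (Fin (n + 1)) ℤ) = C (l : ℤ) := by simp
      rw [h3]
      ring
    · intro b _ hb
      rw [pderiv_C_mul, Derivation.leibniz_pow, pderiv_X_of_ne hb, smul_zero, smul_zero, mul_zero]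
    · intro h
      exact absurd (Finset.mem_univ i) h
  rw [h2, map_mul, map_pow, aeval_X, aeval_C, mul_eq_zero] at h1
  rcases h1 with h3 | h3
  · exfalso
    have h4 : (((l : ℤ) * a i : ℤ) : L) = 0 := h3
    rw [Int.cast_eq_zero] at h4
    rcases mul_eq_zero.1 h4 with h5 | h5
    · have : l = 0 := by exact_mod_cast h5
      omega
    · exact ha i h5
  · exact pow_eq_zero_iff (by omega) |>.1 h3

private theorem coeff_diagF (a : Fin (n + 1) → ℤ) {l : ℕ} (hl : 1 ≤ l) (i : Fin (n + 1)) :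
    coeff (Finsupp.single i l) (diagF a l) = a i := by
  rw [diagF, coeff_sum, Finset.sum_eq_single i]
  · rw [coeff_C_mul, coeff_X_pow, if_pos rfl, mul_one]
  · intro b _ hb
    rw [coeff_C_mul, coeff_X_pow, if_neg, mul_zero]
    intro h
    exact hb ((Finsupp.single_left_inj (by omega : l ≠ 0)).1 h)
  · intro h
    exact absurd (Finset.mem_univ i) h

/-- Proof: the coefficient of `X i ^ l` is `a i`; `p` divides at most one `a i` and `n ≥ 1`. -/
theorem diag_prim {l : ℕ} (hl : 1 ≤ l) (hn : 1 ≤ n) {a : Fin (n + 1) → ℤ} {p : ℕ}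
    (hp : p.Prime) (hone : ∀ i j, (p : ℤ) ∣ a i → (p : ℤ) ∣ a j → i = j) :
    ¬ C (p : ℤ) ∣ diagF a l := by
  intro h
  rw [C_dvd_iff_dvd_coeff] at h
  have h1 : ∀ i, (p : ℤ) ∣ a i := fun i => by
    have := h (Finsupp.single i l)
    rwa [coeff_diagF a hl] at this
  have h2 := hone 0 (Fin.last n) (h1 _) (h1 _)
  have h3 := congrArg Fin.val h2
  simp at h3
  omega

end Pool.Agent.PW
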