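import Pool.Agent.PW.Defs
import Pool.Agent.NT9.GeCotB

set_option autoImplicit false

/-! # CAC: finite sets of maximal ideals -/

namespace Pool.Agent.PW

open MvPolynomial Pool.Agent.NT9

variable {τ : Type} [Fintype τ]

private theorem jac_int : IsJacobsonRing ℤ := by
  rw [isJacobsonRing_iff_prime_eq]
  intro P hP
  by_cases h0 : P = ⊥
  · subst h0
    refine le_antisymm (fun x hx => ?_) Ideal.le_jacobson
    rw [Ideal.mem_bot]
    by_contra hx0
    obtain ⟨p, hp1, hp2⟩ := Nat.exists_infinite_primes (x.natAbs + 1)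
    have hpr : Prime (p : ℤ) := Nat.prime_iff_prime_int.1 hp2
    have hne : (p : ℤ) ≠ 0 := hpr.ne_zero
    have hmax : (Ideal.span {(p : ℤ)}).IsMaximal :=
      ((Ideal.span_singleton_prime hne).2 hpr).isMaximal (by rwa [Ne, Ideal.span_singleton_eq_bot])
    have h1 : x ∈ Ideal.span {(p : ℤ)} :=
      (Ideal.mem_sInf.1 hx) ⟨bot_le, hmax⟩
    rw [Ideal.mem_span_singleton] at h1
    have h2 := Int.natAbs_dvd_natAbs.2 h1
    have h3 := Nat.le_of_dvd (Int.natAbs_pos.2 hx0) h2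
    rw [Int.natAbs_natCast] at h3
    omega
  · have := hP.isMaximal h0
    exact Ideal.jacobson_eq_self_of_isMaximal

/-- A maximal ideal over a prime ideal which does not contain a given element. -/
private theorem exists_max {Q : Ideal (MvPolynomial τ ℤ)} [Q.IsPrime] {a : MvPolynomial τ ℤ}
    (ha : a ∉ Q) : ∃ M : Ideal (MvPolynomial τ ℤ), M.IsMaximal ∧ Q ≤ M ∧ a ∉ M := by
  have hJ : IsJacobsonRing ℤ := jac_int
  have hJ2 : IsJacobsonRing (MvPolynomial τ ℤ) := inferInstance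
  have h1 : Q.jacobson = Q := isJacobsonRing_iff_prime_eq.1 hJ2 Q inferInstance
  rw [← h1, Ideal.jacobson, Ideal.mem_sInf] at ha
  push Not at ha
  obtain ⟨M, hM, haM⟩ := ha
  exact ⟨M, hM.2, hM.1, haM⟩

/-- If only finitely many maximal ideals over the prime `Q ∋ p` do not contain `a ∉ Q`, then `Q` is maximal. Proof. `D = T / Q` is a domain and a Jacobson ring. Suppose that `Q` is
not maximal. Let `M_1, ..., M_r` be the maximal ideals `⊇ Q` with `a ∉ M_i`. Each `M_i` contains some `b_i ∉ Q` (as `Q ≠ M_i`). `a b_1 ⋯ b_r ∉ Q`, so (Jacobson) there is a maximal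
ideal `M ⊇ Q` which does not contain it; then `a ∉ M`, so `M = M_i ∋ b_i` for some `i`, a contradiction. (`hp`, `hpQ` are not needed.) -/
theorem max_of_finite {Q : Ideal (MvPolynomial τ ℤ)} [Q.IsPrime] {a : MvPolynomial τ ℤ}
    (ha : a ∉ Q)
    (hfin : {M : Ideal (MvPolynomial τ ℤ) | M.IsMaximal ∧ Q ≤ M ∧ a ∉ M}.Finite) :
    Q.IsMaximal := by
  classical
  by_contra hQ
  have hb : ∀ M : Ideal (MvPolynomial τ ℤ), ∃ b, b ∉ Q ∧ (M ∈ {M : Ideal (MvPolynomial τ ℤ) |
      M.IsMaximal ∧ Q ≤ M ∧ a ∉ M} → b ∈ M) := by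
    intro M
    by_cases hM : M ∈ {M : Ideal (MvPolynomial τ ℤ) | M.IsMaximal ∧ Q ≤ M ∧ a ∉ M}
    · have hne : ¬ M ≤ Q := by
        intro hle
        have : M = Q := le_antisymm hle hM.2.1
        exact hQ (this ▸ hM.1)
      obtain ⟨b, hb1, hb2⟩ := Set.not_subset.1 hne
      exact ⟨b, hb2, fun _ => hb1⟩
    · exact ⟨a, ha, fun h => absurd h hM⟩
  choose b hb1 hb2 using hb
  have hprod : a * ∏ M ∈ hfin.toFinset, b M ∉ Q := by
    intro h
    rcases Ideal.IsPrime.mem_or_mem inferInstance h with h | h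
    · exact ha h
    · obtain ⟨M, -, hM⟩ := (Ideal.IsPrime.prod_mem_iff (hp := inferInstance)).1 h
      exact hb1 M hM
  obtain ⟨M, hM, hQM, hM2⟩ := exists_max hprod
  have haM : a ∉ M := fun h => hM2 (M.mul_mem_right _ h)
  have hmem : M ∈ {M : Ideal (MvPolynomial τ ℤ) | M.IsMaximal ∧ Q ≤ M ∧ a ∉ M} := ⟨hM, hQM, haM⟩
  apply hM2
  refine M.mul_mem_left _ ?_
  rw [← Finset.mul_prod_erase _ b (hfin.mem_toFinset.2 hmem)]
  exact M.mul_mem_right _ (hb2 M hmem)

/-- If all prime ideals over `I` are maximal then there are finitely many. Proof: they are minimal over `I`; `Ideal.finite_minimalPrimes_of_isNoetherianRing`. -/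
theorem finite_of_max {I : Ideal (MvPolynomial τ ℤ)}
    (h : ∀ Q : Ideal (MvPolynomial τ ℤ), Q.IsPrime → I ≤ Q → Q.IsMaximal) :
    {Q : Ideal (MvPolynomial τ ℤ) | Q.IsPrime ∧ I ≤ Q}.Finite := by
  refine (Ideal.finite_minimalPrimes_of_isNoetherianRing (MvPolynomial τ ℤ) I).subset ?_
  rintro Q ⟨hQ, hIQ⟩
  refine ⟨⟨hQ, hIQ⟩, fun Q' hQ' hle => ?_⟩
  have h1 := h Q' hQ'.1 hQ'.2
  exact (h1.eq_of_le hQ.ne_top hle).ge

end Pool.Agent.PW
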