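import Pool.Agent.PW.CaB
import Pool.Agent.NT9.GeNakA

set_option autoImplicit false

/-! # CAF: a prime ideal which contains `p` and elements with invertible Jacobian matrix is maximal -/

namespace Pool.Agent.PW

open MvPolynomial Pool.Agent.NT9

variable {τ : Type} [Fintype τ]

private theorem jac_int : IsJacobsonRing ℤ := by
  rw [isJacobsonRing_iff_prime_eq]
  intro P hP
  by_cases h0 : P = ⊥
  · subst h0
    refine le_antisymm (fun x hx => ?_) Ideal.le_jacobson
    rw [Ideal.mem_bot]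
    by_contra hx0
    obtain ⟨p, hp1, hp2⟩ := Nat.exists_infinite_primes (x.natAbs + 1)
    have hpr : Prime (p : ℤ) := Nat.prime_iff_prime_int.1 hp2
    have hne : (p : ℤ) ≠ 0 := hpr.ne_zero
    have hmax : (Ideal.span {(p : ℤ)}).IsMaximal :=
      ((Ideal.span_singleton_prime hne).2 hpr).isMaximal (by rwa [Ne, Ideal.span_singleton_eq_bot])
    have h1 : x ∈ Ideal.span {(p : ℤ)} :=
      (Ideal.mem_sInf.1 hx) ⟨bot_le, hmax⟩
    rw [Ideal.mem_span_singleton] at h1
    have h2 := Int.natAbs_dvd_natAbs.2 h1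
    have h3 := Nat.le_of_dvd (Int.natAbs_pos.2 hx0) h2
    rw [Int.natAbs_natCast] at h3
    omega
  · have := hP.isMaximal h0
    exact Ideal.jacobson_eq_self_of_isMaximal

/-- A maximal ideal over a prime ideal which does not contain a given element. -/
private theorem exists_max {Q : Ideal (MvPolynomial τ ℤ)} [Q.IsPrime] {a : MvPolynomial τ ℤ}
    (ha : a ∉ Q) : ∃ M : Ideal (MvPolynomial τ ℤ), M.IsMaximal ∧ Q ≤ M ∧ a ∉ M := by
  have hJ : IsJacobsonRing ℤ := jac_int
  have hJ2 : IsJacobsonRing (MvPolynomial τ ℤ) := inferInstance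
  have h1 : Q.jacobson = Q := isJacobsonRing_iff_prime_eq.1 hJ2 Q inferInstance
  rw [← h1, Ideal.jacobson, Ideal.mem_sInf] at ha
  push Not at ha
  obtain ⟨M, hM, haM⟩ := ha
  exact ⟨M, hM.2, hM.1, haM⟩

/-- A prime ideal which contains `p` and elements with invertible Jacobian matrix is maximal. Proof. Let `δ` be the determinant of `(∂_c η_j)`. `δ ∉ Q`: take
`L = FractionRing (T / Q)` in `Jac` (`Matrix.exists_mulVec_eq_zero_iff`). `T` is a Jacobson ring, `Q` is prime, so there is a maximal ideal `M ⊇ Q` with `δ ∉ M`. Then `Jac M η`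
(the determinant is not zero in `L`), so `Par M (C p) η` and by `NT9.Par.gen` or `NT9.nak` there is `s ∉ M` with `s m ∈ span (insert (C p) (range η)) ≤ Q` for all `m ∈ M`.
`s ∉ Q`, so `M ≤ Q`. -/
theorem max_of_jac {Q : Ideal (MvPolynomial τ ℤ)} [Q.IsPrime] {p : ℕ} (hp : p.Prime)
    (hpQ : (C (p : ℤ) : MvPolynomial τ ℤ) ∈ Q) {η : τ → MvPolynomial τ ℤ} (hη : ∀ j, η j ∈ Q)
    (hJ : Jac Q η) : Q.IsMaximal := by
  classical
  let A : Matrix τ τ (MvPolynomial τ ℤ) := Matrix.of fun j c => pderiv c (η j)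
  have hδ : A.det ∉ Q := by
    intro h0
    let L := FractionRing (MvPolynomial τ ℤ ⧸ Q)
    let χ : MvPolynomial τ ℤ →+* L := (algebraMap _ L).comp (Ideal.Quotient.mk Q)
    have hker : ∀ t, χ t = 0 ↔ t ∈ Q := by
      intro t
      show algebraMap _ L (Ideal.Quotient.mk Q t) = 0 ↔ t ∈ Q
      rw [map_eq_zero_iff _ (IsFractionRing.injective _ L), Ideal.Quotient.eq_zero_iff_mem]
    have hdet : (A.map χ).det = 0 := by
      rw [← RingHom.mapMatrix_apply, ← RingHom.map_det]
      exact (hker _).2 h0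
    obtain ⟨v, hv, hv0⟩ := Matrix.exists_mulVec_eq_zero_iff.2 hdet
    apply hv
    refine hJ L χ hker v fun j => ?_
    have := congrFun hv0 j
    simpa [Matrix.mulVec, dotProduct, A] using this
  obtain ⟨M, hM, hQM, hδM⟩ := exists_max hδ
  have hJM : Jac M η := by
    intro L _ χ hker v hv
    by_contra hv0
    have hdet : (A.map χ).det = 0 := by
      refine Matrix.exists_mulVec_eq_zero_iff.1 ⟨v, hv0, ?_⟩
      funext j
      have := hv j
      simpa [Matrix.mulVec, dotProduct, A] using this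
    rw [← RingHom.mapMatrix_apply, ← RingHom.map_det] at hdet
    exact hδM ((hker _).1 hdet)
  have hpar := par_of_jac hp (hQM hpQ) (fun j => hQM (hη j)) hJM
  obtain ⟨s, hs, hs2⟩ := Par.gen hpar
  have hsQ : s ∉ Q := fun h => hs (hQM h)
  have hle : M ≤ Q := by
    intro m hm
    obtain ⟨c0, c, e⟩ := hs2 m hm
    have h1 : s * m ∈ Q := by
      rw [e]
      exact Q.add_mem (Q.mul_mem_left _ hpQ) (Q.sum_mem fun i _ => Q.mul_mem_left _ (hη i))
    exact (Ideal.IsPrime.mem_or_mem inferInstance h1).resolve_left hsQ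
  have : Q = M := le_antisymm hQM hle
  rw [this]
  exact hM

end Pool.Agent.PW
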