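import Pool.Agent.PW.Defs
import Pool.Agent.NT9.GeCotB

set_option autoImplicit false

/-! # CTE: the singular points over a contact point: derivatives -/

namespace Pool.Agent.PW

open MvPolynomial Pool.Agent.NT9

variable {σ : Type} [Fintype σ] [DecidableEq σ] {s w : MvPolynomial σ ℤ} {u : ℤ} {p k i : ℕ}

private theorem mem_of {R : Type} [CommRing R] {Q : Ideal R} {x y : R} (h : x ∈ Q) (e : x = y) :
    y ∈ Q := e ▸ h

private theorem jl_notMem {M : Ideal (MvPolynomial σ ℤ)} [hM : M.IsMaximal]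
    {Q : Ideal (MvPolynomial (V0 σ) ℤ)} [hQ : Q.IsPrime] (h : ∀ m ∈ M, jl m ∈ Q)
    {l : MvPolynomial σ ℤ} (hl : l ∉ M) : jl l ∉ Q := by
  intro h1
  have h2 : M ≤ Q.comap (rename (Sum.inl : σ → V0 σ) : MvPolynomial σ ℤ →ₐ[ℤ] MvPolynomial (V0 σ) ℤ) :=
    fun m hm => h m hm
  have h3 : Q.comap (rename (Sum.inl : σ → V0 σ) : MvPolynomial σ ℤ →ₐ[ℤ] MvPolynomial (V0 σ) ℤ) ≠ ⊤ :=
    Ideal.comap_ne_top _ hQ.ne_top
  rw [hM.eq_of_le h3 h2] at hl
  exact hl h1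

private theorem pd_jl (j : Fin 2) (f : MvPolynomial σ ℤ) :
    pderiv (Sum.inr j : V0 σ) (jl f) = 0 := by
  induction f using MvPolynomial.induction_on with
  | C a => rw [jl, rename_C, pderiv_C]
  | add p q hp hq =>
    have h1 : jl (p + q) = jl p + jl q := map_add _ _ _
    rw [h1, map_add, hp, hq, add_zero]
  | mul_X p i hp =>
    have h1 : jl (p * X i) = jl p * X (Sum.inl i) := by
      rw [jl, map_mul, rename_X]
    rw [h1, Derivation.leibniz, hp, pderiv_X_of_ne (by simp), smul_zero, smul_zero, add_zero]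

private theorem pd_b (x y : ℕ) (f : MvPolynomial σ ℤ) :
    pderiv (Sum.inr 1 : V0 σ) (jl f * (va σ ^ x * vb σ ^ y)) =
      jl f * (va σ ^ x * ((y : MvPolynomial (V0 σ) ℤ) * vb σ ^ (y - 1))) := by
  rw [Derivation.leibniz, pd_jl, smul_zero, add_zero, Derivation.leibniz, Derivation.leibniz_pow,
    Derivation.leibniz_pow, pderiv_X_self, pderiv_X_of_ne (by simp)]
  simp only [smul_eq_mul, nsmul_eq_mul, mul_zero, mul_one, add_zero]

private theorem pd_a (x y : ℕ) (f : MvPolynomial σ ℤ) :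
    pderiv (Sum.inr 0 : V0 σ) (jl f * (va σ ^ x * vb σ ^ y)) =
      jl f * (((x : MvPolynomial (V0 σ) ℤ) * va σ ^ (x - 1)) * vb σ ^ y) := by
  rw [Derivation.leibniz, pd_jl, smul_zero, add_zero, Derivation.leibniz, Derivation.leibniz_pow,
    Derivation.leibniz_pow, pderiv_X_self, pderiv_X_of_ne (by simp)]
  simp only [smul_eq_mul, nsmul_eq_mul, mul_zero, mul_one, zero_add]
  ring

private theorem two_mem {M : Ideal (MvPolynomial σ ℤ)} {Q : Ideal (MvPolynomial (V0 σ) ℤ)}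
    (h : ∀ m ∈ M, jl m ∈ Q) (hpM : C ((2 : ℕ) : ℤ) ∈ M) : (2 : MvPolynomial (V0 σ) ℤ) ∈ Q := by
  have h1 := h _ hpM
  have h2 : jl (C ((2 : ℕ) : ℤ) : MvPolynomial σ ℤ) = (2 : MvPolynomial (V0 σ) ℤ) := by
    rw [jl, rename_C]
    simp
  rwa [h2] at h1

/-- Type A: the derivative by `b` of `θ_A` is a unit: `∂_b θ_A ≡ l + u D (k - i) a ^ (k - i - 2) b ^ (k - i - 1)` modulo `a` (the term with `β` has the factor `a ^ i i`).
If `i + 2 < k`: `≡ l ∉ Q`. If `i + 2 = k`: `∂_b θ_A ≡ l + 2 u D b`; if `k = 2` then `p = 2 ∈ Q`, so `≡ l`; if `k > 2` then `i ≥ 1` and `θ_A ≡ b (l + u D b) ∈ Q`, so `b ∈ Q` and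
`∂ ≡ l`, or `l + u D b ∈ Q` and `∂ ≡ - l`. -/
theorem thA_der (hp : p.Prime) (hk : 2 ≤ k) (hk2 : k = 2 → p = 2)
    {M : Ideal (MvPolynomial σ ℤ)} [M.IsMaximal] (hpM : C (p : ℤ) ∈ M)
    {D l β : MvPolynomial σ ℤ} (hl : l ∉ M) {Q : Ideal (MvPolynomial (V0 σ) ℤ)} [Q.IsPrime]
    (hQ : TypeA M D l β u k i Q) : pderiv (Sum.inr 1) (thA D l β u k i) ∉ Q := by
  obtain ⟨hik, hM, haQ, hth⟩ := hQ
  have hlQ := jl_notMem hM hl
  have hder : pderiv (Sum.inr 1 : V0 σ) (thA D l β u k i) = jl l +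
      jl β * (va σ ^ i * ((i : MvPolynomial (V0 σ) ℤ) * vb σ ^ (i - 1))) +
      C u * (jl D * (va σ ^ (k - i - 2) *
        (((k - i : ℕ) : MvPolynomial (V0 σ) ℤ) * vb σ ^ (k - i - 1)))) := by
    rw [thA, map_add, map_add, pd_b, mul_assoc (C u), pderiv_C_mul, pd_b, Derivation.leibniz, pd_jl,
      pderiv_X_self, smul_zero, add_zero, smul_eq_mul, mul_one]
  have hβ : jl β * (va σ ^ i * ((i : MvPolynomial (V0 σ) ℤ) * vb σ ^ (i - 1))) ∈ Q := by
    rcases Nat.eq_zero_or_pos i with h | h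
    · rw [h, Nat.cast_zero, zero_mul, mul_zero, mul_zero]
      exact Q.zero_mem
    · exact Q.mul_mem_left _ (Q.mul_mem_right _ (Ideal.pow_mem_of_mem Q haQ i h))
  intro hcon
  rw [hder] at hcon
  rcases Nat.lt_or_ge (i + 2) k with h | h
  · have hD : C u * (jl D * (va σ ^ (k - i - 2) *
        (((k - i : ℕ) : MvPolynomial (V0 σ) ℤ) * vb σ ^ (k - i - 1)))) ∈ Q :=
      Q.mul_mem_left _ (Q.mul_mem_left _ (Q.mul_mem_right _
        (Ideal.pow_mem_of_mem Q haQ _ (by omega))))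
    exact hlQ ((Q.add_mem_iff_left hβ).1 ((Q.add_mem_iff_left hD).1 hcon))
  · have hki : k = i + 2 := by omega
    have e1 : k - i - 2 = 0 := by omega
    have e2 : k - i = 2 := by omega
    have e3 : k - i - 1 = 1 := by omega
    rw [e1, e2] at hcon
    have h1 : jl l + 2 * (C u * jl D * vb σ) ∈ Q := by
      refine mem_of (Q.sub_mem hcon hβ) ?_
      simp
      ring
    rcases Nat.lt_or_ge 2 k with h3 | h3
    · have hth' : vb σ * (jl l + C u * jl D * vb σ) ∈ Q := by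
        have h4 : jl β * (va σ ^ i * vb σ ^ i) ∈ Q :=
          Q.mul_mem_left _ (Q.mul_mem_right _ (Ideal.pow_mem_of_mem Q haQ i (by omega)))
        have h5 := Q.sub_mem hth h4
        rw [thA, e1, e2] at h5
        exact mem_of h5 (by ring)
      rcases (inferInstance : Q.IsPrime).mem_or_mem hth' with h4 | h4
      · exact hlQ ((Q.add_mem_iff_left (Q.mul_mem_left _ (Q.mul_mem_left _ h4))).1 h1)
      · apply hlQ
        exact mem_of (Q.sub_mem (Q.mul_mem_left 2 h4) h1) (by ring)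
    · have hk2' : k = 2 := le_antisymm h3 hk
      have h2Q : (2 : MvPolynomial (V0 σ) ℤ) ∈ Q := two_mem hM (by rw [← hk2 hk2']; exact hpM)
      exact hlQ ((Q.add_mem_iff_left (Q.mul_mem_right _ h2Q)).1 h1)

/-- Type B: the derivative by `a` of `θ_B` is a unit: modulo `b` it is `l + (i + 1) β a ^ i b ^ (i - 1)` (the term with `u D` has a factor `b` or, if `i + 1 = k`, derivative `0`).
If `i ≥ 2`: `≡ l`. If `i = 1`: `∂_a θ_B ≡ l + 2 β a`; if `k = 2` then `2 ∈ Q`; if `k > 2` then `θ_B ≡ a (l + β a) ∈ Q`, so `a ∈ Q` and `∂ ≡ l`, or `l + β a ∈ Q` and `∂ ≡ - l`. -/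
theorem thB_der (hp : p.Prime) (hk : 2 ≤ k) (hi : i < k) (hk2 : k = 2 → p = 2)
    {M : Ideal (MvPolynomial σ ℤ)} [M.IsMaximal] (hpM : C (p : ℤ) ∈ M)
    {D l β : MvPolynomial σ ℤ} (hl : l ∉ M) {Q : Ideal (MvPolynomial (V0 σ) ℤ)} [Q.IsPrime]
    (hQ : TypeB M D l β u k i Q) : pderiv (Sum.inr 0) (thB D l β u k i) ∉ Q := by
  obtain ⟨hi1, hM, hbQ, hth⟩ := hQ
  have hlQ := jl_notMem hM hl
  have hder : pderiv (Sum.inr 0 : V0 σ) (thB D l β u k i) = jl l +
      jl β * ((((i + 1 : ℕ) : MvPolynomial (V0 σ) ℤ) * va σ ^ (i + 1 - 1)) * vb σ ^ (i - 1)) +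
      C u * (jl D * ((((k - i - 1 : ℕ) : MvPolynomial (V0 σ) ℤ) * va σ ^ (k - i - 1 - 1)) *
        vb σ ^ (k - i - 1))) := by
    rw [thB, map_add, map_add, pd_a, mul_assoc (C u), pderiv_C_mul, pd_a, Derivation.leibniz, pd_jl,
      pderiv_X_self, smul_zero, add_zero, smul_eq_mul, mul_one]
  have hD : C u * (jl D * ((((k - i - 1 : ℕ) : MvPolynomial (V0 σ) ℤ) * va σ ^ (k - i - 1 - 1)) *
        vb σ ^ (k - i - 1))) ∈ Q := by
    rcases Nat.eq_zero_or_pos (k - i - 1) with h | h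
    · rw [h, Nat.cast_zero, zero_mul, zero_mul, mul_zero, mul_zero]
      exact Q.zero_mem
    · exact Q.mul_mem_left _ (Q.mul_mem_left _ (Q.mul_mem_left _ (Ideal.pow_mem_of_mem Q hbQ _ h)))
  intro hcon
  rw [hder] at hcon
  have hcon' := (Q.add_mem_iff_left hD).1 hcon
  rcases Nat.lt_or_ge 1 i with h | h
  · have hβ : jl β * ((((i + 1 : ℕ) : MvPolynomial (V0 σ) ℤ) * va σ ^ (i + 1 - 1)) *
        vb σ ^ (i - 1)) ∈ Q :=
      Q.mul_mem_left _ (Q.mul_mem_left _ (Ideal.pow_mem_of_mem Q hbQ _ (by omega)))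
    exact hlQ ((Q.add_mem_iff_left hβ).1 hcon')
  · have hi1' : i = 1 := le_antisymm h hi1
    subst hi1'
    have h1 : jl l + 2 * (jl β * va σ) ∈ Q := by
      refine mem_of hcon' ?_
      simp
      ring
    rcases Nat.lt_or_ge 2 k with h3 | h3
    · have hth' : va σ * (jl l + jl β * va σ) ∈ Q := by
        have h4 : C u * jl D * (va σ ^ (k - 1 - 1) * vb σ ^ (k - 1 - 1)) ∈ Q :=
          Q.mul_mem_left _ (Q.mul_mem_left _ (Ideal.pow_mem_of_mem Q hbQ _ (by omega)))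
        have h5 := Q.sub_mem hth h4
        rw [thB] at h5
        refine mem_of h5 ?_
        simp
        ring
      rcases (inferInstance : Q.IsPrime).mem_or_mem hth' with h4 | h4
      · exact hlQ ((Q.add_mem_iff_left (Q.mul_mem_left _ (Q.mul_mem_left _ h4))).1 h1)
      · apply hlQ
        exact mem_of (Q.sub_mem (Q.mul_mem_left 2 h4) h1) (by ring)
    · have hk2' : k = 2 := le_antisymm h3 hk
      have h2Q : (2 : MvPolynomial (V0 σ) ℤ) ∈ Q := two_mem hM (by rw [← hk2 hk2']; exact hpM)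
      exact hlQ ((Q.add_mem_iff_left (Q.mul_mem_right _ h2Q)).1 h1)

end Pool.Agent.PW
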