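import Pool.Agent.PW.Defs
import Pool.Agent.NT9.GeSub
import Pool.Agent.NodHyp.Loc

set_option autoImplicit false

/-! # WDB: presentation of the local rings -/

namespace Pool.Agent.PW

open MvPolynomial Pool.Agent.NT9

variable {σ : Type} [Fintype σ] {K : Type} [Field K]

omit [Fintype σ] in
private theorem wdb_mul (x y : MvPolynomial σ ℤ) :
    (jl (x * y) : MvPolynomial (V0 σ) ℤ) = jl x * jl y := map_mul _ _ _

omit [Fintype σ] in
private theorem wdb_add (x y : MvPolynomial σ ℤ) :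
    (jl (x + y) : MvPolynomial (V0 σ) ℤ) = jl x + jl y := map_add _ _ _

omit [Fintype σ] in
private theorem wdb_pow (x : MvPolynomial σ ℤ) (n : ℕ) :
    (jl (x ^ n) : MvPolynomial (V0 σ) ℤ) = jl x ^ n := map_pow _ _ _

omit [Fintype σ] in
private theorem wdb_jC (n : ℤ) : (jl (C n : MvPolynomial σ ℤ) : MvPolynomial (V0 σ) ℤ) = C n :=
  rename_C _ _

omit [Fintype σ] in
private theorem wdb_jX (v : σ) : (jl (X v : MvPolynomial σ ℤ) : MvPolynomial (V0 σ) ℤ)
    = X (Sum.inl v) := rename_X _ _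

/-- Compare `NH.CHART2_pi_il`. -/
theorem pi0_jl (θ : MvPolynomial σ ℤ →+* K) (a b : K) (h : MvPolynomial σ ℤ) :
    pi0 θ a b (jl h) = θ h := by
  have h1 : (pi0 θ a b).comp (rename (Sum.inl : σ → V0 σ)).toRingHom = θ := by
    apply MvPolynomial.ringHom_ext
    · intro n
      rw [RingHom.comp_apply]
      simp [pi0]
    · intro i
      rw [RingHom.comp_apply]
      simp [pi0]
  exact congrArg (fun f : MvPolynomial σ ℤ →+* K => f h) h1

theorem pi0_va (θ : MvPolynomial σ ℤ →+* K) (a b : K) : pi0 θ a b (va σ) = a := by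
  simp [pi0]

theorem pi0_vb (θ : MvPolynomial σ ℤ →+* K) (a b : K) : pi0 θ a b (vb σ) = b := by
  simp [pi0]

theorem pi0_mem (θ : MvPolynomial σ ℤ →+* K) {a b : K} {O : Subring K} (h : ∀ h, θ h ∈ O)
    (ha : a ∈ O) (hb : b ∈ O) (t : MvPolynomial (V0 σ) ℤ) : pi0 θ a b t ∈ O := by
  induction t using MvPolynomial.induction_on with
  | C n =>
    have h3 : pi0 θ a b (C n) = (n : K) := by simp [pi0]
    rw [h3]
    exact intCast_mem O n
  | add x y hx hy => rw [map_add]; exact O.add_mem hx hy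
  | mul_X x i hx =>
    rw [map_mul]
    refine O.mul_mem hx ?_
    rcases i with i | i
    · have h3 : (X (Sum.inl i) : MvPolynomial (V0 σ) ℤ) = jl (X i) := (rename_X _ _).symm
      rw [h3, pi0_jl]
      exact h _
    · fin_cases i
      · have h4 := pi0_va (σ := σ) θ a b
        change pi0 θ a b (va σ) ∈ O
        rw [h4]
        exact ha
      · have h4 := pi0_vb (σ := σ) θ a b
        change pi0 θ a b (vb σ) ∈ O
        rw [h4]
        exact hb

variable {θ : MvPolynomial σ ℤ →+* K} {s w : MvPolynomial σ ℤ} {u : ℤ} {p k i : ℕ} {a b : K}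
  {O : Subring K}

omit [Fintype σ] in
private theorem wdb_C (θ : MvPolynomial σ ℤ →+* K) (a b : K) (n : ℤ) :
    pi0 θ a b (C n) = (n : K) := by
  simp [pi0]

theorem Wd.rel (h : Wd θ s w u p k i a b O) (j : Fin 3) : pi0 θ a b (rel0 s w u p k i j) = 0 := by
  fin_cases j
  · change pi0 θ a b (jl s - va σ * vb σ) = 0
    rw [map_sub, map_mul, pi0_jl, pi0_va, pi0_vb, h.hs, sub_self]
  · change pi0 θ a b (C (p : ℤ) - va σ ^ (i + 1) * vb σ ^ i) = 0
    rw [map_sub, map_mul, map_pow, map_pow, pi0_va, pi0_vb, wdb_C, Int.cast_natCast, h.hp,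
      sub_self]
  · change pi0 θ a b (jl w + C u * va σ ^ (k - i - 1) * vb σ ^ (k - i)) = 0
    rw [map_add, map_mul, map_mul, map_pow, map_pow, pi0_jl, pi0_va, pi0_vb, wdb_C, h.hw,
      neg_add_cancel]

/-- Torsion. Proof. Modulo the relations `s ^ i a ≡ a ^ (i + 1) b ^ i ≡ p` and `p b ≡ a ^ (i + 1) b ^ (i + 1) ≡ s ^ (i + 1)`, so for every `t` some power of `p s` times `t` is congruent
to `jl h` (induction on `t`; each variable costs a factor `(p s) ^ (i + 1)`). `π t = 0` gives `θ h = 0`, `h = g f`, and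
`f = u s ^ k + p w ≡ u a ^ k b ^ k - a ^ (i + 1) b ^ i u a ^ (k - i - 1) b ^ (k - i) = 0`. -/
theorem Wd.tor {f : MvPolynomial σ ℤ} (hker : RingHom.ker θ = Ideal.span {f})
    (hf : f = C u * s ^ k + C (p : ℤ) * w) (hi : i < k) (h : Wd θ s w u p k i a b O)
    (t : MvPolynomial (V0 σ) ℤ) (ht : pi0 θ a b t = 0) :
    ∃ N : ℕ, jl (C (p : ℤ) * s) ^ N * t ∈ Ideal.span (Set.range (rel0 s w u p k i)) := by
  classical
  set I := Ideal.span (Set.range (rel0 s w u p k i)) with hI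
  have hr : ∀ j, Ideal.Quotient.mk I (rel0 s w u p k i j) = 0 := fun j =>
    Ideal.Quotient.eq_zero_iff_mem.2 (Ideal.subset_span ⟨j, rfl⟩)
  set A := Ideal.Quotient.mk I (va σ) with hA
  set B := Ideal.Quotient.mk I (vb σ) with hB
  have h0 : Ideal.Quotient.mk I (jl s) = A * B := by
    have h1 : Ideal.Quotient.mk I (jl s - va σ * vb σ) = 0 := hr 0
    rw [map_sub, map_mul, sub_eq_zero] at h1
    exact h1
  have h1 : Ideal.Quotient.mk I (C (p : ℤ)) = A ^ (i + 1) * B ^ i := by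
    have h1 : Ideal.Quotient.mk I (C (p : ℤ) - va σ ^ (i + 1) * vb σ ^ i) = 0 := hr 1
    rw [map_sub, map_mul, map_pow, map_pow, sub_eq_zero] at h1
    exact h1
  have h2 : Ideal.Quotient.mk I (jl w)
      = -(Ideal.Quotient.mk I (C u) * A ^ (k - i - 1) * B ^ (k - i)) := by
    have h1 : Ideal.Quotient.mk I (jl w + C u * va σ ^ (k - i - 1) * vb σ ^ (k - i)) = 0 := hr 2
    rw [map_add, map_mul, map_mul, map_pow, map_pow] at h1
    exact eq_neg_of_add_eq_zero_left h1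
  obtain ⟨e, he⟩ : ∃ e : MvPolynomial σ ℤ, e = C (p : ℤ) * s := ⟨_, rfl⟩
  rw [← he]
  have hE : Ideal.Quotient.mk I (jl e) = A ^ (i + 1) * B ^ i * (A * B) := by
    rw [he, wdb_mul, wdb_jC, map_mul, h1, h0]
  -- one variable
  have hvar : ∀ v : V0 σ, ∃ (N : ℕ) (g : MvPolynomial σ ℤ),
      Ideal.Quotient.mk I (jl e ^ N * X v) = Ideal.Quotient.mk I (jl g) := by
    rintro (v | v)
    · refine ⟨0, X v, ?_⟩
      rw [pow_zero, one_mul, wdb_jX]
    · fin_cases v
      · refine ⟨i, C (p : ℤ) ^ (i + 1), ?_⟩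
        change Ideal.Quotient.mk I (jl e ^ i * va σ) = _
        rw [map_mul, map_pow, hE, wdb_pow, wdb_jC, map_pow, h1, ← hA]
        ring
      · refine ⟨1, s ^ (i + 2), ?_⟩
        change Ideal.Quotient.mk I (jl e ^ 1 * vb σ) = _
        rw [map_mul, map_pow, hE, wdb_pow, map_pow, h0, ← hB]
        ring
  have key : ∀ t : MvPolynomial (V0 σ) ℤ, ∃ (N : ℕ) (g : MvPolynomial σ ℤ),
      Ideal.Quotient.mk I (jl e ^ N * t) = Ideal.Quotient.mk I (jl g) := by
    intro t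
    induction t using MvPolynomial.induction_on with
    | C n =>
      refine ⟨0, C n, ?_⟩
      rw [pow_zero, one_mul, wdb_jC]
    | add x y hx hy =>
      obtain ⟨N, g, hg⟩ := hx
      obtain ⟨N', g', hg'⟩ := hy
      refine ⟨N + N', e ^ N' * g + e ^ N * g', ?_⟩
      rw [wdb_add, wdb_mul, wdb_mul, wdb_pow, wdb_pow, map_add, map_mul _ (jl e ^ N') (jl g),
        map_mul _ (jl e ^ N) (jl g'), ← hg, ← hg']
      simp only [map_mul, map_pow, map_add]
      ring
    | mul_X x v hx =>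
      obtain ⟨N, g, hg⟩ := hx
      obtain ⟨N', g', hg'⟩ := hvar v
      refine ⟨N + N', g * g', ?_⟩
      rw [wdb_mul, map_mul _ (jl g) (jl g'), ← hg, ← hg', ← map_mul]
      congr 1
      ring
  obtain ⟨N, g, hg⟩ := key t
  refine ⟨N, ?_⟩
  have hIker : ∀ x ∈ I, pi0 θ a b x = 0 := by
    intro x hx
    have h3 : I ≤ RingHom.ker (pi0 θ a b) := by
      rw [hI, Ideal.span_le]
      rintro _ ⟨j, rfl⟩
      exact h.rel j
    exact h3 hx
  have hg0 : θ g = 0 := by
    have h3 := hIker _ (Ideal.Quotient.eq.1 hg)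
    rw [map_sub, map_mul, ht, mul_zero, zero_sub, neg_eq_zero, pi0_jl] at h3
    exact h3
  have hgf : g ∈ Ideal.span {f} := by rw [← hker]; exact hg0
  obtain ⟨g', rfl⟩ := Ideal.mem_span_singleton'.1 hgf
  rw [← Ideal.Quotient.eq_zero_iff_mem, hg, wdb_mul, map_mul]
  have hf0 : Ideal.Quotient.mk I (jl f) = 0 := by
    rw [hf, wdb_add, wdb_mul, wdb_mul, wdb_pow, wdb_jC, wdb_jC, map_add, map_mul, map_mul,
      map_pow, h0, h1, h2]
    have h4 : A ^ k * B ^ k = A ^ (i + 1) * B ^ i * (A ^ (k - i - 1) * B ^ (k - i)) := by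
      have h5 : k = (i + 1) + (k - i - 1) := by omega
      have h6 : k = i + (k - i) := by omega
      calc A ^ k * B ^ k = A ^ ((i + 1) + (k - i - 1)) * B ^ (i + (k - i)) := by
            rw [← h5, ← h6]
        _ = _ := by rw [pow_add, pow_add]; ring
    rw [mul_pow, h4]
    ring
  rw [hf0, mul_zero]

/-- Regularity if the relations are independent. Proof: `NH.regular_of_pres` with the element `jl (C p * s)` (`θ s = a b ≠ 0`, `p = a ^ (i + 1) b ^ i ≠ 0`), `Wd.tor`, `Wd.rel`;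
`t ∈ Q ↔ π t = 0 ∨ (π t)⁻¹ ∉ O` is `π t ∈ mx O` (`pi0_mem`). -/
theorem Wd.regular [IsLocalRing O] {f : MvPolynomial σ ℤ} (hker : RingHom.ker θ = Ideal.span {f})
    (hf : f = C u * s ^ k + C (p : ℤ) * w) (hi : i < k) (h : Wd θ s w u p k i a b O)
    (hind : ∀ (Q : Ideal (MvPolynomial (V0 σ) ℤ)) [Q.IsPrime],
      (∀ t, t ∈ Q ↔ pi0 θ a b t ∈ mx O) → ∀ c : Fin 3 → MvPolynomial (V0 σ) ℤ,
        ∑ j, c j * rel0 s w u p k i j ∈ Q ^ 2 → ∀ j, c j ∈ Q) : IsRegularLocalRing O := by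
  have hmem : ∀ t, pi0 θ a b t ∈ O := pi0_mem θ h.poly h.aO h.bO
  refine NH.regular_of_pres O (pi0 θ a b) hmem h.fr (rel0 s w u p k i) h.rel
    (jl (C (p : ℤ) * s)) ?_ (h.tor hker hf hi) ?_
  · rw [pi0_jl, map_mul, h.hs]
    have h1 : θ (C (p : ℤ)) = (p : K) := by
      rw [← pi0_jl θ a b, wdb_jC, wdb_C, Int.cast_natCast]
    rw [h1, h.hp]
    exact mul_ne_zero (mul_ne_zero (pow_ne_zero _ h.a0) (pow_ne_zero _ h.b0))
      (mul_ne_zero h.a0 h.b0)
  · intro Q hQ hQm c hc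
    exact hind Q (fun t => by
      rw [hQm t]
      exact ⟨fun h1 => ⟨hmem t, h1⟩, fun h1 => h1.2⟩) c hc

end Pool.Agent.PW
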