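import Pool.Agent.PW.CaF
import Pool.Agent.PW.CaC

set_option autoImplicit false

/-! # CTA: contact points are closed, finite in number, with parameters `p`, `s`, `vm s w c b` -/

namespace Pool.Agent.PW

open MvPolynomial Pool.Agent.NT9

variable {σ : Type} [Fintype σ] [DecidableEq σ] {s w : MvPolynomial σ ℤ} {p k : ℕ}

private theorem exists_chi (q : Ideal (MvPolynomial σ ℤ)) [q.IsPrime] :
    ∃ (L : Type) (_ : Field L) (χ : MvPolynomial σ ℤ →+* L), ∀ t, χ t = 0 ↔ t ∈ q := by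
  refine ⟨FractionRing (MvPolynomial σ ℤ ⧸ q), inferInstance,
    (algebraMap (MvPolynomial σ ℤ ⧸ q) (FractionRing (MvPolynomial σ ℤ ⧸ q))).comp
      (Ideal.Quotient.mk q), fun t => ?_⟩
  rw [RingHom.comp_apply, FaithfulSMul.algebraMap_eq_zero_iff, Ideal.Quotient.eq_zero_iff_mem]

/-- Proof: `CtL` with `L = FractionRing (T / q)`. -/
theorem ct_exists (h : CtL s w p k) {q : Ideal (MvPolynomial σ ℤ)} (hq : IsCt s w p q) :
    ∃ c, pderiv c s ∉ q := by
  obtain ⟨hpr, hpq, hsq, hwq, _⟩ := hq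
  obtain ⟨L, _, χ, hχ⟩ := exists_chi q
  obtain ⟨⟨c, hc⟩, _⟩ := h L χ ((hχ _).2 hpq) ((hχ _).2 hsq) ((hχ _).2 hwq)
  exact ⟨c, fun h1 => hc ((hχ _).2 h1)⟩

/-- The Jacobian matrix at a contact point. Proof. `χ : T → L` with kernel `q`. `l = χ (∂_c w) / χ (∂_c s)`; the minors are in `q`, so `χ (∂_b w) = l χ (∂_b s)` for all `b`. Let
`H_ab = χ (∂_a ∂_b w) - l χ (∂_a ∂_b s)` (symmetric: `pderiv` commute, Mathlib `MvPolynomial.pderiv_pderiv_comm` or `pderiv` of monomials; or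
`(pderiv a).commutator`). Then `χ (∂_a (vm s w c b)) = χ (∂_c s) H_ab - χ (∂_b s) H_ac`. Let `ξ` be in the kernel: `∑ χ (∂_a s) ξ_a = 0` (row `c`) and
`χ (∂_c s) (H ξ)_b = χ (∂_b s) (H ξ)_c` for `b ≠ c` (trivial for `b = c`): so `(H ξ)_b = μ χ (∂_b s)` with `μ = (H ξ)_c / χ (∂_c s)`: `ξ = 0` by `CtL`. -/
theorem ct_jac (h : CtL s w p k) {q : Ideal (MvPolynomial σ ℤ)} (hq : IsCt s w p q) {c : σ}
    (hc : pderiv c s ∉ q) : Jac q (ctη s w c) := by
  obtain ⟨_, hpq, hsq, hwq, hvq⟩ := hq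
  intro L _ χ hχ ξ hξ
  obtain ⟨_, h2⟩ := h L χ ((hχ _).2 hpq) ((hχ _).2 hsq) ((hχ _).2 hwq)
  have hc0 : χ (pderiv c s) ≠ 0 := fun h1 => hc ((hχ _).1 h1)
  obtain ⟨l, hl⟩ : ∃ l, l = χ (pderiv c w) / χ (pderiv c s) := ⟨_, rfl⟩
  have hlc : χ (pderiv c w) = l * χ (pderiv c s) := by
    rw [hl, div_mul_cancel₀ _ hc0]
  have hlb : ∀ b, χ (pderiv b w) = l * χ (pderiv b s) := by
    intro b
    have h3 := (hχ _).2 (hvq c b)
    rw [vm, map_sub, map_mul, map_mul, hlc] at h3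
    exact mul_left_cancel₀ hc0 (by linear_combination h3)
  obtain ⟨_, _, h3⟩ := h2 l hlb
  refine h3 ξ ((∑ a, (χ (pderiv a (pderiv c w)) - l * χ (pderiv a (pderiv c s))) * ξ a) /
    χ (pderiv c s)) ?_ fun b => ?_
  · have h4 := hξ c
    rw [ctη, if_pos rfl] at h4
    exact h4
  · by_cases hb : b = c
    · rw [hb, div_mul_cancel₀ _ hc0]
    · have h4 := hξ b
      rw [ctη, if_neg hb] at h4
      have h5 : ∑ a, χ (pderiv a (vm s w c b)) * ξ a = χ (pderiv c s) *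
          (∑ a, (χ (pderiv a (pderiv b w)) - l * χ (pderiv a (pderiv b s))) * ξ a) -
          χ (pderiv b s) *
          ∑ a, (χ (pderiv a (pderiv c w)) - l * χ (pderiv a (pderiv c s))) * ξ a := by
        rw [Finset.mul_sum, Finset.mul_sum, ← Finset.sum_sub_distrib]
        refine Finset.sum_congr rfl fun a _ => ?_
        rw [vm, map_sub, Derivation.leibniz, Derivation.leibniz, smul_eq_mul, smul_eq_mul,
          smul_eq_mul, smul_eq_mul, map_sub, map_add, map_add, map_mul, map_mul, map_mul, map_mul,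
          hlb b, hlc]
        ring
      rw [h5] at h4
      rw [div_mul_eq_mul_div, eq_div_iff hc0]
      linear_combination h4

/-- Proof: `max_of_jac`. -/
theorem ct_max (hp : p.Prime) (h : CtL s w p k) {q : Ideal (MvPolynomial σ ℤ)}
    (hq : IsCt s w p q) : q.IsMaximal := by
  obtain ⟨c, hc⟩ := ct_exists h hq
  have hJ := ct_jac h hq hc
  obtain ⟨hpr, hpq, hsq, hwq, hvq⟩ := hq
  refine max_of_jac hp hpq (fun j => ?_) hJ
  rw [ctη]
  split_ifs
  · exact hsq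
  · exact hvq _ _

/-- Proof: `finite_of_max` for the ideal generated by `C p`, `s`, `w` and the `vm s w c b`. -/
theorem ct_fin (hp : p.Prime) (h : CtL s w p k) :
    {q : Ideal (MvPolynomial σ ℤ) | IsCt s w p q}.Finite := by
  have key : ∀ Q : Ideal (MvPolynomial σ ℤ), (Q.IsPrime ∧ Ideal.span ({C (p : ℤ), s, w} ∪
      Set.range fun x : σ × σ => vm s w x.1 x.2) ≤ Q) ↔ IsCt s w p Q := by
    intro Q
    rw [Ideal.span_le]
    constructor
    · rintro ⟨h1, h2⟩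
      exact ⟨h1, h2 (Or.inl (Or.inl rfl)), h2 (Or.inl (Or.inr (Or.inl rfl))),
        h2 (Or.inl (Or.inr (Or.inr rfl))), fun c b => h2 (Or.inr ⟨(c, b), rfl⟩)⟩
    · rintro ⟨h1, h2, h3, h4, h5⟩
      refine ⟨h1, ?_⟩
      rintro x ((rfl | rfl | rfl) | ⟨⟨c, b⟩, rfl⟩)
      · exact h2
      · exact h3
      · exact h4
      · exact h5 c b
  refine (finite_of_max (I := Ideal.span ({C (p : ℤ), s, w} ∪
      Set.range fun x : σ × σ => vm s w x.1 x.2)) fun Q hQ hIQ =>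
        ct_max hp h ((key Q).1 ⟨hQ, hIQ⟩)).subset fun Q hQ => (key Q).2 hQ

end Pool.Agent.PW
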