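import Pool.Agent.PW.Defs

set_option autoImplicit false

/-! # CTD: the polynomial `G` -/

namespace Pool.Agent.PW

open MvPolynomial Pool.Agent.NT9

variable {σ : Type} [Fintype σ] [DecidableEq σ] {s w : MvPolynomial σ ℤ} {u : ℤ} {p k i : ℕ}
  {Q : Ideal (MvPolynomial (V0 σ) ℤ)} [Q.IsPrime]

/-- `G = l a b + β a ^ (i + 1) b ^ i + u D a ^ (k - i - 1) b ^ (k - i)`. -/
noncomputable def ctG (D l β : MvPolynomial σ ℤ) (u : ℤ) (k i : ℕ) : MvPolynomial (V0 σ) ℤ :=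
  jl l * (va σ * vb σ) + jl β * (va σ ^ (i + 1) * vb σ ^ i) +
    C u * jl D * (va σ ^ (k - i - 1) * vb σ ^ (k - i))

/-- `G = a θ_A` if `i + 2 ≤ k`. -/
theorem ctG_A (D l β : MvPolynomial σ ℤ) (u : ℤ) (h : i + 2 ≤ k) :
    ctG D l β u k i = va σ * thA D l β u k i := by
  obtain ⟨c, rfl⟩ := Nat.exists_eq_add_of_le h
  have h1 : i + 2 + c - i - 1 = c + 1 := by omega
  have h2 : i + 2 + c - i - 2 = c := by omega
  rw [ctG, thA, h1, h2]
  ring

/-- `G = b θ_B` if `1 ≤ i < k`. -/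
theorem ctG_B (D l β : MvPolynomial σ ℤ) (u : ℤ) (h : 1 ≤ i) (hi : i < k) :
    ctG D l β u k i = vb σ * thB D l β u k i := by
  obtain ⟨c, rfl⟩ := Nat.exists_eq_add_of_lt hi
  obtain ⟨j, rfl⟩ := Nat.exists_eq_add_of_le' h
  have h1 : j + 1 + c + 1 - (j + 1) - 1 = c := by omega
  have h2 : j + 1 + c + 1 - (j + 1) = c + 1 := by omega
  have h3 : j + 1 - 1 = j := by omega
  rw [ctG, thB, h2, h3, Nat.add_sub_cancel]
  ring

/-- `D r_2 = l r_0 + β r_1 + ∑ q_jk v_j v_k + G`. -/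
theorem ctG_rel {c : σ} {D l β : MvPolynomial σ ℤ}
    {q : {j : σ // j ≠ c} → {j : σ // j ≠ c} → MvPolynomial σ ℤ}
    (h : D * w = l * s + β * C (p : ℤ) + ∑ j, ∑ k, q j k * vm s w c j.1 * vm s w c k.1) :
    jl D * rel0 s w u p k i 2 = jl l * rel0 s w u p k i 0 + jl β * rel0 s w u p k i 1 +
      ∑ j, ∑ k, jl (q j k) * jl (vm s w c j.1) * jl (vm s w c k.1) + ctG D l β u k i := by
  have h1 : jl D * jl w = jl l * jl s + jl β * C (p : ℤ) +
      ∑ j, ∑ k, jl (q j k) * jl (vm s w c j.1) * jl (vm s w c k.1) := by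
    have h2 := congrArg (rename (Sum.inl : σ → V0 σ)) h
    simp only [map_add, map_mul, map_sum, rename_C] at h2
    exact h2
  have e0 : rel0 s w u p k i 0 = jl s - va σ * vb σ := rfl
  have e1 : rel0 s w u p k i 1 = C (p : ℤ) - va σ ^ (i + 1) * vb σ ^ i := rfl
  have e2 : rel0 s w u p k i 2 = jl w + C u * va σ ^ (k - i - 1) * vb σ ^ (k - i) := rfl
  rw [e0, e1, e2, mul_add, h1, ctG]
  ring

end Pool.Agent.PW
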