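import Pool.Agent.PW.Defs
import Pool.Agent.NT9.GeSub
import Pool.Agent.NodHyp.Ind2
import Pool.Agent.QuadAll.PNotSq

set_option autoImplicit false

/-! # WDC: independence of the relations away from the contact points

`Q` is a prime ideal of `T = ℤ[x, a, b]` which contains `p` and the relations
`r_0 = s - a b`, `r_1 = p - a ^ (i + 1) b ^ i`, `r_2 = w + u a ^ (k - i - 1) b ^ (k - i)`. -/

namespace Pool.Agent.PW

open MvPolynomial Pool.Agent.NT9

variable {σ : Type} [Fintype σ] {s w : MvPolynomial σ ℤ} {u : ℤ} {p k i : ℕ}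
  {Q : Ideal (MvPolynomial (V0 σ) ℤ)} [Q.IsPrime]

omit [Fintype σ] in
private theorem wdc_mul (x y : MvPolynomial σ ℤ) :
    (jl (x * y) : MvPolynomial (V0 σ) ℤ) = jl x * jl y := map_mul _ _ _

omit [Fintype σ] in
private theorem wdc_sub (x y : MvPolynomial σ ℤ) :
    (jl (x - y) : MvPolynomial (V0 σ) ℤ) = jl x - jl y := map_sub _ _ _

omit [Fintype σ] in
private theorem wdc_b_s (h : MvPolynomial σ ℤ) (c : Fin 2) :
    pderiv (Sum.inr c) (jl h : MvPolynomial (V0 σ) ℤ) = 0 := NH.Ind2Aux.pderiv_inr_rename h c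

omit [Fintype σ] in
private theorem wdc_l_s (h : MvPolynomial σ ℤ) (c : σ) :
    pderiv (Sum.inl c) (jl h : MvPolynomial (V0 σ) ℤ) = jl (pderiv c h) :=
  NH.Ind2Aux.pderiv_inl_rename h c

omit [Fintype σ] in
private theorem wdc_aa : pderiv (Sum.inr 0) (va σ : MvPolynomial (V0 σ) ℤ) = 1 := by
  classical
  rw [NH.Ind2Aux.pderiv_inr_X]
  simp

omit [Fintype σ] in
private theorem wdc_ab : pderiv (Sum.inr 0) (vb σ : MvPolynomial (V0 σ) ℤ) = 0 := by
  classical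
  rw [NH.Ind2Aux.pderiv_inr_X]
  simp

omit [Fintype σ] in
private theorem wdc_ba : pderiv (Sum.inr 1) (va σ : MvPolynomial (V0 σ) ℤ) = 0 := by
  classical
  rw [NH.Ind2Aux.pderiv_inr_X]
  simp

omit [Fintype σ] in
private theorem wdc_bb : pderiv (Sum.inr 1) (vb σ : MvPolynomial (V0 σ) ℤ) = 1 := by
  classical
  rw [NH.Ind2Aux.pderiv_inr_X]
  simp

omit [Fintype σ] in
private theorem wdc_la (c : σ) : pderiv (Sum.inl c) (va σ : MvPolynomial (V0 σ) ℤ) = 0 := by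
  classical
  rw [pderiv_X]
  simp

omit [Fintype σ] in
private theorem wdc_lb (c : σ) : pderiv (Sum.inl c) (vb σ : MvPolynomial (V0 σ) ℤ) = 0 := by
  classical
  rw [pderiv_X]
  simp

/-- Proof: `a ^ (i + 1) b ^ i ∈ Q`. -/
theorem rel_ab (hpQ : (C (p : ℤ) : MvPolynomial (V0 σ) ℤ) ∈ Q)
    (hrel : ∀ j, rel0 s w u p k i j ∈ Q) :
    (va σ ∈ Q ∨ (1 ≤ i ∧ vb σ ∈ Q)) ∧ jl s ∈ Q := by
  have h0 : jl s - va σ * vb σ ∈ Q := hrel 0
  have h1 : C (p : ℤ) - va σ ^ (i + 1) * vb σ ^ i ∈ Q := hrel 1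
  have h2 : va σ ^ (i + 1) * vb σ ^ i ∈ Q := by
    have h3 := Q.sub_mem hpQ h1
    rwa [sub_sub_cancel] at h3
  have hP : Q.IsPrime := inferInstance
  have h4 : va σ ∈ Q ∨ (1 ≤ i ∧ vb σ ∈ Q) := by
    rcases hP.mem_or_mem h2 with h3 | h3
    · exact Or.inl (hP.mem_of_pow_mem _ h3)
    · right
      rcases Nat.eq_zero_or_pos i with hi | hi
      · exfalso
        rw [hi, pow_zero] at h3
        exact hP.ne_top ((Ideal.eq_top_iff_one _).2 h3)
      · exact ⟨hi, hP.mem_of_pow_mem _ h3⟩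
  refine ⟨h4, ?_⟩
  have h5 : va σ * vb σ ∈ Q := by
    rcases h4 with h | ⟨-, h⟩
    · exact Q.mul_mem_right _ h
    · exact Q.mul_mem_left _ h
  have h6 := Q.add_mem h0 h5
  rwa [sub_add_cancel] at h6

/-- The last step: if only `c_1 (p - a ^ (i + 1) b ^ i)` is left. Proof. If `a ∈ Q` and `i ≥ 1`, or if `i ≥ 2` and `b ∈ Q`, then `a ^ (i + 1) b ^ i ∈ Q ^ 2`, so
`c p ∈ Q ^ 2` and `QuadAll.mem_of_prime_mul_mem_sq`. If `i = 0`: apply `∂/∂a` to `c (p - a) ∈ Q ^ 2`: `- c ∈ Q` (`NH.Ind2Aux.der_sq`). If `i = 1` and `a ∉ Q`, `b ∈ Q`: `∂/∂b`: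
`- c a ^ 2 ∈ Q`. -/
theorem ind_last (hp : p.Prime) (hpQ : (C (p : ℤ) : MvPolynomial (V0 σ) ℤ) ∈ Q)
    (hab : va σ ∈ Q ∨ (1 ≤ i ∧ vb σ ∈ Q)) {c : MvPolynomial (V0 σ) ℤ}
    (hr : (C (p : ℤ) - va σ ^ (i + 1) * vb σ ^ i : MvPolynomial (V0 σ) ℤ) ∈ Q)
    (h : c * (C (p : ℤ) - va σ ^ (i + 1) * vb σ ^ i) ∈ Q ^ 2) : c ∈ Q := by
  have hP : Q.IsPrime := inferInstance
  have key : va σ ^ (i + 1) * vb σ ^ i ∈ Q ^ 2 → c ∈ Q := by
    intro h1
    apply QuadAll.mem_of_prime_mul_mem_sq p hp Q hpQ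
    have h2 := (Q ^ 2).add_mem h ((Q ^ 2).mul_mem_left c h1)
    have h3 : c * (C (p : ℤ) - va σ ^ (i + 1) * vb σ ^ i) + c * (va σ ^ (i + 1) * vb σ ^ i)
        = C (p : ℤ) * c := by ring
    rwa [h3] at h2
  by_cases hi0 : i = 0
  · subst hi0
    have h1 := NH.Ind2Aux.der_sq (pderiv (Sum.inr 0)) Q h
    rw [Derivation.leibniz, smul_eq_mul, smul_eq_mul, map_sub, pderiv_C, zero_add, pow_one,
      pow_zero, mul_one, wdc_aa] at h1
    have h2 : (C (p : ℤ) - va σ) * pderiv (Sum.inr 0) c ∈ Q := by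
      apply Q.mul_mem_right
      simpa using hr
    have h3 := Q.sub_mem h2 h1
    have h4 : (C (p : ℤ) - va σ) * pderiv (Sum.inr 0) c - (c * (0 - 1)
        + (C (p : ℤ) - va σ) * pderiv (Sum.inr 0) c) = c := by ring
    rwa [h4] at h3
  · have hi : 1 ≤ i := Nat.one_le_iff_ne_zero.2 hi0
    by_cases ha : va σ ∈ Q
    · apply key
      apply (Q ^ 2).mul_mem_right
      have h1 : va σ ^ (i + 1) = va σ ^ 2 * va σ ^ (i - 1) := by
        rw [← pow_add]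
        congr 1
        omega
      rw [h1]
      exact (Q ^ 2).mul_mem_right _ (Ideal.pow_mem_pow ha 2)
    · have hb : vb σ ∈ Q := (hab.resolve_left ha).2
      by_cases hi1 : i = 1
      · subst hi1
        have h1 := NH.Ind2Aux.der_sq (pderiv (Sum.inr 1)) Q h
        rw [Derivation.leibniz, smul_eq_mul, smul_eq_mul, map_sub, pderiv_C,
          pow_one, Derivation.leibniz, smul_eq_mul, smul_eq_mul, wdc_bb,
          Derivation.leibniz_pow, wdc_ba] at h1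
        have h2 := Q.sub_mem (Q.mul_mem_right (pderiv (Sum.inr 1) c) hr) h1
        have h4 : (C (p : ℤ) - va σ ^ (1 + 1) * vb σ ^ 1) * pderiv (Sum.inr 1) c
            - (c * (0 - (va σ ^ (1 + 1) * 1 + vb σ * ((1 + 1) • va σ ^ (1 + 1 - 1) • 0)))
              + (C (p : ℤ) - va σ ^ (1 + 1) * vb σ) * pderiv (Sum.inr 1) c)
            = c * va σ ^ 2 := by
          rw [smul_zero, smul_zero]
          ring
        rw [h4] at h2
        exact (hP.mem_or_mem h2).resolve_right fun h5 => ha (hP.mem_of_pow_mem _ h5)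
      · apply key
        apply (Q ^ 2).mul_mem_left
        have h1 : vb σ ^ i = vb σ ^ 2 * vb σ ^ (i - 2) := by
          rw [← pow_add]
          congr 1
          omega
        rw [h1]
        exact (Q ^ 2).mul_mem_right _ (Ideal.pow_mem_pow hb 2)

/-- The residue field at `Q`. -/
private theorem wdc_res (Q : Ideal (MvPolynomial (V0 σ) ℤ)) [Q.IsPrime] :
    ∃ (κ : Type) (_ : Field κ) (φ : MvPolynomial (V0 σ) ℤ →+* κ), ∀ x, φ x = 0 ↔ x ∈ Q := by
  refine ⟨FractionRing (MvPolynomial (V0 σ) ℤ ⧸ Q), inferInstance,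
    (algebraMap (MvPolynomial (V0 σ) ℤ ⧸ Q) _).comp (Ideal.Quotient.mk Q), ?_⟩
  intro x
  rw [RingHom.comp_apply, FaithfulSMul.algebraMap_eq_zero_iff, Ideal.Quotient.eq_zero_iff_mem]

omit [Q.IsPrime] in
private theorem wdc_sq {c : Fin 3 → MvPolynomial (V0 σ) ℤ}
    (hrel : ∀ j, rel0 s w u p k i j ∈ Q)
    (hc : ∑ j, c j * rel0 s w u p k i j ∈ Q ^ 2) (h0 : c 0 ∈ Q) (h2 : c 2 ∈ Q) :
    c 1 * (C (p : ℤ) - va σ ^ (i + 1) * vb σ ^ i) ∈ Q ^ 2 := by
  have h3 : c 0 * rel0 s w u p k i 0 ∈ Q ^ 2 := by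
    rw [pow_two]
    exact Ideal.mul_mem_mul h0 (hrel 0)
  have h4 : c 2 * rel0 s w u p k i 2 ∈ Q ^ 2 := by
    rw [pow_two]
    exact Ideal.mul_mem_mul h2 (hrel 2)
  rw [Fin.sum_univ_three] at hc
  have h5 := (Q ^ 2).sub_mem ((Q ^ 2).sub_mem hc h3) h4
  have h6 : c 0 * rel0 s w u p k i 0 + c 1 * rel0 s w u p k i 1 + c 2 * rel0 s w u p k i 2
      - c 0 * rel0 s w u p k i 0 - c 2 * rel0 s w u p k i 2 = c 1 * rel0 s w u p k i 1 := by ring
  rw [h6] at h5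
  exact h5

/-- Points with `w ∉ Q`. Proof. `p, s ∈ Q` (`rel_ab`); `r_2 ∈ Q` and `w ∉ Q` give `u a ^ (k - i - 1) b ^ (k - i) ∉ Q`, so `b ∉ Q`, `a ∈ Q`, so `k - i - 1 = 0`, `r_2 = w + u b`, `u ∉ Q`.
`∂/∂b` of the relation (`NH.Ind2Aux.der_sq`, relations in `Q`): `- c_0 a - (k - 1) c_1 a ^ k b ^ (k - 2) + u c_2 ∈ Q`, so `c_2 ∈ Q`. `∂/∂a`: `- c_0 b - k c_1 a ^ (k - 1) b ^ (k - 1) ∈ Q`,
`k ≥ 2`, so `c_0 ∈ Q`. Then `c_1 r_1 ∈ Q ^ 2`: `ind_last`. -/
theorem ind_unit (hp : p.Prime) (hk : 2 ≤ k) (hi : i < k)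
    (hpQ : (C (p : ℤ) : MvPolynomial (V0 σ) ℤ) ∈ Q) (hrel : ∀ j, rel0 s w u p k i j ∈ Q)
    (hw : jl w ∉ Q) (c : Fin 3 → MvPolynomial (V0 σ) ℤ)
    (hc : ∑ j, c j * rel0 s w u p k i j ∈ Q ^ 2) : ∀ j, c j ∈ Q := by
  obtain ⟨hab, hs⟩ := rel_ab hpQ hrel
  have hP : Q.IsPrime := inferInstance
  have hr2 : jl w + C u * va σ ^ (k - i - 1) * vb σ ^ (k - i) ∈ Q := hrel 2
  have hu1 : C u * va σ ^ (k - i - 1) * vb σ ^ (k - i) ∉ Q := by
    intro h
    apply hw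
    have h1 := Q.sub_mem hr2 h
    rwa [add_sub_cancel_right] at h1
  have hb : vb σ ∉ Q := by
    intro h
    apply hu1
    apply Q.mul_mem_left
    exact Ideal.pow_mem_of_mem Q h _ (by omega)
  have ha : va σ ∈ Q := hab.resolve_right fun h => hb h.2
  have hki : k - i - 1 = 0 := by
    by_contra h
    apply hu1
    apply Q.mul_mem_right
    apply Q.mul_mem_left
    exact Ideal.pow_mem_of_mem Q ha _ (by omega)
  have hu : (C u : MvPolynomial (V0 σ) ℤ) ∉ Q := by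
    intro h
    apply hu1
    apply Q.mul_mem_right
    exact Q.mul_mem_right _ h
  have hik : i = k - 1 := by omega
  obtain ⟨κ, _, φ, hφ⟩ := wdc_res Q
  have hφa : φ (va σ) = 0 := (hφ _).2 ha
  have hdb := NH.Ind2Aux.der_rel (pderiv (Sum.inr 1)) Q φ (fun x hx => (hφ x).2 hx) _ c hrel hc
  have hda := NH.Ind2Aux.der_rel (pderiv (Sum.inr 0)) Q φ (fun x hx => (hφ x).2 hx) _ c hrel hc
  have e0 : rel0 s w u p k i 0 = jl s - va σ * vb σ := rfl
  have e1 : rel0 s w u p k i 1 = C (p : ℤ) - va σ ^ (i + 1) * vb σ ^ i := rfl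
  have e2 : rel0 s w u p k i 2 = jl w + C u * va σ ^ (k - i - 1) * vb σ ^ (k - i) := rfl
  have hki' : k - i = 1 := by omega
  rw [hki', Nat.sub_self, pow_zero, mul_one, pow_one] at e2
  rw [Fin.sum_univ_three, e0, e1, e2] at hdb hda
  have c2 : c 2 ∈ Q := by
    have h0 : φ (pderiv (Sum.inr 1) (jl s - va σ * vb σ)) = 0 := by
      rw [map_sub, wdc_b_s, Derivation.leibniz, wdc_bb, wdc_ba, smul_eq_mul, smul_eq_mul]
      simp [hφa]
    have h1 : φ (pderiv (Sum.inr 1) (C (p : ℤ) - va σ ^ (i + 1) * vb σ ^ i)) = 0 := by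
      rw [map_sub, pderiv_C, Derivation.leibniz, smul_eq_mul, smul_eq_mul,
        Derivation.leibniz_pow (pderiv (Sum.inr 1)) (va σ), wdc_ba, smul_zero, smul_zero, mul_zero,
        add_zero, zero_sub, map_neg, map_mul, map_pow, hφa]
      simp
    have h2 : φ (pderiv (Sum.inr 1) (jl w + C u * vb σ)) = φ (C u) := by
      rw [map_add, wdc_b_s, zero_add, pderiv_C_mul, wdc_bb, mul_one]
    rw [h0, h1, h2, mul_zero, mul_zero, zero_add, zero_add] at hdb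
    rcases mul_eq_zero.1 hdb with h | h
    · exact (hφ _).1 h
    · exact absurd ((hφ _).1 h) hu
  have c0 : c 0 ∈ Q := by
    have h0 : φ (pderiv (Sum.inr 0) (jl s - va σ * vb σ)) = - φ (vb σ) := by
      rw [map_sub, wdc_b_s, Derivation.leibniz, wdc_ab, wdc_aa, smul_eq_mul, smul_eq_mul]
      simp
    have h1 : φ (pderiv (Sum.inr 0) (C (p : ℤ) - va σ ^ (i + 1) * vb σ ^ i)) = 0 := by
      rw [map_sub, pderiv_C, Derivation.leibniz, smul_eq_mul, smul_eq_mul,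
        Derivation.leibniz_pow (pderiv (Sum.inr 0)) (va σ),
        Derivation.leibniz_pow (pderiv (Sum.inr 0)) (vb σ), wdc_ab, wdc_aa, smul_zero, smul_zero,
        mul_zero, zero_add, zero_sub, map_neg, map_mul, smul_eq_mul, mul_one, nsmul_eq_mul,
        map_mul, map_pow, map_pow, hφa]
      have h5 : i + 1 - 1 ≠ 0 := by omega
      rw [zero_pow h5]
      simp
    have h2 : φ (pderiv (Sum.inr 0) (jl w + C u * vb σ)) = 0 := by
      rw [map_add, wdc_b_s, zero_add, pderiv_C_mul, wdc_ab, mul_zero, map_zero]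
    rw [h0, h1, h2, mul_zero, mul_zero, add_zero, add_zero, mul_neg, neg_eq_zero] at hda
    rcases mul_eq_zero.1 hda with h | h
    · exact (hφ _).1 h
    · exact absurd ((hφ _).1 h) hb
  have c1 : c 1 ∈ Q := ind_last hp hpQ hab (hrel 1) (wdc_sq hrel hc c0 c2)
  intro j
  fin_cases j
  · exact c0
  · exact c1
  · exact c2

/-- Transversal points. Proof. `∂/∂x_c'` (`c' ∈ σ`; `pderiv_rename`): `c_0 ∂_c' s + c_2 ∂_c' w ∈ Q` for all `c'`; with `c' = c, b` and the minor: `c_0 · minor ∈ Q`,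
`c_2 · minor ∈ Q`. Then `c_1 r_1 ∈ Q ^ 2`: `ind_last`. -/
theorem ind_tr (hp : p.Prime) (hi : i < k)
    (hpQ : (C (p : ℤ) : MvPolynomial (V0 σ) ℤ) ∈ Q) (hrel : ∀ j, rel0 s w u p k i j ∈ Q)
    {c' b' : σ} (hm : jl (vm s w c' b') ∉ Q) (c : Fin 3 → MvPolynomial (V0 σ) ℤ)
    (hc : ∑ j, c j * rel0 s w u p k i j ∈ Q ^ 2) : ∀ j, c j ∈ Q := by
  obtain ⟨hab, hs⟩ := rel_ab hpQ hrel
  obtain ⟨κ, _, φ, hφ⟩ := wdc_res Q
  have hd : ∀ d : σ, φ (c 0) * φ (jl (pderiv d s)) + φ (c 2) * φ (jl (pderiv d w)) = 0 := by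
    intro d
    have h := NH.Ind2Aux.der_rel (pderiv (Sum.inl d)) Q φ (fun x hx => (hφ x).2 hx) _ c hrel hc
    have e0 : rel0 s w u p k i 0 = jl s - va σ * vb σ := rfl
    have e1 : rel0 s w u p k i 1 = C (p : ℤ) - va σ ^ (i + 1) * vb σ ^ i := rfl
    have e2 : rel0 s w u p k i 2 = jl w + C u * va σ ^ (k - i - 1) * vb σ ^ (k - i) := rfl
    rw [Fin.sum_univ_three, e0, e1, e2] at h
    have h0 : pderiv (Sum.inl d) (jl s - va σ * vb σ) = jl (pderiv d s) := by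
      rw [map_sub, wdc_l_s, Derivation.leibniz, wdc_la, wdc_lb, smul_zero, smul_zero, add_zero,
        sub_zero]
    have h1 : pderiv (Sum.inl d) (C (p : ℤ) - va σ ^ (i + 1) * vb σ ^ i
        : MvPolynomial (V0 σ) ℤ) = 0 := by
      rw [map_sub, pderiv_C, Derivation.leibniz, Derivation.leibniz_pow (pderiv (Sum.inl d)) (va σ),
        Derivation.leibniz_pow (pderiv (Sum.inl d)) (vb σ), wdc_la, wdc_lb]
      simp
    have h2 : pderiv (Sum.inl d) (jl w + C u * va σ ^ (k - i - 1) * vb σ ^ (k - i)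
        : MvPolynomial (V0 σ) ℤ) = jl (pderiv d w) := by
      rw [map_add, wdc_l_s, mul_assoc, pderiv_C_mul, Derivation.leibniz,
        Derivation.leibniz_pow (pderiv (Sum.inl d)) (va σ),
        Derivation.leibniz_pow (pderiv (Sum.inl d)) (vb σ), wdc_la, wdc_lb]
      simp
    rw [h0, h1, h2, map_zero, mul_zero, add_zero] at h
    exact h
  have hvm : φ (jl (vm s w c' b')) = φ (jl (pderiv c' s)) * φ (jl (pderiv b' w))
      - φ (jl (pderiv c' w)) * φ (jl (pderiv b' s)) := by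
    have h1 : (jl (vm s w c' b') : MvPolynomial (V0 σ) ℤ) = jl (pderiv c' s) * jl (pderiv b' w)
      - jl (pderiv c' w) * jl (pderiv b' s) := by
      unfold vm
      rw [wdc_sub, wdc_mul, wdc_mul]
    rw [h1, map_sub, map_mul, map_mul]
  have hm' : φ (jl (vm s w c' b')) ≠ 0 := fun h => hm ((hφ _).1 h)
  have c0 : c 0 ∈ Q := by
    apply (hφ _).1
    have h : φ (c 0) * φ (jl (vm s w c' b')) = 0 := by
      rw [hvm]
      linear_combination φ (jl (pderiv b' w)) * hd c' - φ (jl (pderiv c' w)) * hd b'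
    exact (mul_eq_zero.1 h).resolve_right hm'
  have c2 : c 2 ∈ Q := by
    apply (hφ _).1
    have h : φ (c 2) * φ (jl (vm s w c' b')) = 0 := by
      rw [hvm]
      linear_combination φ (jl (pderiv c' s)) * hd b' - φ (jl (pderiv b' s)) * hd c'
    exact (mul_eq_zero.1 h).resolve_right hm'
  have c1 : c 1 ∈ Q := ind_last hp hpQ hab (hrel 1) (wdc_sq hrel hc c0 c2)
  intro j
  fin_cases j
  · exact c0
  · exact c1
  · exact c2

end Pool.Agent.PW
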