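import Pool.Agent.PW.CaE

set_option autoImplicit false

/-! # CAB: elements with invertible Jacobian matrix are parameters -/

namespace Pool.Agent.PW

open MvPolynomial Pool.Agent.NT9

variable {τ : Type} [Fintype τ]

/-- `p` and elements with invertible Jacobian matrix are parameters. Proof. `L = T / M` (a field), `χ` the projection. The matrix `(χ (∂_c η_j))_(j c)` has trivial kernel, so it is
invertible, so for `N ∈ M` there are `β_j ∈ T` with `∂_c N ≡ ∑ β_j ∂_c η_j` modulo `M` for all `c` (the transposed matrix is surjective). `N - ∑ β_j η_j ∈ M` has all its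
derivatives in `M`: `der_zero`. -/
theorem par_of_jac {M : Ideal (MvPolynomial τ ℤ)} [M.IsMaximal] {p : ℕ} (hp : p.Prime)
    (hpM : (C (p : ℤ) : MvPolynomial τ ℤ) ∈ M) {η : τ → MvPolynomial τ ℤ} (hη : ∀ j, η j ∈ M)
    (hJ : Jac M η) : Par M (C (p : ℤ)) η := by
  classical
  let _ : Field (MvPolynomial τ ℤ ⧸ M) := Ideal.Quotient.field M
  set χ := Ideal.Quotient.mk M with hχ
  have hker : ∀ t, χ t = 0 ↔ t ∈ M := fun t => Ideal.Quotient.eq_zero_iff_mem
  let A : Matrix τ τ (MvPolynomial τ ℤ ⧸ M) := Matrix.of fun j c => χ (pderiv c (η j))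
  have hdet : IsUnit A.det := by
    rw [isUnit_iff_ne_zero]
    intro h0
    obtain ⟨v, hv, hv0⟩ := Matrix.exists_mulVec_eq_zero_iff.2 h0
    apply hv
    refine hJ _ χ hker v fun j => ?_
    have := congrFun hv0 j
    simpa [Matrix.mulVec, dotProduct, A] using this
  refine ⟨hpM, hη, fun N hN => ?_⟩
  -- the coefficients
  let w : τ → MvPolynomial τ ℤ ⧸ M := fun c => χ (pderiv c N)
  obtain ⟨b, hb⟩ : ∃ b : τ → MvPolynomial τ ℤ ⧸ M, Matrix.vecMul b A = w := by
    refine ⟨Matrix.vecMul w A⁻¹, ?_⟩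
    rw [Matrix.vecMul_vecMul, Matrix.nonsing_inv_mul _ hdet, Matrix.vecMul_one]
  have hlift : ∀ j, ∃ β : MvPolynomial τ ℤ, χ β = b j := fun j => Ideal.Quotient.mk_surjective _
  choose β hβ using hlift
  have hder : ∀ c, pderiv c (N - ∑ j, β j * η j) ∈ M := by
    intro c
    rw [← hker, map_sub, map_sub, map_sum, map_sum]
    have h1 : ∀ j, χ (pderiv c (β j * η j)) = b j * A j c := by
      intro j
      rw [Derivation.leibniz, smul_eq_mul, smul_eq_mul, map_add, map_mul, map_mul, hβ,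
        (hker (η j)).2 (hη j), zero_mul, add_zero]
      rfl
    have h2 := congrFun hb c
    have h3 : ∑ j, b j * A j c = χ (pderiv c N) := h2
    rw [Finset.sum_congr rfl fun j _ => h1 j, h3, sub_self]
  obtain ⟨α, hα⟩ := der_zero hp hpM (M.sub_mem hN (M.sum_mem fun j _ => M.mul_mem_left _ (hη j)))
    hder
  have e : N = (C (p : ℤ) * α + ∑ j, β j * η j) + (N - ∑ j, β j * η j - C (p : ℤ) * α) := by ring
  rw [e]
  refine Submodule.add_mem_sup ?_ hα
  refine Ideal.add_mem _ ?_ (Ideal.sum_mem _ fun j _ => ?_)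
  · exact Ideal.mul_mem_right _ _ (Ideal.subset_span (Set.mem_insert _ _))
  · exact Ideal.mul_mem_left _ _ (Ideal.subset_span (Set.mem_insert_of_mem _ ⟨j, rfl⟩))

end Pool.Agent.PW
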