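import Pool.Agent.PW.Defs
import Pool.Agent.NT9.GeSub

set_option autoImplicit false

/-!
# ODP: ordinary double points of a scheme presented by a polynomial ring: definitions

`O` is the local ring at the maximal ideal `Q` of `T / J`, `T = ℤ[τ]`, in its field of fractions;
the parameters at `Q` are `z`, the `r k` and the `x i`; `z` and the `r k` vanish in `O`, and the
last relation is the quadratic form `∑ A i j x i x j`, which is smooth.
-/

namespace Pool.Agent.PW

open MvPolynomial Pool.Agent.NT9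

variable {τ κ ι : Type} [Fintype τ] [Fintype κ] [Fintype ι] {K : Type} [Field K]

/-- `O` is an ordinary double point. -/
structure Odp (e : κ ⊕ ι ≃ τ) (π : MvPolynomial τ ℤ →+* K) (Q : Ideal (MvPolynomial τ ℤ))
    (z : MvPolynomial τ ℤ) (r : κ → MvPolynomial τ ℤ) (x : ι → MvPolynomial τ ℤ)
    (A : ι → ι → MvPolynomial τ ℤ) (O : Subring K) : Prop where
  par : Par Q z fun t => Sum.elim r x (e.symm t)
  memQ : ∀ t, t ∈ Q ↔ π t ∈ mx O
  poly : ∀ t, π t ∈ O
  z0 : π z = 0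
  r0 : ∀ k, π (r k) = 0
  fr : ∀ y ∈ O, ∃ g h : MvPolynomial τ ℤ, π h ≠ 0 ∧ (π h)⁻¹ ∈ O ∧ y * π h = π g
  sm : SmF A Q
  quad : ∑ i, ∑ j, π (A i j) * π (x i) * π (x j) = 0
  tor : ∃ d, π d ≠ 0 ∧ ∀ t, π t = 0 → ∃ N : ℕ, d ^ N * t ∈
    Ideal.span (insert z (insert (∑ i, ∑ j, A i j * x i * x j) (Set.range r)))

/-- The variables of the charts of the blow up: `inl t` the old variables, `inr none = Y` the
generator of the exceptional ideal, `inr (some j) = V_j`. -/
abbrev VO (τ ι : Type) : Type := τ ⊕ Option ι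

noncomputable abbrev oY (τ ι : Type) : MvPolynomial (VO τ ι) ℤ := X (Sum.inr none)
noncomputable abbrev oV (τ : Type) {ι : Type} (j : ι) : MvPolynomial (VO τ ι) ℤ :=
  X (Sum.inr (some j))
noncomputable abbrev ol (ι : Type) {τ : Type} (h : MvPolynomial τ ℤ) : MvPolynomial (VO τ ι) ℤ :=
  rename Sum.inl h

/-- The strict transform of the quadratic form. -/
noncomputable def oG (A : ι → ι → MvPolynomial τ ℤ) : MvPolynomial (VO τ ι) ℤ :=
  ∑ i, ∑ j, ol ι (A i j) * oV τ i * oV τ j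

/-- The relations of the chart of `x b`: `V_b = 1`, `∑ A_ij V_i V_j = 0`, `z = 0`, `r_k = 0`,
`x_j = Y V_j`. -/
noncomputable def relO (z : MvPolynomial τ ℤ) (r : κ → MvPolynomial τ ℤ)
    (x : ι → MvPolynomial τ ℤ) (A : ι → ι → MvPolynomial τ ℤ) (b : ι) :
    Fin 2 ⊕ (Option κ ⊕ ι) → MvPolynomial (VO τ ι) ℤ
  | Sum.inl 0 => oV τ b - 1
  | Sum.inl 1 => oG A
  | Sum.inr (Sum.inl none) => ol ι z
  | Sum.inr (Sum.inl (some k)) => ol ι (r k)
  | Sum.inr (Sum.inr j) => ol ι (x j) - oY τ ι * oV τ j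

/-- The evaluation of the chart. -/
noncomputable def piO (π : MvPolynomial τ ℤ →+* K) (Y : K) (V : ι → K) :
    MvPolynomial (VO τ ι) ℤ →+* K :=
  ((aeval (Sum.elim (fun t => π (X t)) (fun o : Option ι => o.elim Y V)) :
    MvPolynomial (VO τ ι) ℤ →ₐ[ℤ] K) : MvPolynomial (VO τ ι) ℤ →+* K)

end Pool.Agent.PW
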