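import Pool.Agent.PW.Defs
import Pool.Agent.PW.OdpDefs
import Pool.Agent.NT9.GeCotB

set_option autoImplicit false

/-! # CTF: the singular points over a contact point: the quadratic form -/

namespace Pool.Agent.PW

open MvPolynomial Pool.Agent.NT9

variable {σ : Type} [Fintype σ] [DecidableEq σ]

/-- The bijection of the parameters with the variables. -/
def ctE (c : σ) : Unit ⊕ ({j : σ // j ≠ c} ⊕ Fin 2) ≃ V0 σ where
  toFun := Sum.elim (fun _ => Sum.inl c) (Sum.elim (fun j => Sum.inl j.1) (fun t => Sum.inr t))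
  invFun := Sum.elim (fun b => if h : b = c then Sum.inl () else Sum.inr (Sum.inl ⟨b, h⟩))
    (fun t => Sum.inr (Sum.inr t))
  left_inv := by
    rintro (_ | j | t)
    · simp
    · simp [j.2]
    · simp
  right_inv := by
    rintro (b | t)
    · by_cases h : b = c
      · simp [h]
      · simp [h]
    · simp

/-- The quadratic form `∑ q_jk v_j v_k + y th`. -/
noncomputable def ctQ {c : σ} (q : {j : σ // j ≠ c} → {j : σ // j ≠ c} → MvPolynomial σ ℤ) :
    {j : σ // j ≠ c} ⊕ Fin 2 → {j : σ // j ≠ c} ⊕ Fin 2 → MvPolynomial (V0 σ) ℤ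
  | Sum.inl j, Sum.inl k => jl (q j k)
  | Sum.inr 0, Sum.inr 1 => 1
  | _, _ => 0

/-- The form is smooth. Proof: for `v` in the singular radical, `∂/∂y`: `v (inr 1) = 0`, `∂/∂th`: `v (inr 0) = 0`; then the rest is in the singular radical of `q` (over `χ ∘ jl`, which kills
`M`). -/
theorem ctQ_sm {c : σ} {q : {j : σ // j ≠ c} → {j : σ // j ≠ c} → MvPolynomial σ ℤ}
    {M : Ideal (MvPolynomial σ ℤ)} (hq : SmF q M) {Q : Ideal (MvPolynomial (V0 σ) ℤ)}
    (hMQ : ∀ m ∈ M, jl m ∈ Q) : SmF (ctQ q) Q := by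
  intro L _ χ hχ v h1 h2
  have e00 : (ctQ q (Sum.inr 0) (Sum.inr 0)) = 0 := rfl
  have e01 : (ctQ q (Sum.inr 0) (Sum.inr 1)) = 1 := rfl
  have e10 : (ctQ q (Sum.inr 1) (Sum.inr 0)) = 0 := rfl
  have e11 : (ctQ q (Sum.inr 1) (Sum.inr 1)) = 0 := rfl
  have ejk : ∀ j k, (ctQ q (Sum.inl j) (Sum.inl k)) = jl (q j k) := fun j k => rfl
  have ejt : ∀ j t, (ctQ q (Sum.inl j) (Sum.inr t)) = 0 := fun j t => rfl
  have et0 : ∀ k, (ctQ q (Sum.inr 0) (Sum.inl k)) = 0 := fun k => rfl
  have et1 : ∀ k, (ctQ q (Sum.inr 1) (Sum.inl k)) = 0 := fun k => rfl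
  have hv1 : v (Sum.inr 1) = 0 := by
    have h3 := h2 (Sum.inr 0)
    rw [Fintype.sum_sum_type, Fin.sum_univ_two] at h3
    simp only [e00, e01, e10, ejt, et0, add_zero, map_zero, zero_mul, Finset.sum_const_zero,
      zero_add, map_one, one_mul] at h3
    exact h3
  have hv0 : v (Sum.inr 0) = 0 := by
    have h3 := h2 (Sum.inr 1)
    rw [Fintype.sum_sum_type, Fin.sum_univ_two] at h3
    simp only [e11, e01, e10, ejt, et1, add_zero, map_zero, zero_mul, Finset.sum_const_zero,
      zero_add, map_one, one_mul] at h3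
    exact h3
  have h4 := hq L (χ.comp (rename (Sum.inl : σ → V0 σ) :
    MvPolynomial σ ℤ →ₐ[ℤ] MvPolynomial (V0 σ) ℤ).toRingHom) (fun m hm => hχ _ (hMQ m hm))
    (fun j => v (Sum.inl j)) ?_ ?_
  · funext x
    rcases x with j | t
    · exact congrFun h4 j
    · fin_cases t
      · exact hv0
      · exact hv1
  · rw [Fintype.sum_sum_type] at h1
    simp only [Fintype.sum_sum_type, Fin.sum_univ_two, hv0, hv1, mul_zero, zero_mul, add_zero,
      ejk, Finset.sum_const_zero] at h1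
    exact h1
  · intro j
    have h3 := h2 (Sum.inl j)
    simp only [Fintype.sum_sum_type, Fin.sum_univ_two, hv0, hv1, mul_zero, add_zero, ejk] at h3
    rw [← h3]
    refine Finset.sum_congr rfl fun k _ => ?_
    show χ (jl (q j k + q k j)) * v (Sum.inl k) = _
    have h5 : jl (q j k + q k j) = jl (q j k) + jl (q k j) := map_add _ _ _
    rw [h5]

variable {s w : MvPolynomial σ ℤ} {u : ℤ} {p k i : ℕ} {K : Type} [Field K]
  {θ : MvPolynomial σ ℤ →+* K} {a b : K} {O : Subring K}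

end Pool.Agent.PW
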