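import Pool.Agent.PW.Defs
import Pool.Agent.NT9.GeSub
import Pool.Agent.NT9.GeCotA

set_option autoImplicit false

/-! # CAD: finite residue fields -/

namespace Pool.Agent.PW

open MvPolynomial Pool.Agent.NT9

variable {τ : Type} [Fintype τ] {K : Type} [Field K]

/-- The residue field is finite. Proof: `T / Q` is finite (`NT9.finite_quot`); representatives `π t`: `x π h = π g`, `h ∉ Q`, so `h h' ≡ 1` modulo `Q` for some `h'`, and
`x - π (g h') = (π h)⁻¹ (π g - π (h g h'))`, `g - h g h' ∈ Q`. -/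
theorem finRes_of_max {π : MvPolynomial τ ℤ →+* K} {Q : Ideal (MvPolynomial τ ℤ)} [Q.IsMaximal]
    {p : ℕ} (hp : p.Prime) (hpQ : (C (p : ℤ) : MvPolynomial τ ℤ) ∈ Q) {O : Subring K}
    [IsLocalRing O] (hpoly : ∀ t, π t ∈ O) (hQ : ∀ t, t ∈ Q ↔ π t ∈ mx O)
    (hfr : ∀ x ∈ O, ∃ g h : MvPolynomial τ ℤ, π h ≠ 0 ∧ (π h)⁻¹ ∈ O ∧ x * π h = π g) :
    FinRes O := by
  classical
  have hQM : Q.IsMaximal := inferInstance
  have hfin : Finite (MvPolynomial τ ℤ ⧸ Q) := finite_quot hp hpQ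
  have hfin' : Fintype (MvPolynomial τ ℤ ⧸ Q) := Fintype.ofFinite _
  refine ⟨(Finset.univ : Finset (MvPolynomial τ ℤ ⧸ Q)).image fun q => π (Quotient.out q), ?_⟩
  intro x hx
  obtain ⟨g, h, hh0, hhO, hxh⟩ := hfr x hx
  have hn : π h ∉ mx O := (notMem_mx_iff (hpoly h)).2 ⟨hh0, hhO⟩
  have hhQ : h ∉ Q := fun hh => hn ((hQ h).1 hh)
  obtain ⟨h', m, hm, e⟩ := hQM.exists_inv hhQ
  have hk : x - π (g * h') ∈ mx O := by
    have h1 : (x - π (g * h')) * π h ∈ mx O := by
      have h2 : (x - π (g * h')) * π h = π (g * m) := by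
        have h3 : π h' * π h + π m = 1 := by rw [← map_mul, ← map_add, e, map_one]
        rw [sub_mul, hxh, map_mul, map_mul]
        linear_combination (-π g) * h3
      rw [h2]
      exact (hQ _).1 (Q.mul_mem_left _ hm)
    rcases mx_prime (O.sub_mem hx (hpoly _)) (hpoly h) h1 with h2 | h2
    · exact h2
    · exact absurd h2 hn
  refine ⟨π (Quotient.out (Ideal.Quotient.mk Q (g * h'))), ?_, hpoly _, ?_⟩
  · exact Finset.mem_image.2 ⟨_, Finset.mem_univ _, rfl⟩
  · have h1 : g * h' - Quotient.out (Ideal.Quotient.mk Q (g * h')) ∈ Q := by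
      rw [← Ideal.Quotient.eq]
      exact (Ideal.Quotient.mk_out (Ideal.Quotient.mk Q (g * h'))).symm
    have h2 := mx_add hk ((hQ _).1 h1)
    rw [map_sub] at h2
    have h3 : x - π (Quotient.out (Ideal.Quotient.mk Q (g * h'))) =
      x - π (g * h') + (π (g * h') - π (Quotient.out (Ideal.Quotient.mk Q (g * h')))) := by ring
    rw [h3]
    exact h2

end Pool.Agent.PW
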