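import Pool.Agent.PW.OdpDefs
import Pool.Agent.NT9.GeBlc

set_option autoImplicit false

/-! # ODPB: evaluation and fractions in the charts -/

namespace Pool.Agent.PW

open MvPolynomial Pool.Agent.NT9

variable {τ κ ι : Type} [Fintype τ] [Fintype κ] [Fintype ι] {K : Type} [Field K]

/-- Proof: induction on `h` or `MvPolynomial.ringHom_ext`; compare `NH.CHART2_pi_il`. -/
theorem piO_ol (π : MvPolynomial τ ℤ →+* K) (Y : K) (V : ι → K) (h : MvPolynomial τ ℤ) :
    piO π Y V (ol ι h) = π h := by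
  have h1 : (piO π Y V).comp (rename Sum.inl : MvPolynomial τ ℤ →ₐ[ℤ] _).toRingHom = π := by
    apply MvPolynomial.ringHom_ext
    · intro r
      simp [piO]
    · intro i
      simp [piO]
  exact congrArg (fun f => f h) h1

theorem piO_Y (π : MvPolynomial τ ℤ →+* K) (Y : K) (V : ι → K) : piO π Y V (oY τ ι) = Y := by
  simp [piO]

theorem piO_V (π : MvPolynomial τ ℤ →+* K) (Y : K) (V : ι → K) (j : ι) :
    piO π Y V (oV τ j) = V j := by
  simp [piO]

theorem piO_mem (π : MvPolynomial τ ℤ →+* K) {Y : K} {V : ι → K} {O : Subring K}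
    (h1 : ∀ h, π h ∈ O) (hY : Y ∈ O) (hV : ∀ i, V i ∈ O) (t : MvPolynomial (VO τ ι) ℤ) :
    piO π Y V t ∈ O := by
  induction t using MvPolynomial.induction_on with
  | C a =>
    have h2 : piO π Y V (C a) = (a : K) := by simp [piO]
    rw [h2]
    exact intCast_mem O a
  | add p q hp hq =>
    rw [map_add]
    exact O.add_mem hp hq
  | mul_X p n hp =>
    rw [map_mul]
    refine O.mul_mem hp ?_
    rcases n with t | _ | j
    · have h2 : piO π Y V (X (Sum.inl t)) = π (X t) := by simp [piO]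
      rw [h2]
      exact h1 _
    · rw [piO_Y]
      exact hY
    · rw [piO_V]
      exact hV j

/-- Fractions in the chart of `x b`: `Y = π (x b)`, `V j = π (x j) / π (x b)`. Proof: `F = frSub (piO π Y V) O'` contains `O` (`y π h = π g`, `frSub_inv` for `π h`) and the quotients
`V j`, and is closed under the inverses in `O'` (`frSub_inv`); the last property of `Ch`. -/
theorem odp_fr {e : κ ⊕ ι ≃ τ} {π : MvPolynomial τ ℤ →+* K} {Q : Ideal (MvPolynomial τ ℤ)}
    {z : MvPolynomial τ ℤ} {r : κ → MvPolynomial τ ℤ} {x : ι → MvPolynomial τ ℤ}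
    {A : ι → ι → MvPolynomial τ ℤ} {O O' : Subring K} (h : Odp e π Q z r x A O) {b : ι}
    (hch : Ch O O' (fun i => π (x i)) b) {Y : K} {V : ι → K} (hY : Y = π (x b))
    (hV : ∀ j, V j = π (x j) / π (x b)) :
    ∀ y ∈ O', ∃ g h : MvPolynomial (VO τ ι) ℤ, piO π Y V h ≠ 0 ∧ (piO π Y V h)⁻¹ ∈ O' ∧
      y * piO π Y V h = piO π Y V g := by
  obtain ⟨-, hle, -, -, hmin⟩ := hch
  have h1 : O' ≤ frSub (piO π Y V) O' := by
    refine hmin _ ?_ ?_ (fun x hx hxO => frSub_inv _ _ x hx hxO)
    · intro y hy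
      obtain ⟨g, q, hq0, hq, hyq⟩ := h.fr y hy
      exact ⟨ol ι g, ol ι q, by rw [piO_ol]; exact hq0, by rw [piO_ol]; exact hle hq,
        by rw [piO_ol, piO_ol]; exact hyq⟩
    · intro j
      have h2 := map_mem_frSub (piO π Y V) O' (oV τ j)
      rw [piO_V, hV] at h2
      exact h2
  intro y hy
  exact h1 hy

end Pool.Agent.PW
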