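import Pool.Agent.PW.OdpDefs

set_option autoImplicit false

/-! # ODPC: reduction modulo the relations of the chart -/

namespace Pool.Agent.PW

open MvPolynomial Pool.Agent.NT9

variable {τ κ ι : Type} [Fintype τ] [Fintype κ] [Fintype ι]

section OdpCAux

variable (z : MvPolynomial τ ℤ) (r : κ → MvPolynomial τ ℤ) (x : ι → MvPolynomial τ ℤ)
    (A : ι → ι → MvPolynomial τ ℤ) (b : ι)

omit [Fintype τ] [Fintype κ] in
private theorem oc_mk {t s : MvPolynomial (VO τ ι) ℤ}
    (h : t - s ∈ Ideal.span (Set.range (relO z r x A b))) :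
    Ideal.Quotient.mk (Ideal.span (Set.range (relO z r x A b))) t =
      Ideal.Quotient.mk (Ideal.span (Set.range (relO z r x A b))) s :=
  (Ideal.Quotient.mk_eq_mk_iff_sub_mem _ _).2 h

omit [Fintype τ] [Fintype κ] in
private theorem oc_x (j : ι) : Ideal.Quotient.mk (Ideal.span (Set.range (relO z r x A b)))
    (ol ι (x j)) = Ideal.Quotient.mk (Ideal.span (Set.range (relO z r x A b))) (oY τ ι) *
      Ideal.Quotient.mk (Ideal.span (Set.range (relO z r x A b))) (oV τ j) := by
  rw [← map_mul]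
  exact oc_mk z r x A b (Ideal.subset_span ⟨Sum.inr (Sum.inr j), rfl⟩)

omit [Fintype τ] [Fintype κ] in
private theorem oc_b : Ideal.Quotient.mk (Ideal.span (Set.range (relO z r x A b)))
    (oV τ b) = 1 := by
  rw [← map_one (Ideal.Quotient.mk (Ideal.span (Set.range (relO z r x A b))))]
  exact oc_mk z r x A b (Ideal.subset_span ⟨Sum.inl 0, rfl⟩)

omit [Fintype τ] [Fintype κ] in
private theorem oc_Y : Ideal.Quotient.mk (Ideal.span (Set.range (relO z r x A b)))
    (ol ι (x b)) = Ideal.Quotient.mk (Ideal.span (Set.range (relO z r x A b))) (oY τ ι) := by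
  rw [oc_x, oc_b, mul_one]

end OdpCAux

/-- Modulo the relations `Y ≡ Y V_b ≡ x_b` and `x_b V_j ≡ Y V_j ≡ x_j`; so `x_b ^ N t ≡ ol h`. Induction on `t`: for products with a variable one more factor `x_b` (or none)
suffices. -/
theorem o_red (z : MvPolynomial τ ℤ) (r : κ → MvPolynomial τ ℤ) (x : ι → MvPolynomial τ ℤ)
    (A : ι → ι → MvPolynomial τ ℤ) (b : ι) (t : MvPolynomial (VO τ ι) ℤ) :
    ∃ (N : ℕ) (h : MvPolynomial τ ℤ), ol ι (x b) ^ N * t - ol ι h ∈
      Ideal.span (Set.range (relO z r x A b)) := by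
  induction t using MvPolynomial.induction_on with
  | C a =>
    refine ⟨0, C a, ?_⟩
    rw [pow_zero, one_mul, ol, rename_C, sub_self]
    exact Ideal.zero_mem _
  | add p q hp hq =>
    obtain ⟨N, h, h1⟩ := hp
    obtain ⟨M, g, h2⟩ := hq
    refine ⟨N + M, x b ^ M * h + x b ^ N * g, ?_⟩
    have e : ol ι (x b) ^ (N + M) * (p + q) - ol ι (x b ^ M * h + x b ^ N * g) =
        ol ι (x b) ^ M * (ol ι (x b) ^ N * p - ol ι h) +
          ol ι (x b) ^ N * (ol ι (x b) ^ M * q - ol ι g) := by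
      simp only [ol, map_add, map_mul, map_pow]
      ring
    rw [e]
    exact Ideal.add_mem _ (Ideal.mul_mem_left _ _ h1) (Ideal.mul_mem_left _ _ h2)
  | mul_X p n hp =>
    obtain ⟨N, h, h1⟩ := hp
    rcases n with t | _ | j
    · refine ⟨N, h * X t, ?_⟩
      have e : ol ι (x b) ^ N * (p * X (Sum.inl t)) - ol ι (h * X t) =
          X (Sum.inl t) * (ol ι (x b) ^ N * p - ol ι h) := by
        simp only [ol, map_mul, rename_X]
        ring
      rw [e]
      exact Ideal.mul_mem_left _ _ h1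
    · refine ⟨N, h * x b, ?_⟩
      rw [← Ideal.Quotient.mk_eq_mk_iff_sub_mem]
      have h2 := oc_mk z r x A b h1
      have h3 := oc_Y z r x A b
      simp only [ol, map_mul, map_pow] at h2 h3 ⊢
      rw [← mul_assoc, h2, h3]
    · refine ⟨N + 1, h * x j, ?_⟩
      rw [← Ideal.Quotient.mk_eq_mk_iff_sub_mem]
      have h2 := oc_mk z r x A b h1
      have h3 := oc_Y z r x A b
      have h4 := oc_x z r x A b j
      simp only [ol, map_mul, map_pow] at h2 h3 h4 ⊢
      rw [h4, ← h3, ← h2, pow_succ]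
      ring

/-- `∑ A_ij x_i x_j ≡ Y ^ 2 ∑ A_ij V_i V_j ≡ 0`. -/
theorem o_quad (z : MvPolynomial τ ℤ) (r : κ → MvPolynomial τ ℤ) (x : ι → MvPolynomial τ ℤ)
    (A : ι → ι → MvPolynomial τ ℤ) (b : ι) :
    ol ι (∑ i, ∑ j, A i j * x i * x j) ∈ Ideal.span (Set.range (relO z r x A b)) := by
  rw [← Ideal.Quotient.eq_zero_iff_mem]
  have h1 : Ideal.Quotient.mk (Ideal.span (Set.range (relO z r x A b))) (oG A) = 0 :=
    Ideal.Quotient.eq_zero_iff_mem.2 (Ideal.subset_span ⟨Sum.inl 1, rfl⟩)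
  have h4 := oc_x z r x A b
  simp only [oG, ol, map_sum, map_mul] at h1 h4 ⊢
  have h2 : ∀ i j, Ideal.Quotient.mk (Ideal.span (Set.range (relO z r x A b)))
      (rename Sum.inl (A i j)) * Ideal.Quotient.mk _ (rename Sum.inl (x i)) *
        Ideal.Quotient.mk _ (rename Sum.inl (x j)) =
      Ideal.Quotient.mk (Ideal.span (Set.range (relO z r x A b))) (oY τ ι) ^ 2 *
        (Ideal.Quotient.mk (Ideal.span (Set.range (relO z r x A b)))
      (rename Sum.inl (A i j)) * Ideal.Quotient.mk _ (oV τ i) *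
        Ideal.Quotient.mk _ (oV τ j)) := by
    intro i j
    rw [h4, h4]
    ring
  simp only [h2, ← Finset.mul_sum]
  rw [h1, mul_zero]

/-- The ideal generated by `z`, the form and the `r k` goes into the ideal of the relations (`Ideal.map` / `Submodule.span_induction`, `o_quad`). -/
theorem o_map (z : MvPolynomial τ ℤ) (r : κ → MvPolynomial τ ℤ) (x : ι → MvPolynomial τ ℤ)
    (A : ι → ι → MvPolynomial τ ℤ) (b : ι) {t : MvPolynomial τ ℤ}
    (ht : t ∈ Ideal.span (insert z (insert (∑ i, ∑ j, A i j * x i * x j) (Set.range r)))) :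
    ol ι t ∈ Ideal.span (Set.range (relO z r x A b)) := by
  have h1 : Ideal.span (insert z (insert (∑ i, ∑ j, A i j * x i * x j) (Set.range r))) ≤
      (Ideal.span (Set.range (relO z r x A b))).comap
        (rename Sum.inl : MvPolynomial τ ℤ →ₐ[ℤ] MvPolynomial (VO τ ι) ℤ) := by
    rw [Ideal.span_le]
    intro y hy
    rcases Set.mem_insert_iff.1 hy with rfl | hy
    · exact Ideal.subset_span ⟨Sum.inr (Sum.inl none), rfl⟩
    · rcases Set.mem_insert_iff.1 hy with rfl | ⟨k, rfl⟩
      · exact o_quad z r x A b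
      · exact Ideal.subset_span ⟨Sum.inr (Sum.inl (some k)), rfl⟩
  exact h1 ht

end Pool.Agent.PW
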