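import Pool.Agent.PW.OdpDefs
import Pool.Agent.NT9.GeCotB

set_option autoImplicit false

/-! # ODPD: independence of the relations -/

namespace Pool.Agent.PW

open MvPolynomial Pool.Agent.NT9

variable {τ κ ι : Type} [Fintype τ] [Fintype κ] [Fintype ι] {K : Type} [Field K]

private theorem od_der {R T μ : Type} [CommRing R] [CommRing T] [Algebra R T] [Fintype μ]
    (D : Derivation R T T) (P : Ideal T)
    (rel a : μ → T) (hrel : ∀ n, rel n ∈ P) (ha : ∑ n, a n * rel n ∈ P ^ 2) :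
    ∑ n, a n * D (rel n) ∈ P := by
  have h1 := NH.Ind2Aux.der_sq D P ha
  rw [map_sum] at h1
  have h2 : ∑ n, a n * D (rel n) = ∑ n, D (a n * rel n) - ∑ n, rel n * D (a n) := by
    rw [← Finset.sum_sub_distrib]
    refine Finset.sum_congr rfl fun n _ => ?_
    rw [Derivation.leibniz, smul_eq_mul, smul_eq_mul]
    ring
  rw [h2]
  exact P.sub_mem h1 (P.sum_mem fun n _ => P.mul_mem_right _ (hrel n))

omit [Fintype τ] [Fintype κ] in
private theorem od_ol (c : Option ι) (h : MvPolynomial τ ℤ) :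
    pderiv (Sum.inr c) (ol ι h) = 0 := NH.Ind2Aux.pderiv_inr_rename h c

private theorem od_V [DecidableEq ι] (i j : ι) :
    pderiv (Sum.inr (some i)) (oV τ j) = if j = i then 1 else 0 := by
  classical
  rw [NH.Ind2Aux.pderiv_inr_X]
  simp

private theorem od_YV (i : ι) : pderiv (Sum.inr (some i)) (oY τ ι) = 0 := by
  classical
  rw [NH.Ind2Aux.pderiv_inr_X]
  simp

private theorem od_YY : pderiv (Sum.inr none) (oY τ ι) = 1 := by
  classical
  rw [NH.Ind2Aux.pderiv_inr_X]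
  simp

private theorem od_VY (j : ι) : pderiv (Sum.inr none) (oV τ j) = 0 := by
  classical
  rw [NH.Ind2Aux.pderiv_inr_X]
  simp

private theorem od_G [DecidableEq ι] (A : ι → ι → MvPolynomial τ ℤ) (i : ι) :
    pderiv (Sum.inr (some i)) (oG A) = ∑ j, ol ι (A i j + A j i) * oV τ j := by
  have h1 : ∀ k j, pderiv (Sum.inr (some i)) (ol ι (A k j) * oV τ k * oV τ j) =
      (if j = i then ol ι (A k j) * oV τ k else 0) +
        (if k = i then ol ι (A k j) * oV τ j else 0) := by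
    intro k j
    rw [Derivation.leibniz, Derivation.leibniz, od_ol, od_V, od_V]
    simp only [smul_eq_mul]
    split_ifs <;> ring
  unfold oG
  simp only [map_sum, h1, Finset.sum_add_distrib, Finset.sum_ite_eq', Finset.mem_univ, if_true]
  rw [Finset.sum_comm (f := fun k j => if k = i then ol ι (A k j) * oV τ j else 0)]
  simp only [Finset.sum_ite_eq', Finset.mem_univ, if_true, ol, map_add, add_mul,
    Finset.sum_add_distrib]
  exact add_comm _ _

private theorem od_GY (A : ι → ι → MvPolynomial τ ℤ) :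
    pderiv (Sum.inr none) (oG A) = 0 := by
  have h1 : ∀ k j, pderiv (Sum.inr none) (ol ι (A k j) * oV τ k * oV τ j) = 0 := by
    intro k j
    rw [Derivation.leibniz, Derivation.leibniz, od_ol, od_VY, od_VY]
    simp
  unfold oG
  simp only [map_sum, h1, Finset.sum_const_zero]

private theorem od_sum {M : Type} [AddCommMonoid M] (f : Fin 2 ⊕ (Option κ ⊕ ι) → M) :
    ∑ n, f n = f (Sum.inl 0) + f (Sum.inl 1) + (f (Sum.inr (Sum.inl none)) +
      ∑ k, f (Sum.inr (Sum.inl (some k))) + ∑ j, f (Sum.inr (Sum.inr j))) := by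
  rw [Fintype.sum_sum_type, Fin.sum_univ_two, Fintype.sum_sum_type, Fintype.sum_option]

/-- Independence. Write `a (inl 0) = α`, `a (inl 1) = γ`, `a (inr (inl none)) = ζ`, `a (inr (inl (some k))) = ρ_k`, `a (inr (inr j)) = δ_j`.
1. `∂/∂V_i` (`i ≠ b`): `γ ∂_i G - δ_i Y ∈ P` (all relations are in `P`; `NH.Ind2Aux.der_sq`), `Y ∈ P`, `∂_i G = ∑ j, ol (A i j + A j i) V_j ∉ P`, so `γ ∈ P`.
2. `∂/∂V_b`: `α + γ ∂_b G - δ_b Y ∈ P`, so `α ∈ P`.
3. So `ζ z + ∑ ρ_k r_k + ∑ δ_j (x_j - Y V_j) ∈ P ^ 2`; `∂/∂Y`: `- ∑ δ_j V_j ∈ P`, and `Y ∑ δ_j V_j ∈ P ^ 2`; so `ζ z + ∑ ρ_k r_k + ∑ δ_j x_j ∈ P ^ 2`: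
`NT9.cot_indep` with `Par Q z (fun t => Sum.elim r x (e.symm t))`, `β_t = Sum.elim ρ δ (e.symm t)`. -/
theorem o_ind [DecidableEq ι] (e : κ ⊕ ι ≃ τ) {Q : Ideal (MvPolynomial τ ℤ)} [Q.IsMaximal]
    {p : ℕ} (hp : p.Prime) (hpQ : (C (p : ℤ) : MvPolynomial τ ℤ) ∈ Q) {z : MvPolynomial τ ℤ}
    {r : κ → MvPolynomial τ ℤ} {x : ι → MvPolynomial τ ℤ} {A : ι → ι → MvPolynomial τ ℤ}
    (hpar : Par Q z fun t => Sum.elim r x (e.symm t)) {b : ι}
    (P : Ideal (MvPolynomial (VO τ ι) ℤ)) [P.IsPrime] (hQP : ∀ m ∈ Q, ol ι m ∈ P)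
    (hY : oY τ ι ∈ P) (hrel : ∀ i, relO z r x A b i ∈ P) {i : ι} (hib : i ≠ b)
    (hi : ∑ j, ol ι (A i j + A j i) * oV τ j ∉ P)
    (a : Fin 2 ⊕ (Option κ ⊕ ι) → MvPolynomial (VO τ ι) ℤ)
    (ha : ∑ i, a i * relO z r x A b i ∈ P ^ 2) : ∀ i, a i ∈ P := by
  have hprime : P.IsPrime := inferInstance
  -- derivatives with respect to the `V`
  have hdV : ∀ c : ι, a (Sum.inl 0) * (if b = c then 1 else 0) +
      a (Sum.inl 1) * (∑ j, ol ι (A c j + A j c) * oV τ j) ∈ P := by
    intro c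
    have h1 := od_der (pderiv (Sum.inr (some c))) P _ a hrel ha
    rw [od_sum] at h1
    simp only [relO, map_sub, Derivation.map_one_eq_zero, od_V, od_G, od_ol, Derivation.leibniz,
      od_YV, smul_eq_mul, mul_zero, add_zero, sub_zero, Finset.sum_const_zero, zero_add,
      zero_sub] at h1
    have h2 : ∑ j, a (Sum.inr (Sum.inr j)) * -(oY τ ι * if j = c then 1 else 0) ∈ P :=
      P.sum_mem fun j _ => P.mul_mem_left _ (P.neg_mem (P.mul_mem_right _ hY))
    have h3 := P.sub_mem h1 h2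
    rwa [add_sub_cancel_right] at h3
  -- `γ`
  have hγ : a (Sum.inl 1) ∈ P := by
    have h1 := hdV i
    rw [if_neg (Ne.symm hib), mul_zero, zero_add] at h1
    exact (hprime.mem_or_mem h1).resolve_right hi
  -- `α`
  have hα : a (Sum.inl 0) ∈ P := by
    have h1 := hdV b
    rw [if_pos rfl, mul_one] at h1
    have h2 := P.sub_mem h1 (P.mul_mem_right (∑ j, ol ι (A b j + A j b) * oV τ j) hγ)
    rwa [add_sub_cancel_right] at h2
  -- derivative with respect to `Y`
  have hdY : ∑ j, a (Sum.inr (Sum.inr j)) * oV τ j ∈ P := by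
    have h1 := od_der (pderiv (Sum.inr none)) P _ a hrel ha
    rw [od_sum] at h1
    simp only [relO, map_sub, Derivation.map_one_eq_zero, od_VY, od_GY, od_ol,
      Derivation.leibniz, od_YY, smul_eq_mul, mul_zero, add_zero, sub_zero,
      Finset.sum_const_zero, zero_add, zero_sub, mul_one, mul_neg, Finset.sum_neg_distrib] at h1
    exact neg_mem_iff.1 h1
  have hsq : ∀ {s t : MvPolynomial (VO τ ι) ℤ}, s ∈ P → t ∈ P → s * t ∈ P ^ 2 := by
    intro s t hs ht
    rw [sq]
    exact Ideal.mul_mem_mul hs ht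
  -- the relation between the parameters
  have h3 : a (Sum.inr (Sum.inl none)) * ol ι z +
      (∑ k, a (Sum.inr (Sum.inl (some k))) * ol ι (r k) +
        ∑ j, a (Sum.inr (Sum.inr j)) * ol ι (x j)) ∈ P ^ 2 := by
    have h4 : a (Sum.inr (Sum.inl none)) * ol ι z +
      (∑ k, a (Sum.inr (Sum.inl (some k))) * ol ι (r k) +
        ∑ j, a (Sum.inr (Sum.inr j)) * ol ι (x j)) =
        ∑ i, a i * relO z r x A b i - a (Sum.inl 0) * relO z r x A b (Sum.inl 0) -
          a (Sum.inl 1) * relO z r x A b (Sum.inl 1) +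
          oY τ ι * ∑ j, a (Sum.inr (Sum.inr j)) * oV τ j := by
      rw [od_sum (fun i => a i * relO z r x A b i), Finset.mul_sum]
      have h5 : ∑ j, a (Sum.inr (Sum.inr j)) * relO z r x A b (Sum.inr (Sum.inr j)) =
          ∑ j, a (Sum.inr (Sum.inr j)) * ol ι (x j) -
            ∑ j, oY τ ι * (a (Sum.inr (Sum.inr j)) * oV τ j) := by
        rw [← Finset.sum_sub_distrib]
        refine Finset.sum_congr rfl fun j _ => ?_
        simp only [relO]
        ring
      rw [h5]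
      simp only [relO]
      ring
    rw [h4]
    exact Ideal.add_mem _ (Ideal.sub_mem _ (Ideal.sub_mem _ ha (hsq hα (hrel _)))
      (hsq hγ (hrel _))) (hsq hY hdY)
  have h4 := cot_indep hp hpQ hpar (ι := (Sum.inl : τ → VO τ ι)) Sum.inl_injective P hQP
    (α := a (Sum.inr (Sum.inl none)))
    (β := fun t => Sum.elim (fun k => a (Sum.inr (Sum.inl (some k))))
      (fun j => a (Sum.inr (Sum.inr j))) (e.symm t)) (by
      rw [← Fintype.sum_equiv e (fun t => Sum.elim (fun k => a (Sum.inr (Sum.inl (some k))))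
        (fun j => a (Sum.inr (Sum.inr j))) t * rename Sum.inl (Sum.elim r x t)) _
        (fun t => by rw [Equiv.symm_apply_apply]), Fintype.sum_sum_type]
      simp only [Sum.elim_inl, Sum.elim_inr]
      exact h3)
  obtain ⟨h5, h6⟩ := h4
  rintro (n | (_ | k) | j)
  · fin_cases n
    · exact hα
    · exact hγ
  · exact h5
  · have := h6 (e (Sum.inl k))
    simpa using this
  · have := h6 (e (Sum.inr j))
    simpa using this

end Pool.Agent.PW
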