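import Pool.Agent.PW.OdpDefs
import Pool.Agent.NT9.GeCotB

set_option autoImplicit false

/-! # ODPS: smoothness of the exceptional divisor -/

namespace Pool.Agent.PW

open MvPolynomial Pool.Agent.NT9

variable {τ κ ι : Type} [Fintype τ] [Fintype κ] [Fintype ι] {K : Type} [Field K]

private theorem osEuler {ι L : Type} [Fintype ι] [Field L] (A : ι → ι → L) (v : ι → L) :
    ∑ i, v i * ∑ j, (A i j + A j i) * v j = 2 * ∑ i, ∑ j, A i j * v i * v j := by
  have h1 : ∑ i, v i * ∑ j, (A i j + A j i) * v j =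
      ∑ i, ∑ j, A i j * v i * v j + ∑ i, ∑ j, A j i * v j * v i := by
    rw [← Finset.sum_add_distrib]
    refine Finset.sum_congr rfl fun i _ => ?_
    rw [Finset.mul_sum, ← Finset.sum_add_distrib]
    exact Finset.sum_congr rfl fun j _ => by ring
  have h2 : ∑ i, ∑ j, A j i * v j * v i = ∑ i, ∑ j, A i j * v i * v j := Finset.sum_comm
  rw [h1, h2]
  ring

/-- Some derivative of the strict transform is a unit. Proof. Otherwise in the residue field `L` of `O` (`NT9.res`, `χ = res ∘ π`; `v j` the class of `V j`): `∑_ij χ (A i j) v i v j = 0`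
and `∑ j χ (A i j + A j i) v j = 0` for all `i ≠ b`; by Euler (`2 G = ∑ v_i ∂_i G`, `G = 0`, `v b = 1`) also for `i = b`; so `v = 0` by `SmF`, but `v b = 1`. Compare `NT9.sm_v`. -/
theorem o_sm {π : MvPolynomial τ ℤ →+* K} {Q : Ideal (MvPolynomial τ ℤ)}
    {A : ι → ι → MvPolynomial τ ℤ} (hA : SmF A Q) {O : Subring K} [IsLocalRing O]
    (hpoly : ∀ h, π h ∈ O) (hQ : ∀ h ∈ Q, π h ∈ mx O) {b : ι} {V : ι → K}
    (hV : ∀ i, V i ∈ O) (hVb : V b = 1) (hG : ∑ i, ∑ j, π (A i j) * V i * V j = 0) :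
    ∃ i, i ≠ b ∧ ∑ j, π (A i j + A j i) * V j ∉ mx O := by
  classical
  by_contra hcon
  push Not at hcon
  let χ : MvPolynomial τ ℤ →+* IsLocalRing.ResidueField O := (res O).comp (π.codRestrict O hpoly)
  let v : ι → IsLocalRing.ResidueField O := fun i => res O ⟨V i, hV i⟩
  have hχ0 : ∀ m ∈ Q, χ m = 0 := fun m hm =>
    (res_eq_zero (O := O) (π.codRestrict O hpoly m)).2 (hQ m hm)
  have g1 : ∑ i, ∑ j, χ (A i j) * v i * v j = 0 := by
    have h : (∑ i, ∑ j, π.codRestrict O hpoly (A i j) * ⟨V i, hV i⟩ * ⟨V j, hV j⟩ : O) = 0 := by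
      apply Subtype.ext
      rw [ZeroMemClass.coe_zero, ← hG]
      push_cast
      rfl
    have h2 := congrArg (res O) h
    rw [map_zero] at h2
    rw [← h2]
    simp only [map_sum, map_mul]
    rfl
  have g2 : ∀ i, i ≠ b → ∑ j, χ (A i j + A j i) * v j = 0 := by
    intro i hi
    have h1 : ((∑ j, π.codRestrict O hpoly (A i j + A j i) * ⟨V j, hV j⟩ : O) : K) ∈ mx O := by
      have h3 : ((∑ j, π.codRestrict O hpoly (A i j + A j i) * ⟨V j, hV j⟩ : O) : K) =
          ∑ j, π (A i j + A j i) * V j := by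
        push_cast
        rfl
      rw [h3]
      exact hcon i hi
    have h2 := (res_eq_zero _).2 h1
    rw [← h2]
    simp only [map_sum, map_mul]
    rfl
  have hvb : v b = 1 := by
    have : (⟨V b, hV b⟩ : O) = 1 := Subtype.ext hVb
    show res O ⟨V b, hV b⟩ = 1
    rw [this, map_one]
  have hE := osEuler (fun i j => χ (A i j)) v
  rw [g1, mul_zero, Finset.sum_eq_single b (fun i _ hi => by
    have := g2 i hi
    simp only [map_add] at this
    rw [this, mul_zero]) (fun h => absurd (Finset.mem_univ b) h), hvb, one_mul] at hE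
  have g3 : ∀ i, ∑ j, χ (A i j + A j i) * v j = 0 := by
    intro i
    by_cases hi : i = b
    · rw [hi]
      simp only [map_add]
      exact hE
    · exact g2 i hi
  have h0 := congrFun (hA (IsLocalRing.ResidueField O) χ hχ0 v g1 g3) b
  rw [hvb, Pi.zero_apply] at h0
  exact one_ne_zero h0

end Pool.Agent.PW
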