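import Pool.Agent.PW.OdpA
import Pool.Agent.PW.OdpB
import Pool.Agent.PW.OdpC
import Pool.Agent.PW.OdpD
import Pool.Agent.PW.OdpS
import Pool.Agent.NodHyp.Loc

set_option autoImplicit false

/-! # ODPE: the blow up of an ordinary double point is regular -/

namespace Pool.Agent.PW

open MvPolynomial Pool.Agent.NT9

variable {τ κ ι : Type} [Fintype τ] [Fintype κ] [Fintype ι] {K : Type} [Field K]

/-- The blow up of an ordinary double point is regular. Proof. `NT9.bl_chart` with `g i = π (x i)` (`odp_mem`, `odp_gen`): some `b` with `Ch O O' g b`. `Y = π (x b)`, `V j = π (x j) / Y`,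
`V b = 1`. `NH.regular_of_pres` for `O'` with `T = MvPolynomial (VO τ ι) ℤ`, `piO π Y V`, the relations `relO`, the element `ol (d * x b)` (`d` from `tor`), `odp_fr`, `piO_mem`;
`piO (relO ..) = 0` (`oG`: divide `quad` by `Y ^ 2`); torsion: `piO t = 0`: `o_red`: `x_b ^ N t ≡ ol h`, so `π h = 0`, `d ^ N' h ∈ span ..`, `o_map`; independence: `o_ind`, `o_sm`
(`P` is the preimage of `mx O'`: `t ∈ P ↔ piO t ∈ mx O'`; `mx O ≤ mx O'` by `Ch`). -/
theorem odp_blow {e : κ ⊕ ι ≃ τ} {π : MvPolynomial τ ℤ →+* K} {Q : Ideal (MvPolynomial τ ℤ)}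
    [Q.IsMaximal] {p : ℕ} (hp : p.Prime) (hpQ : (C (p : ℤ) : MvPolynomial τ ℤ) ∈ Q)
    {z : MvPolynomial τ ℤ} {r : κ → MvPolynomial τ ℤ} {x : ι → MvPolynomial τ ℤ}
    {A : ι → ι → MvPolynomial τ ℤ} {O O' : Subring K} [IsLocalRing O] [IsLocalRing O']
    (h : Odp e π Q z r x A O) (hbl : IsBl O O') : IsRegularLocalRing O' := by
  classical
  obtain ⟨b, hch⟩ := bl_chart hbl (g := fun i => π (x i)) (odp_mem h) (odp_gen h)
  have hY0 : π (x b) ≠ 0 := hch.1
  have hle : O ≤ O' := hch.2.1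
  have hdom : ∀ y ∈ mx O, y ∈ mx O' := hch.2.2.1
  have hpoly : ∀ t, π t ∈ O' := fun t => hle (h.poly t)
  have hQ : ∀ m ∈ Q, π m ∈ mx O' := fun m hm => hdom _ ((h.memQ m).1 hm)
  have hV : ∀ j, π (x j) / π (x b) ∈ O' := hch.2.2.2.1
  have hYm : π (x b) ∈ mx O' := hdom _ (odp_mem h b)
  have hxj : ∀ j, π (x j) = π (x b) * (π (x j) / π (x b)) := fun j =>
    (mul_div_cancel₀ _ hY0).symm
  have hG : ∑ i, ∑ j, π (A i j) * (π (x i) / π (x b)) * (π (x j) / π (x b)) = 0 := by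
    have h1 : π (x b) ^ 2 * ∑ i, ∑ j, π (A i j) * (π (x i) / π (x b)) * (π (x j) / π (x b)) =
        ∑ i, ∑ j, π (A i j) * π (x i) * π (x j) := by
      rw [Finset.mul_sum]
      refine Finset.sum_congr rfl fun i _ => ?_
      rw [Finset.mul_sum]
      refine Finset.sum_congr rfl fun j _ => ?_
      conv_rhs => rw [hxj i, hxj j]
      ring
    rw [h.quad] at h1
    exact (mul_eq_zero.1 h1).resolve_left (pow_ne_zero 2 hY0)
  let V : ι → K := fun j => π (x j) / π (x b)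
  have hπ : ∀ t, piO π (π (x b)) V t ∈ O' := piO_mem π hpoly hYm.1 hV
  have hg : ∀ n, piO π (π (x b)) V (relO z r x A b n) = 0 := by
    rintro (n | (_ | k) | j)
    · fin_cases n
      · show piO π (π (x b)) V (oV τ b - 1) = 0
        rw [map_sub, piO_V, map_one]
        show π (x b) / π (x b) - 1 = 0
        rw [div_self hY0, sub_self]
      · show piO π (π (x b)) V (oG A) = 0
        simp only [oG, map_sum, map_mul, piO_ol, piO_V]
        exact hG
    · show piO π (π (x b)) V (ol ι z) = 0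
      rw [piO_ol, h.z0]
    · show piO π (π (x b)) V (ol ι (r k)) = 0
      rw [piO_ol, h.r0]
    · show piO π (π (x b)) V (ol ι (x j) - oY τ ι * oV τ j) = 0
      rw [map_sub, map_mul, piO_ol, piO_Y, piO_V, ← hxj, sub_self]
  obtain ⟨d, hd0, hd⟩ := h.tor
  have hmul : ∀ s t : MvPolynomial τ ℤ, (ol ι (s * t) : MvPolynomial (VO τ ι) ℤ) =
      ol ι s * ol ι t := fun s t => map_mul _ s t
  have hpw : ∀ (s : MvPolynomial τ ℤ) (N : ℕ), (ol ι (s ^ N) : MvPolynomial (VO τ ι) ℤ) =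
      ol ι s ^ N := fun s N => map_pow _ s N
  refine NH.regular_of_pres O' (piO π (π (x b)) V) hπ (odp_fr h hch rfl fun j => rfl)
    (relO z r x A b) hg (ol ι (d * x b)) ?_ ?_ ?_
  · rw [piO_ol, map_mul]
    exact mul_ne_zero hd0 hY0
  · intro t ht
    obtain ⟨N, q, hN⟩ := o_red z r x A b t
    have hle : Ideal.span (Set.range (relO z r x A b)) ≤ RingHom.ker (piO π (π (x b)) V) :=
      Ideal.span_le.mpr (by
        rintro _ ⟨i, rfl⟩
        exact hg i)
    have h1 : piO π (π (x b)) V (ol ι (x b) ^ N * t - ol ι q) = 0 := hle hN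
    rw [map_sub, map_mul, ht, mul_zero, zero_sub, neg_eq_zero, piO_ol] at h1
    obtain ⟨M, hM⟩ := hd q h1
    have h2 := o_map z r x A b hM
    refine ⟨N + M, ?_⟩
    rw [hmul, hpw] at h2
    have h3 : (ol ι (d * x b) : MvPolynomial (VO τ ι) ℤ) ^ (N + M) * t =
        (ol ι d ^ (N + M) * ol ι (x b) ^ M) * (ol ι (x b) ^ N * t - ol ι q) +
          (ol ι d ^ N * ol ι (x b) ^ M) * (ol ι d ^ M * ol ι q) := by
      rw [hmul]
      ring
    rw [h3]
    exact Ideal.add_mem _ (Ideal.mul_mem_left _ _ hN) (Ideal.mul_mem_left _ _ h2)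
  · intro P hP hmem a ha
    have hm : ∀ t, t ∈ P ↔ piO π (π (x b)) V t ∈ mx O' := by
      intro t
      rw [hmem]
      exact ⟨fun h => ⟨hπ t, h⟩, fun h => h.2⟩
    obtain ⟨i, hib, hi⟩ := o_sm h.sm hpoly hQ hV (div_self hY0) hG
    refine o_ind e hp hpQ h.par P ?_ ?_ ?_ hib ?_ a ha
    · intro m hm'
      rw [hm, piO_ol]
      exact hQ m hm'
    · rw [hm, piO_Y]
      exact hYm
    · intro n
      rw [hm, hg]
      exact zero_mem_mx
    · rw [hm]
      simp only [map_sum, map_mul, piO_ol, piO_V]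
      exact hi

end Pool.Agent.PW
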