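import Pool.Agent.PW.Defs
import Pool.Agent.NT9.GeDefs

set_option autoImplicit false

/-! # TML: a power of `z` in the Jacobian ideal, locally -/

namespace Pool.Agent.PW

open MvPolynomial Pool.Agent.NT9

variable {σ : Type} [Fintype σ] {K : Type} [Field K]

omit [Fintype σ] in
private theorem TmL_prime {Q : Ideal (MvPolynomial σ ℤ)} (hQ : Q.IsPrime) {N : ℤ} (h0 : N ≠ 0)
    (hN : (C N : MvPolynomial σ ℤ) ∈ Q) : ∃ p : ℕ, p.Prime ∧ (C (p : ℤ) : MvPolynomial σ ℤ) ∈ Q := by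
  have hP : (Q.comap (C : ℤ →+* MvPolynomial σ ℤ)).IsPrime := Ideal.comap_isPrime _ _
  have hbot : Q.comap (C : ℤ →+* MvPolynomial σ ℤ) ≠ ⊥ := by
    intro h
    have h1 : N ∈ Q.comap (C : ℤ →+* MvPolynomial σ ℤ) := hN
    rw [h, Ideal.mem_bot] at h1
    exact h0 h1
  have h2 := Submodule.IsPrincipal.prime_generator_of_isPrime _ hbot
  have h3 := Submodule.IsPrincipal.generator_mem (Q.comap (C : ℤ →+* MvPolynomial σ ℤ))
  set g := Submodule.IsPrincipal.generator (Q.comap (C : ℤ →+* MvPolynomial σ ℤ))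
  refine ⟨g.natAbs, Int.prime_iff_natAbs_prime.1 h2, ?_⟩
  have h4 : ((g.natAbs : ℕ) : ℤ) ∈ Q.comap (C : ℤ →+* MvPolynomial σ ℤ) := by
    rcases Int.natAbs_eq g with h | h
    · rw [← h]; exact h3
    · have : ((g.natAbs : ℕ) : ℤ) = -g := by omega
      rw [this]
      exact neg_mem h3
  exact h4

omit [Fintype σ] in
private theorem TmL_cop {Q : Ideal (MvPolynomial σ ℤ)} (hQ : Q ≠ ⊤) {p : ℕ}
    (hpQ : (C (p : ℤ) : MvPolynomial σ ℤ) ∈ Q) {N : ℤ} (hN : (C N : MvPolynomial σ ℤ) ∈ Q) :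
    ¬ IsCoprime (p : ℤ) N := by
  rintro ⟨a, b, hab⟩
  apply hQ
  rw [Ideal.eq_top_iff_one]
  have h1 : (1 : MvPolynomial σ ℤ) = C a * C (p : ℤ) + C b * C N := by
    rw [← C_mul, ← C_mul, ← C_add, hab, C_1]
  rw [h1]
  exact Ideal.add_mem _ (Ideal.mul_mem_left _ _ hpQ) (Ideal.mul_mem_left _ _ hN)

/-- Local version of `NT9.exists_L`. Proof. Otherwise there is a prime ideal `Q ⊇ I = (f, ∂ f)` disjoint from the multiplicative set of the `s z ^ L`, `s ∉ M`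
(`Ideal.exists_le_prime_disjoint`). So `Q ≤ M`, `N ∈ Q`, so a prime number `p'` is in `Q ≤ M`, `p' = p`; by `hiso` `Q = M ∋ z`, but `z = 1 · z ^ 1` is not in `Q`. -/
theorem exists_L' {f : MvPolynomial σ ℤ} (hN : ∃ N : ℤ, N ≠ 0 ∧ (C N : MvPolynomial σ ℤ) ∈
      Ideal.span {f} ⊔ Ideal.span (Set.range fun i => pderiv i f)) {p : ℕ} (hp : p.Prime)
    {M : Ideal (MvPolynomial σ ℤ)} [M.IsMaximal] (hpM : C (p : ℤ) ∈ M)
    (hiso : ∀ Q : Ideal (MvPolynomial σ ℤ), Q.IsPrime → Q ≤ M → C (p : ℤ) ∈ Q →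
      f ∈ Q → (∀ i, pderiv i f ∈ Q) → Q = M)
    {z : MvPolynomial σ ℤ} (hz : z ∈ M) : ∃ (L : ℕ) (s : MvPolynomial σ ℤ), s ∉ M ∧
      s * z ^ L ∈ Ideal.span {f} ⊔ Ideal.span (Set.range fun i => pderiv i f) := by
  classical
  by_contra hcon
  push Not at hcon
  set I := Ideal.span {f} ⊔ Ideal.span (Set.range fun i => pderiv i f) with hI
  let S : Submonoid (MvPolynomial σ ℤ) :=
    { carrier := {x | ∃ (s : MvPolynomial σ ℤ) (L : ℕ), s ∉ M ∧ x = s * z ^ L}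
      one_mem' := ⟨1, 0, fun h => (‹M.IsMaximal›.ne_top) ((Ideal.eq_top_iff_one _).2 h), by simp⟩
      mul_mem' := by
        rintro _ _ ⟨s, L, hs, rfl⟩ ⟨s', L', hs', rfl⟩
        refine ⟨s * s', L + L', ?_, by ring⟩
        intro h
        rcases ‹M.IsMaximal›.isPrime.mem_or_mem h with h | h
        · exact hs h
        · exact hs' h }
  have hdis : Disjoint (I : Set (MvPolynomial σ ℤ)) S := by
    rw [Set.disjoint_left]
    rintro _ hx ⟨s, L, hs, rfl⟩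
    exact hcon L s hs hx
  obtain ⟨Q, hQ, hIQ, hQS⟩ := Ideal.exists_le_prime_disjoint I S hdis
  have hQM : Q ≤ M := by
    intro x hx
    by_contra hxM
    exact Set.disjoint_left.1 hQS hx ⟨x, 0, hxM, by simp⟩
  have hfQ : f ∈ Q := hIQ (Ideal.mem_sup_left (Ideal.subset_span rfl))
  have hdQ : ∀ i, pderiv i f ∈ Q := fun i =>
    hIQ (Ideal.mem_sup_right (Ideal.subset_span ⟨i, rfl⟩))
  obtain ⟨N, hN0, hN1⟩ := hN
  obtain ⟨p', hp', hp'Q⟩ := TmL_prime hQ hN0 (hIQ hN1)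
  have hpp : p = p' := by
    by_contra hne
    exact TmL_cop (‹M.IsMaximal›.ne_top) hpM (hQM hp'Q)
      (Nat.isCoprime_iff_coprime.2 ((Nat.coprime_primes hp hp').2 hne))
  rw [← hpp] at hp'Q
  have hQeq : Q = M := hiso Q hQ hQM hp'Q hfQ hdQ
  have hzQ : z ∈ (Q : Set (MvPolynomial σ ℤ)) := by rw [hQeq]; exact hz
  refine Set.disjoint_left.1 hQS hzQ ⟨1, 1, ?_, by simp⟩
  exact fun h => (‹M.IsMaximal›.ne_top) ((Ideal.eq_top_iff_one _).2 h)

end Pool.Agent.PW
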