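import Pool.Agent.PW.TmB
import Pool.Agent.PW.TmL
import Pool.Agent.EvM.EmFinal
import Pool.Agent.EvM.ExTz

set_option autoImplicit false

/-! # TMC: resolution of the points over prime numbers of the first kind -/

namespace Pool.Agent.PW

open MvPolynomial Pool.Agent.NT9

variable {σ : Type} [Fintype σ] {K : Type} [Field K] [CharZero K]

/-- Resolution of a point. Proof. `tame_point`: `q`, `p`; `TameL`: case `TV`: `init_tv`, `NT9.exists_blow` (`NT9.Stage.finRes`) and `NT9.point_v`; case `TZ`: `init_tz`, `exists_L'` for `z`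
(`z ∈ q` from `Stage.par`), `NT9.resolve` with `J = 0`, `k = L`. Compare `NT9.resolution`. Case
`Cor1`: `EvM.chart_crk` reduces it to the case `TZ` or to `EvM.crk_res_of`. -/
theorem tame_resolve (hσ : 2 ≤ Fintype.card σ) {f : MvPolynomial σ ℤ}
    {θ : MvPolynomial σ ℤ →+* K} (hker : RingHom.ker θ = Ideal.span {f})
    (hN : ∃ N : ℤ, N ≠ 0 ∧ (C N : MvPolynomial σ ℤ) ∈
      Ideal.span {f} ⊔ Ideal.span (Set.range fun i => pderiv i f)) {O : Subring K}
    [IsLocalRing O] (hfr : IsFr θ.range O)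
    (hT : ∀ p : ℕ, p.Prime → (p : K) ∈ mx O → TameL f p) (hnr : ¬ IsRegularLocalRing O)
    {Mo : Submodule ℤ K} (hfg : Mo.FG) (hO : O ∈ Loc Mo) :
    ∃ (Mo' : Submodule ℤ K) (E : ℕ), Mo'.FG ∧ 0 < E ∧ Com Mo' (Mo ^ E) ∧
      ∀ O' ∈ Loc Mo', IsRegularLocalRing O' ∨ (O' ∈ Loc Mo ∧ O' ≠ O) := by
  classical
  obtain ⟨q, p, hq, hqO, hp, hpq, hf2⟩ := tame_point hker hN hfr hT hnr
  have hpK : (p : K) ∈ mx O := by
    have h1 := (hqO _).1 hpq
    have h2 : θ (C (p : ℤ)) = (p : K) := by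
      have h3 : (θ.comp (C : ℤ →+* MvPolynomial σ ℤ)) (p : ℤ) = ((p : ℤ) : K) := eq_intCast _ _
      rw [RingHom.comp_apply] at h3
      rw [h3, Int.cast_natCast]
    rwa [h2] at h1
  rcases (hT p hp hpK).2 q hq hpq hf2 with hV | ⟨hZC, hiso⟩
  · obtain ⟨z, η, hS, hV'⟩ := init_tv hker hp hpq hf2 hV (fun h hh => (hqO h).1 hh) hfr
    obtain ⟨Mo2, E, hfg2, hE, hcom, hpts⟩ := exists_blow hfg hO (hS.finRes hp hpq)
    refine ⟨Mo2, E, hfg2, hE, hcom, fun O' hO' => ?_⟩
    have hloc' : IsLocalRing O' := hO'.1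
    rcases hpts O' hO' with h2 | h2
    · exact Or.inr h2
    · exact Or.inl (point_v hker hp hpq hS hV' h2)
  · have hZC' : TZ f q ∨ EvM.Crk f q := by
      rcases hZC with hZ | hC
      · exact Or.inl hZ
      · haveI : Nonempty σ := Fintype.card_pos_iff.1 (by omega)
        letI : Field (MvPolynomial σ ℤ ⧸ q) := Ideal.Quotient.field q
        have hχ : ∀ h, Ideal.Quotient.mk q h = 0 ↔ h ∈ q := fun h =>
          Ideal.Quotient.eq_zero_iff_mem
        exact EvM.chart_crk hp f q hpq hf2 (MvPolynomial σ ℤ ⧸ q) (Ideal.Quotient.mk q) hχ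
          Ideal.Quotient.mk_surjective (hC _ _ hχ)
    rcases hZC' with hZ | hC
    · obtain ⟨z, η, hS, hB⟩ := init_tz hker hp hpq hf2 hZ (fun h hh => (hqO h).1 hh) hfr
      obtain ⟨L, s, hs, hL⟩ := exists_L' hN hp hpq hiso hS.par.1
      exact resolve hker hp hpq hs hL L 0 η O Mo (by omega) hfg hO hS hB
    · exact EvM.crk_res_of hσ hker hp hpq (fun z hz => exists_L' hN hp hpq hiso hz) hf2 hC hqO
        hfr Mo hfg hO

end Pool.Agent.PW
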