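import Pool.Agent.PW.TmA

set_option autoImplicit false

/-! # TMF: finitely many points over prime numbers of the first kind are not regular -/

namespace Pool.Agent.PW

open MvPolynomial Pool.Agent.NT9

variable {σ : Type} [Fintype σ] {K : Type} [Field K]

omit [Fintype σ] in
private theorem TmF_cop {Q : Ideal (MvPolynomial σ ℤ)} (hQ : Q ≠ ⊤) {p : ℕ}
    (hpQ : (C (p : ℤ) : MvPolynomial σ ℤ) ∈ Q) {N : ℤ} (hN : (C N : MvPolynomial σ ℤ) ∈ Q) :
    ¬ IsCoprime (p : ℤ) N := by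
  rintro ⟨a, b, hab⟩
  apply hQ
  rw [Ideal.eq_top_iff_one]
  have h1 : (1 : MvPolynomial σ ℤ) = C a * C (p : ℤ) + C b * C N := by
    rw [← C_mul, ← C_mul, ← C_add, hab, C_1]
  rw [h1]
  exact Ideal.add_mem _ (Ideal.mul_mem_left _ _ hpQ) (Ideal.mul_mem_left _ _ hN)

omit [Fintype σ] in
private theorem TmF_der {q : Ideal (MvPolynomial σ ℤ)} {x : MvPolynomial σ ℤ} (hx : x ∈ q ^ 2)
    (i : σ) : pderiv i x ∈ q := by
  rw [pow_two] at hx
  refine Submodule.mul_induction_on hx ?_ ?_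
  · intro m hm n hn
    rw [Derivation.leibniz]
    exact Ideal.add_mem _ (Ideal.mul_mem_right _ _ hm) (Ideal.mul_mem_right _ _ hn)
  · intro x y hx hy
    rw [map_add]
    exact Ideal.add_mem _ hx hy

/-- Finitely many points. Proof. `O ↦ q` (`tame_point`) is injective (`NT9.eq_of_fr` with `A = θ.range`); `f ∈ q ^ 2` implies `f, ∂ f ∈ q`, so `N ∈ q`, `p ∣ N`: finitely many `p`, and for each
of them finitely many `q` by `TameL f p` (`C p ∈ q` gives `(p : K) ∈ mx O`). -/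
theorem tame_fin {f : MvPolynomial σ ℤ} {θ : MvPolynomial σ ℤ →+* K}
    (hker : RingHom.ker θ = Ideal.span {f})
    (hN : ∃ N : ℤ, N ≠ 0 ∧ (C N : MvPolynomial σ ℤ) ∈
      Ideal.span {f} ⊔ Ideal.span (Set.range fun i => pderiv i f)) :
    {O : Subring K | IsLocalRing O ∧ IsFr θ.range O ∧
      (∀ p : ℕ, p.Prime → (p : K) ∈ mx O → TameL f p) ∧ ¬ IsRegularLocalRing O}.Finite := by
  classical
  obtain ⟨N, hN0, hN1⟩ := hN
  have hfin : (⋃ p ∈ N.natAbs.primeFactors, {M : Ideal (MvPolynomial σ ℤ) | TameL f p ∧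
      M.IsMaximal ∧ C (p : ℤ) ∈ M ∧ f ∈ M ^ 2}).Finite := by
    refine Set.Finite.biUnion (Finset.finite_toSet _) fun p _ => ?_
    by_cases h : TameL f p
    · exact h.1.subset fun M hM => hM.2
    · exact Set.finite_empty.subset fun M hM => absurd hM.1 h
  have hspec : ∀ O ∈ {O : Subring K | IsLocalRing O ∧ IsFr θ.range O ∧
      (∀ p : ℕ, p.Prime → (p : K) ∈ mx O → TameL f p) ∧ ¬ IsRegularLocalRing O},
      ∃ q ∈ (⋃ p ∈ N.natAbs.primeFactors, {M : Ideal (MvPolynomial σ ℤ) | TameL f p ∧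
      M.IsMaximal ∧ C (p : ℤ) ∈ M ∧ f ∈ M ^ 2}), ∀ h, h ∈ q ↔ θ h ∈ mx O := by
    rintro O ⟨hloc, hfr, hT, hnr⟩
    obtain ⟨q, p, hqmax, hmem, hp, hpq, hf2⟩ := tame_point hker ⟨N, hN0, hN1⟩ hfr hT hnr
    have hpK : (p : K) ∈ mx O := by
      have h1 := (hmem _).1 hpq
      have h2 : θ (C (p : ℤ)) = (p : K) := by
        have h3 : (θ.comp (C : ℤ →+* MvPolynomial σ ℤ)) (p : ℤ) = ((p : ℤ) : K) := eq_intCast _ _
        rw [RingHom.comp_apply] at h3
        rw [h3, Int.cast_natCast]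
      rwa [h2] at h1
    have hIq : Ideal.span {f} ⊔ Ideal.span (Set.range fun i => pderiv i f) ≤ q := by
      refine sup_le ?_ ?_
      · rw [Ideal.span_le]
        rintro _ rfl
        exact Ideal.pow_le_self two_ne_zero hf2
      · rw [Ideal.span_le]
        rintro _ ⟨i, rfl⟩
        exact TmF_der hf2 i
    have hdvd : (p : ℤ) ∣ N := by
      by_contra hnd
      exact TmF_cop hqmax.ne_top hpq (hIq hN1)
        ((Nat.prime_iff_prime_int.1 hp).irreducible.coprime_iff_not_dvd.2 hnd)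
    refine ⟨q, ?_, hmem⟩
    simp only [Set.mem_iUnion]
    refine ⟨p, ?_, hT p hp hpK, hqmax, hpq, hf2⟩
    rw [Nat.mem_primeFactors]
    exact ⟨hp, Int.natCast_dvd.1 hdvd, Int.natAbs_ne_zero.2 hN0⟩
  choose! Φ hΦ1 hΦ2 using hspec
  refine Set.Finite.of_injOn (f := Φ) (t := _) (fun O hO => hΦ1 O hO) ?_ hfin
  intro O1 hO1 O2 hO2 h12
  refine eq_of_fr hO1.2.1 hO2.2.1 ?_
  rintro _ ⟨x, rfl⟩
  rw [← hΦ2 O1 hO1, ← hΦ2 O2 hO2, h12]

end Pool.Agent.PW
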