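import Pool.Agent.PW.Defs
import Pool.Agent.NT9.GeCotB

set_option autoImplicit false

/-! # CAA: the maximal ideal generated by `p` and the `x_c ^ q - x_c` -/

namespace Pool.Agent.PW

open MvPolynomial Pool.Agent.NT9

variable {τ : Type} [Fintype τ]

/-- Parameters at a maximal ideal. Proof. `NT9.finite_quot`: `T / M` is a finite field of characteristic `p`, with `q = p ^ r` elements (`FiniteField.card`), so
`x ^ q - x ∈ M` for all `x`, `C q ∈ M` (`r ≥ 1`). Let `I` be the ideal generated by `C p` and the `X c ^ q - X c`. For all `y`: `y ^ q - y ∈ I`, by `MvPolynomial.induction_on`: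
`C a`: `a ^ (p ^ r) ≡ a` modulo `p` (`ZMod.pow_card_pow` or `Int.ModEq`); sums: `(a + b) ^ (p ^ r) ≡ a ^ (p ^ r) + b ^ (p ^ r)` modulo `p`
(`add_pow_char_pow` in the quotient by `span {C p}`, or `exists_add_pow_prime_pow_eq`); `y * X c`:
`(y X) ^ q - y X = y ^ q (X ^ q - X) + X (y ^ q - y)`. So for `N ∈ M`: `N = N ^ q - (N ^ q - N) ∈ M ^ 2 ⊔ I`. -/
theorem par_frob {M : Ideal (MvPolynomial τ ℤ)} [M.IsMaximal] {p : ℕ} (hp : p.Prime)
    (hpM : (C (p : ℤ) : MvPolynomial τ ℤ) ∈ M) : ∃ q : ℕ, 2 ≤ q ∧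
      (C (q : ℤ) : MvPolynomial τ ℤ) ∈ M ∧ Par M (C (p : ℤ)) fun c => X c ^ q - X c := by
  have hfin := finite_quot hp hpM
  have hfact : Fact p.Prime := ⟨hp⟩
  let _ : Field (MvPolynomial τ ℤ ⧸ M) := Ideal.Quotient.field M
  let _ : Fintype (MvPolynomial τ ℤ ⧸ M) := Fintype.ofFinite _
  have hzero : ((p : ℕ) : MvPolynomial τ ℤ ⧸ M) = 0 := by
    have h := Ideal.Quotient.eq_zero_iff_mem.2 hpM
    simpa using h
  have hchar : CharP (MvPolynomial τ ℤ ⧸ M) p := (CharP.charP_iff_prime_eq_zero hp).2 hzero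
  obtain ⟨r, -, hr⟩ := FiniteField.card (MvPolynomial τ ℤ ⧸ M) p
  have hq2 : 2 ≤ p ^ (r : ℕ) := by
    calc 2 ≤ p := hp.two_le
      _ = p ^ 1 := (pow_one p).symm
      _ ≤ p ^ (r : ℕ) := Nat.pow_le_pow_right hp.pos r.pos
  have hmem : ∀ x : MvPolynomial τ ℤ, x ^ (p ^ (r : ℕ)) - x ∈ M := by
    intro x
    rw [← Ideal.Quotient.eq_zero_iff_mem, map_sub, map_pow, ← hr, FiniteField.pow_card, sub_self]
  refine ⟨p ^ (r : ℕ), hq2, ?_, hpM, fun c => hmem _, ?_⟩
  · obtain ⟨m, hm⟩ : ∃ m, (r : ℕ) = m + 1 := ⟨(r : ℕ) - 1, by have := r.pos; omega⟩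
    have e : (C ((p ^ (r : ℕ) : ℕ) : ℤ) : MvPolynomial τ ℤ) = C ((p : ℤ) ^ m) * C (p : ℤ) := by
      rw [hm, ← map_mul]
      congr 1
    rw [e]
    exact M.mul_mem_left _ hpM
  · set q := p ^ (r : ℕ) with hq
    set I : Ideal (MvPolynomial τ ℤ) := Ideal.span (insert (C (p : ℤ)) (Set.range
      fun c : τ => (X c : MvPolynomial τ ℤ) ^ q - X c)) with hI
    have hIM : I ≤ M := by
      rw [hI, Ideal.span_le]
      intro x hx
      rcases Set.mem_insert_iff.1 hx with rfl | ⟨c, rfl⟩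
      · exact hpM
      · exact hmem _
    have hne : Nontrivial (MvPolynomial τ ℤ ⧸ I) := by
      refine Ideal.Quotient.nontrivial_iff.mpr fun h => ?_
      have : M = ⊤ := top_le_iff.1 (h ▸ hIM)
      exact Ideal.IsMaximal.ne_top inferInstance this
    have hp0 : ((p : ℕ) : MvPolynomial τ ℤ ⧸ I) = 0 := by
      have h : Ideal.Quotient.mk I (C (p : ℤ)) = 0 :=
        Ideal.Quotient.eq_zero_iff_mem.2 (Ideal.subset_span (Set.mem_insert _ _))
      simpa using h
    have hcharI : CharP (MvPolynomial τ ℤ ⧸ I) p := (CharP.charP_iff_prime_eq_zero hp).2 hp0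
    have key : ∀ y : MvPolynomial τ ℤ, (Ideal.Quotient.mk I y) ^ q = Ideal.Quotient.mk I y := by
      intro y
      induction y using MvPolynomial.induction_on with
      | C a =>
        have h1 : ((a : ZMod p)) ^ (p ^ (r : ℕ)) = a := ZMod.pow_card_pow _
        have h2 : (p : ℤ) ∣ a ^ (p ^ (r : ℕ)) - a := by
          rw [← ZMod.intCast_zmod_eq_zero_iff_dvd]
          push_cast
          rw [h1, sub_self]
        obtain ⟨t, ht⟩ := h2
        rw [← map_pow, ← sub_eq_zero, ← map_sub, ← map_pow, ← map_sub, hq, ht, map_mul, map_mul]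
        have h3 : Ideal.Quotient.mk I (C (p : ℤ)) = 0 :=
          Ideal.Quotient.eq_zero_iff_mem.2 (Ideal.subset_span (Set.mem_insert _ _))
        rw [h3, zero_mul]
      | add a b ha hb =>
        rw [map_add, hq, add_pow_char_pow, ← hq, ha, hb]
      | mul_X a c ha =>
        have h3 : Ideal.Quotient.mk I (X c ^ q - X c) = 0 :=
          Ideal.Quotient.eq_zero_iff_mem.2
            (Ideal.subset_span (Set.mem_insert_of_mem _ ⟨c, rfl⟩))
        rw [map_sub, map_pow, sub_eq_zero] at h3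
        rw [map_mul, mul_pow, ha, h3]
    intro N hN
    have h1 : N ^ q - N ∈ I := by
      rw [← Ideal.Quotient.eq_zero_iff_mem, map_sub, map_pow, key, sub_self]
    have h2 : N ^ q ∈ M ^ 2 := Ideal.pow_le_pow_right hq2 (Ideal.pow_mem_pow hN q)
    have e : N = -(N ^ q - N) + N ^ q := by ring
    rw [e]
    exact Submodule.add_mem_sup (I.neg_mem h1) h2

end Pool.Agent.PW
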