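import Pool.Agent.PW.CaA

set_option autoImplicit false

/-! # CAE: elements all of whose derivatives are in `M` -/

namespace Pool.Agent.PW

open MvPolynomial Pool.Agent.NT9

variable {τ : Type} [Fintype τ]

/-- An element of `M` all of whose derivatives are in `M` is a multiple of `p` modulo `M ^ 2`. Proof. `par_frob`: `N = α p + ∑ β_c (X c ^ q - X c) + (M ^ 2)`; apply `∂/∂x_c`:
`∂_c N ≡ - β_c` modulo `M` (`NH.Ind2Aux.der_sq`: derivations map `M ^ 2` to `M`), so `β_c ∈ M`. -/
theorem der_zero {M : Ideal (MvPolynomial τ ℤ)} [M.IsMaximal] {p : ℕ} (hp : p.Prime)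
    (hpM : (C (p : ℤ) : MvPolynomial τ ℤ) ∈ M) {N : MvPolynomial τ ℤ} (hN : N ∈ M)
    (h : ∀ c, pderiv c N ∈ M) : ∃ α : MvPolynomial τ ℤ, N - C (p : ℤ) * α ∈ M ^ 2 := by
  classical
  obtain ⟨q, hq2, hqM, -, hx, hpar⟩ := par_frob hp hpM
  obtain ⟨y, hy, m2, hm2, e⟩ := Submodule.mem_sup.1 (hpar hN)
  obtain ⟨α, z, hz, e2⟩ := Ideal.mem_span_insert.1 hy
  obtain ⟨β, hβ⟩ := Ideal.mem_span_range_iff_exists_fun.1 hz
  refine ⟨α, ?_⟩
  have hder : ∀ c, pderiv c N + β c ∈ M := by
    intro c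
    have h1 : pderiv c (α * C (p : ℤ)) ∈ M := by
      rw [Derivation.leibniz, pderiv_C, smul_zero, zero_add, smul_eq_mul]
      exact M.mul_mem_right _ hpM
    have h2 : pderiv c m2 ∈ M := NH.Ind2Aux.der_sq (pderiv c) M hm2
    have h3 : ∀ b, pderiv c (β b * (X b ^ q - X b)) + (if b = c then β b else 0) ∈ M := by
      intro b
      rw [Derivation.leibniz, smul_eq_mul, smul_eq_mul, map_sub, Derivation.leibniz_pow]
      have h4 : (X b ^ q - X b) * pderiv c (β b) ∈ M := M.mul_mem_right _ (hx b)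
      split_ifs with hb
      · subst hb
        rw [pderiv_X_self]
        have h5 : β b * (q • (X b : MvPolynomial τ ℤ) ^ (q - 1) • (1 : MvPolynomial τ ℤ) - 1) +
            ((X b : MvPolynomial τ ℤ) ^ q - X b) * pderiv b (β b) + β b =
            β b * (X b : MvPolynomial τ ℤ) ^ (q - 1) * C (q : ℤ) +
              ((X b : MvPolynomial τ ℤ) ^ q - X b) * pderiv b (β b) := by
          rw [nsmul_eq_mul, smul_eq_mul, mul_one]
          have : (C (q : ℤ) : MvPolynomial τ ℤ) = (q : MvPolynomial τ ℤ) := by simp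
          rw [this]
          ring
        rw [h5]
        exact M.add_mem (M.mul_mem_left _ hqM) h4
      · rw [pderiv_X_of_ne hb, smul_zero, smul_zero, sub_zero, mul_zero, zero_add, add_zero]
        exact h4
    have h6 : pderiv c N + β c = pderiv c (α * C (p : ℤ)) + pderiv c m2 +
        ∑ b, (pderiv c (β b * (X b ^ q - X b)) + (if b = c then β b else 0)) := by
      rw [Finset.sum_add_distrib, Finset.sum_ite_eq' Finset.univ c β, if_pos (Finset.mem_univ c),
        ← map_sum, hβ, ← e, e2, map_add, map_add]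
      ring
    rw [h6]
    exact M.add_mem (M.add_mem h1 h2) (M.sum_mem fun b _ => h3 b)
  have hβM : ∀ c, β c ∈ M := by
    intro c
    have h1 := M.sub_mem (hder c) (h c)
    rwa [add_sub_cancel_left] at h1
  have h7 : N - C (p : ℤ) * α = (∑ b, β b * (X b ^ q - X b)) + m2 := by
    rw [← e, e2, hβ]
    ring
  rw [h7]
  refine Ideal.add_mem _ (Ideal.sum_mem _ fun b _ => ?_) hm2
  rw [sq]
  exact Ideal.mul_mem_mul (hβM b) (hx b)

end Pool.Agent.PW
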