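import Pool.Agent.PW.CtA
import Pool.Agent.NT9.GeNakA

set_option autoImplicit false

/-! # CTB: the local form of `w` at a contact point -/

namespace Pool.Agent.PW

open MvPolynomial Pool.Agent.NT9

variable {σ : Type} [Fintype σ] [DecidableEq σ] {s w : MvPolynomial σ ℤ} {p k : ℕ}

/-- The local form without the smoothness. Proof. `T / M` is a field: there is `l0` with `∂_c w - l0 ∂_c s ∈ M`; the minors are in `M`, so `∂_b w - l0 ∂_b s ∈ M` for all `b`.
`g = w - l0 s ∈ M` and `∂_b g ∈ M`: `der_zero`: `g = p α + (M ^ 2)`. `Par M (C p) (ctη s w c)` (`par_of_jac`, `ct_jac`); `NT9.Par.gen`: `t ∉ M` with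
`t m = c0 p + ∑ c_b (ctη b)` for `m ∈ M`; so for `x ∈ M ^ 2` (`Submodule.mul_induction_on`) `t ^ 2 x` is a sum of products of two such expressions, so of the shape
`x_1 s + x_2 p + ∑_jk q_jk v_j v_k` with `x_1 ∈ M`. `D = t ^ 2`: `D w = D l0 s + D p α + D (element of M ^ 2) = (D l0 + x_1) s + (..) p + ∑ q_jk v_j v_k`. -/
theorem cform_pre (hp : p.Prime) (h : CtL s w p k) {M : Ideal (MvPolynomial σ ℤ)}
    (hM : IsCt s w p M) {c : σ} (hc : pderiv c s ∉ M) :
    ∃ (D l0 l β : MvPolynomial σ ℤ)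
      (q : {j : σ // j ≠ c} → {j : σ // j ≠ c} → MvPolynomial σ ℤ), D ∉ M ∧
      (∀ b, pderiv b w - l0 * pderiv b s ∈ M) ∧ l - D * l0 ∈ M ∧
      D * w = l * s + β * C (p : ℤ) + ∑ j, ∑ k, q j k * vm s w c j.1 * vm s w c k.1 := by
  have hMax : M.IsMaximal := ct_max hp h hM
  have hJ := ct_jac h hM hc
  obtain ⟨hpr, hpM, hsM, hwM, hvM⟩ := hM
  have hη : ∀ j, ctη s w c j ∈ M := by
    intro j
    rw [ctη]
    split_ifs
    · exact hsM
    · exact hvM _ _
  have hPar := par_of_jac hp hpM hη hJ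
  obtain ⟨y, i, hi, hyi⟩ := hMax.exists_inv hc
  obtain ⟨l0, hl0⟩ : ∃ l0, l0 = y * pderiv c w := ⟨_, rfl⟩
  have hlc : pderiv c w - l0 * pderiv c s ∈ M := by
    have h1 : pderiv c w - l0 * pderiv c s = i * pderiv c w := by
      rw [hl0]
      linear_combination -(pderiv c w) * hyi
    rw [h1]
    exact M.mul_mem_right _ hi
  have hlb : ∀ b, pderiv b w - l0 * pderiv b s ∈ M := by
    intro b
    have h1 : pderiv c s * (pderiv b w - l0 * pderiv b s) ∈ M := by
      have h2 : pderiv c s * (pderiv b w - l0 * pderiv b s) =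
          vm s w c b + pderiv b s * (pderiv c w - l0 * pderiv c s) := by
        rw [vm]
        ring
      rw [h2]
      exact M.add_mem (hvM c b) (M.mul_mem_left _ hlc)
    exact (hpr.mem_or_mem h1).resolve_left hc
  have hg : w - l0 * s ∈ M := M.sub_mem hwM (M.mul_mem_left _ hsM)
  obtain ⟨α, hα⟩ := der_zero hp hpM hg fun b => by
    have h1 : pderiv b (w - l0 * s) = (pderiv b w - l0 * pderiv b s) - s * pderiv b l0 := by
      rw [map_sub, Derivation.leibniz, smul_eq_mul, smul_eq_mul]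
      ring
    rw [h1]
    exact M.sub_mem (hlb b) (M.mul_mem_right _ hsM)
  obtain ⟨t, ht, hgen⟩ := hPar.gen
  have hgen' : ∀ m ∈ M, ∃ (c0 c1 : MvPolynomial σ ℤ) (d : {j : σ // j ≠ c} → MvPolynomial σ ℤ),
      t * m = c0 * C (p : ℤ) + c1 * s + ∑ j, d j * vm s w c j.1 := by
    intro m hm
    obtain ⟨c0, d, hd⟩ := hgen m hm
    refine ⟨c0, d c, fun j => d j.1, ?_⟩
    rw [hd, ← Finset.add_sum_erase _ _ (Finset.mem_univ c),
      Finset.sum_subtype (Finset.univ.erase c) (p := fun i => i ≠ c) (by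
        intro i
        simp), ctη, if_pos rfl, add_assoc]
    congr 2
    refine Finset.sum_congr rfl fun j _ => ?_
    rw [ctη, if_neg j.2]
  have hsq : ∀ x ∈ M ^ 2, ∃ (x1 x2 : MvPolynomial σ ℤ)
      (q : {j : σ // j ≠ c} → {j : σ // j ≠ c} → MvPolynomial σ ℤ), x1 ∈ M ∧
      t ^ 2 * x = x1 * s + x2 * C (p : ℤ) + ∑ j, ∑ k, q j k * vm s w c j.1 * vm s w c k.1 := by
    intro x hx
    rw [pow_two] at hx
    refine Submodule.mul_induction_on hx (fun m1 hm1 m2 hm2 => ?_) (fun x y hx hy => ?_)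
    · obtain ⟨a0, a1, a, ha⟩ := hgen' m1 hm1
      obtain ⟨b0, b1, b, hb⟩ := hgen' m2 hm2
      have hB : ∑ j, a j * vm s w c j.1 ∈ M :=
        Ideal.sum_mem _ fun j _ => M.mul_mem_left _ (hvM _ _)
      refine ⟨a1 * (t * m2) + (∑ j, a j * vm s w c j.1) * b1,
        a0 * (t * m2) + (∑ j, a j * vm s w c j.1) * b0, fun j k => a j * b k,
        M.add_mem (M.mul_mem_left _ (M.mul_mem_left _ hm2)) (M.mul_mem_right _ hB), ?_⟩
      have h1 : ∑ j, ∑ k, a j * b k * vm s w c j.1 * vm s w c k.1 =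
          (∑ j, a j * vm s w c j.1) * ∑ k, b k * vm s w c k.1 := by
        rw [Finset.sum_mul_sum]
        exact Finset.sum_congr rfl fun j _ => Finset.sum_congr rfl fun k _ => by ring
      rw [h1]
      have h2 : t ^ 2 * (m1 * m2) = (t * m1) * (t * m2) := by ring
      rw [h2, ha]
      linear_combination (∑ j, a j * vm s w c j.1) * hb
    · obtain ⟨x1, x2, q1, h1, h2⟩ := hx
      obtain ⟨y1, y2, q2, h3, h4⟩ := hy
      refine ⟨x1 + y1, x2 + y2, fun j k => q1 j k + q2 j k, M.add_mem h1 h3, ?_⟩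
      have h5 : ∑ j, ∑ k, (q1 j k + q2 j k) * vm s w c j.1 * vm s w c k.1 =
          ∑ j, ∑ k, q1 j k * vm s w c j.1 * vm s w c k.1 +
            ∑ j, ∑ k, q2 j k * vm s w c j.1 * vm s w c k.1 := by
        rw [← Finset.sum_add_distrib]
        refine Finset.sum_congr rfl fun j _ => ?_
        rw [← Finset.sum_add_distrib]
        exact Finset.sum_congr rfl fun k _ => by ring
      rw [h5, mul_add, h2, h4]
      ring
  obtain ⟨x1, x2, q, hx1, hx⟩ := hsq _ hα
  refine ⟨t ^ 2, l0, t ^ 2 * l0 + x1, t ^ 2 * α + x2, q,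
    fun h1 => ht (hpr.mem_of_pow_mem _ h1), hlb, ?_, ?_⟩
  · rw [add_sub_cancel_left]
    exact hx1
  · linear_combination hx

end Pool.Agent.PW
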