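import Pool.Agent.PW.CtA

set_option autoImplicit false

/-! # CTC: smoothness of the quadratic form at a contact point -/

namespace Pool.Agent.PW

open MvPolynomial Pool.Agent.NT9

variable {σ : Type} [Fintype σ] [DecidableEq σ] {s w : MvPolynomial σ ℤ} {p k : ℕ}

/-- the derivation `∑ Y_a χ ∂_a` -/
private noncomputable def del {L : Type} [Field L] (χ : MvPolynomial σ ℤ →+* L) (Y : σ → L)
    (f : MvPolynomial σ ℤ) : L := ∑ a, χ (pderiv a f) * Y a

section

variable {L : Type} [Field L] (χ : MvPolynomial σ ℤ →+* L) (Y : σ → L)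

private theorem del_add (f g : MvPolynomial σ ℤ) : del χ Y (f + g) = del χ Y f + del χ Y g := by
  simp only [del, map_add, add_mul, Finset.sum_add_distrib]

private theorem del_sub (f g : MvPolynomial σ ℤ) : del χ Y (f - g) = del χ Y f - del χ Y g := by
  simp only [del, map_sub, sub_mul, Finset.sum_sub_distrib]

private theorem del_mul (f g : MvPolynomial σ ℤ) :
    del χ Y (f * g) = χ f * del χ Y g + χ g * del χ Y f := by
  simp only [del, Derivation.leibniz, smul_eq_mul, map_add, map_mul, Finset.mul_sum]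
  rw [← Finset.sum_add_distrib]
  exact Finset.sum_congr rfl fun a _ => by ring

private theorem del_zero : del χ Y 0 = 0 := by
  simp only [del, map_zero, zero_mul, Finset.sum_const_zero]

private theorem del_sum {ι : Type} (S : Finset ι) (f : ι → MvPolynomial σ ℤ) :
    del χ Y (∑ i ∈ S, f i) = ∑ i ∈ S, del χ Y (f i) := by
  classical
  induction S using Finset.induction_on with
  | empty => rw [Finset.sum_empty, Finset.sum_empty, del_zero]
  | insert a S ha ih => rw [Finset.sum_insert ha, Finset.sum_insert ha, del_add, ih]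

private theorem del2 (b : σ) (f g : MvPolynomial σ ℤ) :
    del χ Y (pderiv b (f * g)) = χ f * del χ Y (pderiv b g) + χ (pderiv b g) * del χ Y f +
      (χ g * del χ Y (pderiv b f) + χ (pderiv b f) * del χ Y g) := by
  rw [Derivation.leibniz, smul_eq_mul, smul_eq_mul, del_add, del_mul, del_mul]

end

/-- The quadratic form is smooth. Proof. Let `χ` kill `M` (its kernel is `M`, as `M` is maximal) and `∑_k χ (q j k + q k j) ν_k = 0` for all `j` (the polar form; this is all we need).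
`λ = χ l0`, `χ (∂_b w) = λ χ (∂_b s)`, `χ l = χ D λ`. The Jacobian matrix of `ctη` is invertible (`Jac`), so there is `Y : σ → L` with `∑ χ (∂_a s) Y_a = 0` and
`∑ χ (∂_a v_j) Y_a = ν_j` for `j ≠ c`. Apply `∂_a ∂_b` to the equation, then `χ` (`s, w, p, v_j ∈ M`):
`D ∂_a∂_b w + ∂_a D ∂_b w + ∂_b D ∂_a w = l ∂_a∂_b s + ∂_a l ∂_b s + ∂_b l ∂_a s + ∑_jk q_jk (∂_a v_j ∂_b v_k + ∂_b v_j ∂_a v_k)`. Multiply by `Y_a` and sum (`∑ Y_a ∂_a s = 0 = ∑ Y_a ∂_a w`):
`χ D (H Y)_b = μ' χ (∂_b s) + ∑_k (∑_j χ (q j k + q k j) ν_j) χ (∂_b v_k) = μ' χ (∂_b s)`, where `H = ∂∂w - λ ∂∂s`, `μ' = ∑ Y_a χ (∂_a l) - λ ∑ Y_a χ (∂_a D)`.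
So `H Y = (μ' / χ D) χ (∂ s)` and `Y = 0` by `CtL`, so `ν = 0`. -/
theorem cform_sm (h : CtL s w p k) {M : Ideal (MvPolynomial σ ℤ)} [M.IsMaximal]
    (hM : IsCt s w p M) {c : σ} (hJ : Jac M (ctη s w c)) {D l0 l β : MvPolynomial σ ℤ}
    {q : {j : σ // j ≠ c} → {j : σ // j ≠ c} → MvPolynomial σ ℤ} (hD : D ∉ M)
    (hl0 : ∀ b, pderiv b w - l0 * pderiv b s ∈ M) (hl : l - D * l0 ∈ M)
    (heq : D * w = l * s + β * C (p : ℤ) +
      ∑ j, ∑ k, q j k * vm s w c j.1 * vm s w c k.1) : SmF q M := by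
  obtain ⟨_, hpM, hsM, hwM, hvM⟩ := hM
  intro L _ χ hχ ν _ hν
  have hMmax : M.IsMaximal := inferInstance
  have hker : ∀ t, χ t = 0 ↔ t ∈ M := by
    intro t
    refine ⟨fun ht => ?_, hχ t⟩
    have h1 : M ≤ RingHom.ker χ := fun m hm => hχ m hm
    have h2 := hMmax.eq_of_le (RingHom.ker_ne_top χ) h1
    rw [h2]
    exact ht
  have hD0 : χ D ≠ 0 := fun h1 => hD ((hker _).1 h1)
  have hp0 : χ (C (p : ℤ)) = 0 := hχ _ hpM
  have hs0 : χ s = 0 := hχ _ hsM
  have hw0 : χ w = 0 := hχ _ hwM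
  have hv0 : ∀ j, χ (vm s w c j) = 0 := fun j => hχ _ (hvM c j)
  obtain ⟨lam, hlam⟩ : ∃ lam, lam = χ l0 := ⟨_, rfl⟩
  have hlb : ∀ b, χ (pderiv b w) = lam * χ (pderiv b s) := by
    intro b
    have h1 := hχ _ (hl0 b)
    rw [map_sub, map_mul, sub_eq_zero] at h1
    rw [h1, hlam]
  have hll : χ l = χ D * lam := by
    have h1 := hχ _ hl
    rw [map_sub, map_mul, sub_eq_zero] at h1
    rw [h1, hlam]
  obtain ⟨_, h2⟩ := h L χ hp0 hs0 hw0
  obtain ⟨_, _, h3⟩ := h2 lam hlb
  -- the vector `Y`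
  obtain ⟨Y, hYs, hYv⟩ : ∃ Y : σ → L, del χ Y s = 0 ∧
      ∀ j : {j : σ // j ≠ c}, del χ Y (vm s w c j.1) = ν j := by
    let A : (σ → L) →ₗ[L] (σ → L) :=
      { toFun := fun ξ j => ∑ c', χ (pderiv c' (ctη s w c j)) * ξ c'
        map_add' := fun ξ ξ' => by
          funext j
          simp only [Pi.add_apply, mul_add, Finset.sum_add_distrib]
        map_smul' := fun r ξ => by
          funext j
          simp only [Pi.smul_apply, smul_eq_mul, RingHom.id_apply, Finset.mul_sum]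
          exact Finset.sum_congr rfl fun c' _ => by ring }
    have hinj : Function.Injective A := by
      rw [← LinearMap.ker_eq_bot, LinearMap.ker_eq_bot']
      intro ξ hξ
      exact hJ L χ hker ξ fun j => congrFun hξ j
    obtain ⟨Y, hY⟩ := (LinearMap.injective_iff_surjective.1 hinj)
      (fun j => if hj : j = c then 0 else ν ⟨j, hj⟩)
    refine ⟨Y, ?_, fun j => ?_⟩
    · have h4 := congrFun hY c
      have h5 : ∑ c', χ (pderiv c' (ctη s w c c)) * Y c' = if hj : c = c then 0 else ν ⟨c, hj⟩ := h4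
      rw [dif_pos rfl, ctη, if_pos rfl] at h5
      exact h5
    · have h4 := congrFun hY j.1
      have h5 : ∑ c', χ (pderiv c' (ctη s w c j.1)) * Y c' =
        if hj : j.1 = c then 0 else ν ⟨j.1, hj⟩ := h4
      rw [dif_neg j.2, ctη, if_neg j.2] at h5
      exact h5
  have hYw : del χ Y w = 0 := by
    have h4 : del χ Y w = lam * del χ Y s := by
      rw [del, del, Finset.mul_sum]
      exact Finset.sum_congr rfl fun a _ => by rw [hlb]; ring
    rw [h4, hYs, mul_zero]
  have hYp : ∀ b, del χ Y (pderiv b (C (p : ℤ))) = 0 := fun b => by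
    rw [pderiv_C, del_zero]
  have hYp' : del χ Y (C (p : ℤ)) = 0 := by
    rw [del]
    exact Finset.sum_eq_zero fun a _ => by rw [pderiv_C, map_zero, zero_mul]
  -- the main computation
  have hmain : ∀ b, χ D * (del χ Y (pderiv b w) - lam * del χ Y (pderiv b s)) =
      (del χ Y l - lam * del χ Y D) * χ (pderiv b s) := by
    intro b
    have h4 := congrArg (fun f => del χ Y (pderiv b f)) heq
    have h5 : del χ Y (pderiv b (∑ j, ∑ k, q j k * vm s w c j.1 * vm s w c k.1)) = 0 := by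
      have h6 : ∀ j k : {j : σ // j ≠ c}, del χ Y (pderiv b (q j k * vm s w c j.1 * vm s w c k.1)) =
          χ (pderiv b (vm s w c k.1)) * (χ (q j k) * ν j) +
            χ (pderiv b (vm s w c j.1)) * (χ (q j k) * ν k) := by
        intro j k
        rw [del2, map_mul, hv0, hv0, mul_zero, zero_mul, zero_mul, del_mul, hv0, zero_mul, add_zero,
          hYv, hYv, Derivation.leibniz, smul_eq_mul, smul_eq_mul, map_add, map_mul, map_mul, hv0,
          zero_mul, add_zero]
        ring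
      simp only [map_sum, del_sum, h6, Finset.sum_add_distrib]
      rw [Finset.sum_comm, ← Finset.sum_add_distrib]
      refine Finset.sum_eq_zero fun k _ => ?_
      rw [← Finset.mul_sum, ← Finset.mul_sum, ← mul_add, ← Finset.sum_add_distrib]
      have h7 := hν k
      have h8 : ∑ i, (χ (q i k) * ν i + χ (q k i) * ν i) = 0 := by
        rw [← h7]
        exact Finset.sum_congr rfl fun i _ => by rw [map_add]; ring
      rw [h8, mul_zero]
    have h4' : del χ Y (pderiv b (D * w)) = del χ Y (pderiv b (l * s)) +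
        del χ Y (pderiv b (β * C (p : ℤ))) +
        del χ Y (pderiv b (∑ j, ∑ k, q j k * vm s w c j.1 * vm s w c k.1)) := by
      rw [← del_add, ← del_add, ← map_add, ← map_add]
      exact h4
    rw [h5, add_zero, del2, del2, del2, hYp, hYp', hp0, hs0, hw0, hYs, hYw, pderiv_C, map_zero,
      hlb, hll] at h4'
    linear_combination h4'
  have hY0 : Y = 0 := by
    refine h3 Y ((del χ Y l - lam * del χ Y D) / χ D) hYs fun b => ?_
    have h4 := hmain b
    have h5 : ∑ a, (χ (pderiv a (pderiv b w)) - lam * χ (pderiv a (pderiv b s))) * Y a =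
        del χ Y (pderiv b w) - lam * del χ Y (pderiv b s) := by
      rw [del, del, Finset.mul_sum, ← Finset.sum_sub_distrib]
      exact Finset.sum_congr rfl fun a _ => by ring
    rw [h5, div_mul_eq_mul_div, eq_div_iff hD0]
    linear_combination h4
  funext j
  rw [← hYv j, hY0, del]
  exact Finset.sum_eq_zero fun a _ => by rw [Pi.zero_apply, mul_zero]

/-- `l ∉ M` (`λ ≠ 0` in `CtL` with `L = T / M`), and `k = 2 → p = 2`. -/
theorem cform_l (h : CtL s w p k) {M : Ideal (MvPolynomial σ ℤ)} [M.IsMaximal]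
    (hM : IsCt s w p M) {D l0 l : MvPolynomial σ ℤ} (hD : D ∉ M)
    (hl0 : ∀ b, pderiv b w - l0 * pderiv b s ∈ M) (hl : l - D * l0 ∈ M) :
    l ∉ M ∧ (k = 2 → p = 2) := by
  obtain ⟨hpr, hpM, hsM, hwM, hvM⟩ := hM
  have hfield : Field (MvPolynomial σ ℤ ⧸ M) := Ideal.Quotient.field M
  have hmk : ∀ t, Ideal.Quotient.mk M t = 0 ↔ t ∈ M := fun t => Ideal.Quotient.eq_zero_iff_mem
  obtain ⟨_, h2⟩ := @h (MvPolynomial σ ℤ ⧸ M) (Ideal.Quotient.field M) (Ideal.Quotient.mk M)
    ((hmk _).2 hpM) ((hmk _).2 hsM) ((hmk _).2 hwM)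
  obtain ⟨h3, h4, _⟩ := h2 (Ideal.Quotient.mk M l0) fun b => by
    have h5 := (hmk _).2 (hl0 b)
    rw [map_sub, map_mul, sub_eq_zero] at h5
    exact h5
  refine ⟨fun h5 => ?_, h4⟩
  have h6 : D * l0 ∈ M := by
    have := M.sub_mem h5 hl
    rwa [sub_sub_cancel] at this
  exact h3 ((hmk _).2 ((hpr.mem_or_mem h6).resolve_left hD))

end Pool.Agent.PW
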