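import Pool.Agent.PW.CtD
import Pool.Agent.PW.WdC
import Pool.Agent.PW.CtA

set_option autoImplicit false

/-! # CTI: independence of the relations over a contact point -/

namespace Pool.Agent.PW

open MvPolynomial Pool.Agent.NT9

variable {σ : Type} [Fintype σ] [DecidableEq σ] {s w : MvPolynomial σ ℤ} {u : ℤ} {p k i : ℕ}
  {Q : Ideal (MvPolynomial (V0 σ) ℤ)} [Q.IsPrime]

private theorem mem_of {R : Type} [CommRing R] {Q : Ideal R} {x y : R} (h : x ∈ Q) (e : x = y) :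
    y ∈ Q := e ▸ h

private theorem jl_notMem {M : Ideal (MvPolynomial σ ℤ)} [hM : M.IsMaximal]
    {Q : Ideal (MvPolynomial (V0 σ) ℤ)} [hQ : Q.IsPrime] (h : ∀ m ∈ M, jl m ∈ Q)
    {l : MvPolynomial σ ℤ} (hl : l ∉ M) : jl l ∉ Q := by
  intro h1
  have h2 : M ≤ Q.comap (rename (Sum.inl : σ → V0 σ) : MvPolynomial σ ℤ →ₐ[ℤ] MvPolynomial (V0 σ) ℤ) :=
    fun m hm => h m hm
  have h3 : Q.comap (rename (Sum.inl : σ → V0 σ) : MvPolynomial σ ℤ →ₐ[ℤ] MvPolynomial (V0 σ) ℤ) ≠ ⊤ :=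
    Ideal.comap_ne_top _ hQ.ne_top
  rw [hM.eq_of_le h3 h2] at hl
  exact hl h1

private theorem cu_notMem {Q : Ideal (MvPolynomial (V0 σ) ℤ)} [hQ : Q.IsPrime] (hp : p.Prime)
    (hu : ¬ (p : ℤ) ∣ u) (hpQ : (C (p : ℤ) : MvPolynomial (V0 σ) ℤ) ∈ Q) :
    (C u : MvPolynomial (V0 σ) ℤ) ∉ Q := by
  intro h
  obtain ⟨x, y, hxy⟩ := (Prime.coprime_iff_not_dvd (Nat.prime_iff_prime_int.1 hp)).2 hu
  refine hQ.ne_top (Q.eq_top_iff_one.2 (mem_of (Q.add_mem (Q.mul_mem_left (C x) hpQ)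
    (Q.mul_mem_left (C y) h)) ?_))
  rw [← C_mul, ← C_mul, ← C_add, hxy, C_1]

private theorem pd_c0 (c : σ) (x y : ℕ) :
    pderiv (Sum.inl c : V0 σ) (va σ ^ x * vb σ ^ y) = 0 := by
  rw [Derivation.leibniz, Derivation.leibniz_pow, Derivation.leibniz_pow,
    pderiv_X_of_ne (by simp), pderiv_X_of_ne (by simp)]
  simp only [smul_zero, add_zero]

private theorem pd_cm (c : σ) (x y : ℕ) (f : MvPolynomial σ ℤ) :
    pderiv (Sum.inl c : V0 σ) (jl f * (va σ ^ x * vb σ ^ y)) =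
      jl (pderiv c f) * (va σ ^ x * vb σ ^ y) := by
  rw [Derivation.leibniz, pd_c0, smul_zero, zero_add, NH.Ind2Aux.pderiv_inl_rename, smul_eq_mul,
    mul_comm]

private theorem pd_a0 (x y : ℕ) :
    pderiv (Sum.inr 0 : V0 σ) (va σ ^ x * vb σ ^ y) =
      (x : MvPolynomial (V0 σ) ℤ) * va σ ^ (x - 1) * vb σ ^ y := by
  rw [Derivation.leibniz, Derivation.leibniz_pow,
    Derivation.leibniz_pow, pderiv_X_self, pderiv_X_of_ne (by simp)]
  simp only [smul_eq_mul, nsmul_eq_mul, mul_zero, mul_one, zero_add]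
  ring

private theorem pd_b0 (x y : ℕ) :
    pderiv (Sum.inr 1 : V0 σ) (va σ ^ x * vb σ ^ y) =
      va σ ^ x * ((y : MvPolynomial (V0 σ) ℤ) * vb σ ^ (y - 1)) := by
  rw [Derivation.leibniz, Derivation.leibniz_pow,
    Derivation.leibniz_pow, pderiv_X_self, pderiv_X_of_ne (by simp)]
  simp only [smul_eq_mul, nsmul_eq_mul, mul_zero, mul_one, add_zero]

private theorem fin_step {Q : Ideal (MvPolynomial (V0 σ) ℤ)} [hQ : Q.IsPrime] (hp : p.Prime)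
    (hpQ : (C (p : ℤ) : MvPolynomial (V0 σ) ℤ) ∈ Q) {β g r y θ R : MvPolynomial (V0 σ) ℤ}
    (j : V0 σ) (hy : pderiv j y = 1) (hyQ : y ∈ Q) (hθ : θ ∉ Q) (hr : r ∈ Q)
    (h : β * r + g * (y * θ) ∈ Q ^ 2) (hd : pderiv j r = - R)
    (hR : R ∈ Q ∨ r = C (p : ℤ) - y * R) (hlast : β * r ∈ Q ^ 2 → β ∈ Q) : β ∈ Q ∧ g ∈ Q := by
  have h1 := NH.Ind2Aux.der_sq (pderiv j) Q h
  have h2 : g * θ - β * R ∈ Q := by
    rw [map_add, Derivation.leibniz, Derivation.leibniz, Derivation.leibniz, hd, hy] at h1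
    simp only [smul_eq_mul, mul_one] at h1
    have h3 : r * pderiv j β + (g * y * pderiv j θ + y * θ * pderiv j g) ∈ Q :=
      Q.add_mem (Q.mul_mem_right _ hr) (Q.add_mem (Q.mul_mem_right _ (Q.mul_mem_left _ hyQ))
        (Q.mul_mem_right _ (Q.mul_mem_right _ hyQ)))
    exact mem_of (Q.sub_mem h1 h3) (by ring)
  rcases hR with hR | hR
  · have h3 : g ∈ Q := by
      have h4 : g * θ ∈ Q := mem_of (Q.add_mem h2 (Q.mul_mem_left β hR)) (by ring)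
      exact (hQ.mem_or_mem h4).resolve_right hθ
    have h5 : g * (y * θ) ∈ Q ^ 2 := by
      rw [pow_two]
      exact Ideal.mul_mem_mul h3 (Q.mul_mem_right _ hyQ)
    exact ⟨hlast (mem_of (Ideal.sub_mem _ h h5) (by ring)), h3⟩
  · have h3 : y * (g * θ - β * R) ∈ Q ^ 2 := by
      rw [pow_two]
      exact Ideal.mul_mem_mul hyQ h2
    have h4 : C (p : ℤ) * β ∈ Q ^ 2 := mem_of (Ideal.sub_mem _ h h3) (by rw [hR]; ring)
    have h5 := QuadAll.mem_of_prime_mul_mem_sq p hp Q hpQ β h4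
    have h6 : g * θ ∈ Q := mem_of (Q.add_mem h2 (Q.mul_mem_right R h5)) (by ring)
    exact ⟨h5, (hQ.mem_or_mem h6).resolve_right hθ⟩

/-- Independence at the points over a contact point `M` which are not of type A or B. Proof. Write `c_j = g j`. `jl m ∈ Q` iff `m ∈ M`. `jl D ∉ Q`, `jl l ∉ Q`. Let `β_0 = D c_0 + l c_2`,
`β_1 = D c_1 + β c_2`: then `β_0 r_0 + β_1 r_1 + c_2 G ∈ Q ^ 2` (`ctG_rel`; the products `v_j v_k ∈ Q ^ 2`); it is enough that `β_0, β_1, c_2 ∈ Q`.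
`∂/∂x_c`: `β_0 ∂_c s + c_2 ∂_c G ∈ Q`, and `∂_c G ∈ Q` since `a b`, `a ^ (i + 1) b ^ i`, `u a ^ (k - i - 1) b ^ (k - i)` are in `Q` (`≡ s, p, - w`); so `β_0 ∈ Q`, and `β_1 r_1 + c_2 G ∈ Q ^ 2`.
Case `a ∈ Q`, `i + 2 ≤ k`: `G = a θ`, `θ = θ_A ∉ Q`. `∂/∂a`: `c_2 θ - (i + 1) β_1 a ^ i b ^ i ∈ Q`. If `i ≥ 1`: `c_2 ∈ Q`, `ind_last`. If `i = 0`: `β_1 - c_2 θ ∈ Q`, so
`β_1 (p - a) + c_2 θ a ≡ c_2 θ p` modulo `Q ^ 2`, so `c_2 θ ∈ Q` (`QuadAll.mem_of_prime_mul_mem_sq`), `c_2 ∈ Q`, `β_1 ∈ Q`.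
Case `a ∈ Q`, `i + 1 = k`: `G = b θ_B`, `θ_B ≡ u D` modulo `a`, not in `Q`, so `b ∈ Q` (`G ∈ Q`); `∂/∂b`: `c_2 θ_B ∈ Q` (the other terms have a factor `a` or `b`), then `ind_last`.
Case `a ∉ Q`: `b ∈ Q`, `i ≥ 1`, `θ = θ_B ∉ Q`. `∂/∂b`: `c_2 θ - i β_1 a ^ (i + 1) b ^ (i - 1) ∈ Q`. If `i ≥ 2`: `c_2 ∈ Q`, `ind_last`. If `i = 1`: `β_1 a ^ 2 ≡ c_2 θ`, so
`β_1 (p - a ^ 2 b) + c_2 b θ ≡ β_1 p` modulo `Q ^ 2`, `β_1 ∈ Q`, `c_2 ∈ Q`. -/
theorem ind_ct (hp : p.Prime) (hk : 2 ≤ k) (hi : i < k) (hu : ¬ (p : ℤ) ∣ u)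
    (hpQ : (C (p : ℤ) : MvPolynomial (V0 σ) ℤ) ∈ Q) (hrel : ∀ j, rel0 s w u p k i j ∈ Q)
    {M : Ideal (MvPolynomial σ ℤ)} [M.IsMaximal] (hMQ : ∀ m ∈ M, jl m ∈ Q)
    (hM : IsCt s w p M) {c : σ} (hc : pderiv c s ∉ M) {D l β : MvPolynomial σ ℤ}
    {q : {j : σ // j ≠ c} → {j : σ // j ≠ c} → MvPolynomial σ ℤ}
    (hcf : CForm s w p M c D l β q) (hA : ¬ TypeA M D l β u k i Q)
    (hB : ¬ TypeB M D l β u k i Q) (g : Fin 3 → MvPolynomial (V0 σ) ℤ)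
    (hg : ∑ j, g j * rel0 s w u p k i j ∈ Q ^ 2) : ∀ j, g j ∈ Q := by
  have hQ : Q.IsPrime := inferInstance
  obtain ⟨hpr, hpM, hsM, hwM, hvM⟩ := hM
  have hD := jl_notMem hMQ hcf.hD
  have hcs := jl_notMem hMQ hc
  have hr0 := hrel 0
  have hr1 := hrel 1
  have hr2 := hrel 2
  have hrelG := ctG_rel (u := u) (i := i) (k := k) hcf.eq
  rw [Fin.sum_univ_three] at hg
  have e0 : rel0 s w u p k i 0 = jl s - va σ * vb σ := rfl
  have e1 : rel0 s w u p k i 1 = C (p : ℤ) - va σ ^ (i + 1) * vb σ ^ i := rfl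
  have e2 : rel0 s w u p k i 2 = jl w + C u * va σ ^ (k - i - 1) * vb σ ^ (k - i) := rfl
  have hab : va σ * vb σ ∈ Q := mem_of (Q.sub_mem (hMQ _ hsM) hr0) (by rw [e0]; ring)
  have hpp : va σ ^ (i + 1) * vb σ ^ i ∈ Q := mem_of (Q.sub_mem hpQ hr1) (by rw [e1]; ring)
  have hww : C u * va σ ^ (k - i - 1) * vb σ ^ (k - i) ∈ Q :=
    mem_of (Q.sub_mem hr2 (hMQ _ hwM)) (by rw [e2]; ring)
  have hG : ctG D l β u k i ∈ Q := by
    rw [ctG]
    exact Q.add_mem (Q.add_mem (Q.mul_mem_left _ hab) (Q.mul_mem_left _ hpp))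
      (mem_of (Q.mul_mem_left (jl D) hww) (by ring))
  have hstar : (jl D * g 0 + g 2 * jl l) * rel0 s w u p k i 0 +
      (jl D * g 1 + g 2 * jl β) * rel0 s w u p k i 1 + g 2 * ctG D l β u k i ∈ Q ^ 2 := by
    have h1 := Ideal.mul_mem_left (Q ^ 2) (jl D) hg
    have h2 : g 2 * ∑ j, ∑ k, jl (q j k) * jl (vm s w c j.1) * jl (vm s w c k.1) ∈ Q ^ 2 := by
      refine Ideal.mul_mem_left _ _ (Ideal.sum_mem _ fun a _ => Ideal.sum_mem _ fun b _ => ?_)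
      rw [mul_assoc, pow_two]
      exact Ideal.mul_mem_left _ _ (Ideal.mul_mem_mul (hMQ _ (hvM _ _)) (hMQ _ (hvM _ _)))
    refine mem_of (Ideal.sub_mem _ h1 h2) ?_
    linear_combination (g 2) * hrelG
  obtain ⟨b0, hb0⟩ : ∃ b0, b0 = jl D * g 0 + g 2 * jl l := ⟨_, rfl⟩
  obtain ⟨b1, hb1⟩ : ∃ b1, b1 = jl D * g 1 + g 2 * jl β := ⟨_, rfl⟩
  rw [← hb0, ← hb1] at hstar
  have hdG : pderiv (Sum.inl c : V0 σ) (ctG D l β u k i) ∈ Q := by
    have h1 : ctG D l β u k i = jl l * (va σ ^ 1 * vb σ ^ 1) +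
        jl β * (va σ ^ (i + 1) * vb σ ^ i) +
        C u * (jl D * (va σ ^ (k - i - 1) * vb σ ^ (k - i))) := by
      rw [ctG]
      ring
    rw [h1, map_add, map_add, pderiv_C_mul, pd_cm, pd_cm, pd_cm, pow_one, pow_one]
    exact Q.add_mem (Q.add_mem (Q.mul_mem_left _ hab) (Q.mul_mem_left _ hpp))
      (mem_of (Q.mul_mem_left (jl (pderiv c D)) hww) (by ring))
  have hb0Q : b0 ∈ Q := by
    have h1 := NH.Ind2Aux.der_sq (pderiv (Sum.inl c : V0 σ)) Q hstar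
    have h2 : pderiv (Sum.inl c : V0 σ) (rel0 s w u p k i 0) = jl (pderiv c s) := by
      have h3 := pd_c0 c 1 1
      rw [pow_one, pow_one] at h3
      rw [e0, map_sub, NH.Ind2Aux.pderiv_inl_rename, h3, sub_zero]
    have h3 : pderiv (Sum.inl c : V0 σ) (rel0 s w u p k i 1) = 0 := by
      rw [e1, map_sub, pderiv_C, pd_c0, sub_zero]
    rw [map_add, map_add, Derivation.leibniz, Derivation.leibniz, Derivation.leibniz, h2, h3] at h1
    simp only [smul_eq_mul, mul_zero, zero_add] at h1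
    have h4 : rel0 s w u p k i 0 * pderiv (Sum.inl c : V0 σ) b0 +
        rel0 s w u p k i 1 * pderiv (Sum.inl c : V0 σ) b1 +
        (g 2 * pderiv (Sum.inl c : V0 σ) (ctG D l β u k i) +
          ctG D l β u k i * pderiv (Sum.inl c : V0 σ) (g 2)) ∈ Q :=
      Q.add_mem (Q.add_mem (Q.mul_mem_right _ hr0) (Q.mul_mem_right _ hr1))
        (Q.add_mem (Q.mul_mem_left _ hdG) (Q.mul_mem_right _ hG))
    have h5 : b0 * jl (pderiv c s) ∈ Q := mem_of (Q.sub_mem h1 h4) (by ring)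
    exact (hQ.mem_or_mem h5).resolve_right hcs
  have hss : b1 * rel0 s w u p k i 1 + g 2 * ctG D l β u k i ∈ Q ^ 2 := by
    have h1 : b0 * rel0 s w u p k i 0 ∈ Q ^ 2 := by
      rw [pow_two]
      exact Ideal.mul_mem_mul hb0Q hr0
    exact mem_of (Ideal.sub_mem _ hstar h1) (by ring)
  have hrab := (rel_ab hpQ hrel).1
  have hlast : b1 * rel0 s w u p k i 1 ∈ Q ^ 2 → b1 ∈ Q := fun h =>
    ind_last hp hpQ hrab hr1 h
  have hda : pderiv (Sum.inr 0 : V0 σ) (rel0 s w u p k i 1) =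
      - (((i + 1 : ℕ) : MvPolynomial (V0 σ) ℤ) * va σ ^ i * vb σ ^ i) := by
    rw [e1, map_sub, pderiv_C, pd_a0, zero_sub, Nat.add_sub_cancel]
  have hdb : pderiv (Sum.inr 1 : V0 σ) (rel0 s w u p k i 1) =
      - (va σ ^ (i + 1) * ((i : MvPolynomial (V0 σ) ℤ) * vb σ ^ (i - 1))) := by
    rw [e1, map_sub, pderiv_C, pd_b0, zero_sub]
  have key : b1 ∈ Q ∧ g 2 ∈ Q := by
    by_cases ha : va σ ∈ Q
    · rcases Nat.lt_or_ge (i + 1) k with h | h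
      · rw [ctG_A D l β u h] at hss
        refine fin_step hp hpQ (Sum.inr 0) (pderiv_X_self _) ha
          (fun hθ => hA ⟨h, hMQ, ha, hθ⟩) hr1 hss hda ?_ hlast
        rcases Nat.eq_zero_or_pos i with h0 | h0
        · right
          rw [e1, h0]
          simp
        · left
          exact Q.mul_mem_right _ (Q.mul_mem_left _ (Ideal.pow_mem_of_mem Q ha i h0))
      · have hi1 : 1 ≤ i := by omega
        have hθ : thB D l β u k i ∉ Q := by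
          intro h1
          have h2 : jl l * va σ + jl β * (va σ ^ (i + 1) * vb σ ^ (i - 1)) ∈ Q :=
            Q.add_mem (Q.mul_mem_left _ ha) (Q.mul_mem_left _ (Q.mul_mem_right _
              (Ideal.pow_mem_of_mem Q ha _ (by omega))))
          have h3 := Q.sub_mem h1 h2
          have h6 : k - i - 1 = 0 := by omega
          rw [thB, h6, pow_zero, pow_zero] at h3
          have h4 : C u * jl D ∈ Q := mem_of h3 (by ring)
          rcases hQ.mem_or_mem h4 with h5 | h5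
          · exact cu_notMem hp hu hpQ h5
          · exact hD h5
        rw [ctG_B D l β u hi1 hi] at hss hG
        have hb : vb σ ∈ Q := (hQ.mem_or_mem hG).resolve_right hθ
        exact fin_step hp hpQ (Sum.inr 1) (pderiv_X_self _) hb hθ hr1 hss hdb
          (Or.inl (Q.mul_mem_right _ (Ideal.pow_mem_of_mem Q ha _ (by omega)))) hlast
    · obtain ⟨hi1, hb⟩ := hrab.resolve_left ha
      rw [ctG_B D l β u hi1 hi] at hss
      refine fin_step hp hpQ (Sum.inr 1) (pderiv_X_self _) hb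
        (fun hθ => hB ⟨hi1, hMQ, hb, hθ⟩) hr1 hss hdb ?_ hlast
      rcases Nat.lt_or_ge 1 i with h0 | h0
      · left
        exact Q.mul_mem_left _ (Q.mul_mem_left _ (Ideal.pow_mem_of_mem Q hb _ (by omega)))
      · right
        have h1 : i = 1 := le_antisymm h0 hi1
        rw [e1, h1]
        simp
        ring
  obtain ⟨hb1Q, hg2⟩ := key
  intro j
  fin_cases j
  · have h1 : jl D * g 0 ∈ Q :=
      mem_of (Q.sub_mem hb0Q (Q.mul_mem_right (jl l) hg2)) (by rw [hb0]; ring)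
    exact (hQ.mem_or_mem h1).resolve_left hD
  · have h1 : jl D * g 1 ∈ Q :=
      mem_of (Q.sub_mem hb1Q (Q.mul_mem_right (jl β) hg2)) (by rw [hb1]; ring)
    exact (hQ.mem_or_mem h1).resolve_left hD
  · exact hg2

end Pool.Agent.PW
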