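import Pool.Agent.PW.Defs
import Pool.Agent.NT9.GeCotB

set_option autoImplicit false

/-! # CTJ: the singular points over a contact point: Jacobian matrices -/

namespace Pool.Agent.PW

open MvPolynomial Pool.Agent.NT9

variable {σ : Type} [Fintype σ] [DecidableEq σ] {s w : MvPolynomial σ ℤ} {u : ℤ} {p k i : ℕ}

private theorem pd_inl (a : σ) (f : MvPolynomial σ ℤ) :
    pderiv (Sum.inl a : V0 σ) (jl f) = jl (pderiv a f) := by
  induction f using MvPolynomial.induction_on with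
  | C c =>
    have h1 : jl (C c : MvPolynomial σ ℤ) = C c := rename_C _ _
    rw [h1, pderiv_C, pderiv_C]
    exact (map_zero _).symm
  | add p q hp hq =>
    have h1 : ∀ x y : MvPolynomial σ ℤ, jl (x + y) = jl x + jl y := fun x y => map_add _ _ _
    rw [h1, map_add, map_add, h1, hp, hq]
  | mul_X p i hp =>
    have h1 : ∀ x y : MvPolynomial σ ℤ, jl (x * y) = jl x * jl y := fun x y => map_mul _ _ _
    have h2 : ∀ x y : MvPolynomial σ ℤ, jl (x + y) = jl x + jl y := fun x y => map_add _ _ _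
    have h3 : jl (X i : MvPolynomial σ ℤ) = X (Sum.inl i) := rename_X _ _
    have h4 : pderiv (Sum.inl a : V0 σ) (X (Sum.inl i) : MvPolynomial (V0 σ) ℤ) =
        jl (pderiv a (X i : MvPolynomial σ ℤ)) := by
      by_cases h : i = a
      · rw [h, pderiv_X_self, pderiv_X_self]
        exact (map_one _).symm
      · rw [pderiv_X_of_ne h, pderiv_X_of_ne (fun h5 => h (Sum.inl_injective h5))]
        exact (map_zero _).symm
    rw [h1, Derivation.leibniz, Derivation.leibniz, smul_eq_mul, smul_eq_mul, smul_eq_mul,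
      smul_eq_mul, h2, h1, h1, hp, h3, h4]

private theorem pd_inr (j : Fin 2) (f : MvPolynomial σ ℤ) :
    pderiv (Sum.inr j : V0 σ) (jl f) = 0 := by
  induction f using MvPolynomial.induction_on with
  | C a =>
    have h1 : jl (C a : MvPolynomial σ ℤ) = C a := rename_C _ _
    rw [h1, pderiv_C]
  | add p q hp hq =>
    have h1 : jl (p + q) = jl p + jl q := map_add _ _ _
    rw [h1, map_add, hp, hq, add_zero]
  | mul_X p i hp =>
    have h1 : jl (p * X i) = jl p * X (Sum.inl i) := by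
      rw [jl, map_mul, rename_X]
    rw [h1, Derivation.leibniz, hp, pderiv_X_of_ne (by simp), smul_zero, smul_zero, add_zero]

private theorem core {M : Ideal (MvPolynomial σ ℤ)} [hMm : M.IsMaximal] {c : σ}
    (hJ : Jac M (ctη s w c)) {Q : Ideal (MvPolynomial (V0 σ) ℤ)}
    (hMQ : ∀ m ∈ M, jl m ∈ Q) {L : Type} [Field L] (χ : MvPolynomial (V0 σ) ℤ →+* L)
    (hχ : ∀ t, χ t = 0 ↔ t ∈ Q) {ξ : V0 σ → L} {y th : MvPolynomial (V0 σ) ℤ}
    (hξ : ∀ j, ∑ x, χ (pderiv x (tyη s w c y th j)) * ξ x = 0)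
    (h0 : χ (vb σ) * ξ (Sum.inr 0) + χ (va σ) * ξ (Sum.inr 1) = 0) :
    ∀ b, ξ (Sum.inl b) = 0 := by
  have hker : ∀ t, (χ.comp (rename (Sum.inl : σ → V0 σ) :
      MvPolynomial σ ℤ →ₐ[ℤ] MvPolynomial (V0 σ) ℤ).toRingHom) t = 0 ↔ t ∈ M := by
    intro t
    have hM1 : ∀ m ∈ M, (χ.comp (rename (Sum.inl : σ → V0 σ) :
      MvPolynomial σ ℤ →ₐ[ℤ] MvPolynomial (V0 σ) ℤ).toRingHom) m = 0 :=
      fun m hm => (hχ _).2 (hMQ m hm)
    refine ⟨fun ht => ?_, hM1 t⟩
    have h1 : M ≤ RingHom.ker (χ.comp (rename (Sum.inl : σ → V0 σ) :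
      MvPolynomial σ ℤ →ₐ[ℤ] MvPolynomial (V0 σ) ℤ).toRingHom) := hM1
    rw [hMm.eq_of_le (RingHom.ker_ne_top _) h1]
    exact ht
  have h1 := hJ L _ hker (fun b => ξ (Sum.inl b)) fun j => ?_
  · exact fun b => congrFun h1 b
  · have h2 := hξ (Sum.inl j)
    rw [Fintype.sum_sum_type, Fin.sum_univ_two] at h2
    by_cases hj : j = c
    · have e1 : tyη s w c y th (Sum.inl j) = jl s - va σ * vb σ := by
        rw [tyη, Sum.elim_inl, if_pos hj]
      have e2 : ctη s w c j = s := by rw [ctη, if_pos hj]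
      rw [e1] at h2
      rw [e2]
      have e3 : ∀ b : σ, pderiv (Sum.inl b : V0 σ) (jl s - va σ * vb σ) = jl (pderiv b s) := by
        intro b
        rw [map_sub, pd_inl, Derivation.leibniz, pderiv_X_of_ne (by simp),
          pderiv_X_of_ne (by simp), smul_zero, smul_zero, add_zero, sub_zero]
      have e4 : pderiv (Sum.inr 0 : V0 σ) (jl s - va σ * vb σ) = - vb σ := by
        rw [map_sub, pd_inr, Derivation.leibniz, pderiv_X_self, pderiv_X_of_ne (by simp),
          smul_zero, zero_add, smul_eq_mul, mul_one, zero_sub]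
      have e5 : pderiv (Sum.inr 1 : V0 σ) (jl s - va σ * vb σ) = - va σ := by
        rw [map_sub, pd_inr, Derivation.leibniz, pderiv_X_self, pderiv_X_of_ne (by simp),
          smul_zero, add_zero, smul_eq_mul, mul_one, zero_sub]
      rw [e4, e5, map_neg, map_neg] at h2
      have h3 : ∑ b, χ (pderiv (Sum.inl b : V0 σ) (jl s - va σ * vb σ)) * ξ (Sum.inl b) = 0 := by
        linear_combination h2 + h0
      rw [← h3]
      exact Finset.sum_congr rfl fun b _ => by rw [e3]; rfl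
    · have e1 : tyη s w c y th (Sum.inl j) = jl (vm s w c j) := by
        rw [tyη, Sum.elim_inl, if_neg hj]
      have e2 : ctη s w c j = vm s w c j := by rw [ctη, if_neg hj]
      rw [e1, pd_inr, pd_inr, map_zero, zero_mul, zero_mul, add_zero, add_zero] at h2
      rw [e2, ← h2]
      exact Finset.sum_congr rfl fun b _ => by rw [pd_inl]; rfl

/-- The Jacobian matrix of `s - a b`, the `v_b`, `a` and `θ`. Proof. `χ : ℤ[x, a, b] → L` with kernel `Q`, `ξ` in the kernel of the matrix, `ξ' b = ξ (inl b)`. Row `a`: `ξ (inr 0) = 0`.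
Row `s - a b`: `∑ ∂_b s ξ' b - χ b ξ (inr 0) - χ a ξ (inr 1) = ∑ ∂_b s ξ' b = 0` as `χ a = 0`. Rows `v_b`: with `Jac M (ctη s w c)` (for `χ ∘ jl`, kernel `M`) `ξ' = 0`. Row `θ`:
`χ (∂_b θ) ξ (inr 1) = 0`. -/
theorem tyA_jac {M : Ideal (MvPolynomial σ ℤ)} [M.IsMaximal] {c : σ}
    (hJ : Jac M (ctη s w c)) {Q : Ideal (MvPolynomial (V0 σ) ℤ)} [Q.IsPrime]
    (hMQ : ∀ m ∈ M, jl m ∈ Q) (ha : va σ ∈ Q) {th : MvPolynomial (V0 σ) ℤ}
    (hth : pderiv (Sum.inr 1) th ∉ Q) : Jac Q (tyη s w c (va σ) th) := by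
  intro L _ χ hχ ξ hξ
  have h0 : ξ (Sum.inr 0) = 0 := by
    have h1 := hξ (Sum.inr 0)
    have e1 : tyη s w c (va σ) th (Sum.inr 0) = va σ := rfl
    rw [e1, Finset.sum_eq_single (Sum.inr 0 : V0 σ)] at h1
    · rwa [pderiv_X_self, map_one, one_mul] at h1
    · intro x _ hx
      rw [pderiv_X_of_ne hx.symm, map_zero, zero_mul]
    · intro h2
      exact absurd (Finset.mem_univ _) h2
  have ha0 : χ (va σ) = 0 := (hχ _).2 ha
  have hl := core hJ hMQ χ hχ hξ (by rw [h0, ha0, mul_zero, zero_mul, add_zero])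
  have h1 : ξ (Sum.inr 1) = 0 := by
    have h2 := hξ (Sum.inr 1)
    have e1 : tyη s w c (va σ) th (Sum.inr 1) = th := rfl
    rw [e1, Finset.sum_eq_single (Sum.inr 1 : V0 σ)] at h2
    · exact (mul_eq_zero.1 h2).resolve_left fun h3 => hth ((hχ _).1 h3)
    · intro x _ hx
      rcases x with b | t
      · rw [hl b, mul_zero]
      · fin_cases t
        · have e2 : ξ (Sum.inr ((fun i => i) ⟨0, by omega⟩ : Fin 2)) = 0 := h0
          rw [e2, mul_zero]
        · exact absurd rfl hx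
    · intro h2
      exact absurd (Finset.mem_univ _) h2
  funext x
  rcases x with b | t
  · exact hl b
  · fin_cases t
    · exact h0
    · exact h1

/-- The same with `b` instead of `a`. -/
theorem tyB_jac {M : Ideal (MvPolynomial σ ℤ)} [M.IsMaximal] {c : σ}
    (hJ : Jac M (ctη s w c)) {Q : Ideal (MvPolynomial (V0 σ) ℤ)} [Q.IsPrime]
    (hMQ : ∀ m ∈ M, jl m ∈ Q) (hb : vb σ ∈ Q) {th : MvPolynomial (V0 σ) ℤ}
    (hth : pderiv (Sum.inr 0) th ∉ Q) : Jac Q (tyη s w c (vb σ) th) := by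
  intro L _ χ hχ ξ hξ
  have h0 : ξ (Sum.inr 1) = 0 := by
    have h1 := hξ (Sum.inr 0)
    have e1 : tyη s w c (vb σ) th (Sum.inr 0) = vb σ := rfl
    rw [e1, Finset.sum_eq_single (Sum.inr 1 : V0 σ)] at h1
    · rwa [pderiv_X_self, map_one, one_mul] at h1
    · intro x _ hx
      rw [pderiv_X_of_ne hx.symm, map_zero, zero_mul]
    · intro h2
      exact absurd (Finset.mem_univ _) h2
  have hb0 : χ (vb σ) = 0 := (hχ _).2 hb
  have hl := core hJ hMQ χ hχ hξ (by rw [h0, hb0, mul_zero, zero_mul, add_zero])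
  have h1 : ξ (Sum.inr 0) = 0 := by
    have h2 := hξ (Sum.inr 1)
    have e1 : tyη s w c (vb σ) th (Sum.inr 1) = th := rfl
    rw [e1, Finset.sum_eq_single (Sum.inr 0 : V0 σ)] at h2
    · exact (mul_eq_zero.1 h2).resolve_left fun h3 => hth ((hχ _).1 h3)
    · intro x _ hx
      rcases x with b | t
      · rw [hl b, mul_zero]
      · fin_cases t
        · exact absurd rfl hx
        · have e2 : ξ (Sum.inr ((fun i => i) ⟨1, by omega⟩ : Fin 2)) = 0 := h0
          rw [e2, mul_zero]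
    · intro h2
      exact absurd (Finset.mem_univ _) h2
  funext x
  rcases x with b | t
  · exact hl b
  · fin_cases t
    · exact h1
    · exact h0

end Pool.Agent.PW
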