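import Pool.Agent.PW.CtE
import Pool.Agent.PW.CtJ
import Pool.Agent.PW.CtA
import Pool.Agent.PW.CaF
import Pool.Agent.PW.CaC

set_option autoImplicit false

/-! # CTM: the singular points over a contact point are closed and finite in number -/

namespace Pool.Agent.PW

open MvPolynomial Pool.Agent.NT9

variable {σ : Type} [Fintype σ] [DecidableEq σ] {s w : MvPolynomial σ ℤ} {u : ℤ} {p k i : ℕ}

private theorem cp_mem {M : Ideal (MvPolynomial σ ℤ)} {Q : Ideal (MvPolynomial (V0 σ) ℤ)}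
    (hMQ : ∀ m ∈ M, jl m ∈ Q) (hpM : C (p : ℤ) ∈ M) :
    (C (p : ℤ) : MvPolynomial (V0 σ) ℤ) ∈ Q := by
  have h1 := hMQ _ hpM
  have h2 : jl (C (p : ℤ) : MvPolynomial σ ℤ) = C (p : ℤ) := rename_C _ _
  rwa [h2] at h1

private theorem ty_mem {M : Ideal (MvPolynomial σ ℤ)} (hM : IsCt s w p M) {c : σ}
    {Q : Ideal (MvPolynomial (V0 σ) ℤ)} (hMQ : ∀ m ∈ M, jl m ∈ Q) (hab : va σ * vb σ ∈ Q)
    {y th : MvPolynomial (V0 σ) ℤ} (hy : y ∈ Q) (hth : th ∈ Q) (j : V0 σ) :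
    tyη s w c y th j ∈ Q := by
  obtain ⟨_, _, hs, _, hv⟩ := hM
  rcases j with b | t
  · rw [tyη, Sum.elim_inl]
    split_ifs
    · exact Q.sub_mem (hMQ _ hs) hab
    · exact hMQ _ (hv _ _)
  · fin_cases t
    · exact hy
    · exact hth

/-- The points of the two types are maximal (`max_of_jac`; `s - a b ∈ Q` since `s ∈ M` and `a ∈ Q` or `b ∈ Q`; `v_b ∈ M`) and finite in number (`finite_of_max` for the ideal generated by `jl m`, `m ∈ M`,
`a` and `θ_A`, or `b` and `θ_B`: all prime ideals over it are of the type; if `i + 2 ≤ k` resp. `1 ≤ i`, else the set is empty). -/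
theorem ty_max (hp : p.Prime) (hk : 2 ≤ k) (hi : i < k) (hk2 : k = 2 → p = 2)
    {M : Ideal (MvPolynomial σ ℤ)} [M.IsMaximal] (hM : IsCt s w p M) {c : σ}
    (hJ : Jac M (ctη s w c)) {D l β : MvPolynomial σ ℤ} (hl : l ∉ M)
    {Q : Ideal (MvPolynomial (V0 σ) ℤ)} [Q.IsPrime]
    (hQ : TypeA M D l β u k i Q ∨ TypeB M D l β u k i Q) : Q.IsMaximal := by
  have hpM : C (p : ℤ) ∈ M := hM.2.1
  rcases hQ with hA | hB
  · have hA' := hA
    obtain ⟨hik, hMQ, ha, hth⟩ := hA'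
    exact max_of_jac hp (cp_mem hMQ hpM)
      (ty_mem hM hMQ (Q.mul_mem_right _ ha) ha hth)
      (tyA_jac hJ hMQ ha (thA_der hp hk hk2 hpM hl hA))
  · have hB' := hB
    obtain ⟨hi1, hMQ, hb, hth⟩ := hB'
    exact max_of_jac hp (cp_mem hMQ hpM)
      (ty_mem hM hMQ (Q.mul_mem_left _ hb) hb hth)
      (tyB_jac hJ hMQ hb (thB_der hp hk hi hk2 hpM hl hB))

theorem ty_fin (hp : p.Prime) (hk : 2 ≤ k) (hi : i < k) (hk2 : k = 2 → p = 2)
    {M : Ideal (MvPolynomial σ ℤ)} [M.IsMaximal] (hM : IsCt s w p M) {c : σ}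
    (hJ : Jac M (ctη s w c)) {D l β : MvPolynomial σ ℤ} (hl : l ∉ M) :
    {Q : Ideal (MvPolynomial (V0 σ) ℤ) | Q.IsPrime ∧
      (TypeA M D l β u k i Q ∨ TypeB M D l β u k i Q)}.Finite := by
  have hA : {Q : Ideal (MvPolynomial (V0 σ) ℤ) | Q.IsPrime ∧ TypeA M D l β u k i Q}.Finite := by
    by_cases hik : i + 2 ≤ k
    · refine (finite_of_max (I := Ideal.span
        ((fun m => jl m) '' (M : Set (MvPolynomial σ ℤ)) ∪ {va σ, thA D l β u k i}))
        fun Q hQ hI => ?_).subset ?_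
      · have h1 := Ideal.span_le.1 hI
        refine ty_max (D := D) (β := β) (u := u) hp hk hi hk2 hM hJ hl
          (Or.inl ⟨hik, fun m hm => ?_, ?_, ?_⟩)
        · exact h1 (Or.inl ⟨m, hm, rfl⟩)
        · exact h1 (Or.inr (Or.inl rfl))
        · exact h1 (Or.inr (Or.inr rfl))
      · rintro Q ⟨hQ, h⟩
        refine ⟨hQ, Ideal.span_le.2 ?_⟩
        rintro x (⟨m, hm, rfl⟩ | rfl | rfl)
        · exact h.2.1 m hm
        · exact h.2.2.1
        · exact h.2.2.2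
    · exact Set.finite_empty.subset fun Q h => absurd h.2.1 hik
  have hB : {Q : Ideal (MvPolynomial (V0 σ) ℤ) | Q.IsPrime ∧ TypeB M D l β u k i Q}.Finite := by
    by_cases hi1 : 1 ≤ i
    · refine (finite_of_max (I := Ideal.span
        ((fun m => jl m) '' (M : Set (MvPolynomial σ ℤ)) ∪ {vb σ, thB D l β u k i}))
        fun Q hQ hI => ?_).subset ?_
      · have h1 := Ideal.span_le.1 hI
        refine ty_max (D := D) (β := β) (u := u) hp hk hi hk2 hM hJ hl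
          (Or.inr ⟨hi1, fun m hm => ?_, ?_, ?_⟩)
        · exact h1 (Or.inl ⟨m, hm, rfl⟩)
        · exact h1 (Or.inr (Or.inl rfl))
        · exact h1 (Or.inr (Or.inr rfl))
      · rintro Q ⟨hQ, h⟩
        refine ⟨hQ, Ideal.span_le.2 ?_⟩
        rintro x (⟨m, hm, rfl⟩ | rfl | rfl)
        · exact h.2.1 m hm
        · exact h.2.2.1
        · exact h.2.2.2
    · exact Set.finite_empty.subset fun Q h => absurd h.2.1 hi1
  refine (hA.union hB).subset ?_
  rintro Q ⟨hQ, h | h⟩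
  · exact Or.inl ⟨hQ, h⟩
  · exact Or.inr ⟨hQ, h⟩

end Pool.Agent.PW
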