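import Pool.Agent.PW.CtF
import Pool.Agent.PW.CtD
import Pool.Agent.PW.CaB
import Pool.Agent.PW.WdB

set_option autoImplicit false

/-! # CTO: the singular points over a contact point are ordinary double points -/

namespace Pool.Agent.PW

open MvPolynomial Pool.Agent.NT9

variable {σ : Type} [Fintype σ] [DecidableEq σ]

variable {s w : MvPolynomial σ ℤ} {u : ℤ} {p k i : ℕ} {K : Type} [Field K]
  {θ : MvPolynomial σ ℤ →+* K} {a b : K} {O : Subring K}

/-- The quadratic form, written out. -/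
private theorem cto_form {c : σ}
    (q : {j : σ // j ≠ c} → {j : σ // j ≠ c} → MvPolynomial σ ℤ)
    (v : {j : σ // j ≠ c} → MvPolynomial (V0 σ) ℤ) (y th : MvPolynomial (V0 σ) ℤ) :
    ∑ i, ∑ j, ctQ q i j * (Sum.elim v ![y, th] : _ ⊕ Fin 2 → _) i *
      (Sum.elim v ![y, th] : _ ⊕ Fin 2 → _) j =
      ∑ j, ∑ k, jl (q j k) * v j * v k + y * th := by
  rw [Fintype.sum_sum_type]
  simp only [Fintype.sum_sum_type, Fin.sum_univ_two, Sum.elim_inl, Sum.elim_inr, ctQ,
    Matrix.cons_val_zero, Matrix.cons_val_one]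
  simp

/-- The points of type A or B are ordinary double points. `z = r_1 = p - a ^ (i + 1) b ^ i`, `r = r_0 = s - a b`, the parameters `x`: the `v_j`, `y`, `th` with
`(y, th) = (a, θ_A)` or `(b, θ_B)`. Proof. `par`: `par_of_jac` gives `Par Q (C p) (tyη s w c y th)`; `a ^ (i + 1) b ^ i ∈ span {y}` (`hy`), so `C p` can be replaced by `z`; and
`tyη .. = fun t => Sum.elim r x (e.symm t)`. `quad`: `Wd.rel` for all three relations and `ctG_rel`, `hG`. `tor`: `d = jl D * jl (C p * s)` (`θ D ≠ 0` since `D ∉ M`): `Wd.tor` and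
`jl D * r_2 ∈ span (insert z (insert (form) (range r)))` by `ctG_rel`, so `jl D * x` is in this span for all `x` in the ideal of the relations. -/
theorem odp_of_type [IsLocalRing O] {f : MvPolynomial σ ℤ} (hker : RingHom.ker θ = Ideal.span {f})
    (hf : f = C u * s ^ k + C (p : ℤ) * w) (hp : p.Prime) (hi : i < k)
    (h : Wd θ s w u p k i a b O) {M : Ideal (MvPolynomial σ ℤ)} [M.IsMaximal]
    (hM : IsCt s w p M) {c : σ} {D l β : MvPolynomial σ ℤ}
    {q : {j : σ // j ≠ c} → {j : σ // j ≠ c} → MvPolynomial σ ℤ}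
    (hcf : CForm s w p M c D l β q) {Q : Ideal (MvPolynomial (V0 σ) ℤ)} [Q.IsMaximal]
    (hMQ : ∀ m ∈ M, jl m ∈ Q) (hQ : ∀ t, t ∈ Q ↔ pi0 θ a b t ∈ mx O)
    {y th : MvPolynomial (V0 σ) ℤ} (hyQ : y ∈ Q) (hthQ : th ∈ Q)
    (hJ : Jac Q (tyη s w c y th)) (hG : y * th = ctG D l β u k i)
    (hy : va σ ^ (i + 1) * vb σ ^ i ∈ Ideal.span {y}) :
    Odp (ctE c) (pi0 θ a b) Q (rel0 s w u p k i 1) (fun _ => rel0 s w u p k i 0)
      (Sum.elim (fun j => jl (vm s w c j.1)) ![y, th]) (ctQ q) O := by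
  have e0 : rel0 s w u p k i 0 = jl s - va σ * vb σ := rfl
  have e1 : rel0 s w u p k i 1 = C (p : ℤ) - va σ ^ (i + 1) * vb σ ^ i := rfl
  have hrQ : ∀ j, rel0 s w u p k i j ∈ Q := by
    intro j
    rw [hQ, h.rel j]
    exact zero_mem_mx
  have hpQ : (C (p : ℤ) : MvPolynomial (V0 σ) ℤ) ∈ Q := by
    have h1 := hMQ _ hM.2.1
    rwa [jl, rename_C] at h1
  have hηQ : ∀ j, tyη s w c y th j ∈ Q := by
    rintro (j | j)
    · simp only [tyη, Sum.elim_inl]
      split_ifs with hj
      · rw [← e0]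
        exact hrQ 0
      · exact hMQ _ (hM.2.2.2.2 c j)
    · simp only [tyη, Sum.elim_inr]
      fin_cases j
      · exact hyQ
      · exact hthQ
  have hfun : (fun t => (Sum.elim (fun _ => rel0 s w u p k i 0)
      (Sum.elim (fun j => jl (vm s w c j.1)) ![y, th]) :
        Unit ⊕ ({j : σ // j ≠ c} ⊕ Fin 2) → MvPolynomial (V0 σ) ℤ) ((ctE c).symm t)) =
      tyη s w c y th := by
    funext t
    rcases t with t | t
    · by_cases ht : t = c
      · subst ht
        simp [ctE, tyη, e0]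
      · simp [ctE, tyη, ht]
    · simp [ctE, tyη]
  have hform := cto_form q (fun j => jl (vm s w c j.1)) y th
  have hrel := ctG_rel (u := u) (k := k) (i := i) hcf.eq
  have hform2 : ∑ i', ∑ j', ctQ q i' j' *
      (Sum.elim (fun j => jl (vm s w c j.1)) ![y, th] : _ ⊕ Fin 2 → _) i' *
      (Sum.elim (fun j => jl (vm s w c j.1)) ![y, th] : _ ⊕ Fin 2 → _) j' =
      jl D * rel0 s w u p k i 2 - jl l * rel0 s w u p k i 0 - jl β * rel0 s w u p k i 1 := by
    rw [hform, hG, hrel]
    ring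
  refine ⟨?_, hQ, pi0_mem θ h.poly h.aO h.bO, h.rel 1, fun _ => h.rel 0, h.fr,
    ctQ_sm hcf.sm hMQ, ?_, ?_⟩
  · rw [hfun]
    obtain ⟨-, h2, h3⟩ := par_of_jac hp hpQ hηQ hJ
    refine ⟨hrQ 1, h2, h3.trans (sup_le_sup_right ?_ _)⟩
    rw [Ideal.span_le]
    have hyS : y ∈ Ideal.span (insert (rel0 s w u p k i 1) (Set.range (tyη s w c y th))) :=
      Ideal.subset_span (Or.inr ⟨Sum.inr 0, rfl⟩)
    rintro _ (rfl | ht)
    · have h4 : (C (p : ℤ) : MvPolynomial (V0 σ) ℤ) =
          rel0 s w u p k i 1 + va σ ^ (i + 1) * vb σ ^ i := by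
        rw [e1]
        ring
      rw [SetLike.mem_coe, h4]
      refine Ideal.add_mem _ (Ideal.subset_span (Or.inl rfl)) ?_
      exact (Ideal.span_singleton_le_iff_mem _).2 hyS hy
    · exact Ideal.subset_span (Or.inr ht)
  · have h4 := congrArg (pi0 θ a b) hform2
    rw [map_sub, map_sub, map_mul, map_mul, map_mul, h.rel, h.rel, h.rel, mul_zero, mul_zero,
      mul_zero, sub_zero, sub_zero, map_sum] at h4
    rw [← h4]
    refine Finset.sum_congr rfl fun i' _ => ?_
    rw [map_sum]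
    refine Finset.sum_congr rfl fun j' _ => ?_
    rw [map_mul, map_mul]
  · have hfM : f ∈ M := by
      rw [hf]
      exact Ideal.add_mem _ (Ideal.mul_mem_left _ _ (Ideal.pow_mem_of_mem _ hM.2.2.1 k (by omega)))
        (Ideal.mul_mem_right _ _ hM.2.1)
    have hθD : θ D ≠ 0 := by
      intro h0
      apply hcf.hD
      have h1 : D ∈ RingHom.ker θ := h0
      rw [hker] at h1
      exact (Ideal.span_singleton_le_iff_mem _).2 hfM h1
    have hp0 : ((p : ℕ) : K) ≠ 0 := by
      rw [h.hp]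
      exact mul_ne_zero (pow_ne_zero _ h.a0) (pow_ne_zero _ h.b0)
    have hs0 : θ s ≠ 0 := by
      rw [h.hs]
      exact mul_ne_zero h.a0 h.b0
    refine ⟨jl D * jl (C (p : ℤ) * s), ?_, fun t ht => ?_⟩
    · rw [map_mul, pi0_jl, pi0_jl, map_mul]
      refine mul_ne_zero hθD (mul_ne_zero ?_ hs0)
      have h1 : θ (C (p : ℤ)) = (p : K) := by
        have h2 : (C (p : ℤ) : MvPolynomial σ ℤ) = ((p : ℕ) : MvPolynomial σ ℤ) := by simp
        rw [h2, map_natCast]
      rwa [h1]
    · obtain ⟨N, hN⟩ := Wd.tor hker hf hi h t ht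
      refine ⟨N + 1, ?_⟩
      have key : ∀ x ∈ Ideal.span (Set.range (rel0 s w u p k i)), jl D * x ∈
          Ideal.span (insert (rel0 s w u p k i 1) (insert (∑ i', ∑ j', ctQ q i' j' *
            (Sum.elim (fun j => jl (vm s w c j.1)) ![y, th] : _ ⊕ Fin 2 → _) i' *
            (Sum.elim (fun j => jl (vm s w c j.1)) ![y, th] : _ ⊕ Fin 2 → _) j')
            (Set.range fun _ : Unit => rel0 s w u p k i 0))) := by
        intro x hx
        refine Submodule.span_induction ?_ ?_ ?_ ?_ hx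
        · rintro _ ⟨j, rfl⟩
          fin_cases j
          · exact Ideal.mul_mem_left _ _ (Ideal.subset_span (Or.inr (Or.inr ⟨(), rfl⟩)))
          · exact Ideal.mul_mem_left _ _ (Ideal.subset_span (Or.inl rfl))
          · have h5 : jl D * rel0 s w u p k i 2 = (∑ i', ∑ j', ctQ q i' j' *
                (Sum.elim (fun j => jl (vm s w c j.1)) ![y, th] : _ ⊕ Fin 2 → _) i' *
                (Sum.elim (fun j => jl (vm s w c j.1)) ![y, th] : _ ⊕ Fin 2 → _) j') +
                jl l * rel0 s w u p k i 0 + jl β * rel0 s w u p k i 1 := by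
              rw [hform2]
              ring
            change jl D * rel0 s w u p k i 2 ∈ _
            rw [h5]
            exact Ideal.add_mem _ (Ideal.add_mem _ (Ideal.subset_span (Or.inr (Or.inl rfl)))
              (Ideal.mul_mem_left _ _ (Ideal.subset_span (Or.inr (Or.inr ⟨(), rfl⟩)))))
              (Ideal.mul_mem_left _ _ (Ideal.subset_span (Or.inl rfl)))
        · rw [mul_zero]
          exact Ideal.zero_mem _
        · intro x y _ _ hx hy
          rw [mul_add]
          exact Ideal.add_mem _ hx hy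
        · intro g x _ hx
          rw [smul_eq_mul, mul_left_comm]
          exact Ideal.mul_mem_left _ _ hx
      have h6 : (jl D * jl (C (p : ℤ) * s)) ^ (N + 1) * t =
          jl D ^ N * jl (C (p : ℤ) * s) * (jl D * (jl (C (p : ℤ) * s) ^ N * t)) := by
        ring
      rw [h6]
      exact Ideal.mul_mem_left _ _ (key _ hN)

end Pool.Agent.PW
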