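import Pool.Agent.PW.NoA
import Pool.Agent.EvM.ExGood

set_option autoImplicit false

/-! # CYA: mild reductions satisfy the first condition -/

namespace Pool.Agent.PW

open MvPolynomial Pool.Agent.NT9

/-- Isolated singular points and Hessian matrices of corank at most one. Proof. (a) Every prime ideal `Q` with `C p, f, ∂ f ∈ Q`, `f = deh m F`, is maximal: `L = FractionRing (T / Q)`,
`EvM.sing_pt`, `EvM.max_of_int` (compare `EvM.iso_of_int`). (b) Finiteness by `finite_of_max` and the isolatedness as in `tame_of_nodal`. (c) `Cor1`: for `χ` with kernel `M` apply `MildAt` to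
`EvM.pt m χ` (`EvM.sing_pt`, `EvM.aeval_pt`, `EvM.pt_self`, `EvM.char_of_mem`); the matrices agree by `NH.pderiv_deh` and `EvM.aeval_pt`; `card {i // i ≠ m} = n`. -/
theorem tame_of_mild {n d p : ℕ} (hp : p.Prime) {F : MvPolynomial (Fin (n + 1)) ℤ}
    (hF : F.IsHomogeneous d) (h : EvM.MildAt F p) : TameAt F p := by
  intro m
  have hmax : ∀ Q : Ideal (MvPolynomial {i : Fin (n + 1) // i ≠ m} ℤ), Q.IsPrime →
      C (p : ℤ) ∈ Q → NH.deh m F ∈ Q → (∀ i, pderiv i (NH.deh m F) ∈ Q) → Q.IsMaximal := by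
    intro Q hQ hpQ hf hd
    let L := FractionRing (MvPolynomial {i : Fin (n + 1) // i ≠ m} ℤ ⧸ Q)
    let χ : MvPolynomial {i : Fin (n + 1) // i ≠ m} ℤ →+* L :=
      (algebraMap (MvPolynomial {i : Fin (n + 1) // i ≠ m} ℤ ⧸ Q) L).comp (Ideal.Quotient.mk Q)
    have hχ : ∀ g, χ g = 0 ↔ g ∈ Q := by
      intro g
      rw [RingHom.comp_apply, FaithfulSMul.algebraMap_eq_zero_iff, Ideal.Quotient.eq_zero_iff_mem]
    have hchar : CharP L p := EvM.char_of_mem hp χ ((hχ _).2 hpQ)
    obtain ⟨h0, h1⟩ := EvM.sing_pt hF m χ ((hχ _).2 hf) (fun i => (hχ _).2 (hd i))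
    refine EvM.max_of_int hp Q hpQ L χ hχ (fun i => ?_)
    have h2 := (h L (EvM.pt m χ) m (EvM.pt_self m χ) h0 h1).1 i.1
    simp only [EvM.pt] at h2
    rwa [dif_pos i.2] at h2
  refine ⟨?_, fun M hM hpM hf => Or.inr ⟨Or.inr ?_, fun Q hQ hQM hpQ hfQ hdQ => ?_⟩⟩
  · set I : Ideal (MvPolynomial {i : Fin (n + 1) // i ≠ m} ℤ) :=
      Ideal.span (insert (C (p : ℤ)) (insert (NH.deh m F)
        (Set.range fun i => pderiv i (NH.deh m F)))) with hI
    have hfin := finite_of_max (I := I) (fun Q hQ hIQ => by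
      refine hmax Q hQ ?_ ?_ ?_
      · exact hIQ (Ideal.subset_span (Set.mem_insert _ _))
      · exact hIQ (Ideal.subset_span (Set.mem_insert_of_mem _ (Set.mem_insert _ _)))
      · intro i
        exact hIQ (Ideal.subset_span (Set.mem_insert_of_mem _ (Set.mem_insert_of_mem _
          (Set.mem_range_self i)))))
    refine hfin.subset ?_
    rintro M ⟨hM, hpM, hf⟩
    refine ⟨hM.isPrime, ?_⟩
    rw [hI, Ideal.span_le]
    rintro g (rfl | rfl | ⟨i, rfl⟩)
    · exact hpM
    · exact Ideal.pow_le_self two_ne_zero hf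
    · exact Pool.Agent.QuadModel.derivation_mem (pderiv i) M hf
  · intro L _ χ hχ
    have hchar : CharP L p := EvM.char_of_mem hp χ ((hχ _).2 hpM)
    obtain ⟨h0, h1⟩ := EvM.sing_pt hF m χ ((hχ _).2 (Ideal.pow_le_self two_ne_zero hf))
      (fun i => (hχ _).2 (Pool.Agent.QuadModel.derivation_mem (pderiv i) M hf))
    have h2 := (h L (EvM.pt m χ) m (EvM.pt_self m χ) h0 h1).2
    have hcard : Fintype.card {i : Fin (n + 1) // i ≠ m} = n := by
      rw [Fintype.card_subtype_compl, Fintype.card_fin, Fintype.card_subtype_eq]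
      omega
    have hmat : (Matrix.of fun i j => χ (pderiv i (pderiv j (NH.deh m F)))) =
        EvM.hessAt m F (EvM.pt m χ) := by
      ext a b
      rw [EvM.hessAt, Matrix.of_apply, Matrix.of_apply, EvM.aeval_pt, NH.pderiv_deh,
        NH.pderiv_deh]
    rw [hcard, hmat]
    exact h2
  · exact (hmax Q hQ hpQ hfQ hdQ).eq_of_le hM.ne_top hQM

end Pool.Agent.PW
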