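import Pool.Agent.PW.CyDefs
import Pool.Agent.PW.CaF
import Pool.Agent.NodHyp.Deh
import Pool.Agent.NT9.GeCotA

set_option autoImplicit false

/-! # CYB: nondegenerate critical points are algebraic -/

namespace Pool.Agent.PW

open MvPolynomial Pool.Agent.NT9

private theorem cyb_char {σ L : Type} [Field L] {p : ℕ} (hp : p.Prime)
    (χ : MvPolynomial σ ℤ →+* L) (h : χ (C (p : ℤ)) = 0) : CharP L p := by
  apply (CharP.charP_iff_prime_eq_zero hp).mpr
  have h2 : (χ.comp C) = Int.castRingHom L := RingHom.ext_int _ _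
  have h3 : χ (C (p : ℤ)) = ((p : ℤ) : L) := congrArg (fun ψ : ℤ →+* L => ψ p) h2
  rw [h3] at h
  exact_mod_cast h

private noncomputable def cyb_pt {n : ℕ} {L : Type} [Field L] (m : Fin (n + 1))
    (χ : MvPolynomial {i : Fin (n + 1) // i ≠ m} ℤ →+* L) : Fin (n + 1) → L :=
  fun i => if h : i ≠ m then χ (X ⟨i, h⟩) else 1

private theorem cyb_pt_self {n : ℕ} {L : Type} [Field L] (m : Fin (n + 1))
    (χ : MvPolynomial {i : Fin (n + 1) // i ≠ m} ℤ →+* L) : cyb_pt m χ m = 1 := by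
  simp only [cyb_pt]
  rw [dif_neg (by simp)]

private theorem cyb_aeval {n : ℕ} {L : Type} [Field L] (m : Fin (n + 1))
    (χ : MvPolynomial {i : Fin (n + 1) // i ≠ m} ℤ →+* L) (G : MvPolynomial (Fin (n + 1)) ℤ) :
    aeval (cyb_pt m χ) G = χ (NH.deh m G) := by
  have h1 : (aeval (fun i : {i : Fin (n + 1) // i ≠ m} => cyb_pt m χ i.1) :
      MvPolynomial {i : Fin (n + 1) // i ≠ m} ℤ →ₐ[ℤ] L) = χ.toIntAlgHom := by
    apply MvPolynomial.algHom_ext
    intro i
    rw [aeval_X]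
    simp only [cyb_pt]
    rw [dif_pos i.2]
    rfl
  rw [← NH.aeval_deh (cyb_pt m χ) (cyb_pt_self m χ) G, h1]
  rfl

/-- Proof. `T = ℤ[x_i, i ≠ k]`, `χ : T → L` the evaluation at `y` (`NH.aeval_deh`, `y k = 1`), `Q` its kernel, a prime ideal which contains `C p` and `deh k (∂_i G)` for all `i`. `Jac Q η` for
`η i = deh k (∂_i G)`, `i ≠ k`: a homomorphism `χ'` with kernel `Q` is a point `z` with `z k = 1`, `∂_i G (z) = 0` for all `i`, so by `MorseAt` (`m = k`) the matrix `χ' (∂_c η_j)` is invertible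
(`NH.pderiv_deh`, `Matrix.exists_mulVec_eq_zero_iff`). `max_of_jac`: `Q` is maximal, `T / Q` is a finite field (`NT9.finite_quot`) and embeds into `L`. -/
theorem morse_alg {n p : ℕ} (hp : p.Prime) {G : MvPolynomial (Fin (n + 1)) ℤ}
    (h : MorseAt G p) {L : Type} [Field L] [CharP L p] {y : Fin (n + 1) → L}
    {k : Fin (n + 1)} (hk : y k = 1) (hy : ∀ i, aeval y (pderiv i G) = 0) :
    ∃ q : ℕ, 2 ≤ q ∧ ∀ i, y i ^ q = y i := by
  classical
  let χ : MvPolynomial {i : Fin (n + 1) // i ≠ k} ℤ →+* L :=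
    ((aeval (fun i : {i : Fin (n + 1) // i ≠ k} => y i.1) :
      MvPolynomial {i : Fin (n + 1) // i ≠ k} ℤ →ₐ[ℤ] L) :
        MvPolynomial {i : Fin (n + 1) // i ≠ k} ℤ →+* L)
  have hχd : ∀ H : MvPolynomial (Fin (n + 1)) ℤ, χ (NH.deh k H) = aeval y H :=
    fun H => NH.aeval_deh y hk H
  have hχX : ∀ i : {i : Fin (n + 1) // i ≠ k}, χ (X i) = y i.1 := fun i => aeval_X _ _
  let Q : Ideal (MvPolynomial {i : Fin (n + 1) // i ≠ k} ℤ) := RingHom.ker χ
  have hQ : Q.IsPrime := RingHom.ker_isPrime χ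
  have hmem : ∀ g, g ∈ Q ↔ χ g = 0 := fun g => RingHom.mem_ker
  have hpQ : (C (p : ℤ) : MvPolynomial {i : Fin (n + 1) // i ≠ k} ℤ) ∈ Q := by
    rw [hmem]
    have h2 : (χ.comp C) = Int.castRingHom L := RingHom.ext_int _ _
    have h3 : χ (C (p : ℤ)) = ((p : ℤ) : L) := congrArg (fun ψ : ℤ →+* L => ψ p) h2
    rw [h3, Int.cast_natCast]
    exact CharP.cast_eq_zero L p
  have hη : ∀ j : {i : Fin (n + 1) // i ≠ k}, NH.deh k (pderiv j.1 G) ∈ Q := by
    intro j
    rw [hmem, hχd]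
    exact hy j.1
  have hηk : NH.deh k (pderiv k G) ∈ Q := by
    rw [hmem, hχd]
    exact hy k
  have hJ : Jac Q (fun j : {i : Fin (n + 1) // i ≠ k} => NH.deh k (pderiv j.1 G)) := by
    intro L' _ χ' hχ' ξ hξ
    have hchar : CharP L' p := cyb_char hp χ' ((hχ' _).2 hpQ)
    have hz : ∀ i, aeval (cyb_pt k χ') (pderiv i G) = 0 := by
      intro i
      rw [cyb_aeval, hχ']
      by_cases hi : i = k
      · rw [hi]
        exact hηk
      · exact hη ⟨i, hi⟩
    have hdet := h L' (cyb_pt k χ') k (by rw [cyb_pt_self]; exact one_ne_zero) hz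
    by_contra hξ0
    apply hdet
    rw [← Matrix.exists_vecMul_eq_zero_iff]
    refine ⟨ξ, hξ0, ?_⟩
    funext j
    have h1 := hξ j
    refine Eq.trans ?_ h1
    simp only [Matrix.vecMul, dotProduct, Matrix.of_apply]
    refine Finset.sum_congr rfl fun c _ => ?_
    rw [NH.pderiv_deh, cyb_aeval, mul_comm]
  have hmax : Q.IsMaximal := max_of_jac hp hpQ hη hJ
  obtain ⟨q, hq2, -, hq⟩ := exists_q (M := Q) hp hpQ
  refine ⟨q, hq2, fun i => ?_⟩
  by_cases hi : i = k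
  · rw [hi, hk, one_pow]
  · have h1 := (hmem _).1 (hq (X ⟨i, hi⟩))
    rw [map_sub, map_pow, hχX, sub_eq_zero] at h1
    exact h1

end Pool.Agent.PW
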