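import Pool.Agent.PW.CyB
import Pool.Agent.EvM.ExDefs

set_option autoImplicit false

/-! # CYC: cyclic coverings have mild reductions -/

namespace Pool.Agent.PW

open MvPolynomial Pool.Agent.NT9

private theorem cyc_rename {n : ℕ} (G : MvPolynomial (Fin n) ℤ) (i : Fin n) :
    pderiv i.succ (rename Fin.succ G) = rename Fin.succ (pderiv i G) := by
  induction G using MvPolynomial.induction_on with
  | C a => rw [rename_C, pderiv_C, pderiv_C, map_zero]
  | add f g hf hg => rw [map_add, map_add, hf, hg, map_add, map_add]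
  | mul_X f j hf =>
    rw [map_mul, rename_X, Derivation.leibniz, Derivation.leibniz, hf, map_add, smul_eq_mul,
      smul_eq_mul, smul_eq_mul, smul_eq_mul, map_mul, map_mul, rename_X]
    by_cases hij : j = i
    · subst hij
      rw [pderiv_X_self, pderiv_X_self, map_one]
    · rw [pderiv_X_of_ne hij, pderiv_X_of_ne (fun h => hij (Fin.succ_injective _ h)), map_zero]

private theorem cyc_pderiv {n : ℕ} (d : ℕ) (G : MvPolynomial (Fin n) ℤ) (i : Fin n) :
    pderiv i.succ (cycF d G) = rename Fin.succ (pderiv i G) := by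
  unfold cycF
  rw [map_add, Derivation.leibniz_pow, pderiv_X_of_ne (Fin.succ_ne_zero i).symm, smul_zero,
    smul_zero, zero_add, cyc_rename]

theorem cycF_hom {n d : ℕ} {G : MvPolynomial (Fin n) ℤ} (hG : G.IsHomogeneous d) :
    (cycF d G).IsHomogeneous d := by
  unfold cycF
  exact (isHomogeneous_X_pow (0 : Fin (n + 1)) d).add hG.rename_isHomogeneous

/-- Proof. `∂_(i.succ) (cycF d G) = rename succ (∂_i G)` (`pderiv_rename` or `MvPolynomial.induction_on`). -/
theorem cycF_der {n d : ℕ} (G : MvPolynomial (Fin n) ℤ) {L : Type} [CommRing L]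
    (x : Fin (n + 1) → L) (i : Fin n) :
    aeval x (pderiv i.succ (cycF d G)) = aeval (fun j : Fin n => x j.succ) (pderiv i G) := by
  rw [cyc_pderiv, aeval_rename]
  rfl

theorem cycF_der2 {n d : ℕ} (G : MvPolynomial (Fin n) ℤ) {L : Type} [CommRing L]
    (x : Fin (n + 1) → L) (i j : Fin n) :
    aeval x (pderiv i.succ (pderiv j.succ (cycF d G))) =
      aeval (fun j : Fin n => x j.succ) (pderiv i (pderiv j G)) := by
  rw [cyc_pderiv, cyc_rename, aeval_rename]
  rfl

private theorem cyc_int {p : ℕ} [Fact p.Prime] {L : Type} [Field L] [Algebra (ZMod p) L]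
    {y : L} (hy : IsIntegral ℤ y) : IsIntegral (ZMod p) y := hy.tower_top

private theorem cyc_int' {p : ℕ} [Fact p.Prime] {L : Type} [Field L] [Algebra (ZMod p) L]
    {y : L} (hy : IsIntegral (ZMod p) y) : IsIntegral ℤ y := by
  have : Algebra.IsIntegral ℤ (ZMod p) := by
    refine ⟨fun r => ?_⟩
    obtain ⟨m, rfl⟩ := ZMod.intCast_surjective r
    have h := isIntegral_algebraMap (R := ℤ) (A := ZMod p) (x := m)
    simpa using h
  exact isIntegral_trans _ hy

private theorem cyc_inv {p : ℕ} (hp : p.Prime) {L : Type} [Field L] [CharP L p]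
    {y : L} (hy : IsIntegral ℤ y) : IsIntegral ℤ y⁻¹ := by
  haveI := Fact.mk hp
  letI := ZMod.algebra L p
  have h1 : IsAlgebraic (ZMod p) y := (cyc_int (p := p) hy).isAlgebraic
  exact cyc_int' (p := p) h1.inv.isIntegral

private theorem cyc_poly {σ L : Type} [Field L] {y : σ → L} (hy : ∀ i, IsIntegral ℤ (y i))
    (G : MvPolynomial σ ℤ) : IsIntegral ℤ (aeval y G) := by
  induction G using MvPolynomial.induction_on with
  | C a =>
    rw [← algebraMap_eq, AlgHom.commutes]
    exact isIntegral_algebraMap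
  | add f g hf hg => rw [map_add]; exact hf.add hg
  | mul_X f i hf => rw [map_mul, aeval_X]; exact hf.mul (hy i)

private theorem cyc_rank {ι κ L : Type} [Fintype ι] [Fintype κ] [DecidableEq ι] [DecidableEq κ]
    [Field L] (A : Matrix ι ι L) (e : κ → ι) (h : (A.submatrix e e).det ≠ 0) :
    Fintype.card κ ≤ A.rank := by
  have h1 : A.submatrix e e =
      (1 : Matrix ι ι L).submatrix e id * A * (1 : Matrix ι ι L).submatrix id e := by
    ext i j
    simp [Matrix.mul_apply, Matrix.one_apply]
  have h2 : (A.submatrix e e).rank = Fintype.card κ :=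
    Matrix.rank_of_isUnit _ ((Matrix.isUnit_iff_isUnit_det _).2 (isUnit_iff_ne_zero.2 h))
  rw [← h2, h1]
  exact (Matrix.rank_mul_le_left _ _).trans (Matrix.rank_mul_le_right _ _)

/-- Proof. Let `x` be a singular point, `x m = 1`, `x' = x ∘ succ`. `x' ≠ 0`: otherwise `x 0 ^ d = 0` (`G (0) = 0`, `1 ≤ d`). Let `x' k ≠ 0`, `y = x' / x' k` (derivatives of a form:
`NH.Deh_aeval_smul`). Integrality: `morse_alg`: `y i ^ q = y i`; so the `y i` and the inverses of the nonzero elements of the ring they generate are integral over `ℤ`. If `m = j.succ`: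
`x' k = (y j)⁻¹`; if `m = 0`: `x' k ^ d = - G (y)⁻¹`; and `x 0 ^ d = - x' k ^ d G (y)` (`IsIntegral.of_pow`). Rank: if `m = j.succ` the submatrix of `hessAt m` with the indices `i.succ`, `i ≠ j`, is
the matrix of `MorseAt` for the point `x'` and `j`; if `m = 0` take the indices `i.succ`, `i ≠ k`. A matrix with an invertible submatrix of size `n` has rank `≥ n`. -/
theorem cycF_mild {n d p : ℕ} (hp : p.Prime) (hd : 1 ≤ d) {G : MvPolynomial (Fin (n + 1)) ℤ}
    (hG : G.IsHomogeneous d) (h : MorseAt G p) : EvM.MildAt (cycF d G) p := by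
  classical
  intro L _ _ x m hxm hF hdF
  obtain ⟨x', hx'⟩ : ∃ x' : Fin (n + 1) → L, x' = fun j => x j.succ := ⟨_, rfl⟩
  have hx's : ∀ j, x j.succ = x' j := fun j => by rw [hx']
  have hF' : x 0 ^ d + aeval x' G = 0 := by
    have h1 : aeval x (cycF d G) = x 0 ^ d + aeval x' G := by
      unfold cycF
      rw [map_add, map_pow, aeval_X, aeval_rename, hx']
      rfl
    rw [← h1]
    exact hF
  have hdG : ∀ i, aeval x' (pderiv i G) = 0 := by
    intro i
    have h1 := hdF i.succ
    rw [cycF_der] at h1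
    rw [hx']
    exact h1
  have hk : ∃ k, x' k ≠ 0 := by
    by_contra hcon
    push Not at hcon
    have hx0 : x' = fun i => (0 : L) * x' i := by
      funext i
      rw [hcon i, mul_zero]
    have hG0 : aeval x' G = 0 := by
      have h1 := NH.Deh_aeval_smul (0 : L) x' hG
      rw [← hx0, zero_pow (by omega), zero_mul] at h1
      exact h1
    rw [hG0, add_zero] at hF'
    have h00 : x 0 = 0 := by
      by_contra hne
      exact pow_ne_zero d hne hF'
    rcases Fin.eq_zero_or_eq_succ m with hm | ⟨j, hm⟩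
    · rw [hm, h00] at hxm
      exact zero_ne_one hxm
    · rw [hm, hx's, hcon j] at hxm
      exact zero_ne_one hxm
  obtain ⟨k, hk⟩ := hk
  obtain ⟨y, hydef⟩ : ∃ y : Fin (n + 1) → L, y = fun i => (x' k)⁻¹ * x' i := ⟨_, rfl⟩
  have hyk : y k = 1 := by
    rw [hydef]
    exact inv_mul_cancel₀ hk
  have hyd : ∀ i, aeval y (pderiv i G) = 0 := by
    intro i
    rw [hydef, NH.Deh_aeval_smul _ _ hG.pderiv, hdG i, mul_zero]
  obtain ⟨q, hq2, hq⟩ := morse_alg hp h hyk hyd
  have hyint : ∀ i, IsIntegral ℤ (y i) := by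
    intro i
    refine ⟨Polynomial.X ^ q - Polynomial.X, Polynomial.monic_X_pow_sub (by
      rw [Polynomial.degree_X]
      exact_mod_cast (by omega : 1 < q)), ?_⟩
    rw [Polynomial.eval₂_sub, Polynomial.eval₂_pow, Polynomial.eval₂_X, hq i, sub_self]
  have hxy : ∀ i, x' i = x' k * y i := by
    intro i
    rw [hydef]
    change x' i = x' k * ((x' k)⁻¹ * x' i)
    rw [mul_inv_cancel_left₀ hk]
  have hGint : IsIntegral ℤ (aeval y G) := cyc_poly hyint G
  have hGx : aeval x' G = x' k ^ d * aeval y G := by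
    have h1 := NH.Deh_aeval_smul (x' k) y hG
    rw [← h1]
    congr 2
    funext i
    exact hxy i
  have hd0 : 0 < d := by omega
  have hxk : IsIntegral ℤ (x' k) := by
    rcases Fin.eq_zero_or_eq_succ m with hm | ⟨j, hm⟩
    · rw [hm] at hxm
      rw [hxm, one_pow, hGx] at hF'
      have hg0 : aeval y G ≠ 0 := by
        intro h0
        rw [h0, mul_zero, add_zero] at hF'
        exact one_ne_zero hF'
      have h1 : x' k ^ d = - (aeval y G)⁻¹ := by
        have h2 : x' k ^ d * aeval y G = -1 := by linear_combination hF'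
        rw [eq_neg_iff_add_eq_zero]
        have h3 : (x' k ^ d + (aeval y G)⁻¹) * aeval y G = 0 := by
          rw [add_mul, h2, inv_mul_cancel₀ hg0]
          ring
        exact (mul_eq_zero.1 h3).resolve_right hg0
      refine IsIntegral.of_pow hd0 ?_
      rw [h1]
      exact (cyc_inv hp hGint).neg
    · rw [hm, hx's] at hxm
      have h1 : x' k * y j = 1 := by rw [← hxy, hxm]
      have h2 : x' k = (y j)⁻¹ := eq_inv_of_mul_eq_one_left h1
      rw [h2]
      exact cyc_inv hp (hyint j)
  refine ⟨fun i => ?_, ?_⟩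
  · refine Fin.cases ?_ (fun j => ?_) i
    · refine IsIntegral.of_pow hd0 ?_
      have h1 : x 0 ^ d = - (x' k ^ d * aeval y G) := by
        rw [← hGx]
        linear_combination hF'
      rw [h1]
      exact ((hxk.pow d).mul hGint).neg
    · rw [hx's, hxy j]
      exact hxk.mul (hyint j)
  · obtain ⟨k', hk', hkm⟩ : ∃ k' : Fin (n + 1), x' k' ≠ 0 ∧
        ∀ i : Fin (n + 1), i ≠ k' → i.succ ≠ m := by
      rcases Fin.eq_zero_or_eq_succ m with hm | ⟨j, hm⟩
      · exact ⟨k, hk, fun i _ => by rw [hm]; exact Fin.succ_ne_zero i⟩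
      · refine ⟨j, ?_, fun i hi => by rw [hm]; exact fun h => hi (Fin.succ_injective _ h)⟩
        rw [← hx's, ← hm, hxm]
        exact one_ne_zero
    have hdet := h L x' k' hk' hdG
    let e : {i : Fin (n + 1) // i ≠ k'} → {i : Fin (n + 1 + 1) // i ≠ m} :=
      fun i => ⟨i.1.succ, hkm i.1 i.2⟩
    have hsub : (EvM.hessAt m (cycF d G) x).submatrix e e =
        Matrix.of fun a b : {i : Fin (n + 1) // i ≠ k'} =>
          aeval x' (pderiv a.1 (pderiv b.1 G)) := by
      ext a b
      rw [Matrix.submatrix_apply, EvM.hessAt, Matrix.of_apply, Matrix.of_apply]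
      change aeval x (pderiv a.1.succ (pderiv b.1.succ (cycF d G))) = _
      rw [cycF_der2, hx']
    have hcard : Fintype.card {i : Fin (n + 1) // i ≠ k'} = n := by
      rw [Fintype.card_subtype_compl, Fintype.card_fin, Fintype.card_subtype_eq]
      omega
    have h1 := cyc_rank (EvM.hessAt m (cycF d G) x) e (by rw [hsub]; exact hdet)
    rw [hcard] at h1
    exact h1

end Pool.Agent.PW
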