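import Pool.Agent.PW.CyA
import Pool.Agent.PW.CyC
import Pool.Agent.PW.MaC

set_option autoImplicit false

/-! # CYD: cyclic coverings -/

namespace Pool.Agent.PW

open MvPolynomial Pool.Agent.NT9

private theorem CyD_pderiv_zero {n : ℕ} (G : MvPolynomial (Fin n) ℤ) :
    pderiv 0 (rename Fin.succ G) = 0 := by
  induction G using MvPolynomial.induction_on with
  | C a => rw [rename_C, pderiv_C]
  | add f g hf hg => rw [map_add, map_add, hf, hg, add_zero]
  | mul_X f i hf =>
    rw [map_mul, rename_X, Derivation.leibniz, hf, pderiv_X_of_ne (Fin.succ_ne_zero i), smul_zero,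
      smul_zero, add_zero]

private theorem CyD_pderiv_succ {n : ℕ} (G : MvPolynomial (Fin n) ℤ) (i : Fin n) :
    pderiv i.succ (rename Fin.succ G) = rename Fin.succ (pderiv i G) := by
  induction G using MvPolynomial.induction_on with
  | C a => rw [rename_C, pderiv_C, pderiv_C, map_zero]
  | add f g hf hg => rw [map_add, map_add, map_add, map_add, hf, hg]
  | mul_X f j hf =>
    rw [map_mul, rename_X, Derivation.leibniz, Derivation.leibniz, hf, map_add, smul_eq_mul,
      smul_eq_mul, smul_eq_mul, smul_eq_mul, map_mul, map_mul, rename_X]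
    by_cases hij : i = j
    · subst hij
      rw [pderiv_X_self, pderiv_X_self, map_one]
    · rw [pderiv_X_of_ne (fun h => hij h.symm), pderiv_X_of_ne (fun h => hij (Fin.succ_injective n h).symm),
        map_zero]

theorem cycF_smooth {n d : ℕ} (hd : 2 ≤ d) {G : MvPolynomial (Fin n) ℤ}
    (h : ∀ (L : Type) [Field L] [CharZero L] (x : Fin n → L),
      (∀ i, aeval x (pderiv i G) = 0) → x = 0) : NH.SmoothQ (cycF d G) := by
  intro L _ _ x hx hd0
  have h1 : x 0 = 0 := by
    have h2 := hd0 0
    rw [cycF, map_add, CyD_pderiv_zero, add_zero, pderiv_pow, pderiv_X_self, mul_one, map_mul,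
      map_pow, map_natCast, aeval_X, mul_eq_zero] at h2
    rcases h2 with h2 | h2
    · exact absurd h2 (by exact_mod_cast (by omega : d ≠ 0))
    · exact pow_eq_zero_iff (by omega) |>.1 h2
  have h3 : (fun i : Fin n => x i.succ) = 0 := by
    apply h L
    intro i
    have h2 := hd0 i.succ
    rw [cycF, map_add, CyD_pderiv_succ, pderiv_pow, pderiv_X_of_ne (Fin.succ_ne_zero i).symm, mul_zero,
      zero_add, aeval_rename] at h2
    exact h2
  funext i
  refine Fin.cases h1 (fun j => ?_) i
  exact congrFun h3 j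

/-- Proof: the coefficient of `X 0 ^ d` is `1`. -/
theorem cycF_prim {n d : ℕ} (hd : 1 ≤ d) (G : MvPolynomial (Fin n) ℤ) {p : ℕ} (hp : p.Prime) :
    ¬ C (p : ℤ) ∣ cycF d G := by
  rw [C_dvd_iff_dvd_coeff]
  intro h
  have h1 := h (Finsupp.single 0 d)
  have h2 : coeff (Finsupp.single 0 d) (rename Fin.succ G) = 0 := by
    apply coeff_rename_eq_zero
    intro u hu
    exfalso
    have h3 := DFunLike.congr_fun hu 0
    rw [Finsupp.mapDomain_of_notMem_range _ _ (by simp), Finsupp.single_eq_same] at h3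
    omega
  rw [cycF, coeff_add, coeff_X_pow, h2, add_zero, if_pos rfl] at h1
  exact hp.one_lt.ne' (by exact_mod_cast Int.natAbs_dvd_natAbs.2 h1 |> Nat.dvd_one.1)

/-- Cyclic coverings. -/
theorem cyc_model {n d : ℕ} (hn : 2 ≤ n) (hd : 2 ≤ d) {G : MvPolynomial (Fin n) ℤ}
    (hG : G.IsHomogeneous d)
    (h0 : ∀ (L : Type) [Field L] [CharZero L] (x : Fin n → L),
      (∀ i, aeval x (pderiv i G) = 0) → x = 0)
    (h : ∀ p : ℕ, p.Prime → MorseAt G p) : NH.HasRegularModel (cycF d G) := by
  obtain ⟨k, rfl⟩ : ∃ k, n = k + 1 := ⟨n - 1, by omega⟩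
  exact crit hn hd (cycF_hom hG) (cycF_smooth hd h0) (fun p hp => cycF_prim (by omega) G hp)
    fun p hp => Or.inl (tame_of_mild hp (cycF_hom hG) (cycF_mild hp (by omega) hG (h p hp)))

end Pool.Agent.PW
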