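import Pool.Agent.PW.Defs

set_option autoImplicit false

/-! # CYDEFS: cyclic coverings: definitions -/

namespace Pool.Agent.PW

open MvPolynomial

/-- At every point in characteristic `p` at which all partial derivatives of the form `G` vanish
(in the chart `x_m ≠ 0`), the Hessian matrix with respect to the other variables is invertible. If
`p` does not divide the degree of `G` this says that the singular points of `G = 0` modulo `p` are
ordinary double points. -/
def MorseAt {n : ℕ} (G : MvPolynomial (Fin n) ℤ) (p : ℕ) : Prop :=
  ∀ (L : Type) [Field L] [CharP L p] (x : Fin n → L) (m : Fin n), x m ≠ 0 →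
    (∀ i, aeval x (pderiv i G) = 0) →
    (Matrix.of fun a b : {i : Fin n // i ≠ m} => aeval x (pderiv a.1 (pderiv b.1 G))).det ≠ 0

/-- The equation of the cyclic covering of degree `d` with branch locus `G = 0`. -/
noncomputable def cycF {n : ℕ} (d : ℕ) (G : MvPolynomial (Fin n) ℤ) :
    MvPolynomial (Fin (n + 1)) ℤ := X 0 ^ d + rename Fin.succ G

end Pool.Agent.PW
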