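import Pool.Agent.NT9.GeDefs
import Pool.Agent.NodHyp.Deh

set_option autoImplicit false

/-!
# Power reductions: definitions

The two conditions at a prime number `p` on an integral form `F`: `TameAt` (the points where the
total space `F = 0` is not regular are isolated and have mild tangent cones) and `PowAt`
(`F = u S ^ k + p W`, where `W = 0` meets `S = 0` transversally or in nondegenerate contact points).
-/

namespace Pool.Agent.PW

open MvPolynomial Pool.Agent.NT9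

/-- The Hessian matrix of `f` at the point `M` has corank at most one. -/
def Cor1 {σ : Type} [Fintype σ] (f : MvPolynomial σ ℤ) (M : Ideal (MvPolynomial σ ℤ)) : Prop :=
  ∀ (L : Type) [Field L] (χ : MvPolynomial σ ℤ →+* L), (∀ t, χ t = 0 ↔ t ∈ M) →
    Fintype.card σ - 1 ≤ (Matrix.of fun i j => χ (pderiv i (pderiv j f))).rank

/-- The closed points of characteristic `p` at which `f = 0` is not regular are finite in number,
and each of them has a smooth tangent cone, or is isolated in the singular locus of the fibre and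
has a tangent cone with a smooth hyperplane section or a Hessian matrix of corank at most one. -/
def TameL {σ : Type} [Fintype σ] (f : MvPolynomial σ ℤ) (p : ℕ) : Prop :=
  {M : Ideal (MvPolynomial σ ℤ) | M.IsMaximal ∧ C (p : ℤ) ∈ M ∧ f ∈ M ^ 2}.Finite ∧
  ∀ M : Ideal (MvPolynomial σ ℤ), M.IsMaximal → C (p : ℤ) ∈ M → f ∈ M ^ 2 →
    TV f M ∨ ((TZ f M ∨ Cor1 f M) ∧ ∀ Q : Ideal (MvPolynomial σ ℤ), Q.IsPrime → Q ≤ M →
      C (p : ℤ) ∈ Q → f ∈ Q → (∀ i, pderiv i f ∈ Q) → Q = M)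

/-- The condition `TameL` in all affine charts. -/
def TameAt {n : ℕ} (F : MvPolynomial (Fin (n + 1)) ℤ) (p : ℕ) : Prop :=
  ∀ m : Fin (n + 1), TameL (NH.deh m F) p

/-- The hypersurfaces `S = 0` and `W = 0` in characteristic `p` meet transversally at points where
`S = 0` is smooth, except for nondegenerate contact points: there `dW = l dS` with `l ≠ 0`, and
`W - l S` has a nondegenerate second order term along `S = 0`. -/
def Contact {n : ℕ} (S W : MvPolynomial (Fin (n + 1)) ℤ) (p k : ℕ) : Prop :=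
  ∀ (L : Type) [Field L] [CharP L p] (x : Fin (n + 1) → L), x ≠ 0 → aeval x S = 0 →
    aeval x W = 0 → (∃ i, aeval x (pderiv i S) ≠ 0) ∧
    ∀ l : L, (∀ i, aeval x (pderiv i W) = l * aeval x (pderiv i S)) →
      l ≠ 0 ∧ (k = 2 → p = 2) ∧
      ∀ (y : Fin (n + 1) → L) (μ : L), ∑ i, aeval x (pderiv i S) * y i = 0 →
        (∀ j, ∑ i, (aeval x (pderiv i (pderiv j W)) - l * aeval x (pderiv i (pderiv j S))) * y i =
          μ * aeval x (pderiv j S)) → ∃ c : L, y = c • x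

/-- `F = u S ^ k + p W` with `k ≥ 2`, `u` prime to `p`, and `S`, `W` as in `Contact`. -/
def PowAt {n : ℕ} (F : MvPolynomial (Fin (n + 1)) ℤ) (p : ℕ) : Prop :=
  ∃ (k e : ℕ) (u : ℤ) (S W : MvPolynomial (Fin (n + 1)) ℤ), 2 ≤ k ∧ S.IsHomogeneous e ∧
    W.IsHomogeneous (k * e) ∧ ¬ (p : ℤ) ∣ u ∧ ¬ C (p : ℤ) ∣ S ∧
    F = C u * S ^ k + C (p : ℤ) * W ∧ Contact S W p k

/-- The condition `Contact` in an affine chart, in terms of homomorphisms to fields. -/
def CtL {σ : Type} [Fintype σ] (s w : MvPolynomial σ ℤ) (p k : ℕ) : Prop :=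
  ∀ (L : Type) [Field L] (χ : MvPolynomial σ ℤ →+* L), χ (C (p : ℤ)) = 0 → χ s = 0 → χ w = 0 →
    (∃ c, χ (pderiv c s) ≠ 0) ∧
    ∀ l : L, (∀ c, χ (pderiv c w) = l * χ (pderiv c s)) →
      l ≠ 0 ∧ (k = 2 → p = 2) ∧
      ∀ (y : σ → L) (μ : L), ∑ c, χ (pderiv c s) * y c = 0 →
        (∀ b, ∑ a, (χ (pderiv a (pderiv b w)) - l * χ (pderiv a (pderiv b s))) * y a =
          μ * χ (pderiv b s)) → y = 0

/-- The Jacobian matrix of the `η j` is invertible at the prime ideal `Q`. -/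
def Jac {τ : Type} [Fintype τ] (Q : Ideal (MvPolynomial τ ℤ)) (η : τ → MvPolynomial τ ℤ) : Prop :=
  ∀ (L : Type) [Field L] (χ : MvPolynomial τ ℤ →+* L), (∀ t, χ t = 0 ↔ t ∈ Q) →
    ∀ ξ : τ → L, (∀ j, ∑ c, χ (pderiv c (η j)) * ξ c = 0) → ξ = 0

/-- The variables of the charts: `inl i` the coordinates, `inr 0 = a = p / s ^ i`,
`inr 1 = b = s ^ (i + 1) / p`. -/
abbrev V0 (σ : Type) : Type := σ ⊕ Fin 2

section chart

variable {σ : Type}

noncomputable abbrev va (σ : Type) : MvPolynomial (V0 σ) ℤ := X (Sum.inr 0)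
noncomputable abbrev vb (σ : Type) : MvPolynomial (V0 σ) ℤ := X (Sum.inr 1)
noncomputable abbrev jl (h : MvPolynomial σ ℤ) : MvPolynomial (V0 σ) ℤ := rename Sum.inl h

/-- The relations of the chart: `s = a b`, `p = a ^ (i + 1) b ^ i`,
`w = - u a ^ (k - i - 1) b ^ (k - i)`. -/
noncomputable def rel0 (s w : MvPolynomial σ ℤ) (u : ℤ) (p k i : ℕ) :
    Fin 3 → MvPolynomial (V0 σ) ℤ :=
  ![jl s - va σ * vb σ, C (p : ℤ) - va σ ^ (i + 1) * vb σ ^ i,
    jl w + C u * va σ ^ (k - i - 1) * vb σ ^ (k - i)]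

variable {K : Type} [Field K]

/-- The evaluation of the chart. -/
noncomputable def pi0 (θ : MvPolynomial σ ℤ →+* K) (a b : K) : MvPolynomial (V0 σ) ℤ →+* K :=
  ((aeval (Sum.elim (fun i => θ (X i)) ![a, b]) : MvPolynomial (V0 σ) ℤ →ₐ[ℤ] K) :
    MvPolynomial (V0 σ) ℤ →+* K)

/-- `O` is a local ring over `p` of the blow up of the ideals `(p, s ^ j)`, `j = 1, ..., k - 1`, on
the hypersurface `u s ^ k + p w = 0`. -/
structure Wd [Fintype σ] (θ : MvPolynomial σ ℤ →+* K) (s w : MvPolynomial σ ℤ) (u : ℤ)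
    (p k i : ℕ) (a b : K) (O : Subring K) : Prop where
  poly : ∀ h, θ h ∈ O
  pmx : (p : K) ∈ mx O
  aO : a ∈ O
  bO : b ∈ O
  a0 : a ≠ 0
  b0 : b ≠ 0
  hs : θ s = a * b
  hp : (p : K) = a ^ (i + 1) * b ^ i
  hw : θ w = - (u * a ^ (k - i - 1) * b ^ (k - i))
  fr : ∀ x ∈ O, ∃ g h : MvPolynomial (V0 σ) ℤ, pi0 θ a b h ≠ 0 ∧ (pi0 θ a b h)⁻¹ ∈ O ∧
    x * pi0 θ a b h = pi0 θ a b g

/-- The minors of the differentials of `s` and `w`. -/
noncomputable def vm [Fintype σ] (s w : MvPolynomial σ ℤ) (c b : σ) : MvPolynomial σ ℤ :=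
  pderiv c s * pderiv b w - pderiv c w * pderiv b s

/-- The local form of `w` at a contact point: `D w = l s + β p + ∑ q_jk v_j v_k`, `v_j = vm s w c j`,
`j ≠ c`, with `l ∉ M` and a smooth form `q`. -/
structure CForm [Fintype σ] [DecidableEq σ] (s w : MvPolynomial σ ℤ) (p : ℕ) (M : Ideal (MvPolynomial σ ℤ)) (c : σ)
    (D l β : MvPolynomial σ ℤ) (q : {j : σ // j ≠ c} → {j : σ // j ≠ c} → MvPolynomial σ ℤ) :
    Prop where
  hD : D ∉ M
  hl : l ∉ M
  sm : SmF q M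
  eq : D * w = l * s + β * C (p : ℤ) + ∑ j, ∑ k, q j k * vm s w c j.1 * vm s w c k.1

/-- `G = a θ_A` with `θ_A = l b + β a ^ i b ^ i + u D a ^ (k - i - 2) b ^ (k - i)` (`i + 2 ≤ k`). -/
noncomputable def thA (D l β : MvPolynomial σ ℤ) (u : ℤ) (k i : ℕ) : MvPolynomial (V0 σ) ℤ :=
  jl l * vb σ + jl β * (va σ ^ i * vb σ ^ i) +
    C u * jl D * (va σ ^ (k - i - 2) * vb σ ^ (k - i))

/-- `G = b θ_B` with `θ_B = l a + β a ^ (i + 1) b ^ (i - 1) + u D a ^ (k - i - 1) b ^ (k - i - 1)`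
(`1 ≤ i`). -/
noncomputable def thB (D l β : MvPolynomial σ ℤ) (u : ℤ) (k i : ℕ) : MvPolynomial (V0 σ) ℤ :=
  jl l * va σ + jl β * (va σ ^ (i + 1) * vb σ ^ (i - 1)) +
    C u * jl D * (va σ ^ (k - i - 1) * vb σ ^ (k - i - 1))

/-- The two kinds of singular points over a contact point `M`. -/
def TypeA (M : Ideal (MvPolynomial σ ℤ)) (D l β : MvPolynomial σ ℤ) (u : ℤ) (k i : ℕ)
    (Q : Ideal (MvPolynomial (V0 σ) ℤ)) : Prop :=
  i + 2 ≤ k ∧ (∀ m ∈ M, jl m ∈ Q) ∧ va σ ∈ Q ∧ thA D l β u k i ∈ Q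

def TypeB (M : Ideal (MvPolynomial σ ℤ)) (D l β : MvPolynomial σ ℤ) (u : ℤ) (k i : ℕ)
    (Q : Ideal (MvPolynomial (V0 σ) ℤ)) : Prop :=
  1 ≤ i ∧ (∀ m ∈ M, jl m ∈ Q) ∧ vb σ ∈ Q ∧ thB D l β u k i ∈ Q

/-- `q` is a contact point (of characteristic `p`) of `s = 0` and `w = 0`. -/
def IsCt [Fintype σ] (s w : MvPolynomial σ ℤ) (p : ℕ) (q : Ideal (MvPolynomial σ ℤ)) : Prop :=
  q.IsPrime ∧ C (p : ℤ) ∈ q ∧ s ∈ q ∧ w ∈ q ∧ ∀ c b, vm s w c b ∈ q

/-- The parameters `s`, `vm s w c b` (`b ≠ c`) at a contact point. -/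
noncomputable def ctη [Fintype σ] [DecidableEq σ] (s w : MvPolynomial σ ℤ) (c : σ) :
    σ → MvPolynomial σ ℤ :=
  fun b => if b = c then s else vm s w c b

/-- The parameters of a chart: `s - a b`, the `vm s w c b`, `y` and `th`. -/
noncomputable def tyη [Fintype σ] [DecidableEq σ] (s w : MvPolynomial σ ℤ) (c : σ)
    (y th : MvPolynomial (V0 σ) ℤ) : V0 σ → MvPolynomial (V0 σ) ℤ :=
  Sum.elim (fun b => if b = c then jl s - va σ * vb σ else jl (vm s w c b)) ![y, th]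

end chart

end Pool.Agent.PW
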