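import Pool.Agent.PW.FeA

set_option autoImplicit false

/-! # DWA: the Dwork pencil: derivatives -/

namespace Pool.Agent.PW

open MvPolynomial Pool.Agent.NT9

variable {n : ℕ}

/-- The Dwork pencil `∑ x_i ^ (n + 1) = (n + 1) ψ ∏ x_i`. -/
noncomputable def dworkF (n : ℕ) (ψ : ℤ) : MvPolynomial (Fin (n + 1)) ℤ :=
  ∑ i, X i ^ (n + 1) - C (((n + 1 : ℕ) : ℤ) * ψ) * ∏ i, X i

theorem dwork_hom (ψ : ℤ) : (dworkF n ψ).IsHomogeneous (n + 1) := by
  unfold dworkF
  apply IsHomogeneous.sub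
  · exact IsHomogeneous.sum _ _ _ fun i _ => isHomogeneous_X_pow i (n + 1)
  · have h1 : (∏ i, X i : MvPolynomial (Fin (n + 1)) ℤ).IsHomogeneous (∑ _i : Fin (n + 1), 1) :=
      IsHomogeneous.prod _ _ _ fun i _ => isHomogeneous_X ℤ i
    have h2 : (∑ _i : Fin (n + 1), 1) = n + 1 := by simp
    rw [h2] at h1
    have h3 := (isHomogeneous_C (Fin (n + 1)) (((n + 1 : ℕ) : ℤ) * ψ)).mul h1
    rw [zero_add] at h3
    exact h3

private theorem dwA_zero (s : Finset (Fin (n + 1))) {i : Fin (n + 1)} (hi : i ∉ s) :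
    pderiv i (∏ j ∈ s, X j : MvPolynomial (Fin (n + 1)) ℤ) = 0 := by
  classical
  induction s using Finset.induction_on with
  | empty => rw [Finset.prod_empty, pderiv_one]
  | insert a s ha ih =>
    rw [Finset.mem_insert, not_or] at hi
    rw [Finset.prod_insert ha, pderiv_mul, ih hi.2, pderiv_X_of_ne (fun h => hi.1 h.symm)]
    ring

private theorem dwA_erase (s : Finset (Fin (n + 1))) {i : Fin (n + 1)} (hi : i ∈ s) :
    pderiv i (∏ j ∈ s, X j : MvPolynomial (Fin (n + 1)) ℤ) = ∏ j ∈ s.erase i, X j := by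
  rw [← Finset.mul_prod_erase s _ hi, pderiv_mul, pderiv_X_self,
    dwA_zero _ (Finset.notMem_erase i s)]
  ring

private theorem dwA_pow (i k : Fin (n + 1)) (N : ℕ) :
    pderiv i (X k ^ N : MvPolynomial (Fin (n + 1)) ℤ) =
      if k = i then C (N : ℤ) * X i ^ (N - 1) else 0 := by
  rw [pderiv_pow]
  split_ifs with h
  · subst h
    rw [pderiv_X_self, mul_one]
    simp
  · rw [pderiv_X_of_ne h, mul_zero]

private theorem dwA_pd (ψ : ℤ) (i : Fin (n + 1)) : pderiv i (dworkF n ψ) =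
    C ((n + 1 : ℕ) : ℤ) * X i ^ n -
      C (((n + 1 : ℕ) : ℤ) * ψ) * ∏ j ∈ Finset.univ.erase i, X j := by
  unfold dworkF
  rw [map_sub, map_sum, pderiv_C_mul, dwA_erase _ (Finset.mem_univ i)]
  congr 1
  · rw [Finset.sum_congr rfl fun k _ => dwA_pow i k (n + 1), Finset.sum_ite_eq' Finset.univ i,
      if_pos (Finset.mem_univ i), Nat.add_sub_cancel]

/-- `x_i ∂_i F = (n + 1) (x_i ^ (n + 1) - ψ ∏ x_j)`, at a point. -/
theorem dwork_der (ψ : ℤ) {L : Type} [CommRing L] (x : Fin (n + 1) → L) (i : Fin (n + 1)) :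
    x i * aeval x (pderiv i (dworkF n ψ)) =
      ((n + 1 : ℕ) : L) * (x i ^ (n + 1) - (ψ : L) * ∏ j, x j) := by
  rw [dwA_pd, map_sub, map_mul, map_mul, map_pow, map_prod, aeval_X, aeval_C, aeval_C]
  simp only [aeval_X]
  rw [← Finset.mul_prod_erase Finset.univ x (Finset.mem_univ i)]
  simp only [eq_intCast, Int.cast_natCast, Int.cast_mul]
  ring

/-- For `i ≠ j`: `x_i x_j ∂_i ∂_j F = - (n + 1) ψ ∏ x`; and `x_i ^ 2 ∂_i ∂_i F = (n + 1) n x_i ^ (n + 1)` (`n ≥ 1`). -/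
theorem dwork_der2 (ψ : ℤ) {L : Type} [CommRing L] (x : Fin (n + 1) → L) (i j : Fin (n + 1)) :
    x i * x j * aeval x (pderiv i (pderiv j (dworkF n ψ))) =
      if i = j then ((n + 1 : ℕ) : L) * (n : L) * x i ^ (n + 1)
      else - (((n + 1 : ℕ) : L) * (ψ : L) * ∏ j, x j) := by
  rw [dwA_pd, map_sub, pderiv_C_mul, pderiv_C_mul, dwA_pow]
  split_ifs with h1 h2 h3
  · subst h2
    rw [dwA_zero _ (Finset.notMem_erase i _), mul_zero, sub_zero, map_mul, map_mul,
      map_pow, aeval_X, aeval_C, aeval_C]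
    simp only [eq_intCast, Int.cast_natCast]
    rcases Nat.eq_zero_or_pos n with h0 | h0
    · subst h0
      simp
    · obtain ⟨k, rfl⟩ := Nat.exists_eq_add_of_le' h0
      rw [Nat.add_sub_cancel]
      ring
  · exact absurd h1.symm h2
  · exact absurd h3.symm h1
  · rw [mul_zero, zero_sub, dwA_erase _ (Finset.mem_erase.2 ⟨h3, Finset.mem_univ i⟩),
      map_neg, map_mul, map_prod, aeval_C]
    simp only [aeval_X]
    have e1 : ∏ k, x k = x j * (x i * ∏ k ∈ (Finset.univ.erase j).erase i, x k) := by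
      rw [Finset.mul_prod_erase _ x (Finset.mem_erase.2 ⟨h3, Finset.mem_univ i⟩),
        Finset.mul_prod_erase _ x (Finset.mem_univ j)]
    rw [e1]
    simp only [eq_intCast, Int.cast_natCast, Int.cast_mul]
    ring

end Pool.Agent.PW
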