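import Pool.Agent.PW.DwA

set_option autoImplicit false

/-! # DWB: the Dwork pencil: nodal fibres, smooth generic fibre -/

namespace Pool.Agent.PW

open MvPolynomial Pool.Agent.NT9

variable {n : ℕ}

/-- Nodal at `p ∤ n + 1`. Proof. Let `x` be a singular point over a field of characteristic `p`, `x m ≠ 0`. `dwork_der`: `x_i ^ (n + 1) = ψ ∏ x =: c` for all `i`, `c = x_m ^ (n + 1) ≠ 0`,
so all `x_i ≠ 0`. Let `y` (indices `≠ m`) be in the kernel of the Hessian, `z_j = y_j / x_j`: multiply by `x_i`: `(n + 1) c (n z_i - ∑_(j ≠ i) z_j) = 0`, so `(n + 1) z_i = ∑ z_j`; sum over the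
`n` indices: `∑ z_j = 0` (`(n + 1) ∑ z = n ∑ z`), so `z_i = 0`. So the determinant is not zero (`Matrix.exists_mulVec_eq_zero_iff`). -/
theorem dwork_nodal (hn : 1 ≤ n) (ψ : ℤ) {p : ℕ} (hp : p.Prime) (hpn : ¬ p ∣ n + 1) :
    NH.NodalAt (dworkF n ψ) p := by
  intro L _ _ x m hxm _ hd hdet
  have hN : ((n + 1 : ℕ) : L) ≠ 0 := fun h => hpn ((CharP.cast_eq_zero_iff L p (n + 1)).1 h)
  set c : L := (ψ : L) * ∏ j, x j with hc
  have hpow : ∀ i, x i ^ (n + 1) = c := fun i => by
    have h1 := dwork_der ψ x i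
    rw [hd i, mul_zero] at h1
    rcases mul_eq_zero.1 h1.symm with h2 | h2
    · exact absurd h2 hN
    · exact sub_eq_zero.1 h2
  have hc0 : c ≠ 0 := by
    rw [← hpow m]
    exact pow_ne_zero _ hxm
  have hx : ∀ i, x i ≠ 0 := fun i h => by
    have := hpow i
    rw [h, zero_pow (Nat.succ_ne_zero n)] at this
    exact hc0 this.symm
  obtain ⟨y, hy0, hy⟩ := Matrix.exists_mulVec_eq_zero_iff.2 hdet
  set z : {i : Fin (n + 1) // i ≠ m} → L := fun b => y b / x b.1 with hz
  have hyz : ∀ b, y b = x b.1 * z b := fun b => by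
    simp only [hz]
    rw [mul_div_cancel₀ _ (hx b.1)]
  set S : L := ∑ b, z b with hS
  have hkey : ∀ a, ((n + 1 : ℕ) : L) * z a = S := fun a => by
    have h1 := congrFun hy a
    rw [Matrix.mulVec, dotProduct] at h1
    simp only [Matrix.of_apply, Pi.zero_apply] at h1
    have h2 : ∑ b : {i : Fin (n + 1) // i ≠ m},
        x a.1 * x b.1 * aeval x (pderiv a.1 (pderiv b.1 (dworkF n ψ))) * z b = 0 := by
      have h3 := congrArg (fun t => x a.1 * t) h1
      simp only [mul_zero] at h3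
      rw [Finset.mul_sum] at h3
      rw [← h3]
      refine Finset.sum_congr rfl fun b _ => ?_
      rw [hyz b]
      ring
    have h4 : ∀ b : {i : Fin (n + 1) // i ≠ m},
        x a.1 * x b.1 * aeval x (pderiv a.1 (pderiv b.1 (dworkF n ψ))) * z b =
        (if b = a then ((n + 1 : ℕ) : L) * ((n + 1 : ℕ) : L) * c * z a else 0) -
          ((n + 1 : ℕ) : L) * c * z b := by
      intro b
      rw [dwork_der2]
      by_cases hab : b = a
      · subst hab
        rw [if_pos rfl, if_pos rfl, hpow]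
        push_cast
        ring
      · have hab' : ¬ a.1 = b.1 := fun h => hab (Subtype.ext h.symm)
        rw [if_neg hab', if_neg hab, hc]
        ring
    rw [Finset.sum_congr rfl fun b _ => h4 b, Finset.sum_sub_distrib,
      Finset.sum_ite_eq' Finset.univ a, if_pos (Finset.mem_univ a), ← Finset.mul_sum] at h2
    have h5 : ((n + 1 : ℕ) : L) * c * (((n + 1 : ℕ) : L) * z a - S) = 0 := by
      rw [hS]
      linear_combination h2
    rcases mul_eq_zero.1 h5 with h6 | h6
    · exact absurd h6 (mul_ne_zero hN hc0)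
    · exact sub_eq_zero.1 h6
  have hcard : Fintype.card {i : Fin (n + 1) // i ≠ m} = n := by
    rw [Fintype.card_subtype_compl, Fintype.card_fin, Fintype.card_subtype_eq,
      Nat.add_sub_cancel]
  have hS0 : S = 0 := by
    have h1 : ∑ a : {i : Fin (n + 1) // i ≠ m}, ((n + 1 : ℕ) : L) * z a =
        ∑ _a : {i : Fin (n + 1) // i ≠ m}, S := Finset.sum_congr rfl fun a _ => hkey a
    rw [← Finset.mul_sum, ← hS, Finset.sum_const, Finset.card_univ, hcard, nsmul_eq_mul] at h1
    push_cast at h1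
    linear_combination h1
  apply hy0
  funext a
  have h1 := hkey a
  rw [hS0] at h1
  rcases mul_eq_zero.1 h1 with h2 | h2
  · exact absurd h2 hN
  · rw [hyz a, h2, mul_zero]
    rfl

/-- Proof: as before `x_i ^ (n + 1) = c = ψ ∏ x` for all `i`; the product over `i`: `(∏ x) ^ (n + 1) = ψ ^ (n + 1) (∏ x) ^ (n + 1)`, so `∏ x = 0` (`ψ ^ (n + 1) ≠ 1`), `c = 0`, `x = 0`. -/
theorem dwork_smooth {ψ : ℤ} (hψ : ψ ^ (n + 1) ≠ 1) : NH.SmoothQ (dworkF n ψ) := by
  intro L _ _ x _ hd
  have hN : ((n + 1 : ℕ) : L) ≠ 0 := Nat.cast_ne_zero.2 (Nat.succ_ne_zero n)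
  set P : L := ∏ j, x j with hP
  have hpow : ∀ i, x i ^ (n + 1) = (ψ : L) * P := fun i => by
    have h1 := dwork_der ψ x i
    rw [hd i, mul_zero] at h1
    rcases mul_eq_zero.1 h1.symm with h2 | h2
    · exact absurd h2 hN
    · exact sub_eq_zero.1 h2
  have h1 : P ^ (n + 1) = ((ψ : L) * P) ^ (n + 1) := by
    calc P ^ (n + 1) = ∏ i, x i ^ (n + 1) := by rw [hP, Finset.prod_pow]
      _ = ∏ _i : Fin (n + 1), ((ψ : L) * P) := Finset.prod_congr rfl fun i _ => hpow i
      _ = _ := by rw [Finset.prod_const, Finset.card_univ, Fintype.card_fin]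
  have h2 : (1 - (ψ : L) ^ (n + 1)) * P ^ (n + 1) = 0 := by
    rw [mul_pow] at h1
    linear_combination h1
  have h3 : (1 - (ψ : L) ^ (n + 1)) ≠ 0 := by
    intro h4
    apply hψ
    have h5 : ((ψ ^ (n + 1) : ℤ) : L) = ((1 : ℤ) : L) := by
      push_cast
      linear_combination -h4
    exact Int.cast_injective h5
  have hP0 : P = 0 := by
    rcases mul_eq_zero.1 h2 with h4 | h4
    · exact absurd h4 h3
    · exact pow_eq_zero_iff (Nat.succ_ne_zero n) |>.1 h4
  funext i
  have h6 := hpow i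
  rw [hP0, mul_zero] at h6
  exact pow_eq_zero_iff (Nat.succ_ne_zero n) |>.1 h6

end Pool.Agent.PW
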