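import Pool.Agent.PW.FeA

set_option autoImplicit false

/-! # FEC: diagonal forms of prime degree at this prime number -/

namespace Pool.Agent.PW

open MvPolynomial Pool.Agent.NT9

variable {n : ℕ}

private theorem pd_S (a : Fin (n + 1) → ℤ) (i : Fin (n + 1)) :
    pderiv i (diagS a) = C (a i) := by
  rw [diagS, map_sum, Finset.sum_eq_single i]
  · rw [pderiv_C_mul, pderiv_X_self, mul_one]
  · intro b _ hb
    rw [pderiv_C_mul, pderiv_X_of_ne hb, mul_zero]
  · intro h
    exact absurd (Finset.mem_univ i) h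

/-- The second condition, also for forms which are diagonal modulo `l ^ 2`. Proof. `k = l`, `e = 1`, `u = 1`, `S = diagS a`, `W' = W + C l * G`. At a point `x` over a field of
characteristic `l` with `S (x) = 0`: `∂_i S = a_i ≠ 0`, `∂_i W' = a_i x_i ^ (l - 1)` (`l ≥ 2`), `∂_j ∂_i W' = a_i (l - 1) (x_i ^ (l - 2) δ_ij - S ^ (l - 2) a_j)`. If `∂ W' = λ ∂ S` then
`x_i ^ (l - 1) = λ` for all `i`, `λ ≠ 0` as `x ≠ 0`. Kernel: `∑ a_i y_i = 0`, so `- x_j ^ (l - 2) y_j = μ` for all `j` (also for `l = 2`, where `S ^ 0 = 1`: the second term gives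
`a_j ∑ a_i y_i = 0`); multiply by `x_j`: `y_j = - (μ / λ) x_j`. `k = 2 → p = 2` is clear. `¬ C l ∣ S`: coefficient `a_0`. -/
theorem diag_pow {l : ℕ} (hl : l.Prime) {a : Fin (n + 1) → ℤ} (ha : ∀ i, ¬ (l : ℤ) ∣ a i)
    {G : MvPolynomial (Fin (n + 1)) ℤ} (hG : G.IsHomogeneous l) :
    PowAt (diagF a l + C ((l : ℤ) ^ 2) * G) l := by
  obtain ⟨W, hW⟩ := diag_W hl a
  have hWh := diag_W_hom hl hW
  have hWd := diag_W_der hl hW
  have hl2 := hl.two_le
  refine ⟨l, 1, 1, diagS a, W + C (l : ℤ) * G, hl2, diagS_hom a, ?_, ?_, ?_, ?_, ?_⟩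
  · rw [mul_one]
    refine hWh.add ?_
    have := (isHomogeneous_C (Fin (n + 1)) (l : ℤ)).mul hG
    rwa [zero_add] at this
  · intro h
    have h1 := Int.natCast_dvd_natCast.1 (show ((l : ℕ) : ℤ) ∣ ((1 : ℕ) : ℤ) by simpa using h)
    rw [Nat.dvd_one] at h1
    omega
  · intro h
    rw [C_dvd_iff_dvd_coeff] at h
    have h1 := h (Finsupp.single 0 1)
    have h2 : coeff (Finsupp.single 0 1) (diagS a) = a 0 := by
      rw [diagS, coeff_sum, Finset.sum_eq_single 0]
      · rw [coeff_C_mul, coeff_X, if_pos rfl, mul_one]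
      · intro b _ hb
        rw [coeff_C_mul, coeff_X, if_neg, mul_zero]
        intro h
        exact hb ((Finsupp.single_left_inj one_ne_zero).1 h)
      · intro h
        exact absurd (Finset.mem_univ _) h
    rw [h2] at h1
    exact ha 0 h1
  · rw [hW, map_one, one_mul, map_pow]
    ring
  · intro L _ _ x hx0 hxS _
    have hlL : ((l : ℕ) : L) = 0 := CharP.cast_eq_zero L l
    have haL : ∀ i, ((a i : ℤ) : L) ≠ 0 := fun i h => ha i ((CharP.intCast_eq_zero_iff L l _).1 h)
    have hevC : ∀ c : ℤ, aeval x (C c : MvPolynomial (Fin (n + 1)) ℤ) = (c : L) := fun c => by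
      rw [aeval_C]
      rfl
    have hevl : aeval x (C (l : ℤ) : MvPolynomial (Fin (n + 1)) ℤ) = 0 := by
      rw [hevC, Int.cast_natCast, hlL]
    have hS1 : ∀ i, aeval x (pderiv i (diagS a)) = ((a i : ℤ) : L) := fun i => by
      rw [pd_S, hevC]
    have hS2 : ∀ i j, aeval x (pderiv i (pderiv j (diagS a))) = 0 := fun i j => by
      rw [pd_S, pderiv_C, map_zero]
    have hl1 : l - 1 ≠ 0 := by omega
    have hW1 : ∀ i, aeval x (pderiv i (W + C (l : ℤ) * G)) = (a i : L) * x i ^ (l - 1) := by
      intro i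
      rw [map_add, map_add, pderiv_C_mul, map_mul, hevl, zero_mul, add_zero, hWd, map_mul, hevC,
        map_sub, map_pow, map_pow, aeval_X, hxS, zero_pow hl1, sub_zero]
    have hl1L : ((l - 1 : ℕ) : L) = -1 := by
      rw [Nat.cast_sub (by omega), hlL, Nat.cast_one, zero_sub]
    have hW2 : ∀ i j, aeval x (pderiv i (pderiv j (W + C (l : ℤ) * G))) =
        (a j : L) * (-1 * ((if j = i then x j ^ (l - 2) else 0) - (0 : L) ^ (l - 2) * (a i : L))) := by
      intro i j
      have h1 : pderiv i (pderiv j (W + C (l : ℤ) * G)) =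
          C (a j) * (pderiv i (X j ^ (l - 1)) - pderiv i (diagS a ^ (l - 1))) +
            C (l : ℤ) * pderiv i (pderiv j G) := by
        rw [map_add, pderiv_C_mul, map_add, pderiv_C_mul, hWd, pderiv_C_mul, map_sub]
      rw [h1, map_add, map_mul, map_mul, hevl, zero_mul, add_zero, hevC, map_sub,
        Derivation.leibniz_pow, Derivation.leibniz_pow, pd_S, smul_eq_mul, smul_eq_mul,
        nsmul_eq_mul, nsmul_eq_mul, map_mul, map_mul, map_mul, map_mul, map_natCast, hl1L,
        map_pow, map_pow, aeval_X, hxS, hevC, show l - 1 - 1 = l - 2 from by omega]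
      by_cases h : j = i
      · rw [if_pos h, h, pderiv_X_self, map_one]
        ring
      · rw [if_neg h, pderiv_X_of_ne h, map_zero]
        ring
    refine ⟨⟨0, by rw [hS1]; exact haL 0⟩, fun lam hlam => ?_⟩
    have hpow : ∀ i, x i ^ (l - 1) = lam := by
      intro i
      have h1 := hlam i
      rw [hW1, hS1] at h1
      exact mul_left_cancel₀ (haL i) (by rw [h1]; ring)
    have hlam0 : lam ≠ 0 := by
      intro h0
      apply hx0
      funext i
      have h1 := hpow i
      rw [h0] at h1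
      exact (pow_eq_zero_iff hl1).1 h1
    refine ⟨hlam0, fun h => h, fun y μ hy hE => ?_⟩
    simp only [hS1] at hy
    refine ⟨-(μ / lam), funext fun j => ?_⟩
    have h1 := hE j
    simp only [hS1, hS2, hW2, mul_zero, sub_zero] at h1
    have h2 : ∑ i, (a j : L) * (-1 * ((if j = i then x j ^ (l - 2) else 0) -
        (0 : L) ^ (l - 2) * (a i : L))) * y i =
        (a j : L) * (-1 * (x j ^ (l - 2) * y j - (0 : L) ^ (l - 2) * ∑ i, (a i : L) * y i)) := by
      rw [Finset.mul_sum]
      have h3 : ∑ i, (a j : L) * (-1 * ((if j = i then x j ^ (l - 2) else 0) -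
          (0 : L) ^ (l - 2) * (a i : L))) * y i =
          ∑ i, ((if j = i then -((a j : L) * x j ^ (l - 2) * y j) else 0) +
            (a j : L) * ((0 : L) ^ (l - 2) * ((a i : L) * y i))) := by
        refine Finset.sum_congr rfl fun i _ => ?_
        by_cases h : j = i
        · rw [if_pos h, if_pos h, h]
          ring
        · rw [if_neg h, if_neg h]
          ring
      rw [h3, Finset.sum_add_distrib, Finset.sum_ite_eq, if_pos (Finset.mem_univ j),
        ← Finset.mul_sum]
      ring
    rw [h2, hy, mul_zero, sub_zero] at h1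
    have h4 : -(x j ^ (l - 2) * y j) = μ := mul_left_cancel₀ (haL j) (by linear_combination h1)
    have h5 : x j ^ (l - 2) * x j = lam := by
      rw [← pow_succ, show l - 2 + 1 = l - 1 from by omega, hpow]
    have h6 : lam * y j = -(μ * x j) := by
      rw [← h5, ← h4]
      ring
    rw [Pi.smul_apply, smul_eq_mul]
    field_simp
    linear_combination h6

end Pool.Agent.PW
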