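import Pool.Agent.PW.DwA
import Pool.Agent.PW.FeC

set_option autoImplicit false

/-! # DWC: the Dwork pencil: content; the second condition -/

namespace Pool.Agent.PW

open MvPolynomial Pool.Agent.NT9

variable {n : ℕ}

/-- Proof: the coefficient of `X 0 ^ (n + 1)` is `1` if `n ≥ 1`. -/
theorem dwork_prim (hn : 1 ≤ n) (ψ : ℤ) {p : ℕ} (hp : p.Prime) :
    ¬ C (p : ℤ) ∣ dworkF n ψ := by
  rintro ⟨G, hG⟩
  set x : Fin (n + 1) → ℤ := Pi.single 0 1 with hx
  have h1 := congrArg (eval x) hG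
  have h2 : eval x (dworkF n ψ) = 1 := by
    unfold dworkF
    rw [map_sub, map_mul, map_prod, map_sum]
    simp only [map_pow, eval_X, eval_C]
    have h3 : ∑ i, x i ^ (n + 1) = 1 := by
      rw [Finset.sum_eq_single 0]
      · rw [hx, Pi.single_eq_same, one_pow]
      · intro i _ hi
        rw [hx, Pi.single_eq_of_ne hi, zero_pow (Nat.succ_ne_zero n)]
      · intro h
        exact absurd (Finset.mem_univ _) h
    have h4 : ∏ i, x i = 0 := by
      apply Finset.prod_eq_zero (Finset.mem_univ (⟨1, by omega⟩ : Fin (n + 1)))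
      rw [hx]
      apply Pi.single_eq_of_ne
      intro h5
      have := congrArg Fin.val h5
      simp at this
    rw [h3, h4, mul_zero, sub_zero]
  rw [h2, map_mul, eval_C] at h1
  have h5 : (p : ℤ) ∣ 1 := ⟨_, h1⟩
  have h6 : p ∣ 1 := by exact_mod_cast h5
  exact hp.one_lt.ne' (Nat.dvd_one.1 h6)

/-- The second condition at `n + 1 = l` prime, if `l ∣ ψ`. Proof: `diag_pow` with `a = 1`, `G = - C (ψ / l) * ∏ X i`. -/
theorem dwork_pow (hl : (n + 1).Prime) {ψ : ℤ} (hψ : ((n + 1 : ℕ) : ℤ) ∣ ψ) :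
    PowAt (dworkF n ψ) (n + 1) := by
  obtain ⟨t, rfl⟩ := hψ
  have h1 : dworkF n (((n + 1 : ℕ) : ℤ) * t) = diagF (fun _ => 1) (n + 1) +
      C (((n + 1 : ℕ) : ℤ) ^ 2) * (- (C t * ∏ i, X i)) := by
    unfold dworkF diagF
    simp only [C_1, one_mul]
    rw [← mul_assoc, ← pow_two, C_mul]
    ring
  rw [h1]
  apply diag_pow hl
  · intro i h
    have h6 : (n + 1) ∣ 1 := by exact_mod_cast h
    exact hl.one_lt.ne' (Nat.dvd_one.1 h6)
  · apply IsHomogeneous.neg
    have h2 : (∏ i, X i : MvPolynomial (Fin (n + 1)) ℤ).IsHomogeneous (∑ _i : Fin (n + 1), 1) :=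
      IsHomogeneous.prod _ _ _ fun i _ => isHomogeneous_X ℤ i
    have h3 : (∑ _i : Fin (n + 1), 1) = n + 1 := by simp
    rw [h3] at h2
    have h4 := (isHomogeneous_C (Fin (n + 1)) t).mul h2
    rw [zero_add] at h4
    exact h4

end Pool.Agent.PW
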