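import Pool.Agent.PW.FeA

set_option autoImplicit false

/-! # FED: diagonal forms at the prime numbers which divide all coefficients but one -/

namespace Pool.Agent.PW

open MvPolynomial Pool.Agent.NT9

variable {n : ℕ}

/-- The second condition at a prime number `p ∤ l` which divides all coefficients but one exactly
once: `S = x_i`, `W = ∑ (a_j / p) x_j ^ l` (`j ≠ i`). -/
theorem diag_pow' {l : ℕ} (hl : 2 ≤ l) {a : Fin (n + 1) → ℤ} {p : ℕ} (hpl : ¬ p ∣ l)
    {i : Fin (n + 1)} (hi : ¬ (p : ℤ) ∣ a i)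
    (h : ∀ j, j ≠ i → (p : ℤ) ∣ a j ∧ ¬ (p : ℤ) ^ 2 ∣ a j) : PowAt (diagF a l) p := by
  classical
  have hex : ∀ j, ∃ b : ℤ, j ≠ i → a j = p * b ∧ ¬ (p : ℤ) ∣ b := by
    intro j
    by_cases hj : j = i
    · exact ⟨0, fun h => absurd hj h⟩
    · obtain ⟨b, hb⟩ := (h j hj).1
      refine ⟨b, fun _ => ⟨hb, fun hpb => (h j hj).2 ?_⟩⟩
      rw [hb, pow_two]
      exact mul_dvd_mul_left _ hpb
  choose b hb using hex
  let W : MvPolynomial (Fin (n + 1)) ℤ := ∑ j ∈ Finset.univ.erase i, C (b j) * X j ^ l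
  have hWder : ∀ j, j ≠ i → pderiv j W = C ((l : ℤ) * b j) * X j ^ (l - 1) := by
    intro j hj
    have h1 : pderiv j W = pderiv j (C (b j) * X j ^ l) := by
      rw [map_sum]
      refine Finset.sum_eq_single j (fun c _ hc => ?_) (fun hc => ?_)
      · rw [pderiv_C_mul, Derivation.leibniz_pow, pderiv_X_of_ne hc, smul_zero, smul_zero,
          mul_zero]
      · exact absurd (Finset.mem_erase.2 ⟨hj, Finset.mem_univ j⟩) hc
    rw [h1, pderiv_C_mul, Derivation.leibniz_pow, pderiv_X_self, smul_eq_mul, mul_one,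
      nsmul_eq_mul, map_mul]
    have h3 : ((l : ℕ) : MvPolynomial (Fin (n + 1)) ℤ) = C (l : ℤ) := by simp
    rw [h3]
    ring
  refine ⟨l, 1, a i, X i, W, hl, isHomogeneous_X ℤ i, ?_, hi, ?_, ?_, ?_⟩
  · rw [mul_one]
    refine IsHomogeneous.sum _ _ _ fun j _ => ?_
    have h1 := (isHomogeneous_C (Fin (n + 1)) (b j)).mul ((isHomogeneous_X ℤ j).pow l)
    rwa [zero_add, one_mul] at h1
  · intro hd
    rw [C_dvd_iff_dvd_coeff] at hd
    have h1 := hd (Finsupp.single i 1)
    rw [coeff_X, if_pos rfl] at h1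
    exact hi (h1.trans (one_dvd _))
  · rw [diagF, ← Finset.add_sum_erase _ _ (Finset.mem_univ i), Finset.mul_sum]
    congr 1
    refine Finset.sum_congr rfl fun j hj => ?_
    rw [(hb j (Finset.ne_of_mem_erase hj)).1, map_mul, mul_assoc]
  · intro L _ _ x hx0 hxS hxW
    rw [aeval_X] at hxS
    refine ⟨⟨i, by rw [pderiv_X_self, map_one]; exact one_ne_zero⟩, fun lam hlam => ?_⟩
    exfalso
    apply hx0
    funext j
    by_cases hj : j = i
    · rw [hj, hxS]
      rfl
    · have h1 := hlam j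
      rw [hWder j hj, pderiv_X_of_ne (Ne.symm hj), map_zero, mul_zero, map_mul, map_pow, aeval_X,
        aeval_C] at h1
      rcases mul_eq_zero.1 h1 with h2 | h2
      · exfalso
        have h3 : (((l : ℤ) * b j : ℤ) : L) = 0 := h2
        rw [Int.cast_mul, Int.cast_natCast] at h3
        rcases mul_eq_zero.1 h3 with h4 | h4
        · exact hpl ((CharP.cast_eq_zero_iff L p l).1 h4)
        · exact (hb j hj).2 ((CharP.intCast_eq_zero_iff L p _).1 h4)
      · exact (pow_eq_zero_iff (by omega)).1 h2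

theorem diag_prim' {l : ℕ} (hl : 1 ≤ l) {a : Fin (n + 1) → ℤ} {p : ℕ} {i : Fin (n + 1)}
    (hi : ¬ (p : ℤ) ∣ a i) : ¬ C (p : ℤ) ∣ diagF a l := by
  intro h
  rw [C_dvd_iff_dvd_coeff] at h
  have h1 := h (Finsupp.single i l)
  have h2 : coeff (Finsupp.single i l) (diagF a l) = a i := by
    rw [diagF, coeff_sum, Finset.sum_eq_single i]
    · rw [coeff_C_mul, coeff_X_pow, if_pos rfl, mul_one]
    · intro b _ hb
      rw [coeff_C_mul, coeff_X_pow, if_neg, mul_zero]
      intro h
      exact hb ((Finsupp.single_left_inj (by omega)).1 h)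
    · intro h
      exact absurd (Finset.mem_univ _) h
  rw [h2] at h1
  exact hi h1

end Pool.Agent.PW
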