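import Pool.Agent.PW.Defs
import Pool.Agent.NT9.GeProjD

set_option autoImplicit false

/-! # HOMA: from homogeneous to affine conditions -/

namespace Pool.Agent.PW

open MvPolynomial Pool.Agent.NT9

variable {n : ℕ}

/-- Euler: `∑ x_i ∂_i F = d F` (Mathlib: `MvPolynomial.IsHomogeneous.sum_X_mul_pderiv` or similar; compare `NodHyp`). At a point: -/
theorem euler_at {d : ℕ} {F : MvPolynomial (Fin (n + 1)) ℤ} (hF : F.IsHomogeneous d) {L : Type}
    [CommRing L] (x : Fin (n + 1) → L) :
    ∑ i, x i * aeval x (pderiv i F) = (d : L) * aeval x F := by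
  have h1 := congrArg (aeval x) hF.sum_X_mul_pderiv
  rw [map_sum, nsmul_eq_mul, map_mul, map_natCast] at h1
  rw [← h1]
  exact Finset.sum_congr rfl fun i _ => by rw [map_mul, aeval_X]

private theorem pd_comm (i j : Fin (n + 1)) (F : MvPolynomial (Fin (n + 1)) ℤ) :
    pderiv i (pderiv j F) = pderiv j (pderiv i F) := by
  induction F using MvPolynomial.induction_on with
  | C a => rw [pderiv_C, pderiv_C, map_zero, map_zero]
  | add p q hp hq => rw [map_add, map_add, map_add, map_add, hp, hq]
  | mul_X p k hp =>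
    have hX : ∀ a b : Fin (n + 1), pderiv a (pderiv b (X k : MvPolynomial (Fin (n + 1)) ℤ)) = 0 := by
      intro a b
      by_cases h : k = b
      · rw [h, pderiv_X_self, pderiv_one]
      · rw [pderiv_X_of_ne h, map_zero]
    simp only [Derivation.leibniz, smul_eq_mul, map_add, hX, hp, mul_zero, zero_add]
    ring

/-- For the derivatives: `∑ x_i ∂_i ∂_j F = (d - 1) ∂_j F`, written without subtraction. -/
theorem euler_at' {d : ℕ} {F : MvPolynomial (Fin (n + 1)) ℤ} (hF : F.IsHomogeneous d) {L : Type}
    [CommRing L] (x : Fin (n + 1) → L) (j : Fin (n + 1)) :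
    ∑ i, x i * aeval x (pderiv i (pderiv j F)) + aeval x (pderiv j F) =
      (d : L) * aeval x (pderiv j F) := by
  have h1 := congrArg (fun G => aeval x (pderiv j G)) hF.sum_X_mul_pderiv
  have h2 : pderiv j (∑ i, X i * pderiv i F) =
      ∑ i, X i * pderiv i (pderiv j F) + pderiv j F := by
    rw [map_sum]
    have h3 : ∀ i ∈ Finset.univ, pderiv j (X i * pderiv i F) =
        X i * pderiv i (pderiv j F) + (if i = j then pderiv i F else 0) := by
      intro i _
      rw [Derivation.leibniz, smul_eq_mul, smul_eq_mul, pd_comm j i]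
      by_cases h : i = j
      · rw [if_pos h, h, pderiv_X_self, mul_one]
      · rw [if_neg h, pderiv_X_of_ne h, mul_zero]
    rw [Finset.sum_congr rfl h3, Finset.sum_add_distrib, Finset.sum_ite_eq' Finset.univ j,
      if_pos (Finset.mem_univ j)]
  rw [h2, map_add, map_sum, map_nsmul, map_nsmul, nsmul_eq_mul] at h1
  rw [← h1]
  congr 1
  exact Finset.sum_congr rfl fun i _ => by rw [map_mul, aeval_X]

/-- From the homogeneous to the affine condition. Proof. Let `χ : ℤ[x_i, i ≠ m] → L` with `χ p = 0` (so `CharP L p`), `x i = χ (X i)`, `x m = 1`: `χ (deh m G) = aeval x G`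
(`NH.aeval_deh`), `pderiv i (deh m G) = deh m (pderiv i G)` (`NH.pderiv_deh`). (1) If all `∂_i S (x) = 0` for `i ≠ m` then also for `i = m` by `euler_at` (`x m = 1`, `S (x) = 0`).
(2) If `∂_i W = l ∂_i S` for `i ≠ m` then also for `i = m`. (3) Let `y, μ` be as in `CtL`; put `y m = 0`; `E_j = ∑_i (∂_i∂_j W - l ∂_i∂_j S) y_i - μ ∂_j S` vanishes for `j ≠ m`;
`∑_j x_j E_j = ∑_i y_i ((d - 1) ∂_i W - l (e - 1) ∂_i S) - μ e S = l (d - e) ∑ y_i ∂_i S = 0` (`d = k e`; symmetry of the second derivatives, `euler_at'`), so `E_m = 0`. So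
`y = c x` by `Contact`, `0 = y m = c`. -/
theorem ctL_deh {p k e : ℕ} (hp : p.Prime) {S W : MvPolynomial (Fin (n + 1)) ℤ}
    (hS : S.IsHomogeneous e) (hW : W.IsHomogeneous (k * e)) (h : Contact S W p k)
    (m : Fin (n + 1)) : CtL (NH.deh m S) (NH.deh m W) p k := by
  intro L _ χ hχp hχs hχw
  have hpL : ((p : ℕ) : L) = 0 := by
    have h1 : χ (C (p : ℤ)) = ((p : ℕ) : L) := by
      have h2 : (C (p : ℤ) : MvPolynomial {i : Fin (n + 1) // i ≠ m} ℤ) = ((p : ℕ) :) := by simp
      rw [h2, map_natCast]
    rw [← h1, hχp]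
  have hchar : CharP L p := (CharP.charP_iff_prime_eq_zero hp).2 hpL
  obtain ⟨x, hxdef⟩ : ∃ x : Fin (n + 1) → L, x = fun i => if h : i ≠ m then χ (X ⟨i, h⟩) else 1 :=
    ⟨_, rfl⟩
  have hxm : x m = 1 := by rw [hxdef]; simp
  have hxi : ∀ i : {i : Fin (n + 1) // i ≠ m}, x i.1 = χ (X i) := by
    intro i
    rw [hxdef]
    exact dif_pos i.2
  have hχ : ∀ g : MvPolynomial {i : Fin (n + 1) // i ≠ m} ℤ, χ g = aeval (fun i => x i.1) g := by
    intro g
    induction g using MvPolynomial.induction_on with
    | C a =>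
      have h2 : (C a : MvPolynomial {i : Fin (n + 1) // i ≠ m} ℤ) = ((a : ℤ) :) := by simp
      rw [h2, map_intCast, map_intCast]
    | add p q hp hq => rw [map_add, map_add, hp, hq]
    | mul_X p i hp => rw [map_mul, map_mul, hp, aeval_X, hxi]
  have hdeh : ∀ G : MvPolynomial (Fin (n + 1)) ℤ, χ (NH.deh m G) = aeval x G := by
    intro G
    rw [hχ, NH.aeval_deh x hxm]
  have hx0 : x ≠ 0 := by
    intro h0
    rw [h0] at hxm
    exact zero_ne_one hxm
  rw [hdeh] at hχs hχw
  obtain ⟨⟨i0, hi0⟩, h2⟩ := h L x hx0 hχs hχw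
  -- sums with one term
  have hone : ∀ f : Fin (n + 1) → L, (∀ i, i ≠ m → f i = 0) → ∑ i, x i * f i = 0 → f m = 0 := by
    intro f hf hs
    rw [Finset.sum_eq_single m (fun b _ hb => by rw [hf b hb, mul_zero])
      (fun hb => absurd (Finset.mem_univ m) hb), hxm, one_mul] at hs
    exact hs
  refine ⟨?_, fun l hl => ?_⟩
  · by_contra hcon
    push Not at hcon
    have h3 : ∀ i, i ≠ m → aeval x (pderiv i S) = 0 := by
      intro i hi
      have h4 := hcon ⟨i, hi⟩
      rwa [NH.pderiv_deh, hdeh] at h4
    have h5 := euler_at hS x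
    rw [hχs, mul_zero] at h5
    have h6 := hone _ h3 h5
    by_cases h7 : i0 = m
    · exact hi0 (by rw [h7]; exact h6)
    · exact hi0 (h3 i0 h7)
  · have hl1 : ∀ i, i ≠ m → aeval x (pderiv i W) - l * aeval x (pderiv i S) = 0 := by
      intro i hi
      have h4 := hl ⟨i, hi⟩
      rw [NH.pderiv_deh, NH.pderiv_deh, hdeh, hdeh] at h4
      rw [h4, sub_self]
    have hl2 : aeval x (pderiv m W) - l * aeval x (pderiv m S) = 0 := by
      refine hone (fun i => aeval x (pderiv i W) - l * aeval x (pderiv i S)) hl1 ?_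
      have h5 := euler_at hS x
      have h6 := euler_at hW x
      rw [hχs, mul_zero] at h5
      rw [hχw, mul_zero] at h6
      have h7 : ∑ i, x i * (aeval x (pderiv i W) - l * aeval x (pderiv i S)) =
          ∑ i, x i * aeval x (pderiv i W) - l * ∑ i, x i * aeval x (pderiv i S) := by
        rw [Finset.mul_sum, ← Finset.sum_sub_distrib]
        exact Finset.sum_congr rfl fun i _ => by ring
      rw [h7, h5, h6, mul_zero, sub_zero]
    have hl' : ∀ i, aeval x (pderiv i W) = l * aeval x (pderiv i S) := by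
      intro i
      by_cases hi : i = m
      · rw [hi]
        exact sub_eq_zero.1 hl2
      · exact sub_eq_zero.1 (hl1 i hi)
    obtain ⟨hl0, hk2, h3⟩ := h2 l hl'
    refine ⟨hl0, hk2, fun y μ hy hE => ?_⟩
    obtain ⟨y', hy'⟩ : ∃ y' : Fin (n + 1) → L, y' = fun i => if h : i ≠ m then y ⟨i, h⟩ else 0 :=
      ⟨_, rfl⟩
    have hy'm : y' m = 0 := by rw [hy']; simp
    have hy'i : ∀ i : {i : Fin (n + 1) // i ≠ m}, y' i.1 = y i := by
      intro i
      rw [hy']
      exact dif_pos i.2
    have hsum : ∀ f : Fin (n + 1) → L, ∑ i, f i * y' i =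
        ∑ c : {i : Fin (n + 1) // i ≠ m}, f c.1 * y c := by
      intro f
      rw [← Finset.add_sum_erase _ _ (Finset.mem_univ m), hy'm, mul_zero, zero_add,
        Finset.sum_subtype (Finset.univ.erase m) (p := fun i => i ≠ m) (by
          intro i
          simp)]
      exact Finset.sum_congr rfl fun c _ => by rw [hy'i]
    have hS0 : ∑ i, aeval x (pderiv i S) * y' i = 0 := by
      rw [hsum, ← hy]
      exact Finset.sum_congr rfl fun c _ => by rw [NH.pderiv_deh, hdeh]
    have hE1 : ∀ j, j ≠ m → ∑ i, (aeval x (pderiv i (pderiv j W)) -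
        l * aeval x (pderiv i (pderiv j S))) * y' i - μ * aeval x (pderiv j S) = 0 := by
      intro j hj
      have h4 := hE ⟨j, hj⟩
      rw [hsum]
      simp only [NH.pderiv_deh, hdeh] at h4
      rw [h4, sub_self]
    have hE2 : ∑ i, (aeval x (pderiv i (pderiv m W)) -
        l * aeval x (pderiv i (pderiv m S))) * y' i - μ * aeval x (pderiv m S) = 0 := by
      refine hone (fun j => ∑ i, (aeval x (pderiv i (pderiv j W)) -
        l * aeval x (pderiv i (pderiv j S))) * y' i - μ * aeval x (pderiv j S)) hE1 ?_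
      have h4 : ∑ j, x j * (∑ i, (aeval x (pderiv i (pderiv j W)) -
          l * aeval x (pderiv i (pderiv j S))) * y' i - μ * aeval x (pderiv j S)) =
          ∑ i, (∑ j, x j * aeval x (pderiv j (pderiv i W)) -
            l * ∑ j, x j * aeval x (pderiv j (pderiv i S))) * y' i -
            μ * ∑ j, x j * aeval x (pderiv j S) := by
        simp only [mul_sub, Finset.mul_sum, Finset.sum_sub_distrib, sub_mul, Finset.sum_mul]
        rw [Finset.sum_comm, Finset.sum_comm (f := fun i j => l * (x j * (aeval x)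
          (pderiv j (pderiv i S))) * y' i)]
        congr 1
        · congr 1
          · refine Finset.sum_congr rfl fun i _ => Finset.sum_congr rfl fun j _ => ?_
            rw [pd_comm i j]
            ring
          · refine Finset.sum_congr rfl fun i _ => Finset.sum_congr rfl fun j _ => ?_
            rw [pd_comm i j]
            ring
        · exact Finset.sum_congr rfl fun j _ => by ring
      have h5 : ∀ i, ∑ j, x j * aeval x (pderiv j (pderiv i W)) =
          ((k * e : ℕ) : L) * (l * aeval x (pderiv i S)) - l * aeval x (pderiv i S) := by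
        intro i
        have h6 := euler_at' hW x i
        rw [hl' i] at h6
        linear_combination h6
      have h6 : ∀ i, ∑ j, x j * aeval x (pderiv j (pderiv i S)) =
          (e : L) * aeval x (pderiv i S) - aeval x (pderiv i S) := by
        intro i
        have h7 := euler_at' hS x i
        linear_combination h7
      have h7 := euler_at hS x
      rw [hχs, mul_zero] at h7
      show ∑ j, x j * (∑ i, (aeval x (pderiv i (pderiv j W)) -
          l * aeval x (pderiv i (pderiv j S))) * y' i - μ * aeval x (pderiv j S)) = 0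
      rw [h4, h7, mul_zero, sub_zero]
      have h8 : ∀ i ∈ Finset.univ, (∑ j, x j * aeval x (pderiv j (pderiv i W)) -
            l * ∑ j, x j * aeval x (pderiv j (pderiv i S))) * y' i =
          (l * (((k * e : ℕ) : L) - e)) * (aeval x (pderiv i S) * y' i) := by
        intro i _
        rw [h5, h6]
        ring
      rw [Finset.sum_congr rfl h8, ← Finset.mul_sum, hS0, mul_zero]
    obtain ⟨c, hc⟩ := h3 y' μ hS0 (fun j => by
      by_cases hj : j = m
      · rw [hj]
        exact sub_eq_zero.1 hE2
      · exact sub_eq_zero.1 (hE1 j hj))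
    have hc0 : c = 0 := by
      have h4 := congrFun hc m
      rw [hy'm, Pi.smul_apply, smul_eq_mul, hxm, mul_one] at h4
      exact h4.symm
    funext i
    rw [← hy'i, hc, hc0, zero_smul]
    rfl

end Pool.Agent.PW
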