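import Pool.Agent.PW.NoA
import Pool.Agent.NT9.GeSub
import Pool.Agent.QuadAll.Kappa
import Pool.Agent.QuadAll.PNotSq
import Pool.Agent.QuadAll.Arith
import Pool.Agent.QuadModel.Main

set_option autoImplicit false

/-! # QDB: minimal quadratic forms at the primes where the radical has dimension at most one -/

namespace Pool.Agent.PW

open MvPolynomial Pool.Agent.NT9 Pool.Agent.QuadModel

variable {n : ℕ}

/-- A minimal form is regular at the primes with singular radical of dimension at most one. Proof (compare `IsMin.local_condition`). Suppose `C p ∈ M'`, `f = deh c (qpoly D) ∈ M' ^ 2`.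
`L` = residue field, `x i` the class of `X i`, `x c = 1`: `x` is a singular radical vector of `D` over `L` (Euler for the row `c`). By `QuadAll.Kappa.coords_mem` its coordinates with respect to a
basis of `L` over `ZMod p` are in `radSub (redMat p D)`, of dimension `≤ 1`, so `x = t • red p a` for some `a : Fin (n + 1) → ℤ`, and (dividing) we may take `a c = 1`, `x = red p a` (in `L`).
So `X i - C (a i) ∈ M'` for all `i ≠ c`, and `M'` is generated by `p` and the `X i - C (a i)`, so the evaluation at `a` maps `M'` to `p ℤ`, `M' ^ 2` to `p ^ 2 ℤ`: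
`p ^ 2 ∣ qf D a` (`NH.aeval_deh` with `a c = 1`, `eval_qpoly`): a contradiction to `IsMin.not_sq_dvd` (`red p a ∈ radSub`, `red p a ≠ 0`). `tame_of_none`. -/
theorem tame_min {M : Matrix (Fin (n + 1)) (Fin (n + 1)) ℚ} (hM : M.det ≠ 0)
    {D : Matrix (Fin (n + 1)) (Fin (n + 1)) ℤ} (hD : IsMin M D) (p : ℕ) [hp : Fact p.Prime]
    (hrad : Module.finrank (ZMod p) (radSub (redMat p D)) ≤ 1) : TameAt (qpoly D) p := by
  classical
  apply tame_of_none
  intro c M' hM' hpM hf
  set π : MvPolynomial {i : Fin (n + 1) // i ≠ c} ℤ →+*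
    (MvPolynomial {i : Fin (n + 1) // i ≠ c} ℤ ⧸ M') := Ideal.Quotient.mk M' with hπ
  let κ := MvPolynomial {i : Fin (n + 1) // i ≠ c} ℤ ⧸ M'
  let _ : Field κ := Ideal.Quotient.field M'
  have hp0 : ((p : ℕ) : κ) = 0 := by
    have h1 : π (C (p : ℤ)) = 0 := Ideal.Quotient.eq_zero_iff_mem.2 hpM
    have h2 : (C (p : ℤ) : MvPolynomial {i : Fin (n + 1) // i ≠ c} ℤ) = ((p : ℕ) : _) := by simp
    rw [h2, map_natCast] at h1
    exact h1
  have hchar : CharP κ p := (CharP.charP_iff_prime_eq_zero hp.out).2 hp0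
  let x : Fin (n + 1) → κ := fun i => π (NH.deh c (X i))
  have hxc : x c = 1 := by
    show π (NH.deh c (X c)) = 1
    rw [NH.deh_X_self, map_one]
  have hπe : ∀ g : MvPolynomial (Fin (n + 1)) ℤ, π (NH.deh c g) = eval₂ (Int.castRingHom κ) x g := by
    intro g
    have h1 : π.comp (NH.deh c : MvPolynomial (Fin (n + 1)) ℤ →+*
        MvPolynomial {i : Fin (n + 1) // i ≠ c} ℤ) = eval₂Hom (Int.castRingHom κ) x :=
      ringHom_ext (fun r => by simp) (fun j => by simp [x])
    exact congrArg (fun h : MvPolynomial (Fin (n + 1)) ℤ →+* κ => h g) h1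
  have hfM : NH.deh c (qpoly D) ∈ M' := Ideal.pow_le_self two_ne_zero hf
  have hder : ∀ i : Fin (n + 1), i ≠ c → π (NH.deh c (pderiv i (qpoly D))) = 0 := by
    intro i hi
    have h1 := derivation_mem (pderiv (⟨i, hi⟩ : {i : Fin (n + 1) // i ≠ c})) M' hf
    rw [NH.pderiv_deh] at h1
    exact Ideal.Quotient.eq_zero_iff_mem.2 h1
  have hderc : π (NH.deh c (pderiv c (qpoly D))) = 0 := by
    rw [NH.euler_deh (isHomogeneous_qpoly D), map_sub, map_mul, map_sum]
    have h1 : π (NH.deh c (qpoly D)) = 0 := Ideal.Quotient.eq_zero_iff_mem.2 hfM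
    rw [h1, mul_zero, zero_sub, neg_eq_zero]
    refine Finset.sum_eq_zero fun i _ => ?_
    rw [map_mul, NH.pderiv_deh, hder i.1 i.2, mul_zero]
  have hG0 : ((D + D.transpose).map (Int.castRingHom κ)).mulVec x = 0 := by
    ext k
    have h1 : π (NH.deh c (pderiv k (qpoly D))) = 0 := by
      by_cases hk : k = c
      · rw [hk]; exact hderc
      · exact hder k hk
    rw [hπe, pderiv_qpoly] at h1
    rw [Pi.zero_apply, ← h1]
    simp only [Matrix.mulVec, dotProduct, Matrix.map_apply, eval₂_sum, eval₂_mul, eval₂_C,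
      eval₂_X]
  have hq0 : qf (D.map (Int.castRingHom κ)) x = 0 := by
    rw [← eval₂_qpoly, ← hπe]
    exact Ideal.Quotient.eq_zero_iff_mem.2 hfM
  let _ : Algebra (ZMod p) κ := ZMod.algebra κ p
  have hcast : ∀ z : ℤ, algebraMap (ZMod p) κ (z : ZMod p) = (z : κ) := fun z => map_intCast _ z
  have hmap : ∀ E : Matrix (Fin (n + 1)) (Fin (n + 1)) ℤ,
      (redMat p E).map (algebraMap (ZMod p) κ) = E.map (Int.castRingHom κ) := by
    intro E
    ext a b
    simp
  obtain ⟨w, hw, hxw⟩ := descend p (κ := κ) (redMat p D) hrad x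
    (by
      rw [← hG0, ← hmap]
      congr 2
      ext a b
      simp)
    (by rw [hmap]; exact hq0) c hxc
  obtain ⟨a, ha⟩ := red_surjective p w
  set a' : Fin (n + 1) → ℤ := Function.update a c 1 with ha'
  have hac : ((a c : ℤ) : ZMod p) = 1 := by
    have h1 := hxw c
    rw [← ha, red_apply, hxc] at h1
    have h2 : algebraMap (ZMod p) κ ((a c : ℤ) : ZMod p) = algebraMap (ZMod p) κ 1 := by
      rw [map_one]; exact h1.symm
    exact (algebraMap (ZMod p) κ).injective h2
  have hred : red p a' = red p a := by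
    ext j
    rw [red_apply, red_apply, ha']
    by_cases hj : j = c
    · rw [hj, Function.update_self, hac, Int.cast_one]
    · rw [Function.update_of_ne hj]
  have hxa : ∀ j, x j = ((a' j : ℤ) : κ) := by
    intro j
    rw [hxw j, ← ha, ← hred, red_apply, hcast]
  have hev : ∀ g : MvPolynomial {i : Fin (n + 1) // i ≠ c} ℤ,
      π g = ((eval (fun i : {i : Fin (n + 1) // i ≠ c} => a' i.1) g : ℤ) : κ) := by
    intro g
    have h1 : π = (Int.castRingHom κ).comp (eval (fun i : {i : Fin (n + 1) // i ≠ c} => a' i.1)) :=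
      ringHom_ext (fun r => by simp) (fun j => by
        have h2 := hxa j.1
        have h3 : x j.1 = π (X j) := by
          show π (NH.deh c (X j.1)) = π (X j)
          rw [NH.deh_X]
        rw [← h3, h2]
        simp)
    exact congrArg (fun h : MvPolynomial {i : Fin (n + 1) // i ≠ c} ℤ →+* κ => h g) h1
  have hmem : ∀ g ∈ M', (p : ℤ) ∣ eval (fun i : {i : Fin (n + 1) // i ≠ c} => a' i.1) g := by
    intro g hg
    have h1 : π g = 0 := Ideal.Quotient.eq_zero_iff_mem.2 hg
    rw [hev] at h1
    exact (CharP.intCast_eq_zero_iff κ p _).1 h1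
  have hsq : (p : ℤ) ^ 2 ∣
      eval (fun i : {i : Fin (n + 1) // i ≠ c} => a' i.1) (NH.deh c (qpoly D)) := by
    have h1 : Ideal.map (eval (fun i : {i : Fin (n + 1) // i ≠ c} => a' i.1)) M' ≤
        Ideal.span {(p : ℤ)} := by
      rw [Ideal.map_le_iff_le_comap]
      intro g hg
      rw [Ideal.mem_comap, Ideal.mem_span_singleton]
      exact hmem g hg
    have h2 := Ideal.mem_map_of_mem (eval (fun i : {i : Fin (n + 1) // i ≠ c} => a' i.1)) hf
    rw [Ideal.map_pow] at h2
    have h3 := Ideal.pow_right_mono h1 2 h2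
    rw [Ideal.span_singleton_pow, Ideal.mem_span_singleton] at h3
    exact h3
  have hval : eval (fun i : {i : Fin (n + 1) // i ≠ c} => a' i.1) (NH.deh c (qpoly D)) =
      qf D a' := by
    rw [← eval_qpoly]
    have h1 := NH.aeval_deh (m := c) a' (by rw [ha', Function.update_self]) (qpoly D)
    have h2 : ∀ {τ : Type} (v : τ → ℤ) (g : MvPolynomial τ ℤ), aeval v g = eval v g := by
      intro τ v g
      rw [← coe_aeval_eq_eval]
      rfl
    rw [h2, h2] at h1
    exact h1
  rw [hval] at hsq
  refine hD.not_sq_dvd hM p a' ?_ ?_ hsq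
  · rw [hred, ha]
    exact hw
  · intro h0
    have h1 := congrFun h0 c
    rw [red_apply, ha', Function.update_self, Int.cast_one, Pi.zero_apply] at h1
    exact one_ne_zero h1

end Pool.Agent.PW
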