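import Pool.Agent.NodHyp.Stmt
import Pool.Agent.QuadModel.Main

set_option autoImplicit false

/-! # QDC: similar forms -/

open AlgebraicGeometry CategoryTheory

namespace Pool.Agent.PW

open MvPolynomial Pool.Agent.QuadModel

variable {n : ℕ}

/-- The model of a similar integral form. Proof (compare the end of `QuadModel.exists_regular_model`): `Sim.exists_subst` gives `c ≠ 0`, `g` invertible with
`map (algebraMap ℤ ℚ) (qpoly D) = c · (qpoly M) (g x)`. For `B, y` presented by `qpoly M` put `y' = g⁻¹ y`, that is `y' i = ∑ j, (g⁻¹) i j • y j ∈ ℬ 1`: surjective, and the kernel is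
generated by `map (algebraMap ℤ ℚ) (qpoly D)` (`lsub`). So the hypothesis `h` applies to `B, ℬ, y'`. -/
theorem model_of_sim {M : Matrix (Fin (n + 1)) (Fin (n + 1)) ℚ}
    {D : Matrix (Fin (n + 1)) (Fin (n + 1)) ℤ} (hD : Sim M D)
    (h : NH.HasRegularModel (qpoly D)) (hsymm : M.IsSymm) (B : Type) [CommRing B] [Algebra ℚ B]
    (ℬ : ℕ → Submodule ℚ B) [GradedAlgebra ℬ] (y : Fin (n + 1) → B) (hy : ∀ i, y i ∈ ℬ 1)
    (hsurj : Function.Surjective (aeval y : MvPolynomial (Fin (n + 1)) ℚ →ₐ[ℚ] B))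
    (hker : RingHom.ker (aeval y : MvPolynomial (Fin (n + 1)) ℚ →ₐ[ℚ] B) =
      Ideal.span {∑ i, ∑ j, C (M i j) * X i * X j})
    (Z : Scheme) (hZ : Nonempty (Z ≅ Proj ℬ)) : NH.HasModelZ Z := by
  classical
  obtain ⟨c, g, hc, hg, hcg⟩ := hD.exists_subst
  have hgu : IsUnit g.det := isUnit_iff_ne_zero.mpr hg
  let σ := lsub g⁻¹
  let τ := lsub g
  have hστ : ∀ f, σ (τ f) = f := fun f ↦ by
    have : σ.comp τ = AlgHom.id ℚ _ := by
      rw [lsub_comp, Matrix.mul_nonsing_inv _ hgu, lsub_one]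
    exact congrArg (fun h : MvPolynomial (Fin (n + 1)) ℚ →ₐ[ℚ] MvPolynomial (Fin (n + 1)) ℚ ↦ h f)
      this
  have hτσ : ∀ f, τ (σ f) = f := fun f ↦ by
    have : τ.comp σ = AlgHom.id ℚ _ := by
      rw [lsub_comp, Matrix.nonsing_inv_mul _ hgu, lsub_one]
    exact congrArg (fun h : MvPolynomial (Fin (n + 1)) ℚ →ₐ[ℚ] MvPolynomial (Fin (n + 1)) ℚ ↦ h f)
      this
  have hker' : ∀ f : MvPolynomial (Fin (n + 1)) ℚ, aeval y f = 0 ↔ qpoly M ∣ f := by
    intro f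
    have h1 : f ∈ RingHom.ker (aeval y : MvPolynomial (Fin (n + 1)) ℚ →ₐ[ℚ] B) ↔
        f ∈ Ideal.span {∑ i, ∑ j, C (M i j) * X i * X j} := by rw [hker]
    rw [RingHom.mem_ker, Ideal.mem_span_singleton, ← qpoly_eq_sum] at h1
    exact h1
  let φB : MvPolynomial (Fin (n + 1)) ℚ →ₐ[ℚ] B := aeval y
  set y' : Fin (n + 1) → B := fun i => φB (σ (X i)) with hy'
  have haev : (aeval y' : MvPolynomial (Fin (n + 1)) ℚ →ₐ[ℚ] B) = φB.comp σ := by
    apply MvPolynomial.algHom_ext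
    intro i
    rw [aeval_X]
    rfl
  have hker2 : ∀ f, φB (σ f) = 0 ↔ map (Int.castRingHom ℚ) (qpoly D) ∣ f := by
    intro f
    have h0 : φB (σ f) = 0 ↔ qpoly M ∣ σ f := hker' (σ f)
    rw [h0, hcg]
    constructor
    · rintro ⟨v, hv⟩
      refine ⟨C c⁻¹ * τ v, ?_⟩
      have h1 : f = τ (qpoly M) * τ v := by rw [← hτσ f, hv, map_mul]
      calc f = (C (c * c⁻¹)) * (τ (qpoly M) * τ v) := by
            rw [mul_inv_cancel₀ hc, map_one, one_mul]
            exact h1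
        _ = _ := by rw [map_mul]; ring
    · rintro ⟨v, hv⟩
      refine ⟨C c * σ v, ?_⟩
      rw [hv, map_mul, map_mul, hστ, ← MvPolynomial.algebraMap_eq, AlgHom.commutes]
      ring
  refine h B ℬ y' ?_ ?_ ?_ Z hZ
  · intro i
    exact aeval_mem_graded ℬ y hy 1 _ (lsub_isHomogeneous _ (isHomogeneous_X ℚ i))
  · intro b
    obtain ⟨f, hf⟩ := hsurj b
    refine ⟨τ f, ?_⟩
    rw [haev]
    show φB (σ (τ f)) = b
    rw [hστ]
    exact hf
  · ext f
    rw [RingHom.mem_ker, Ideal.mem_span_singleton, haev]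
    exact hker2 f

end Pool.Agent.PW
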