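import Pool.Agent.PW.NoA
import Pool.Agent.NT9.GeSub
import Pool.Agent.QuadAll.Kappa
import Pool.Agent.QuadAll.PNotSq
import Pool.Agent.QuadAll.Arith
import Pool.Agent.QuadModel.Main

set_option autoImplicit false

/-! # QDS: quadratic forms: smooth generic fibre, content -/

namespace Pool.Agent.PW

open MvPolynomial Pool.Agent.NT9 Pool.Agent.QuadModel

variable {n : ℕ}

/-- Proof: `∂ F (x) = (D + Dᵀ) x`, and `det (D + Dᵀ) ≠ 0` (`Sim.det_ne_zero`). -/
theorem quad_smooth {M : Matrix (Fin (n + 1)) (Fin (n + 1)) ℚ} (hM : M.det ≠ 0)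
    {D : Matrix (Fin (n + 1)) (Fin (n + 1)) ℤ} (hD : Sim M D) : NH.SmoothQ (qpoly D) := by
  intro L _ _ x _ hd
  have h1 : ((D + D.transpose).map (Int.castRingHom L)).mulVec x = 0 := by
    ext k
    have h2 := hd k
    rw [pderiv_qpoly] at h2
    rw [Pi.zero_apply, ← h2]
    simp [Matrix.mulVec, dotProduct]
  have h3 : ((D + D.transpose).map (Int.castRingHom L)).det ≠ 0 := by
    rw [← RingHom.mapMatrix_apply, ← RingHom.map_det]
    have h4 := hD.det_ne_zero hM
    rw [eq_intCast]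
    exact Int.cast_ne_zero.2 h4
  exact Matrix.eq_zero_of_mulVec_eq_zero h3 h1

/-- Proof: `IsMin.content` (if `C p ∣ qpoly D` then `p ∣ qf D v` for all `v`, `eval_qpoly`). -/
theorem quad_prim (hn : 2 ≤ n) {M : Matrix (Fin (n + 1)) (Fin (n + 1)) ℚ} (hM : M.det ≠ 0)
    {D : Matrix (Fin (n + 1)) (Fin (n + 1)) ℤ} (hD : IsMin M D) {p : ℕ} (hp : p.Prime) :
    ¬ C (p : ℤ) ∣ qpoly D := by
  rintro ⟨G, hG⟩
  have h1 : IsUnit (p : ℤ) := by
    apply hD.content (by omega) hM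
    intro v
    have h2 := congrArg (eval v) hG
    rw [eval_qpoly, map_mul, eval_C] at h2
    exact ⟨_, h2⟩
  exact (Nat.prime_iff_prime_int.1 hp).not_isUnit h1

end Pool.Agent.PW
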