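import Pool.Agent.PW.NoA
import Pool.Agent.QuadAll.Kappa
import Pool.Agent.QuadAll.PNotSq

set_option autoImplicit false

/-! # QDM: adapted quadratic forms at the primes `p ∣ m`: the maximal ideal -/

namespace Pool.Agent.PW

open MvPolynomial Pool.Agent.NT9 Pool.Agent.QuadModel Pool.Agent.QuadAll

variable {n : ℕ}

private theorem qdM_qf {R : Type} [CommRing R] (P : Matrix (Fin (n + 1)) (Fin (n + 1)) R)
    (x : Fin (n + 1) → R) {c c' : Fin (n + 1)} (hcc : c ≠ c')
    (hx : ∀ i, i ≠ c ∧ i ≠ c' → x i = 0) :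
    qf P x = P c c * (x c * x c) + (P c c' + P c' c) * (x c * x c') + P c' c' * (x c' * x c') := by
  unfold qf
  simp only [dotProduct, Matrix.mulVec]
  rw [Fintype.sum_eq_add c c' hcc (fun i hi => by rw [hx i hi, zero_mul]),
    Fintype.sum_eq_add c c' hcc (fun i hi => by rw [hx i hi, mul_zero]),
    Fintype.sum_eq_add c c' hcc (fun i hi => by rw [hx i hi, mul_zero])]
  ring

/-- The ideal generated by `p`, the `X_k` (`k ≥ 2`) and `P` is maximal. Proof. Modulo `p` and the `X_k` the ring is `F_p[t]`, `t = X_(1 - c)` (`2 ≤ n + 1`), and `P` is a quadratic polynomial in `t`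
without zero in `F_p` and with nonzero leading coefficient (`aniso` for `u = (a, b)`), so irreducible. In terms of ideals: let `I` be this ideal; show that for `g ∉ I` there is `g'` with
`g g' - 1 ∈ I`; or show that `T / I` is isomorphic to `AdjoinRoot` of an irreducible polynomial. -/
theorem adapted_max {m : ℤ} {P G : Matrix (Fin (n + 1)) (Fin (n + 1)) ℤ}
    (hA : Adapted m P G) {p : ℕ} (hp : p.Prime) (hpm : (p : ℤ) ∣ m) (hn : 2 ≤ n)
    {c : Fin (n + 1)} (hc : (c : ℕ) < 2) :
    (Ideal.span (insert (C (p : ℤ)) (insert (NH.deh c (qpoly P))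
      (Set.range fun k : {k : {i : Fin (n + 1) // i ≠ c} // 2 ≤ (k.1 : ℕ)} =>
        (X k.1 : MvPolynomial {i : Fin (n + 1) // i ≠ c} ℤ))))).IsMaximal := by
  classical
  have hpf : Fact p.Prime := ⟨hp⟩
  obtain ⟨c', hcc, hc'⟩ : ∃ c' : Fin (n + 1), c' ≠ c ∧ ∀ i : Fin (n + 1), i ≠ c → i ≠ c' →
      2 ≤ (i : ℕ) := by
    refine ⟨⟨1 - c, by omega⟩, ?_, ?_⟩
    · intro h
      have := congrArg Fin.val h
      simp only at this
      omega
    · intro i h1 h2
      by_contra h3
      by_cases h4 : (i : ℕ) = c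
      · exact h1 (Fin.ext h4)
      · apply h2
        apply Fin.ext
        simp only
        omega
  have hc2' : (c' : ℕ) < 2 := by
    by_contra h
    have h0 : (⟨0, by omega⟩ : Fin (n + 1)) = c ∨ (⟨0, by omega⟩ : Fin (n + 1)) = c' := by
      by_contra hcon
      rw [not_or] at hcon
      have := hc' _ hcon.1 hcon.2
      simp at this
    have h1 : (⟨1, by omega⟩ : Fin (n + 1)) = c ∨ (⟨1, by omega⟩ : Fin (n + 1)) = c' := by
      by_contra hcon
      rw [not_or] at hcon
      have := hc' _ hcon.1 hcon.2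
      simp at this
    rcases h0 with h0 | h0
    · rcases h1 with h1 | h1
      · rw [← h0] at h1
        have := congrArg Fin.val h1
        simp at this
      · rw [← h1] at h
        simp at h
    · rw [← h0] at h
      simp at h
  set T := MvPolynomial {i : Fin (n + 1) // i ≠ c} ℤ with hT
  set I : Ideal T := Ideal.span (insert (C (p : ℤ)) (insert (NH.deh c (qpoly P))
      (Set.range fun k : {k : {i : Fin (n + 1) // i ≠ c} // 2 ≤ (k.1 : ℕ)} =>
        (X k.1 : MvPolynomial {i : Fin (n + 1) // i ≠ c} ℤ)))) with hI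
  have hpI : C (p : ℤ) ∈ I := Ideal.subset_span (Set.mem_insert _ _)
  have hPI : NH.deh c (qpoly P) ∈ I :=
    Ideal.subset_span (Set.mem_insert_of_mem _ (Set.mem_insert _ _))
  have hXI : ∀ k : {i : Fin (n + 1) // i ≠ c}, 2 ≤ (k.1 : ℕ) → (X k : T) ∈ I := fun k hk =>
    Ideal.subset_span (Set.mem_insert_of_mem _ (Set.mem_insert_of_mem _ ⟨⟨k, hk⟩, rfl⟩))
  let σ : Polynomial ℤ →+* T := Polynomial.eval₂RingHom MvPolynomial.C (X ⟨c', hcc⟩)
  let ρ : T →+* Polynomial ℤ := eval₂Hom (Polynomial.C : ℤ →+* Polynomial ℤ)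
    (fun k => if k.1 = c' then Polynomial.X else 0)
  have hσC : ∀ r : ℤ, σ (Polynomial.C r) = C r := fun r => Polynomial.eval₂_C _ _
  have hσX : σ Polynomial.X = X ⟨c', hcc⟩ := Polynomial.eval₂_X _ _
  have hρC : ∀ r : ℤ, ρ (C r) = Polynomial.C r := fun r => eval₂_C _ _ _
  have hρX : ∀ k, ρ (X k) = if k.1 = c' then Polynomial.X else 0 := fun k => eval₂_X _ _ _
  -- every polynomial is congruent to a polynomial in `X c'`
  have hcong : ∀ g : T, g - σ (ρ g) ∈ I := by
    intro g
    have h1 : (Ideal.Quotient.mk I) = (Ideal.Quotient.mk I).comp (σ.comp ρ) := by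
      apply ringHom_ext
      · intro r
        show Ideal.Quotient.mk I (C r) = Ideal.Quotient.mk I (σ (ρ (C r)))
        rw [hρC, hσC]
      · intro k
        show Ideal.Quotient.mk I (X k) = Ideal.Quotient.mk I (σ (ρ (X k)))
        rw [hρX]
        split_ifs with hk
        · rw [hσX]
          congr 2
          exact Subtype.ext hk
        · rw [map_zero, map_zero]
          exact Ideal.Quotient.eq_zero_iff_mem.2 (hXI k (hc' k.1 k.2 hk))
    have h2 : Ideal.Quotient.mk I g = Ideal.Quotient.mk I (σ (ρ g)) :=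
      congrArg (fun h : T →+* T ⧸ I => h g) h1
    exact (Ideal.Quotient.mk_eq_mk_iff_sub_mem _ _).1 h2
  -- the polynomial `h`
  set h : Polynomial ℤ := ρ (NH.deh c (qpoly P)) with hh
  have hh2 : h = Polynomial.C (P c' c') * Polynomial.X ^ 2 +
      Polynomial.C (P c c' + P c' c) * Polynomial.X + Polynomial.C (P c c) := by
    have h1 : h = eval₂ (Polynomial.C : ℤ →+* Polynomial ℤ) (fun i => ρ (NH.deh c (X i)))
        (qpoly P) := by
      have h2 : ρ.comp (NH.deh c : MvPolynomial (Fin (n + 1)) ℤ →+* T) =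
          eval₂Hom (Polynomial.C : ℤ →+* Polynomial ℤ) (fun i => ρ (NH.deh c (X i))) :=
        ringHom_ext (fun r => by simp) (fun j => by simp)
      exact congrArg (fun h : MvPolynomial (Fin (n + 1)) ℤ →+* Polynomial ℤ => h (qpoly P)) h2
    have hxc : ρ (NH.deh c (X c)) = 1 := by rw [NH.deh_X_self, map_one]
    have hxi : ∀ i : Fin (n + 1), i ≠ c → ρ (NH.deh c (X i)) =
        if i = c' then Polynomial.X else 0 := fun i hi => by
      have h3 : NH.deh c (X i) = X ⟨i, hi⟩ := NH.deh_X (⟨i, hi⟩ : {i : Fin (n + 1) // i ≠ c})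
      rw [h3, hρX]
    rw [h1, eval₂_qpoly, qdM_qf (P.map _) _ (Ne.symm hcc) (fun i hi => by
      rw [hxi i hi.1, if_neg hi.2])]
    rw [hxc, hxi c' hcc, if_pos rfl]
    simp only [Matrix.map_apply, Polynomial.C_add]
    ring
  set hb : Polynomial (ZMod p) := h.map (Int.castRingHom (ZMod p)) with hhb
  have hb2 : hb = Polynomial.C ((P c' c' : ℤ) : ZMod p) * Polynomial.X ^ 2 +
      Polynomial.C ((P c c' + P c' c : ℤ) : ZMod p) * Polynomial.X +
      Polynomial.C ((P c c : ℤ) : ZMod p) := by
    rw [hhb, hh2]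
    simp only [Polynomial.map_add, Polynomial.map_mul, Polynomial.map_pow, Polynomial.map_C,
      Polynomial.map_X]
    rfl
  have hlead : ((P c' c' : ℤ) : ZMod p) ≠ 0 := by
    intro h0
    rw [ZMod.intCast_zmod_eq_zero_iff_dvd] at h0
    have h1 := hA.aniso p hp hpm (fun i => if i = c' then 1 else 0) (fun k hk => by
      rw [if_neg]
      rintro rfl
      omega) (by
      rw [qdM_qf P _ (Ne.symm hcc) (fun i hi => if_neg hi.2), if_neg (Ne.symm hcc), if_pos rfl]
      simpa using h0) c'
    rw [if_pos rfl] at h1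
    exact (Nat.prime_iff_prime_int.1 hp).not_isUnit (isUnit_of_dvd_one h1)
  have hdeg : hb.natDegree = 2 := by
    rw [hb2]
    exact Polynomial.natDegree_quadratic hlead
  have hirr : Irreducible hb := by
    rw [Polynomial.irreducible_iff_roots_eq_zero_of_degree_le_three (by rw [hdeg])
      (by rw [hdeg]; norm_num)]
    rw [Multiset.eq_zero_iff_forall_notMem]
    intro a ha
    have h2 := Polynomial.isRoot_of_mem_roots ha
    rw [Polynomial.IsRoot.def, hb2] at h2
    obtain ⟨z, rfl⟩ := ZMod.intCast_surjective a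
    simp only [Polynomial.eval_add, Polynomial.eval_mul, Polynomial.eval_pow, Polynomial.eval_C,
      Polynomial.eval_X] at h2
    have h3 : ((P c' c' * z ^ 2 + (P c c' + P c' c) * z + P c c : ℤ) : ZMod p) = 0 := by
      push_cast
      push_cast at h2
      exact h2
    rw [ZMod.intCast_zmod_eq_zero_iff_dvd] at h3
    have h1 := hA.aniso p hp hpm (fun i => if i = c then 1 else if i = c' then z else 0)
      (fun k hk => by
        rw [if_neg, if_neg]
        · rintro rfl
          omega
        · rintro rfl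
          omega) (by
      rw [qdM_qf P _ (Ne.symm hcc) (fun i hi => by rw [if_neg hi.1, if_neg hi.2]), if_pos rfl,
        if_neg hcc, if_pos rfl]
      have e : P c c * (1 * 1) + (P c c' + P c' c) * (1 * z) + P c' c' * (z * z) =
          P c' c' * z ^ 2 + (P c c' + P c' c) * z + P c c := by ring
      rw [e]
      exact h3) c
    rw [if_pos rfl] at h1
    exact (Nat.prime_iff_prime_int.1 hp).not_isUnit (isUnit_of_dvd_one h1)
  have hirrF : Fact (Irreducible hb) := ⟨hirr⟩
  let φ : T →+* AdjoinRoot hb :=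
    (AdjoinRoot.mk hb).comp ((Polynomial.mapRingHom (Int.castRingHom (ZMod p))).comp ρ)
  have hφs : Function.Surjective φ := by
    intro y
    obtain ⟨f, rfl⟩ := AdjoinRoot.mk_surjective y
    obtain ⟨f', rfl⟩ := Polynomial.map_surjective (Int.castRingHom (ZMod p))
      ZMod.intCast_surjective f
    refine ⟨σ f', ?_⟩
    have h1 : ρ (σ f') = f' := by
      have h2 : ρ.comp σ = RingHom.id _ := by
        apply Polynomial.ringHom_ext
        · intro r
          show ρ (σ (Polynomial.C r)) = Polynomial.C r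
          rw [hσC, hρC]
        · show ρ (σ Polynomial.X) = Polynomial.X
          rw [hσX, hρX, if_pos rfl]
      exact congrArg (fun h : Polynomial ℤ →+* Polynomial ℤ => h f') h2
    show AdjoinRoot.mk hb ((ρ (σ f')).map (Int.castRingHom (ZMod p))) = _
    rw [h1]
  have hker : I = RingHom.ker φ := by
    apply le_antisymm
    · rw [hI, Ideal.span_le]
      rintro g (rfl | rfl | ⟨k, rfl⟩)
      · rw [SetLike.mem_coe, RingHom.mem_ker]
        show AdjoinRoot.mk hb ((ρ (C (p : ℤ))).map (Int.castRingHom (ZMod p))) = 0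
        rw [hρC, Polynomial.map_C]
        simp
      · rw [SetLike.mem_coe, RingHom.mem_ker]
        show AdjoinRoot.mk hb hb = 0
        exact AdjoinRoot.mk_self
      · rw [SetLike.mem_coe, RingHom.mem_ker]
        show AdjoinRoot.mk hb ((ρ (X k.1)).map (Int.castRingHom (ZMod p))) = 0
        rw [hρX, if_neg, Polynomial.map_zero, map_zero]
        intro h1
        have := k.2
        rw [h1] at this
        omega
    · intro g hg
      rw [RingHom.mem_ker] at hg
      have h1 : AdjoinRoot.mk hb ((ρ g).map (Int.castRingHom (ZMod p))) = 0 := hg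
      rw [AdjoinRoot.mk_eq_zero] at h1
      obtain ⟨w, hw⟩ := h1
      obtain ⟨w', rfl⟩ := Polynomial.map_surjective (Int.castRingHom (ZMod p))
        ZMod.intCast_surjective w
      have h2 : (ρ g - h * w').map (Int.castRingHom (ZMod p)) = 0 := by
        rw [Polynomial.map_sub, Polynomial.map_mul, hw, sub_self]
      have h3 : Polynomial.C (p : ℤ) ∣ ρ g - h * w' := by
        rw [Polynomial.C_dvd_iff_dvd_coeff]
        intro i
        have h4 := congrArg (fun f => Polynomial.coeff f i) h2
        rw [Polynomial.coeff_map, Polynomial.coeff_zero, eq_intCast,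
          ZMod.intCast_zmod_eq_zero_iff_dvd] at h4
        exact h4
      obtain ⟨r, hr⟩ := h3
      have h5 : g = (g - σ (ρ g)) + (σ h * σ w' + C (p : ℤ) * σ r) := by
        rw [← hσC, ← map_mul, ← map_mul, ← map_add, ← hr]
        have : h * w' + (ρ g - h * w') = ρ g := by ring
        rw [this]
        ring
      rw [h5]
      refine I.add_mem (hcong g) (I.add_mem (I.mul_mem_right _ ?_) (I.mul_mem_right _ hpI))
      have h6 := I.sub_mem hPI (hcong (NH.deh c (qpoly P)))
      have h7 : NH.deh c (qpoly P) - (NH.deh c (qpoly P) - σ (ρ (NH.deh c (qpoly P)))) = σ h := by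
        rw [hh]
        ring
      rw [h7] at h6
      exact h6
  rw [hker]
  exact RingHom.ker_isMaximal_of_surjective φ hφs

end Pool.Agent.PW
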