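import Pool.Agent.PW.QdA
import Pool.Agent.PW.QdM

set_option autoImplicit false

/-! # QDT: adapted quadratic forms at the primes `p ∣ m`: tangent cone -/

namespace Pool.Agent.PW

open MvPolynomial Pool.Agent.NT9 Pool.Agent.QuadModel Pool.Agent.QuadAll

variable {n : ℕ}

private theorem qdT_other (hn : 2 ≤ n) {c : Fin (n + 1)} (hc : (c : ℕ) < 2) :
    ∃ c' : Fin (n + 1), c' ≠ c ∧ (c' : ℕ) < 2 ∧ ∀ i : Fin (n + 1), i ≠ c → i ≠ c' →
      2 ≤ (i : ℕ) := by
  refine ⟨⟨1 - c, by omega⟩, ?_, ?_, ?_⟩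
  · intro h
    have := congrArg Fin.val h
    simp only at this
    omega
  · simp only
    omega
  · intro i h1 h2
    by_contra h3
    by_cases h4 : (i : ℕ) = c
    · exact h1 (Fin.ext h4)
    · apply h2
      apply Fin.ext
      simp only
      omega

private theorem qdT_sum {R : Type*} [AddCommMonoid R] {c : Fin (n + 1)} (F : Fin (n + 1) → R)
    (h : F c = 0) : ∑ i, F i = ∑ k : {i : Fin (n + 1) // i ≠ c}, F k.1 := by
  rw [Fintype.sum_eq_add_sum_subtype_ne F c, h, zero_add]

/-- The tangent cone. Proof. With `m = p m'`: `f = m' · p · P + ∑_(k, l ≥ 2) G_kl X_k X_l`; parameters (index set `Option {i // i ≠ c}`, `c < 2`): `none ↦ C p`, `some (1 - c) ↦ P`,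
`some k ↦ X_k` for `k ≥ 2`; the ideal they generate is `M` (`adapted_max`). Form: `A none (some (1 - c)) = m'`, `A (some k) (some l) = G_kl` for `k, l ≥ 2`, else `0`; smooth:
for `v` in the singular radical `m' v none = 0 = m' v (some (1 - c))` and `(v k)` is a singular vector of `G`: `Adapted.eq_zero_of_singular` (for the vector with `y 0 = y 1 = 0`). -/
theorem adapted_tv {m : ℤ} {P G : Matrix (Fin (n + 1)) (Fin (n + 1)) ℤ}
    (hA : Adapted m P G) {p : ℕ} (hp : p.Prime) (hpm : (p : ℤ) ∣ m) (hn : 2 ≤ n)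
    {c : Fin (n + 1)} {M : Ideal (MvPolynomial {i : Fin (n + 1) // i ≠ c} ℤ)} [M.IsMaximal]
    (hpM : C (p : ℤ) ∈ M) (hf : NH.deh c (qpoly (m • P + G)) ∈ M ^ 2) :
    TV (NH.deh c (qpoly (m • P + G))) M := by
  classical
  have hMmax : M.IsMaximal := inferInstance
  obtain ⟨hc2, hXM, hPM⟩ := adapted_point hA hp hpm hpM hf
  obtain ⟨c', hcc, hc2', hc'⟩ := qdT_other hn hc2
  obtain ⟨m', hm'⟩ := hpm
  have hpm : (p : ℤ) ∣ m := ⟨m', hm'⟩
  have hpm' : ¬ (p : ℤ) ∣ m' := by
    intro h
    apply hA.sqfree p hp hpm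
    obtain ⟨m'', rfl⟩ := h
    exact ⟨m'', by rw [hm']; ring⟩
  set I : Ideal (MvPolynomial {i : Fin (n + 1) // i ≠ c} ℤ) :=
    Ideal.span (insert (C (p : ℤ)) (insert (NH.deh c (qpoly P))
      (Set.range fun k : {k : {i : Fin (n + 1) // i ≠ c} // 2 ≤ (k.1 : ℕ)} =>
        (X k.1 : MvPolynomial {i : Fin (n + 1) // i ≠ c} ℤ)))) with hI
  have hImax : I.IsMaximal := adapted_max hA hp hpm hn hc2
  have hIM : I ≤ M := by
    rw [hI, Ideal.span_le]
    rintro g (rfl | rfl | ⟨k, rfl⟩)
    · exact hpM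
    · exact hPM
    · exact hXM k.1 k.2
  have hIeq : I = M := hImax.eq_of_le hMmax.ne_top hIM
  set x : Option {i : Fin (n + 1) // i ≠ c} → MvPolynomial {i : Fin (n + 1) // i ≠ c} ℤ :=
    fun i => match i with
      | none => C (p : ℤ)
      | some k => if (k.1 : ℕ) < 2 then NH.deh c (qpoly P) else X k with hx
  set A : Option {i : Fin (n + 1) // i ≠ c} → Option {i : Fin (n + 1) // i ≠ c} →
      MvPolynomial {i : Fin (n + 1) // i ≠ c} ℤ :=
    fun i j => match i, j with
      | none, none => 0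
      | none, some l => if (l.1 : ℕ) < 2 then C m' else 0
      | some _, none => 0
      | some k, some l => C (G k.1 l.1) with hAd
  have hxn : x none = C (p : ℤ) := rfl
  have hxs : ∀ k, x (some k) = if (k.1 : ℕ) < 2 then NH.deh c (qpoly P) else X k := fun k => rfl
  have hA1 : A none none = 0 := rfl
  have hA2 : ∀ l, A none (some l) = if (l.1 : ℕ) < 2 then C m' else 0 := fun l => rfl
  have hA3 : ∀ k, A (some k) none = 0 := fun k => rfl
  have hA4 : ∀ k l, A (some k) (some l) = C (G k.1 l.1) := fun k l => rfl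
  have hlt : ∀ l : {i : Fin (n + 1) // i ≠ c}, (l.1 : ℕ) < 2 → l = ⟨c', hcc⟩ := fun l hl => by
    apply Subtype.ext
    by_contra h
    have := hc' l.1 l.2 h
    omega
  refine ⟨x, A, ?_, ?_, ?_, ?_⟩
  · intro i
    rcases i with _ | k
    · exact hpM
    · rw [hxs]
      split_ifs with h
      · exact hPM
      · exact hXM k (by omega)
  · refine le_trans ?_ le_sup_left
    rw [← hIeq, hI, Ideal.span_le]
    rintro g (rfl | rfl | ⟨k, rfl⟩)
    · exact Ideal.subset_span ⟨none, rfl⟩
    · refine Ideal.subset_span ⟨some ⟨c', hcc⟩, ?_⟩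
      rw [hxs, if_pos hc2']
    · refine Ideal.subset_span ⟨some k.1, ?_⟩
      rw [hxs, if_neg (by have := k.2; omega)]
  · have hG : NH.deh c (qpoly G) = ∑ k : {i : Fin (n + 1) // i ≠ c},
        ∑ l : {i : Fin (n + 1) // i ≠ c}, A (some k) (some l) * x (some k) * x (some l) := by
      rw [qpoly_eq_sum, map_sum]
      rw [qdT_sum (c := c) (fun i => NH.deh c (∑ j, C (G i j) * X i * X j)) (by
        rw [Finset.sum_eq_zero, map_zero]
        intro j _
        rw [hA.supp c j (Or.inl hc2), C_0, zero_mul, zero_mul])]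
      refine Finset.sum_congr rfl fun k _ => ?_
      rw [map_sum, qdT_sum (c := c) (fun j => NH.deh c (C (G k.1 j) * X k.1 * X j)) (by
        rw [hA.supp k.1 c (Or.inr hc2), C_0, zero_mul, zero_mul, map_zero])]
      refine Finset.sum_congr rfl fun l _ => ?_
      rw [hA4]
      by_cases h : (k.1 : ℕ) < 2 ∨ (l.1 : ℕ) < 2
      · rw [hA.supp k.1 l.1 h, C_0, zero_mul, zero_mul, map_zero, C_0, zero_mul, zero_mul]
      · rw [not_or] at h
        have h0 : NH.deh c (C (G k.1 l.1)) = C (G k.1 l.1) := by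
          rw [← algebraMap_eq, AlgHom.commutes, algebraMap_eq]
        rw [map_mul, map_mul, NH.deh_X, NH.deh_X, h0, hxs, hxs, if_neg h.1, if_neg h.2]
    have hall : NH.deh c (qpoly (m • P + G)) = ∑ i, ∑ j, A i j * x i * x j := by
      have h0 : NH.deh c (C m) = C m := by
        rw [← algebraMap_eq, AlgHom.commutes, algebraMap_eq]
      rw [qpoly_add, qpoly_smul, map_add, map_mul, h0, hG, Fintype.sum_option,
        Fintype.sum_option, hA1, zero_mul, zero_mul, zero_add]
      congr 1
      · rw [Finset.sum_eq_single (⟨c', hcc⟩ : {i : Fin (n + 1) // i ≠ c})]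
        · rw [hA2, if_pos hc2', hxn, hxs, if_pos hc2', hm', C_mul]
          ring
        · intro l _ hl
          rw [hA2, if_neg (fun h => hl (hlt l h)), zero_mul, zero_mul]
        · intro h
          exact absurd (Finset.mem_univ _) h
      · refine Finset.sum_congr rfl fun k _ => ?_
        rw [Fintype.sum_option, hA3 k, zero_mul, zero_mul, zero_add]
    rw [hall, sub_self]
    exact Ideal.zero_mem _
  · intro L _ χ hχ v hv1 hv2
    have hp0 : ((p : ℕ) : L) = 0 := by
      have h1 := hχ _ hpM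
      have h2 : (C (p : ℤ) : MvPolynomial {i : Fin (n + 1) // i ≠ c} ℤ) = ((p : ℕ) : _) := by simp
      rw [h2, map_natCast] at h1
      exact h1
    have hchar : CharP L p := (CharP.charP_iff_prime_eq_zero hp).2 hp0
    have hχC : ∀ z : ℤ, χ (C z) = (z : L) := fun z => by
      have h2 : (C z : MvPolynomial {i : Fin (n + 1) // i ≠ c} ℤ) = ((z : ℤ) : _) := by simp
      rw [h2, map_intCast]
    have hm0 : ((m' : ℤ) : L) ≠ 0 := fun h => hpm' ((CharP.intCast_eq_zero_iff L p m').1 h)
    -- the two special coordinates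
    have hvc : v (some ⟨c', hcc⟩) = 0 := by
      have h1 := hv2 none
      rw [Fintype.sum_option, hA1, add_zero, map_zero, zero_mul, zero_add,
        Finset.sum_eq_single (⟨c', hcc⟩ : {i : Fin (n + 1) // i ≠ c})] at h1
      · rw [hA2, if_pos hc2', hA3 ⟨c', hcc⟩, add_zero, hχC] at h1
        exact (mul_eq_zero.1 h1).resolve_left hm0
      · intro l _ hl
        rw [hA2, if_neg (fun h => hl (hlt l h)), hA3 l, add_zero, map_zero, zero_mul]
      · intro h
        exact absurd (Finset.mem_univ _) h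
    have hvn : v none = 0 := by
      have h1 := hv2 (some ⟨c', hcc⟩)
      rw [Fintype.sum_option, hA3 ⟨c', hcc⟩, hA2, if_pos hc2', zero_add, hχC, Finset.sum_eq_zero,
        add_zero] at h1
      · exact (mul_eq_zero.1 h1).resolve_left hm0
      · intro l _
        rw [hA4, hA4, hA.supp c' l.1 (Or.inl hc2'), hA.supp l.1 c' (Or.inr hc2'), C_0, add_zero,
          map_zero, zero_mul]
    -- the vector `y`
    set y : Fin (n + 1) → L := fun i => if h : i ≠ c then v (some ⟨i, h⟩) else 0 with hy
    have hyk : ∀ k : {i : Fin (n + 1) // i ≠ c}, y k.1 = v (some k) := fun k => by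
      simp only [hy]
      rw [dif_pos k.2]
    have hyc : y c = 0 := by
      simp only [hy]
      rw [dif_neg (fun h => h rfl)]
    have hG0 : ((G + G.transpose).map (Int.cast : ℤ → L)).mulVec y = 0 := by
      ext i
      rw [Pi.zero_apply]
      simp only [Matrix.mulVec, dotProduct, Matrix.map_apply, Matrix.add_apply,
        Matrix.transpose_apply]
      by_cases hi : i = c
      · apply Finset.sum_eq_zero
        intro j _
        rw [hi, hA.supp c j (Or.inl hc2), hA.supp j c (Or.inr hc2), add_zero, Int.cast_zero,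
          zero_mul]
      · have h1 := hv2 (some ⟨i, hi⟩)
        rw [Fintype.sum_option, hvn, mul_zero, zero_add] at h1
        rw [qdT_sum (c := c) _ (by rw [hyc, mul_zero]), ← h1]
        refine Finset.sum_congr rfl fun l _ => ?_
        rw [hA4, hA4, hyk, map_add, hχC, hχC, Int.cast_add]
    have hq0 : qf (G.map (Int.cast : ℤ → L)) y = 0 := by
      unfold qf
      simp only [dotProduct, Matrix.mulVec, Matrix.map_apply, Finset.mul_sum]
      rw [qdT_sum (c := c) _ (by
        apply Finset.sum_eq_zero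
        intro j _
        rw [hyc, zero_mul])]
      rw [Fintype.sum_option, Fintype.sum_option, hvn] at hv1
      simp only [mul_zero, zero_mul, Finset.sum_const_zero, zero_add] at hv1
      rw [← hv1]
      refine Finset.sum_congr rfl fun k _ => ?_
      rw [Fintype.sum_option, hvn, mul_zero, zero_add]
      rw [qdT_sum (c := c) _ (by rw [hyc, mul_zero, mul_zero])]
      refine Finset.sum_congr rfl fun l _ => ?_
      rw [hA4, hyk, hyk, hχC]
      ring
    have hyz : ∀ k : Fin (n + 1), 2 ≤ (k : ℕ) → y k = 0 := fun k hk =>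
      hA.eq_zero_of_singular hp hpm y hG0 hq0 k hk
    funext i
    rcases i with _ | k
    · exact hvn
    · by_cases hk : (k.1 : ℕ) < 2
      · rw [hlt k hk]
        exact hvc
      · rw [← hyk]
        exact hyz k.1 (by omega)

/-- Proof: by `adapted_point` and `adapted_max` there is at most one such `M` in each chart. -/
theorem adapted_tame {m : ℤ} {P G : Matrix (Fin (n + 1)) (Fin (n + 1)) ℤ}
    (hA : Adapted m P G) {p : ℕ} (hp : p.Prime) (hpm : (p : ℤ) ∣ m) (hn : 2 ≤ n) :
    TameAt (qpoly (m • P + G)) p := by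
  intro c
  refine ⟨?_, fun M hM hpM hf => Or.inl (adapted_tv hA hp hpm hn hpM hf)⟩
  refine (Set.finite_singleton (Ideal.span (insert (C (p : ℤ)) (insert (NH.deh c (qpoly P))
      (Set.range fun k : {k : {i : Fin (n + 1) // i ≠ c} // 2 ≤ (k.1 : ℕ)} =>
        (X k.1 : MvPolynomial {i : Fin (n + 1) // i ≠ c} ℤ)))))).subset ?_
  rintro M ⟨hM, hpM, hf⟩
  obtain ⟨hc2, hXM, hPM⟩ := adapted_point hA hp hpm hpM hf
  have hImax := adapted_max hA hp hpm hn hc2
  rw [Set.mem_singleton_iff]
  symm
  refine hImax.eq_of_le hM.ne_top ?_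
  rw [Ideal.span_le]
  rintro g (rfl | rfl | ⟨k, rfl⟩)
  · exact hpM
  · exact hPM
  · exact hXM k.1 k.2

end Pool.Agent.PW
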