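import Pool.Agent.PW.MaC
import Pool.Agent.PW.QdT
import Pool.Agent.PW.QdB
import Pool.Agent.PW.QdS
import Pool.Agent.PW.QdC
import Pool.Agent.PW.FeB
import Pool.Agent.PW.FeC
import Pool.Agent.PW.FeD
import Pool.Agent.PW.DwB
import Pool.Agent.PW.DwC

set_option autoImplicit false

/-! # INA: quadrics, diagonal hypersurfaces of prime degree, the Dwork pencil -/

open AlgebraicGeometry CategoryTheory

namespace Pool.Agent.PW

open MvPolynomial Pool.Agent.NT9 Pool.Agent.QuadModel Pool.Agent.QuadAll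

theorem qpoly_hom {n : ℕ} (D : Matrix (Fin n) (Fin n) ℤ) : (qpoly D).IsHomogeneous 2 := by
  rw [qpoly_eq_sum]
  refine IsHomogeneous.sum _ _ _ fun i _ => IsHomogeneous.sum _ _ _ fun j _ => ?_
  have h := ((isHomogeneous_C (Fin n) (D i j)).mul (isHomogeneous_X ℤ i)).mul
    (isHomogeneous_X ℤ j)
  simpa using h

/-- Every quadric. -/
theorem quad_model {n : ℕ} (hn : 2 ≤ n) {M : Matrix (Fin (n + 1)) (Fin (n + 1)) ℚ}
    (hsymm : M.IsSymm) (hdet : M.det ≠ 0) (B : Type) [CommRing B] [Algebra ℚ B]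
    (ℬ : ℕ → Submodule ℚ B) [GradedAlgebra ℬ] (y : Fin (n + 1) → B) (hy : ∀ i, y i ∈ ℬ 1)
    (hsurj : Function.Surjective (aeval y : MvPolynomial (Fin (n + 1)) ℚ →ₐ[ℚ] B))
    (hker : RingHom.ker (aeval y : MvPolynomial (Fin (n + 1)) ℚ →ₐ[ℚ] B) =
      Ideal.span {∑ i, ∑ j, C (M i j) * X i * X j})
    (Z : Scheme) (hZ : Nonempty (Z ≅ Proj ℬ)) : NH.HasModelZ Z := by
  obtain ⟨D, hD⟩ := exists_isMin M hsymm
  obtain ⟨m, P, G, hA, hmin⟩ := exists_adapted (by omega : 3 ≤ n + 1) hdet hD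
  refine model_of_sim hmin.1 ?_ hsymm B ℬ y hy hsurj hker Z hZ
  refine crit hn le_rfl (qpoly_hom _) (quad_smooth hdet hmin.1)
    (fun p hp => quad_prim hn hdet hmin hp) fun p hp => Or.inl ?_
  by_cases hpm : (p : ℤ) ∣ m
  · exact adapted_tame hA hp hpm hn
  · have := Fact.mk hp
    exact tame_min hdet hmin p (hA.good p hpm)

/-- Diagonal hypersurfaces of prime degree `l`. The coefficients are prime to `l`, no `p ^ 2`
divides one of them, and every prime number `p` divides at most one, or all but one of them. -/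
theorem diag_model {n l : ℕ} (hn : 2 ≤ n) (hl : l.Prime) {a : Fin (n + 1) → ℤ}
    (hal : ∀ i, ¬ (l : ℤ) ∣ a i)
    (h : ∀ p : ℕ, p.Prime → (∀ i, ¬ (p : ℤ) ^ 2 ∣ a i) ∧ ∃ i, (∀ j, j ≠ i → ¬ (p : ℤ) ∣ a j) ∨
      (¬ (p : ℤ) ∣ a i ∧ ∀ j, j ≠ i → (p : ℤ) ∣ a j)) : NH.HasRegularModel (diagF a l) := by
  haveI : Nontrivial (Fin (n + 1)) := Fin.nontrivial_iff_two_le.2 (by omega)
  refine crit hn hl.two_le (diagF_hom a l) (diag_smooth hl.two_le fun i h => ?_)
    (fun p hp => ?_) fun p hp => ?_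
  · exact hal i (by rw [h]; exact dvd_zero _)
  · obtain ⟨-, i, h1 | h1⟩ := h p hp
    · obtain ⟨j, hj⟩ := exists_ne i
      exact diag_prim' hl.one_lt.le (h1 j hj)
    · exact diag_prim' hl.one_lt.le h1.1
  · by_cases hpl : p = l
    · subst hpl
      right
      have h := diag_pow hp hal (isHomogeneous_zero (Fin (n + 1)) ℤ p)
      rwa [mul_zero, add_zero] at h
    · have hpl' : ¬ p ∣ l := fun h => hpl ((Nat.prime_dvd_prime_iff_eq hp hl).1 h)
      obtain ⟨h0, i, h1 | h1⟩ := h p hp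
      · left
        refine diag_tame hl.two_le hp hpl' (fun j k hj hk => ?_) h0
        have hji : j = i := by
          by_contra hji
          exact h1 j hji hj
        have hki : k = i := by
          by_contra hki
          exact h1 k hki hk
        rw [hji, hki]
      · right
        exact diag_pow' hl.two_le hpl' h1.1 fun j hj => ⟨h1.2 j hj, h0 j⟩

/-- The Dwork pencil. -/
theorem dwork_model {n : ℕ} (hn : 2 ≤ n) (hl : (n + 1).Prime) {ψ : ℤ}
    (hψ : ((n + 1 : ℕ) : ℤ) ∣ ψ) : NH.HasRegularModel (dworkF n ψ) := by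
  have h1 : ψ ^ (n + 1) ≠ 1 := by
    intro h
    have h2 : ((n + 1 : ℕ) : ℤ) ∣ 1 := by
      rw [← h]
      exact dvd_pow hψ (by omega)
    exact (Nat.prime_iff_prime_int.1 hl).not_isUnit (isUnit_of_dvd_one h2)
  refine crit hn (by omega : 2 ≤ n + 1) (dwork_hom ψ) (dwork_smooth h1)
    (fun p hp => dwork_prim (by omega) ψ hp) fun p hp => ?_
  by_cases hpn : p ∣ n + 1
  · right
    rw [(Nat.prime_dvd_prime_iff_eq hp hl).1 hpn]
    exact dwork_pow hl hψ
  · left
    exact tame_of_nodal hp (dwork_hom ψ) (dwork_nodal (by omega) ψ hp hpn)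

end Pool.Agent.PW
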