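import Pool.Agent.PW.WdD
import Pool.Agent.PW.CtM
import Pool.Agent.NT9.GeFrB

set_option autoImplicit false

/-! # WDE: finitely many points are not regular -/

namespace Pool.Agent.PW

open MvPolynomial Pool.Agent.NT9

variable {σ : Type} [Fintype σ] [DecidableEq σ] {s w : MvPolynomial σ ℤ} {u : ℤ} {p k : ℕ}
  {K : Type} [Field K] {θ : MvPolynomial σ ℤ →+* K}

/-- Finitely many points over `p` are not regular. Proof. `ct_data`, `wd_cases`: `O ↦ (i, Q)` with `Q` in a finite set (`ct_fin`, `ty_fin`); it is injective: `O` is determined by `i` (which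
gives `a, b`) and `Q` (`NT9.eq_of_fr` with the range of `pi0 θ a b`; `x ∈ mx O` iff the preimage is in `Q`). -/
theorem wd_fin [Nonempty σ] (hp : p.Prime) (hk : 2 ≤ k) (hu : ¬ (p : ℤ) ∣ u) {f : MvPolynomial σ ℤ}
    (hker : RingHom.ker θ = Ideal.span {f}) (hf : f = C u * s ^ k + C (p : ℤ) * w)
    (hct : CtL s w p k) :
    {O : Subring K | IsLocalRing O ∧ ¬ IsRegularLocalRing O ∧
      ∃ i, i < k ∧ Wd θ s w u p k i ((p : K) / θ s ^ i) (θ s ^ (i + 1) / (p : K)) O}.Finite := by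
  classical
  obtain ⟨c, D, l, β, q, hd⟩ := ct_data hp hct
  have hsub : {O : Subring K | IsLocalRing O ∧ ¬ IsRegularLocalRing O ∧
      ∃ i, i < k ∧ Wd θ s w u p k i ((p : K) / θ s ^ i) (θ s ^ (i + 1) / (p : K)) O} ⊆
      ⋃ i ∈ {i : ℕ | i < k}, ⋃ M ∈ {M : Ideal (MvPolynomial σ ℤ) | IsCt s w p M},
        ⋃ Q ∈ {Q : Ideal (MvPolynomial (V0 σ) ℤ) | Q.IsPrime ∧
          (TypeA M (D M) (l M) (β M) u k i Q ∨ TypeB M (D M) (l M) (β M) u k i Q)},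
          {O : Subring K | IsFr (pi0 θ ((p : K) / θ s ^ i) (θ s ^ (i + 1) / (p : K))).range O ∧
            ∀ t, t ∈ Q ↔ pi0 θ ((p : K) / θ s ^ i) (θ s ^ (i + 1) / (p : K)) t ∈ mx O} := by
    rintro O ⟨hO, hnr, i, hi, h⟩
    obtain ⟨M, Q, hM, hQ, hQm, hty⟩ := wd_cases hp hk hu hker hf hd hi h hnr
    simp only [Set.mem_iUnion, Set.mem_setOf_eq]
    refine ⟨i, hi, M, hM, Q, ⟨hQ, hty⟩, ⟨?_, ?_⟩, hQm⟩
    · rintro _ ⟨t, rfl⟩
      exact pi0_mem θ h.poly h.aO h.bO t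
    · intro x hx
      obtain ⟨g, h', h1, h2, h3⟩ := h.fr x hx
      exact ⟨_, ⟨g, rfl⟩, _, ⟨h', rfl⟩, h1, h2, h3⟩
  refine Set.Finite.subset ?_ hsub
  refine Set.Finite.biUnion (Set.finite_lt_nat k) fun i hi => ?_
  refine Set.Finite.biUnion (ct_fin hp hct) fun M hM => ?_
  obtain ⟨hmax, hc, hJ, hcf, hk2⟩ := hd M hM
  refine Set.Finite.biUnion (ty_fin hp hk hi hk2 hM hJ hcf.hl) fun Q _ => ?_
  refine Set.Subsingleton.finite ?_
  rintro O1 ⟨h1, h1'⟩ O2 ⟨h2, h2'⟩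
  refine eq_of_fr h1 h2 ?_
  rintro _ ⟨t, rfl⟩
  rw [← h1' t, ← h2' t]

end Pool.Agent.PW
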