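import Pool.Agent.PW.WdD
import Pool.Agent.PW.CtO
import Pool.Agent.PW.CtM
import Pool.Agent.PW.CaD
import Pool.Agent.PW.OdpE

set_option autoImplicit false

/-! # WDF: the blow up of the points which are not regular -/

namespace Pool.Agent.PW

open MvPolynomial Pool.Agent.NT9

variable {σ : Type} [Fintype σ] [DecidableEq σ] {s w : MvPolynomial σ ℤ} {u : ℤ} {p k : ℕ}
  {K : Type} [Field K] {θ : MvPolynomial σ ℤ →+* K}

/-- A point which is not regular has a finite residue field and its blow up is regular. Proof. `ct_data`, `wd_cases`, `ty_max`, `finRes_of_max`; type A: `odp_of_type` with `y = a`,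
`th = θ_A` (`tyA_jac`, `thA_der`, `ctG_A`), type B: `y = b`, `th = θ_B` (`tyB_jac`, `thB_der`, `ctG_B`; `i ≥ 1`), `odp_blow`. -/
theorem wd_blow [Nonempty σ] (hp : p.Prime) (hk : 2 ≤ k) (hu : ¬ (p : ℤ) ∣ u) {f : MvPolynomial σ ℤ}
    (hker : RingHom.ker θ = Ideal.span {f}) (hf : f = C u * s ^ k + C (p : ℤ) * w)
    (hct : CtL s w p k) {i : ℕ} (hi : i < k) {a b : K} {O : Subring K} [IsLocalRing O]
    (h : Wd θ s w u p k i a b O) (hnr : ¬ IsRegularLocalRing O) :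
    FinRes O ∧ ∀ O' : Subring K, IsLocalRing O' → IsBl O O' → IsRegularLocalRing O' := by
  classical
  obtain ⟨c, D, l, β, q, hd⟩ := ct_data hp hct
  obtain ⟨M, Q, hM, hQ, hQm, hty⟩ := wd_cases hp hk hu hker hf hd hi h hnr
  obtain ⟨hmax, hc, hJ, hcf, hk2⟩ := hd M hM
  have hQmax : Q.IsMaximal := ty_max hp hk hi hk2 hM hJ hcf.hl hty
  have hpoly : ∀ t, pi0 θ a b t ∈ O := pi0_mem θ h.poly h.aO h.bO
  have hpQ : (C (p : ℤ) : MvPolynomial (V0 σ) ℤ) ∈ Q := by
    rw [hQm]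
    have h1 : pi0 θ a b (C (p : ℤ)) = (p : K) := by simp [pi0]
    rw [h1]
    exact h.pmx
  refine ⟨finRes_of_max hp hpQ hpoly hQm h.fr, fun O' hO' hbl => ?_⟩
  rcases hty with hty | hty
  · have hMQ : ∀ m ∈ M, jl m ∈ Q := hty.2.1
    have ha : va σ ∈ Q := hty.2.2.1
    have hth : thA (D M) (l M) (β M) u k i ∈ Q := hty.2.2.2
    have hder := thA_der hp hk hk2 hM.2.1 hcf.hl hty
    have hJQ := tyA_jac hJ hMQ ha hder
    have hodp := odp_of_type hker hf hp hi h hM hcf hMQ hQm ha hth hJQ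
      (ctG_A (D M) (l M) (β M) u hty.1).symm
      (Ideal.mem_span_singleton'.2 ⟨va σ ^ i * vb σ ^ i, by rw [pow_succ]; ring⟩)
    exact odp_blow hp hpQ hodp hbl
  · have hMQ : ∀ m ∈ M, jl m ∈ Q := hty.2.1
    have hb : vb σ ∈ Q := hty.2.2.1
    have hth : thB (D M) (l M) (β M) u k i ∈ Q := hty.2.2.2
    have hder := thB_der hp hk hi hk2 hM.2.1 hcf.hl hty
    have hJQ := tyB_jac hJ hMQ hb hder
    have hodp := odp_of_type hker hf hp hi h hM hcf hMQ hQm hb hth hJQ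
      (ctG_B (D M) (l M) (β M) u hty.1 hi).symm
      (Ideal.mem_span_singleton'.2 ⟨va σ ^ (i + 1) * vb σ ^ (i - 1), by
        obtain ⟨j, rfl⟩ : ∃ j, i = j + 1 := ⟨i - 1, by have := hty.1; omega⟩
        rw [Nat.add_sub_cancel, pow_succ (vb σ) j]
        ring⟩)
    exact odp_blow hp hpQ hodp hbl

end Pool.Agent.PW
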