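import Pool.Agent.PW.HomA
import Pool.Agent.PW.MaA
import Pool.Agent.PW.MaK
import Pool.Agent.PW.TmC
import Pool.Agent.PW.TmF
import Pool.Agent.PW.NoA
import Pool.Agent.PW.WdE
import Pool.Agent.PW.WdF
import Pool.Agent.NT9.GeResB

set_option autoImplicit false

/-! # MAB: resolution of the first model -/

namespace Pool.Agent.PW

open MvPolynomial Pool.Agent.NT9

variable {n : ℕ} {K : Type} [Field K] [CharZero K]

/-- `S` does not vanish at the generic point, by degrees. -/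
private theorem mab_S {d k e : ℕ} {p : ℕ} {u : ℤ} {F S W : MvPolynomial (Fin (n + 1)) ℤ}
    (hF : F.IsHomogeneous d) (hF0 : F ≠ 0) (hd : 1 ≤ d) (hk : 2 ≤ k) (hS : S.IsHomogeneous e)
    (hW : W.IsHomogeneous (k * e)) (hpS : ¬ C (p : ℤ) ∣ S)
    (hFe : F = C u * S ^ k + C (p : ℤ) * W) {x : Fin (n + 1) → K}
    (hker : ∀ h : MvPolynomial (Fin (n + 1)) ℤ, aeval x h = 0 ↔ F ∣ h) : aeval x S ≠ 0 := by
  intro h0
  obtain ⟨G, hG⟩ := (hker S).1 h0
  have hS0 : S ≠ 0 := by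
    rintro rfl
    exact hpS (dvd_zero _)
  have hG0 : G ≠ 0 := by
    rintro rfl
    exact hS0 (by rw [hG, mul_zero])
  have h1 : F.IsHomogeneous (k * e) := by
    rw [hFe]
    refine IsHomogeneous.add ?_ ?_
    · have h2 : (S ^ k).IsHomogeneous (k * e) := by
        have h3 := hS.pow k
        rwa [mul_comm] at h3
      have h4 := (isHomogeneous_C (Fin (n + 1)) u).mul h2
      rwa [zero_add] at h4
    · have h4 := (isHomogeneous_C (Fin (n + 1)) (p : ℤ)).mul hW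
      rwa [zero_add] at h4
  have h2 : d = k * e := by
    rw [← hF.totalDegree hF0, ← h1.totalDegree hF0]
  have h3 := congrArg totalDegree hG
  rw [totalDegree_mul_of_isDomain hF0 hG0, hS.totalDegree hS0, hF.totalDegree hF0] at h3
  have h4 : 2 * e ≤ k * e := Nat.mul_le_mul_right e hk
  omega

theorem crit_resolution (hn : 2 ≤ n) {d : ℕ} {F : MvPolynomial (Fin (n + 1)) ℤ}
    (hF : F.IsHomogeneous d) (hd : 1 ≤ d) (hprim : ∀ p : ℕ, p.Prime → ¬ C (p : ℤ) ∣ F)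
    (hN : ∃ N : ℤ, N ≠ 0 ∧ ∀ m : Fin (n + 1),
      (C N : MvPolynomial {i // i ≠ m} ℤ) ∈ Ideal.span {NH.deh m F} ⊔
        Ideal.span (Set.range fun i => pderiv i (NH.deh m F)))
    (hloc : ∀ p : ℕ, p.Prime → TameAt F p ∨ PowAt F p) (x : Fin (n + 1) → K)
    (hx : ∀ i, x i ≠ 0)
    (hker : ∀ h : MvPolynomial (Fin (n + 1)) ℤ, aeval x h = 0 ↔ F ∣ h) :
    ∃ (Mo' : Submodule ℤ K) (E : ℕ), Mo'.FG ∧ 0 < E ∧ Com Mo' (Mo0 x ^ E) ∧
      ∀ O' ∈ Loc Mo', IsRegularLocalRing O' := by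
  classical
  obtain ⟨N, hN0, hN⟩ := hN
  have hF0 : F ≠ 0 := by
    rintro rfl
    exact hprim 2 Nat.prime_two (dvd_zero _)
  obtain ⟨T, hTt, hTp⟩ : ∃ T : Finset ℕ, (∀ p : ℕ, p.Prime → p ∉ T → TameAt F p) ∧
      ∀ p ∈ T, p.Prime ∧ PowAt F p := by
    refine ⟨N.natAbs.primeFactors.filter fun p => ¬ TameAt F p, fun p hp hpT => ?_,
      fun p hp => ?_⟩
    · by_contra hcon
      by_cases hpN : (p : ℤ) ∣ N
      · apply hpT
        rw [Finset.mem_filter, Nat.mem_primeFactors]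
        exact ⟨⟨hp, Int.natCast_dvd.1 hpN, by simpa using hN0⟩, hcon⟩
      · exact hcon (tame_of_not_dvd hp hN hpN)
    · rw [Finset.mem_filter, Nat.mem_primeFactors] at hp
      exact ⟨hp.1.1, (hloc p hp.1.1).resolve_left hp.2⟩
  have hex : ∀ p : ℕ, ∃ (k e : ℕ) (u : ℤ) (S W : MvPolynomial (Fin (n + 1)) ℤ), p ∈ T →
      (2 ≤ k ∧ S.IsHomogeneous e ∧ W.IsHomogeneous (k * e) ∧ ¬ (p : ℤ) ∣ u ∧
        ¬ C (p : ℤ) ∣ S ∧ F = C u * S ^ k + C (p : ℤ) * W ∧ Contact S W p k) := by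
    intro p
    by_cases hp : p ∈ T
    · obtain ⟨k, e, u, S, W, h⟩ := (hTp p hp).2
      exact ⟨k, e, u, S, W, fun _ => h⟩
    · exact ⟨0, 0, 0, 0, 0, fun h => absurd h hp⟩
  choose k e u S W hTd using hex
  have hFx : aeval x F = 0 := (hker F).2 dvd_rfl
  have hkm : ∀ m, RingHom.ker (thm x m) = Ideal.span {NH.deh m F} := fun m =>
    ker_thm hx hF hker m
  have hSx : ∀ p ∈ T, aeval x (S p) ≠ 0 := by
    intro p hp
    obtain ⟨h1, h2, h3, -, h5, h6, -⟩ := hTd p hp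
    exact mab_S hF hF0 hd h1 h2 h3 h5 h6 hker
  have hTd' : ∀ p ∈ T, p.Prime ∧ 2 ≤ k p ∧ (S p).IsHomogeneous (e p) ∧ ¬ (p : ℤ) ∣ u p ∧
      F = C (u p) * S p ^ k p + C (p : ℤ) * W p ∧ aeval x (S p) ≠ 0 := by
    intro p hp
    obtain ⟨h1, h2, -, h4, -, h6, -⟩ := hTd p hp
    exact ⟨(hTp p hp).1, h1, h2, h4, h6, hSx p hp⟩
  have hdeh : ∀ p ∈ T, ∀ m, NH.deh m F =
      C (u p) * NH.deh m (S p) ^ k p + C (p : ℤ) * NH.deh m (W p) := by
    intro p hp m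
    have h6 := (hTd p hp).2.2.2.2.2.1
    have hC : ∀ a : ℤ, NH.deh m (C a) = C a := by
      intro a
      rw [← algebraMap_eq, AlgHom.commutes, algebraMap_eq]
    conv_lhs => rw [h6]
    rw [map_add, map_mul, map_mul, map_pow, hC, hC]
  have hct : ∀ p ∈ T, ∀ m, CtL (NH.deh m (S p)) (NH.deh m (W p)) p (k p) := by
    intro p hp m
    obtain ⟨-, h2, h3, -, -, -, h7⟩ := hTd p hp
    exact ctL_deh (hTp p hp).1 h2 h3 h7 m
  have hne : ∀ m : Fin (n + 1), Nonempty {i : Fin (n + 1) // i ≠ m} := by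
    intro m
    haveI : Nontrivial (Fin (n + 1)) := Fin.nontrivial_iff_two_le.2 (by omega)
    obtain ⟨i, hi⟩ := exists_ne m
    exact ⟨⟨i, hi⟩⟩
  have hTame : ∀ (m : Fin (n + 1)) (O : Subring K), (∀ p ∈ T, (p : K) ∉ mx O) →
      ∀ p : ℕ, p.Prime → (p : K) ∈ mx O → TameL (NH.deh m F) p := by
    intro m O hO p hp hpO
    exact hTt p hp (fun hpT => hO p hpT hpO) m
  obtain ⟨hfg, E0, hE0, hcom0⟩ := mot_com (x := x) hx (T := T) (k := k) (e := e) (S := S)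
    (fun p hp => ⟨(hTp p hp).1, (hTd p hp).2.1⟩)
  obtain ⟨Mo', E, hfg', hE, hcom, hreg⟩ := resolve_all hfg
    (by
      refine Set.Finite.subset (Set.Finite.union
        (Set.finite_iUnion fun m : Fin (n + 1) =>
          tame_fin (K := K) (hkm m) ⟨N, hN0, hN m⟩)
        (Set.finite_iUnion fun m : Fin (n + 1) => Set.finite_iUnion fun p : T =>
          haveI := hne m
          wd_fin (K := K) (hTp p.1 p.2).1 (hTd p.1 p.2).1 (hTd p.1 p.2).2.2.2.1 (hkm m)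
            (hdeh p.1 p.2 m) (hct p.1 p.2 m))) ?_
      rintro O ⟨hO, hnr⟩
      have hloc : IsLocalRing O := hO.1
      obtain ⟨m, -, h | ⟨p, hp, i, hi, hW⟩⟩ := mot_cases hx hF hFx hTd' hO
      · left
        exact Set.mem_iUnion.2 ⟨m, hloc, h.1, hTame m O h.2, hnr⟩
      · right
        exact Set.mem_iUnion.2 ⟨m, Set.mem_iUnion.2 ⟨⟨p, hp⟩, hloc, hnr, i, hi, hW⟩⟩)
    (by
      intro O hO hnr Mo1 hfg1 hO1
      have hloc : IsLocalRing O := hO.1
      obtain ⟨m, -, h | ⟨p, hp, i, hi, hW⟩⟩ := mot_cases hx hF hFx hTd' hO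
      · refine tame_resolve ?_ (hkm m) ⟨N, hN0, hN m⟩ h.1 (hTame m O h.2) hnr hfg1 hO1
        have h2 : Fintype.card {i : Fin (n + 1) // i ≠ m} = n := by
          simp [Fintype.card_subtype_compl]
        rw [h2]
        exact hn
      · haveI := hne m
        obtain ⟨hfr, hbl⟩ := wd_blow (hTp p hp).1 (hTd p hp).1 (hTd p hp).2.2.2.1 (hkm m)
          (hdeh p hp m) (hct p hp m) hi hW hnr
        obtain ⟨Mo2, E, hfg2, hE, hcom, hpts⟩ := exists_blow hfg1 hO1 hfr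
        refine ⟨Mo2, E, hfg2, hE, hcom, fun O' hO' => ?_⟩
        rcases hpts O' hO' with h2 | h2
        · exact Or.inr h2
        · exact Or.inl (hbl O' hO'.1 h2))
  exact ⟨Mo', E0 * E, hfg', Nat.mul_pos hE0 hE, Com.step hcom0 hcom, hreg⟩

end Pool.Agent.PW
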