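import Pool.Agent.PW.MoA

set_option autoImplicit false

/-! # MAD: the first model -/

namespace Pool.Agent.PW

open MvPolynomial Pool.Agent.NT9

variable {n : ℕ} {K : Type} [Field K] [CharZero K]

/-- The index set: the prime numbers of the second kind and the exponents `j + 1 = 1, ..., k - 1`. -/
abbrev Ix (T : Finset ℕ) (k : ℕ → ℕ) : Type := Σ p : T, Fin (k p - 1)

/-- The first model. -/
noncomputable def MoT (x : Fin (n + 1) → K) (T : Finset ℕ) (k e : ℕ → ℕ)
    (S : ℕ → MvPolynomial (Fin (n + 1)) ℤ) : Submodule ℤ K :=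
  Mo1 (ι := Ix T k) x (fun t => ((t.1 : ℕ) : ℤ)) (fun t => ((t.2 : ℕ) + 1) * e t.1)
    (fun t => (aeval x (S t.1) / x 0 ^ e t.1) ^ ((t.2 : ℕ) + 1))

end Pool.Agent.PW
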