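import Pool.Agent.PW.OdpDefs
import Pool.Agent.NT9.GeNakA

set_option autoImplicit false

/-! # ODPA: generators of the maximal ideal -/

namespace Pool.Agent.PW

open MvPolynomial Pool.Agent.NT9

variable {τ κ ι : Type} [Fintype τ] [Fintype κ] [Fintype ι] {K : Type} [Field K]

/-- The maximal ideal of `O` is generated by the `x i`. Proof. `y π h = π g` with `h ∉ Q`; `y ∈ mx O` gives `g ∈ Q`. `NT9.Par.gen`: `s g = c0 z + ∑ c_t η_t` with `s ∉ Q`,
`η_t = Sum.elim r x (e.symm t)`; reindex the sum by `e` (`Fintype.sum_equiv`, `Fintype.sum_sum_type`); `π z = π (r k) = 0`, so `π s π g = ∑ π (c_(e (inr i))) π (x i)`; `π s`, `π h`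
are units of `O`. -/
theorem odp_gen {e : κ ⊕ ι ≃ τ} {π : MvPolynomial τ ℤ →+* K} {Q : Ideal (MvPolynomial τ ℤ)}
    [Q.IsMaximal] {z : MvPolynomial τ ℤ} {r : κ → MvPolynomial τ ℤ} {x : ι → MvPolynomial τ ℤ}
    {A : ι → ι → MvPolynomial τ ℤ} {O : Subring K} [IsLocalRing O] (h : Odp e π Q z r x A O) :
    ∀ y ∈ mx O, ∃ c : ι → K, (∀ i, c i ∈ O) ∧ y = ∑ i, c i * π (x i) := by
  intro y hy
  obtain ⟨g, q, hq0, hq, hyq⟩ := h.fr y hy.1
  have hg : g ∈ Q := by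
    rw [h.memQ, ← hyq]
    exact mx_mul_right hy (h.poly q)
  obtain ⟨s, hs, hs2⟩ := h.par.gen
  obtain ⟨c0, c, hc⟩ := hs2 g hg
  have hsm : π s ∉ mx O := fun h1 => hs ((h.memQ s).2 h1)
  rw [notMem_mx_iff (h.poly s)] at hsm
  have h1 : π s * π g = ∑ i, π (c (e (Sum.inr i))) * π (x i) := by
    have h2 := congrArg π hc
    rw [map_mul, map_add, map_mul, h.z0, mul_zero, zero_add, map_sum,
      ← Fintype.sum_equiv e (fun t => π (c (e t) * Sum.elim r x t)) _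
        (fun t => by rw [Equiv.symm_apply_apply]), Fintype.sum_sum_type] at h2
    rw [h2]
    simp only [Sum.elim_inl, Sum.elim_inr, map_mul, h.r0, mul_zero, Finset.sum_const_zero,
      zero_add]
  refine ⟨fun i => (π s)⁻¹ * (π q)⁻¹ * π (c (e (Sum.inr i))), fun i =>
    O.mul_mem (O.mul_mem hsm.2 hq) (h.poly _), ?_⟩
  have h2 : ∑ i, (π s)⁻¹ * (π q)⁻¹ * π (c (e (Sum.inr i))) * π (x i) =
      (π s)⁻¹ * (π q)⁻¹ * (π s * π g) := by
    rw [h1, Finset.mul_sum]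
    exact Finset.sum_congr rfl fun i _ => by ring
  rw [h2, ← hyq]
  have hs0 := hsm.1
  field_simp

/-- `x i ∈ Q`, so `π (x i) ∈ mx O`. -/
theorem odp_mem {e : κ ⊕ ι ≃ τ} {π : MvPolynomial τ ℤ →+* K} {Q : Ideal (MvPolynomial τ ℤ)}
    {z : MvPolynomial τ ℤ} {r : κ → MvPolynomial τ ℤ} {x : ι → MvPolynomial τ ℤ}
    {A : ι → ι → MvPolynomial τ ℤ} {O : Subring K} (h : Odp e π Q z r x A O) (i : ι) :
    π (x i) ∈ mx O := by
  rw [← h.memQ]
  have h1 := h.par.2.1 (e (Sum.inr i))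
  simpa using h1

end Pool.Agent.PW
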