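import Pool.Agent.PW.NoA
import Pool.Agent.QuadAll.Kappa
import Pool.Agent.QuadAll.PNotSq

set_option autoImplicit false

/-! # QDA: adapted quadratic forms at the primes `p ∣ m`: the singular points -/

namespace Pool.Agent.PW

open MvPolynomial Pool.Agent.NT9 Pool.Agent.QuadModel Pool.Agent.QuadAll

variable {n : ℕ}

/-- A singular point of the fibre over `p ∣ m` in the chart `x_c = 1`. Proof. `f = deh c (qpoly (m P + G)) ∈ M ^ 2`, so `f, ∂ f ∈ M`. `L` = residue field, `x i` the class of `X i`, `x c = 1`. As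
`p ∣ m`, `G (x) = 0` and `(G + Gᵀ) x = 0` (for the row `c` use Euler), so `x_k = 0` for `k ≥ 2` (`Adapted.eq_zero_of_singular`), so `c < 2` and `X_k ∈ M`. Then
`G (X) ∈ M ^ 2` (only the variables `X_k`, `k ≥ 2`: `supp`), so `m P ∈ M ^ 2`, `m = p m'`, `p ∤ m'` (`sqfree`): `P ∈ M` (`QuadAll.mem_of_prime_mul_mem_sq`). -/
theorem adapted_point {m : ℤ} {P G : Matrix (Fin (n + 1)) (Fin (n + 1)) ℤ}
    (hA : Adapted m P G) {p : ℕ} (hp : p.Prime) (hpm : (p : ℤ) ∣ m) {c : Fin (n + 1)}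
    {M : Ideal (MvPolynomial {i : Fin (n + 1) // i ≠ c} ℤ)} [M.IsMaximal]
    (hpM : C (p : ℤ) ∈ M) (hf : NH.deh c (qpoly (m • P + G)) ∈ M ^ 2) :
    (c : ℕ) < 2 ∧ (∀ k : {i : Fin (n + 1) // i ≠ c}, 2 ≤ (k.1 : ℕ) → X k ∈ M) ∧
      NH.deh c (qpoly P) ∈ M := by
  classical
  have hMmax : M.IsMaximal := inferInstance
  set D : Matrix (Fin (n + 1)) (Fin (n + 1)) ℤ := m • P + G with hD
  set π : MvPolynomial {i : Fin (n + 1) // i ≠ c} ℤ →+*
    (MvPolynomial {i : Fin (n + 1) // i ≠ c} ℤ ⧸ M) := Ideal.Quotient.mk M with hπ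
  let κ := MvPolynomial {i : Fin (n + 1) // i ≠ c} ℤ ⧸ M
  let _ : Field κ := Ideal.Quotient.field M
  have hp0 : ((p : ℕ) : κ) = 0 := by
    have h1 : π (C (p : ℤ)) = 0 := Ideal.Quotient.eq_zero_iff_mem.2 hpM
    have h2 : (C (p : ℤ) : MvPolynomial {i : Fin (n + 1) // i ≠ c} ℤ) = ((p : ℕ) : _) := by simp
    rw [h2, map_natCast] at h1
    exact h1
  have hchar : CharP κ p := (CharP.charP_iff_prime_eq_zero hp).2 hp0
  have hm0 : ((m : ℤ) : κ) = 0 := (CharP.intCast_eq_zero_iff κ p m).2 hpm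
  let x : Fin (n + 1) → κ := fun i => π (NH.deh c (X i))
  have hxc : x c = 1 := by
    show π (NH.deh c (X c)) = 1
    rw [NH.deh_X_self, map_one]
  have hπe : ∀ g : MvPolynomial (Fin (n + 1)) ℤ,
      π (NH.deh c g) = eval₂ (Int.castRingHom κ) x g := by
    intro g
    have h1 : π.comp (NH.deh c : MvPolynomial (Fin (n + 1)) ℤ →+*
        MvPolynomial {i : Fin (n + 1) // i ≠ c} ℤ) = eval₂Hom (Int.castRingHom κ) x :=
      ringHom_ext (fun r => by simp) (fun j => by simp [x])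
    exact congrArg (fun h : MvPolynomial (Fin (n + 1)) ℤ →+* κ => h g) h1
  have hfM : NH.deh c (qpoly D) ∈ M := Ideal.pow_le_self two_ne_zero hf
  have hder : ∀ i : Fin (n + 1), i ≠ c → π (NH.deh c (pderiv i (qpoly D))) = 0 := by
    intro i hi
    have h1 := derivation_mem (pderiv (⟨i, hi⟩ : {i : Fin (n + 1) // i ≠ c})) M hf
    rw [NH.pderiv_deh] at h1
    exact Ideal.Quotient.eq_zero_iff_mem.2 h1
  have hderc : π (NH.deh c (pderiv c (qpoly D))) = 0 := by
    rw [NH.euler_deh (isHomogeneous_qpoly D), map_sub, map_mul, map_sum]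
    have h1 : π (NH.deh c (qpoly D)) = 0 := Ideal.Quotient.eq_zero_iff_mem.2 hfM
    rw [h1, mul_zero, zero_sub, neg_eq_zero]
    refine Finset.sum_eq_zero fun i _ => ?_
    rw [map_mul, NH.pderiv_deh, hder i.1 i.2, mul_zero]
  have hDG : ∀ i j, ((D i j : ℤ) : κ) = ((G i j : ℤ) : κ) := by
    intro i j
    rw [hD, Matrix.add_apply, Matrix.smul_apply, smul_eq_mul]
    push_cast
    rw [hm0, zero_mul, zero_add]
  have hG0 : ((G + G.transpose).map (Int.cast : ℤ → κ)).mulVec x = 0 := by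
    ext k
    have h1 : π (NH.deh c (pderiv k (qpoly D))) = 0 := by
      by_cases hk : k = c
      · rw [hk]; exact hderc
      · exact hder k hk
    rw [hπe, pderiv_qpoly] at h1
    rw [Pi.zero_apply, ← h1]
    simp only [Matrix.mulVec, dotProduct, Matrix.map_apply, eval₂_sum, eval₂_mul, eval₂_C,
      eval₂_X]
    refine Finset.sum_congr rfl fun j _ => ?_
    rw [eq_intCast, Matrix.add_apply, Matrix.transpose_apply, Matrix.add_apply,
      Matrix.transpose_apply, Int.cast_add, Int.cast_add, hDG, hDG]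
  have hq0 : qf (G.map (Int.cast : ℤ → κ)) x = 0 := by
    have h1 : π (NH.deh c (qpoly D)) = 0 := Ideal.Quotient.eq_zero_iff_mem.2 hfM
    rw [hπe, eval₂_qpoly] at h1
    have h2 : D.map (Int.castRingHom κ) = G.map (Int.cast : ℤ → κ) := by
      ext i j
      rw [Matrix.map_apply, Matrix.map_apply, eq_intCast]
      exact hDG i j
    rw [h2] at h1
    exact h1
  have hx0 : ∀ k : Fin (n + 1), 2 ≤ (k : ℕ) → x k = 0 := fun k hk =>
    hA.eq_zero_of_singular hp hpm x hG0 hq0 k hk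
  have hc2 : (c : ℕ) < 2 := by
    by_contra hcon
    have h1 := hx0 c (by omega)
    rw [hxc] at h1
    exact one_ne_zero h1
  have hXM : ∀ k : {i : Fin (n + 1) // i ≠ c}, 2 ≤ (k.1 : ℕ) → X k ∈ M := by
    intro k hk
    have h1 : π (NH.deh c (X k.1)) = 0 := hx0 k.1 hk
    rw [NH.deh_X] at h1
    exact Ideal.Quotient.eq_zero_iff_mem.1 h1
  refine ⟨hc2, hXM, ?_⟩
  have hGM : NH.deh c (qpoly G) ∈ M ^ 2 := by
    rw [qpoly_eq_sum, map_sum]
    refine Ideal.sum_mem _ fun i _ => ?_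
    rw [map_sum]
    refine Ideal.sum_mem _ fun j _ => ?_
    by_cases h : (i : ℕ) < 2 ∨ (j : ℕ) < 2
    · rw [hA.supp i j h, C_0, zero_mul, zero_mul, map_zero]
      exact Ideal.zero_mem _
    · rw [not_or] at h
      have hi : i ≠ c := fun h' => h.1 (by rw [h']; exact hc2)
      have hj : j ≠ c := fun h' => h.2 (by rw [h']; exact hc2)
      have h1 : NH.deh c (X i) = X ⟨i, hi⟩ := NH.deh_X (⟨i, hi⟩ : {i : Fin (n + 1) // i ≠ c})
      have h2 : NH.deh c (X j) = X ⟨j, hj⟩ := NH.deh_X (⟨j, hj⟩ : {i : Fin (n + 1) // i ≠ c})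
      rw [mul_assoc, map_mul, map_mul, h1, h2, pow_two]
      exact Ideal.mul_mem_left _ _ (Ideal.mul_mem_mul (hXM ⟨i, hi⟩ (not_lt.1 h.1))
        (hXM ⟨j, hj⟩ (not_lt.1 h.2)))
  have hPM : C m * NH.deh c (qpoly P) ∈ M ^ 2 := by
    have h1 : NH.deh c (qpoly D) = C m * NH.deh c (qpoly P) + NH.deh c (qpoly G) := by
      rw [hD, qpoly_add, qpoly_smul, map_add, map_mul]
      congr 2
      rw [← algebraMap_eq, AlgHom.commutes, algebraMap_eq]
    rw [h1] at hf
    have h2 := (M ^ 2).sub_mem hf hGM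
    rwa [add_sub_cancel_right] at h2
  obtain ⟨m', rfl⟩ := hpm
  have hm' : ¬ (p : ℤ) ∣ m' := by
    intro h
    apply hA.sqfree p hp (Dvd.intro _ rfl)
    obtain ⟨m'', rfl⟩ := h
    exact ⟨m'', by ring⟩
  rw [C_mul, mul_assoc] at hPM
  have h3 := mem_of_prime_mul_mem_sq p hp M hpM _ hPM
  rcases hMmax.isPrime.mem_or_mem h3 with h4 | h4
  · exfalso
    obtain ⟨a, b, hab⟩ := (Nat.prime_iff_prime_int.1 hp).coprime_iff_not_dvd.2 hm'
    apply hMmax.ne_top
    rw [Ideal.eq_top_iff_one]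
    have h5 : (1 : MvPolynomial {i : Fin (n + 1) // i ≠ c} ℤ) = C a * C (p : ℤ) + C b * C m' := by
      rw [← C_mul, ← C_mul, ← C_add, hab, C_1]
    rw [h5]
    exact M.add_mem (M.mul_mem_left _ hpM) (M.mul_mem_left _ h4)
  · exact h4

end Pool.Agent.PW
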