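import Pool.Agent.PW.CaC
import Pool.Agent.NT9.GeFrB
import Pool.Agent.NodHyp.Loc

set_option autoImplicit false

/-! # TMA: points over prime numbers of the first kind -/

namespace Pool.Agent.PW

open MvPolynomial Pool.Agent.NT9

variable {σ : Type} [Fintype σ] {K : Type} [Field K]

omit [Fintype σ] in
private theorem TmA_prime {Q : Ideal (MvPolynomial σ ℤ)} (hQ : Q.IsPrime) {N : ℤ} (h0 : N ≠ 0)
    (hN : (C N : MvPolynomial σ ℤ) ∈ Q) : ∃ p : ℕ, p.Prime ∧ (C (p : ℤ) : MvPolynomial σ ℤ) ∈ Q := by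
  have hP : (Q.comap (C : ℤ →+* MvPolynomial σ ℤ)).IsPrime := Ideal.comap_isPrime _ _
  have hbot : Q.comap (C : ℤ →+* MvPolynomial σ ℤ) ≠ ⊥ := by
    intro h
    have h1 : N ∈ Q.comap (C : ℤ →+* MvPolynomial σ ℤ) := hN
    rw [h, Ideal.mem_bot] at h1
    exact h0 h1
  have h2 := Submodule.IsPrincipal.prime_generator_of_isPrime _ hbot
  have h3 := Submodule.IsPrincipal.generator_mem (Q.comap (C : ℤ →+* MvPolynomial σ ℤ))
  set g := Submodule.IsPrincipal.generator (Q.comap (C : ℤ →+* MvPolynomial σ ℤ))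
  refine ⟨g.natAbs, Int.prime_iff_natAbs_prime.1 h2, ?_⟩
  have h4 : ((g.natAbs : ℕ) : ℤ) ∈ Q.comap (C : ℤ →+* MvPolynomial σ ℤ) := by
    rcases Int.natAbs_eq g with h | h
    · rw [← h]; exact h3
    · have : ((g.natAbs : ℕ) : ℤ) = -g := by omega
      rw [this]
      exact neg_mem h3
  exact h4

/-- A point which is not regular. Compare `NT9.nonreg_point`. Proof. `q = NT9.pre O θ`, prime; `f ∈ q`. If for all `a`, `a f ∈ q ^ 2 → a ∈ q`, then `O` is regular: `NH.regular_of_pres`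
with the single relation `f`. So `a f ∈ q ^ 2` for some `a ∉ q`; `∂_i (a f) ∈ q`, so `∂_i f ∈ q`; by `hN` an integer `N ≠ 0` is in `q`, so a prime number `p`; `TameL f p` holds. Every maximal ideal
`M ⊇ q` with `a ∉ M` satisfies `f ∈ M ^ 2` (`a a' - 1 ∈ M`), so there are finitely many: `q` is maximal by `max_of_finite`. Then `f ∈ q ^ 2` (`1 - a a' ∈ q`). -/
theorem tame_point {f : MvPolynomial σ ℤ} {θ : MvPolynomial σ ℤ →+* K}
    (hker : RingHom.ker θ = Ideal.span {f})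
    (hN : ∃ N : ℤ, N ≠ 0 ∧ (C N : MvPolynomial σ ℤ) ∈
      Ideal.span {f} ⊔ Ideal.span (Set.range fun i => pderiv i f)) {O : Subring K}
    [IsLocalRing O] (hfr : IsFr θ.range O)
    (hT : ∀ p : ℕ, p.Prime → (p : K) ∈ mx O → TameL f p) (hnr : ¬ IsRegularLocalRing O) :
    ∃ (q : Ideal (MvPolynomial σ ℤ)) (p : ℕ), q.IsMaximal ∧ (∀ h, h ∈ q ↔ θ h ∈ mx O) ∧
      p.Prime ∧ (C (p : ℤ) : MvPolynomial σ ℤ) ∈ q ∧ f ∈ q ^ 2 := by
  classical
  have hθO : ∀ h, θ h ∈ O := fun h => hfr.1 ⟨h, rfl⟩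
  set q := pre O θ hθO with hq
  have hqp : q.IsPrime := pre_isPrime θ hθO
  have hmem : ∀ h, h ∈ q ↔ θ h ∈ mx O := fun h => mem_pre θ hθO h
  have hθf : θ f = 0 := by
    rw [← RingHom.mem_ker, hker]
    exact Ideal.subset_span rfl
  have hfq : f ∈ q := by
    rw [hmem, hθf]
    exact zero_mem_mx
  have hex : ∃ a, a * f ∈ q ^ 2 ∧ a ∉ q := by
    by_contra hcon
    push Not at hcon
    apply hnr
    refine NH.regular_of_pres O θ hθO ?_ (fun _ : Unit => f) (fun _ => hθf) 1 ?_ ?_ ?_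
    · intro x hx
      obtain ⟨u, ⟨u', rfl⟩, v, ⟨v', rfl⟩, h1, h2, h3⟩ := hfr.2 x hx
      exact ⟨u', v', h1, h2, h3⟩
    · rw [map_one]
      exact one_ne_zero
    · intro t ht
      refine ⟨0, ?_⟩
      rw [pow_zero, one_mul, Set.range_const]
      rw [← hker, RingHom.mem_ker]
      exact ht
    · intro P hP hPO a ha i
      have hPq : P = q := by
        ext t
        rw [hPO, hmem]
        unfold mx
        rw [Set.mem_ofPred_eq]
        exact ⟨fun h => ⟨hθO t, h⟩, fun h => h.2⟩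
      rw [hPq] at ha ⊢
      have h1 : a () * f ∈ q ^ 2 := by simpa using ha
      cases i
      exact hcon _ h1
  obtain ⟨a, ha, haq⟩ := hex
  have hder : ∀ x ∈ q ^ 2, ∀ i, pderiv i x ∈ q := by
    intro x hx i
    rw [pow_two] at hx
    refine Submodule.mul_induction_on hx ?_ ?_
    · intro m hm n hn
      rw [Derivation.leibniz]
      exact Ideal.add_mem _ (Ideal.mul_mem_right _ _ hm) (Ideal.mul_mem_right _ _ hn)
    · intro x y hx hy
      rw [map_add]
      exact Ideal.add_mem _ hx hy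
  have hdq : ∀ i, pderiv i f ∈ q := by
    intro i
    have h1 := hder _ ha i
    rw [Derivation.leibniz, smul_eq_mul, smul_eq_mul] at h1
    have h2 : a * pderiv i f ∈ q := by
      have h3 := Ideal.sub_mem _ h1 (Ideal.mul_mem_right (pderiv i a) _ hfq)
      rwa [add_sub_cancel_right] at h3
    exact (hqp.mem_or_mem h2).resolve_left haq
  have hIq : Ideal.span {f} ⊔ Ideal.span (Set.range fun i => pderiv i f) ≤ q := by
    refine sup_le ?_ ?_
    · rw [Ideal.span_le]
      rintro _ rfl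
      exact hfq
    · rw [Ideal.span_le]
      rintro _ ⟨i, rfl⟩
      exact hdq i
  obtain ⟨N, hN0, hN1⟩ := hN
  obtain ⟨p, hp, hpq⟩ := TmA_prime hqp hN0 (hIq hN1)
  have hpK : (p : K) ∈ mx O := by
    have h1 := (hmem _).1 hpq
    have h2 : θ (C (p : ℤ)) = (p : K) := by
      have h3 : (θ.comp (C : ℤ →+* MvPolynomial σ ℤ)) (p : ℤ) = ((p : ℤ) : K) := eq_intCast _ _
      rw [RingHom.comp_apply] at h3
      rw [h3, Int.cast_natCast]
    rwa [h2] at h1
  have hTp := hT p hp hpK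
  have key : ∀ M : Ideal (MvPolynomial σ ℤ), M.IsMaximal → q ≤ M → a ∉ M → f ∈ M ^ 2 := by
    intro M hM hqM haM
    obtain ⟨a', c, hc, h⟩ := hM.exists_inv haM
    have ha' : 1 - a * a' ∈ M := by
      have : 1 - a * a' = c := by rw [← h]; ring
      rw [this]
      exact hc
    have e : f = (1 - a * a') * f + a' * (a * f) := by ring
    have h2 : a * f ∈ M * M := by
      rw [← pow_two]
      exact Ideal.pow_right_mono hqM 2 ha
    rw [e, pow_two]
    exact Ideal.add_mem _ (Ideal.mul_mem_mul ha' (hqM hfq)) (Ideal.mul_mem_left _ _ h2)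
  have hqmax : q.IsMaximal := by
    refine max_of_finite haq (hTp.1.subset ?_)
    rintro M ⟨hM, hqM, haM⟩
    exact ⟨hM, hqM hpq, key M hM hqM haM⟩
  exact ⟨q, p, hqmax, hmem, hp, hpq, key q hqmax le_rfl haq⟩

end Pool.Agent.PW
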