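import Pool.Agent.PW.TmA
import Pool.Agent.NT9.GeBaseB
import Pool.Agent.NT9.GeBlowB
import Pool.Agent.NT9.GeResA
import Pool.Agent.NT9.GeStepC

set_option autoImplicit false

/-! # TMB: the first stage -/

namespace Pool.Agent.PW

open MvPolynomial Pool.Agent.NT9

variable {σ : Type} [Fintype σ] {K : Type} [Field K]

private theorem TmB_main {f : MvPolynomial σ ℤ} {θ : MvPolynomial σ ℤ →+* K}
    (hker : RingHom.ker θ = Ideal.span {f}) {M : Ideal (MvPolynomial σ ℤ)} [M.IsMaximal] {p : ℕ}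
    (hp : p.Prime) (hpM : (C (p : ℤ) : MvPolynomial σ ℤ) ∈ M) (hf : f ∈ M ^ 2)
    {O : Subring K} [IsLocalRing O] (hM : ∀ h ∈ M, θ h ∈ mx O)
    (hfr : IsFr θ.range O) (z : MvPolynomial σ ℤ) (η : σ → MvPolynomial σ ℤ) (hpar : Par M z η) :
    Stage θ M z η 0 O := by
  have hθO : ∀ h, θ h ∈ O := fun h => hfr.1 ⟨h, rfl⟩
  refine ⟨hpar, ?_, hθO, hM, ?_, ?_⟩
  · intro h0
    have h1 : z ∈ Ideal.span {f} := by
      rw [← hker, RingHom.mem_ker]
      exact h0
    have h2 : z ∈ M ^ 2 := by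
      have hle : Ideal.span {f} ≤ M ^ 2 := by
        rw [Ideal.span_le]
        rintro _ rfl
        exact hf
      exact hle h1
    have h3 := cot_indep0 hp hpM hpar (α := 1) (β := fun _ => 0) (by
      simpa using h2)
    exact (‹M.IsMaximal›.ne_top) ((Ideal.eq_top_iff_one _).2 h3.1)
  · intro i
    rw [pow_zero, div_one]
    exact hM _ (hpar.2.1 i)
  · have e : Subring.closure (Set.range θ ∪ Set.range fun i => θ (η i) / θ z ^ 0) = θ.range := by
      apply le_antisymm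
      · rw [Subring.closure_le]
        rintro x (⟨y, rfl⟩ | ⟨i, rfl⟩)
        · exact ⟨y, rfl⟩
        · exact ⟨η i, by simp⟩
      · rintro _ ⟨y, rfl⟩
        exact Subring.subset_closure (Or.inl ⟨y, rfl⟩)
    rw [e]
    exact hfr

/-- The first stage, smooth tangent cone: as in `NT9.init_stage` (`NT9.vform_of_tv`; `θ z ≠ 0` by `NT9.cot_indep0`). -/
theorem init_tv {f : MvPolynomial σ ℤ} {θ : MvPolynomial σ ℤ →+* K}
    (hker : RingHom.ker θ = Ideal.span {f}) {M : Ideal (MvPolynomial σ ℤ)} [M.IsMaximal] {p : ℕ}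
    (hp : p.Prime) (hpM : (C (p : ℤ) : MvPolynomial σ ℤ) ∈ M) (hf : f ∈ M ^ 2)
    (hT : TV f M) {O : Subring K} [IsLocalRing O] (hM : ∀ h ∈ M, θ h ∈ mx O)
    (hfr : IsFr θ.range O) :
    ∃ (z : MvPolynomial σ ℤ) (η : σ → MvPolynomial σ ℤ), Stage θ M z η 0 O ∧
      VForm f M z η := by
  obtain ⟨z, η, hpar, h1⟩ := vform_of_tv hT
  exact ⟨z, η, TmB_main hker hp hpM hf hM hfr z η hpar, h1⟩

/-- The first stage, smooth hyperplane section: as in `NT9.init_stage` (`NT9.bform_zero`). -/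
theorem init_tz {f : MvPolynomial σ ℤ} {θ : MvPolynomial σ ℤ →+* K}
    (hker : RingHom.ker θ = Ideal.span {f}) {M : Ideal (MvPolynomial σ ℤ)} [M.IsMaximal] {p : ℕ}
    (hp : p.Prime) (hpM : (C (p : ℤ) : MvPolynomial σ ℤ) ∈ M) (hf : f ∈ M ^ 2)
    (hT : TZ f M) {O : Subring K} [IsLocalRing O] (hM : ∀ h ∈ M, θ h ∈ mx O)
    (hfr : IsFr θ.range O) :
    ∃ (z : MvPolynomial σ ℤ) (η : σ → MvPolynomial σ ℤ), Stage θ M z η 0 O ∧
      BForm f M z η 0 := by
  obtain ⟨z, η, a, hpar, h1, ha⟩ := hT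
  exact ⟨z, η, TmB_main hker hp hpM hf hM hfr z η hpar, bform_zero hpar h1 ha⟩

end Pool.Agent.PW
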