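import Pool.Agent.PW.CtA
import Pool.Agent.PW.CtB
import Pool.Agent.PW.CtC
import Pool.Agent.PW.CtI
import Pool.Agent.PW.WdA
import Pool.Agent.PW.WdB
import Pool.Agent.PW.WdC
import Pool.Agent.NT9.GeFrB

set_option autoImplicit false

/-! # WDD: the local rings over a prime number of the second kind: summary -/

namespace Pool.Agent.PW

open MvPolynomial Pool.Agent.NT9

variable {σ : Type} [Fintype σ] [DecidableEq σ] {s w : MvPolynomial σ ℤ} {u : ℤ} {p k : ℕ}
  {K : Type} [Field K] {θ : MvPolynomial σ ℤ →+* K}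

/-- Contact data at all contact points, chosen once. Proof: `ct_exists`, `ct_jac`, `ct_max`, `cform_pre`, `cform_sm`, `cform_l`, choice. -/
theorem ct_data [Nonempty σ] (hp : p.Prime) (h : CtL s w p k) :
    ∃ (c : Ideal (MvPolynomial σ ℤ) → σ) (D l β : Ideal (MvPolynomial σ ℤ) → MvPolynomial σ ℤ)
      (q : ∀ M : Ideal (MvPolynomial σ ℤ), {j : σ // j ≠ c M} → {j : σ // j ≠ c M} →
        MvPolynomial σ ℤ), ∀ M, IsCt s w p M → M.IsMaximal ∧ pderiv (c M) s ∉ M ∧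
        Jac M (ctη s w (c M)) ∧ CForm s w p M (c M) (D M) (l M) (β M) (q M) ∧
        (k = 2 → p = 2) := by
  have key : ∀ M : Ideal (MvPolynomial σ ℤ), ∃ (c : σ) (D l β : MvPolynomial σ ℤ)
      (q : {j : σ // j ≠ c} → {j : σ // j ≠ c} → MvPolynomial σ ℤ),
      IsCt s w p M → M.IsMaximal ∧ pderiv c s ∉ M ∧
        Jac M (ctη s w c) ∧ CForm s w p M c D l β q ∧ (k = 2 → p = 2) := by
    intro M
    by_cases hM : IsCt s w p M
    · obtain ⟨c, hc⟩ := ct_exists h hM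
      have hJ := ct_jac h hM hc
      have hmax : M.IsMaximal := ct_max hp h hM
      obtain ⟨D, l0, l, β, q, hD, hl0, hl, heq⟩ := cform_pre hp h hM hc
      have hsm := cform_sm h hM hJ hD hl0 hl heq
      obtain ⟨hl1, hk2⟩ := cform_l h hM hD hl0 hl
      exact ⟨c, D, l, β, q, fun _ => ⟨hmax, hc, hJ, ⟨hD, hl1, hsm, heq⟩, hk2⟩⟩
    · exact ⟨Classical.arbitrary σ, 0, 0, 0, fun _ _ => 0, fun h => absurd h hM⟩
  choose c D l β q hq using key
  exact ⟨c, D, l, β, q, hq⟩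

/-- A point is regular or of type A or B over a contact point. Proof. `Q` = preimage of `mx O` under `pi0 θ a b`, prime, contains `C p` and the relations; `q = Q.comap jl`. If `Q` satisfies
the independence (`Wd.regular`) then `O` is regular; so by `ind_unit` `w ∈ q`, by `ind_tr` all minors are in `q`, `s ∈ q` (`rel_ab`): `IsCt s w p q`; `ind_ct` for `M = q`. -/
theorem wd_cases (hp : p.Prime) (hk : 2 ≤ k) (hu : ¬ (p : ℤ) ∣ u) {f : MvPolynomial σ ℤ}
    (hker : RingHom.ker θ = Ideal.span {f}) (hf : f = C u * s ^ k + C (p : ℤ) * w)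
    {c : Ideal (MvPolynomial σ ℤ) → σ} {D l β : Ideal (MvPolynomial σ ℤ) → MvPolynomial σ ℤ}
    {q : ∀ M : Ideal (MvPolynomial σ ℤ), {j : σ // j ≠ c M} → {j : σ // j ≠ c M} →
        MvPolynomial σ ℤ}
    (hd : ∀ M, IsCt s w p M → M.IsMaximal ∧ pderiv (c M) s ∉ M ∧
        Jac M (ctη s w (c M)) ∧ CForm s w p M (c M) (D M) (l M) (β M) (q M) ∧
        (k = 2 → p = 2)) {i : ℕ} (hi : i < k) {a b : K} {O : Subring K} [IsLocalRing O]
    (h : Wd θ s w u p k i a b O) (hnr : ¬ IsRegularLocalRing O) :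
    ∃ (M : Ideal (MvPolynomial σ ℤ)) (Q : Ideal (MvPolynomial (V0 σ) ℤ)), IsCt s w p M ∧
      Q.IsPrime ∧ (∀ t, t ∈ Q ↔ pi0 θ a b t ∈ mx O) ∧
      (TypeA M (D M) (l M) (β M) u k i Q ∨ TypeB M (D M) (l M) (β M) u k i Q) := by
  by_contra hcon
  apply hnr
  refine Wd.regular hker hf hi h ?_
  intro Q hQ hQm g hg
  have hpQ : (C (p : ℤ) : MvPolynomial (V0 σ) ℤ) ∈ Q := by
    rw [hQm]
    have h1 : pi0 θ a b (C (p : ℤ)) = (p : K) := by simp [pi0]
    rw [h1]
    exact h.pmx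
  have hrel : ∀ j, rel0 s w u p k i j ∈ Q := by
    intro j
    rw [hQm, h.rel j]
    exact zero_mem_mx
  obtain ⟨-, hs⟩ := rel_ab hpQ hrel
  by_cases hw : jl w ∈ Q
  · by_cases hm : ∀ c' b', jl (vm s w c' b') ∈ Q
    · let M : Ideal (MvPolynomial σ ℤ) := Q.comap (rename Sum.inl : MvPolynomial σ ℤ →ₐ[ℤ] _)
      have hMQ : ∀ m ∈ M, jl m ∈ Q := fun m hm => hm
      have hM : IsCt s w p M := by
        refine ⟨Ideal.comap_isPrime _ _, ?_, hs, hw, fun c' b' => hm c' b'⟩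
        change rename Sum.inl (C (p : ℤ)) ∈ Q
        rw [rename_C]
        exact hpQ
      obtain ⟨hmax, hc, -, hcf, -⟩ := hd M hM
      refine ind_ct hp hk hi hu hpQ hrel hMQ hM hc hcf ?_ ?_ g hg
      · intro hA
        exact hcon ⟨M, Q, hM, hQ, hQm, Or.inl hA⟩
      · intro hB
        exact hcon ⟨M, Q, hM, hQ, hQm, Or.inr hB⟩
    · push Not at hm
      obtain ⟨c', b', hm⟩ := hm
      exact ind_tr hp hi hpQ hrel hm g hg
  · exact ind_unit hp hk hi hpQ hrel hw g hg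

end Pool.Agent.PW
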